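import Mathlib
import Pool.Agent.Lib.MP_f7f352_co.UStat

-- part Pool.Agent.Lib.MP_f7f352_co.SX.Defs
section

set_option autoImplicit false

namespace Pool.Agent.Lib.MP_f7f352_co.SX

open Finset Polynomial Pool.Agent.Lib.MP_f7f352_co.U

section graphs
variable {ι : Type} [Fintype ι] [DecidableEq ι]

open Classical in
/-- the edges as two element sets -/
noncomputable def edg (Γ : SimpleGraph ι) : Finset (Finset ι) :=
  univ.filter fun I => ∃ u v, Γ.Adj u v ∧ I = {u, v}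

lemma mem_edg {Γ : SimpleGraph ι} {I : Finset ι} :
    I ∈ edg Γ ↔ ∃ u v, Γ.Adj u v ∧ I = {u, v} := by
  simp [edg]

lemma card_of_mem_edg {Γ : SimpleGraph ι} {I : Finset ι} (h : I ∈ edg Γ) : I.card = 2 := by
  obtain ⟨u, v, huv, rfl⟩ := mem_edg.1 h
  exact card_pair huv.ne

/-- number of matchings with `k` edges -/
noncomputable def mnum (Γ : SimpleGraph ι) (k : ℕ) : ℕ := (pk (edg Γ) k).card

/-- matching generating polynomial of the subgraph induced on `U` -/
noncomputable def mu (Γ : SimpleGraph ι) (U : Finset ι) : ℝ[X] :=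
  ∑ M ∈ (pack (edg Γ)).filter (fun M => M.biUnion id ⊆ U), X ^ M.card

open Classical in
/-- neighbours of `v` inside `U` -/
noncomputable def nbr (Γ : SimpleGraph ι) (U : Finset ι) (v : ι) : Finset ι :=
  U.filter fun u => Γ.Adj v u

lemma mem_nbr {Γ : SimpleGraph ι} {U : Finset ι} {v u : ι} :
    u ∈ nbr Γ U v ↔ u ∈ U ∧ Γ.Adj v u := by
  simp [nbr]

/-- `G` is the complement of: a triangle for each vertex of `Γ`, `b` further disjoint edges,
and a copy of `Γ` on one chosen vertex (the port) of each triangle -/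
structure Pres {V : Type} [Fintype V] [DecidableEq V] (G : SimpleGraph V) (Γ : SimpleGraph ι)
    (b : ℕ) (cls : V → ι ⊕ Fin b) (port : ι → V) : Prop where
  three : ∀ i, (cl cls (Sum.inl i)).card = 3
  two : ∀ j, (cl cls (Sum.inr j)).card = 2
  cls_port : ∀ i, cls (port i) = Sum.inl i
  adj : ∀ u v, G.Adj u v ↔ cls u ≠ cls v ∧ ¬ ∃ i j, Γ.Adj i j ∧ u = port i ∧ v = port j

end graphs

/-- classes of the model graph -/
def mcls (ι : Type) (b : ℕ) : (ι × Fin 3) ⊕ (Fin b × Fin 2) → ι ⊕ Fin b :=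
  Sum.map Prod.fst Prod.fst

/-- the model graph -/
def model {ι : Type} (Γ : SimpleGraph ι) (b : ℕ) :
    SimpleGraph ((ι × Fin 3) ⊕ (Fin b × Fin 2)) where
  Adj u v := mcls ι b u ≠ mcls ι b v ∧
    ¬ ∃ i j, Γ.Adj i j ∧ u = Sum.inl (i, 0) ∧ v = Sum.inl (j, 0)
  symm := ⟨fun _ _ h => ⟨h.1.symm, fun ⟨i, j, h1, h2, h3⟩ => h.2 ⟨j, i, h1.symm, h3, h2⟩⟩⟩
  loopless := ⟨fun _ h => h.1 rfl⟩

/-- non-attacking rook placements -/
def IsM (M : Finset (ℕ × ℕ)) : Prop := ∀ e ∈ M, ∀ f ∈ M, (e.1 = f.1 ∨ e.2 = f.2) → e = f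

instance : DecidablePred IsM := fun M => by unfold IsM; infer_instance

/-- rook placements on a board -/
def mat (B : Finset (ℕ × ℕ)) : Finset (Finset (ℕ × ℕ)) := B.powerset.filter IsM

lemma mem_mat {B M : Finset (ℕ × ℕ)} : M ∈ mat B ↔ M ⊆ B ∧ IsM M := by
  simp [mat]

/-- rook numbers -/
def rk (B : Finset (ℕ × ℕ)) (k : ℕ) : ℕ := ((mat B).filter fun M => M.card = k).card

/-- rows used -/
def rows (M : Finset (ℕ × ℕ)) : Finset ℕ := M.image Prod.fst

/-- columns used -/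
def cols (M : Finset (ℕ × ℕ)) : Finset ℕ := M.image Prod.snd

lemma mem_rows {M : Finset (ℕ × ℕ)} {i : ℕ} : i ∈ rows M ↔ ∃ e ∈ M, e.1 = i := by
  simp only [rows, mem_image]

lemma mem_cols {M : Finset (ℕ × ℕ)} {j : ℕ} : j ∈ cols M ↔ ∃ e ∈ M, e.2 = j := by
  simp only [cols, mem_image]

lemma IsM.card_rows {M : Finset (ℕ × ℕ)} (h : IsM M) : (rows M).card = M.card :=
  card_image_of_injOn fun e he f hf hef => h e he f hf (Or.inl hef)

lemma IsM.card_cols {M : Finset (ℕ × ℕ)} (h : IsM M) : (cols M).card = M.card :=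
  card_image_of_injOn fun e he f hf hef => h e he f hf (Or.inr hef)

lemma IsM.mono {M N : Finset (ℕ × ℕ)} (h : IsM N) (hs : M ⊆ N) : IsM M :=
  fun e he f hf => h e (hs he) f (hs hf)

lemma empty_mem_mat (B : Finset (ℕ × ℕ)) : ∅ ∈ mat B := by
  simp [mem_mat, IsM]

lemma mat_mono {B B' : Finset (ℕ × ℕ)} (h : B ⊆ B') : mat B ⊆ mat B' := fun _ hM =>
  mem_mat.2 ⟨(mem_mat.1 hM).1.trans h, (mem_mat.1 hM).2⟩

/-- the cells of `B` not attacked by `M` -/
def off (B M : Finset (ℕ × ℕ)) : Finset (ℕ × ℕ) :=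
  B.filter fun e => ∀ m ∈ M, e.1 ≠ m.1 ∧ e.2 ≠ m.2

lemma mem_off {B M : Finset (ℕ × ℕ)} {e : ℕ × ℕ} :
    e ∈ off B M ↔ e ∈ B ∧ ∀ m ∈ M, e.1 ≠ m.1 ∧ e.2 ≠ m.2 := by
  simp only [off, mem_filter]

/-- put a rook on `f` and remove the rooks of `M` it attacks -/
def sw (M : Finset (ℕ × ℕ)) (f : ℕ × ℕ) : Finset (ℕ × ℕ) := insert f (off M {f})

/-- the full board -/
def box (a b : ℕ) : Finset (ℕ × ℕ) := range a ×ˢ range b

lemma mem_box {a b : ℕ} {e : ℕ × ℕ} : e ∈ box a b ↔ e.1 < a ∧ e.2 < b := by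
  simp [box]

/-- the complement of the staircase -/
def fer (a b : ℕ) : Finset (ℕ × ℕ) := (box a b).filter fun e => a ≤ e.1 + e.2

lemma mem_fer {a b : ℕ} {e : ℕ × ℕ} : e ∈ fer a b ↔ (e.1 < a ∧ e.2 < b) ∧ a ≤ e.1 + e.2 := by
  simp [fer, mem_box]

/-- the staircase without its diagonal -/
def st (a : ℕ) : Finset (ℕ × ℕ) := (box a a).filter fun e => e.1 + e.2 + 1 < a

lemma mem_st {a : ℕ} {e : ℕ × ℕ} : e ∈ st a ↔ e.1 + e.2 + 1 < a := by
  simp only [st, mem_filter, mem_box]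
  omega

/-- the bipartite graph of a board -/
def bip (a b : ℕ) (B : Finset (ℕ × ℕ)) : SimpleGraph (Fin a ⊕ Fin b) where
  Adj u v := ∃ (i : Fin a) (j : Fin b), ((i : ℕ), (j : ℕ)) ∈ B ∧
    ((u = Sum.inl i ∧ v = Sum.inr j) ∨ (u = Sum.inr j ∧ v = Sum.inl i))
  symm := ⟨fun _ _ ⟨i, j, h1, h2⟩ => ⟨i, j, h1, by tauto⟩⟩
  loopless := ⟨fun _ ⟨i, j, _, h2⟩ => by rcases h2 with ⟨rfl, h⟩ | ⟨rfl, h⟩ <;> simp at h⟩

section ring
variable {S : Type} [CommRing S]

/-- falling factorial -/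
def ff (x : S) (n : ℕ) : S := ∏ i ∈ range n, (x - (i : S))

/-- factorial rook polynomial -/
def Phi (B : Finset (ℕ × ℕ)) (a : ℕ) (x : S) : S := ∑ M ∈ mat B, ff x (a - M.card)

end ring

/-- depths of the points below `σ` outside `A` -/
def hd (σ : ℕ) (A : Finset ℕ) : Multiset ℕ :=
  (range σ \ A).val.map fun p => (A.filter fun a => a < p).card

/-- all depths of a rook placement -/
def dep (σ K : ℕ) (M : Finset (ℕ × ℕ)) : Multiset ℕ :=
  (range M.card).val + hd σ (rows M) + hd σ (cols M) + Multiset.replicate K M.card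

section ring
variable {S : Type} [CommRing S]

/-- weight of a rook placement -/
def wt (σ K : ℕ) (M : Finset (ℕ × ℕ)) (y : S) : S :=
  ((dep σ K M).map fun d : ℕ => y + (d : S)).prod

/-- total weight -/
def FF (σ K : ℕ) (R : Finset (ℕ × ℕ)) (y : S) : S := ∑ M ∈ mat R, wt σ K M y

lemma map_wt {S' : Type} [CommRing S'] (φ : S →+* S') (σ K : ℕ) (M : Finset (ℕ × ℕ)) (y : S) :
    φ (wt σ K M y) = wt σ K M (φ y) := by
  simp only [wt, map_multiset_prod, Multiset.map_map, Function.comp_def, map_add, map_natCast]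

lemma map_FF {S' : Type} [CommRing S'] (φ : S →+* S') (σ K : ℕ) (R : Finset (ℕ × ℕ)) (y : S) :
    φ (FF σ K R y) = FF σ K R (φ y) := by
  simp only [FF, map_sum, map_wt]

end ring

lemma FF_real {σ K : ℕ} {R R' : Finset (ℕ × ℕ)} (h : ∀ y : ℂ, FF σ K R' y = FF σ K R y)
    (y : ℝ) : FF σ K R' y = FF σ K R y := by
  apply Complex.ofReal_injective
  have h1 := map_FF Complex.ofRealHom σ K R' y
  have h2 := map_FF Complex.ofRealHom σ K R y
  simp only [Complex.ofRealHom_eq_coe] at h1 h2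
  rw [h1, h2, h]

lemma FF_int {σ K : ℕ} {R R' : Finset (ℕ × ℕ)} (h : ∀ y : ℂ, FF σ K R' y = FF σ K R y)
    (y : ℤ) : FF σ K R' y = FF σ K R y := by
  apply (Int.cast_injective (α := ℂ))
  have h1 := map_FF (Int.castRingHom ℂ) σ K R' y
  have h2 := map_FF (Int.castRingHom ℂ) σ K R y
  simp only [eq_intCast] at h1 h2
  rw [h1, h2, h]

/-- the linear factor of deficit `k` -/
noncomputable def lam (k : ℕ) : ℤ[X] := C (k : ℤ) * X - C ((k : ℤ) - 1)

/-- the normalised weight as a polynomial -/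
noncomputable def Pz (r : ℕ) (D : Multiset ℕ) : ℤ[X] := (D.map fun d => lam (r - d)).prod

/-- the first order terms -/
noncomputable def Q1 (σ K r : ℕ) (R Ms : Finset (ℕ × ℕ)) : ℤ[X] :=
  ∑ f ∈ R \ Ms, Pz r (dep σ K (sw Ms f))

/-- a maximum placement near the corner -/
structure Core (σ r P : ℕ) (R Ms : Finset (ℕ × ℕ)) : Prop where
  sub : R ⊆ box σ σ
  mem : Ms ∈ mat R
  card : Ms.card = r
  small : ∀ e ∈ Ms, e.1 ≤ P ∧ e.2 ≤ P
  nu : ∀ M ∈ mat R, M.card ≤ r

/-- the other lines are far -/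
structure Pre (σ r P J : ℕ) (R Ms : Finset (ℕ × ℕ)) : Prop extends Core σ r P R Ms where
  uniq : ∀ M ∈ mat R, M.card = r → rows M = rows Ms → cols M = cols Ms → M = Ms
  far : ∀ e ∈ R, (e.1 ∈ rows Ms ∧ e.2 ∈ cols Ms) ∨ (e.1 ∈ rows Ms ∧ e.2 ∉ cols Ms ∧ J ≤ e.2) ∨
    (e.2 ∈ cols Ms ∧ e.1 ∉ rows Ms ∧ J ≤ e.1)

/-- all other cells are far -/
structure Shape (σ r P J : ℕ) (R Ms : Finset (ℕ × ℕ)) : Prop extends Pre σ r P J R Ms where
  near : ∀ e ∈ R, e.1 ∈ rows Ms → e.2 ∈ cols Ms → e ∈ Ms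

/-- size conditions -/
structure Par (r l E K : ℕ) : Prop where
  hr : 100 ≤ r
  hl : 1 ≤ l
  hE : 300 * r ^ 6 * l ^ 3 ≤ E
  hK : 50 * E ≤ K
  hT : 50 * E + K ≤ 2 ^ l

/-- the reference placement -/
def M0 (r : ℕ) : Finset (ℕ × ℕ) := (range r).image fun l => (l * (2 * r), (r - 1 - l) * (2 * r))

/-- the cells that carry the free bits -/
def data (h E : ℕ) : Finset (ℕ × ℕ) :=
  ((Ico h (2 * h)).image fun l => l * (2 * (2 * h))) ×ˢ Ico (20 * E) (22 * E)

/-- the far cells in rows -/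
def fa (h E : ℕ) (F : Finset (ℕ × ℕ)) : Finset (ℕ × ℕ) :=
  insert ((2 * h - 1) * (2 * (2 * h)), 24 * E) F

/-- the symmetric board built from a set `F` of data cells -/
def tgt (h E : ℕ) (F : Finset (ℕ × ℕ)) : Finset (ℕ × ℕ) :=
  M0 (2 * h) ∪ (fa h E F ∪ (fa h E F).image Prod.swap)

end Pool.Agent.Lib.MP_f7f352_co.SX
end

-- part Pool.Agent.Lib.MP_f7f352_co.SX.D1
section

set_option autoImplicit false

namespace Pool.Agent.Lib.MP_f7f352_co.SX

open Finset Polynomial Pool.Agent.Lib.MP_f7f352_co.U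

variable {σ K r P J : ℕ} {R Ms M : Finset (ℕ × ℕ)}

lemma card_hd {A : Finset ℕ} (hA : A ⊆ range σ) : Multiset.card (hd σ A) = σ - A.card := by
  rw [hd, Multiset.card_map, card_val, card_sdiff_of_subset hA, card_range]

lemma hd_le {A : Finset ℕ} {d : ℕ} (h : d ∈ hd σ A) : d ≤ A.card := by
  obtain ⟨p, _, rfl⟩ := Multiset.mem_map.1 h
  exact card_filter_le _ _

lemma d1_rows_sub (hM : M ∈ mat (box σ σ)) : rows M ⊆ range σ := by
  intro i hi
  obtain ⟨e, he, rfl⟩ := mem_rows.1 hi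
  exact mem_range.2 (mem_box.1 ((mem_mat.1 hM).1 he)).1

lemma d1_cols_sub (hM : M ∈ mat (box σ σ)) : cols M ⊆ range σ := by
  intro i hi
  obtain ⟨e, he, rfl⟩ := mem_cols.1 hi
  exact mem_range.2 (mem_box.1 ((mem_mat.1 hM).1 he)).2

lemma d1_card_le (hM : M ∈ mat (box σ σ)) : M.card ≤ σ := by
  have h1 := card_le_card (d1_rows_sub hM)
  rwa [(mem_mat.1 hM).2.card_rows, card_range] at h1

lemma card_dep (hM : M ∈ mat (box σ σ)) :
    Multiset.card (dep σ K M) + M.card = 2 * σ + K := by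
  have h1 := d1_rows_sub hM
  have h2 := d1_cols_sub hM
  have h3 := d1_card_le hM
  have hI := (mem_mat.1 hM).2
  simp only [dep, Multiset.card_add, card_val, card_range, Multiset.card_replicate,
    card_hd h1, card_hd h2, hI.card_rows, hI.card_cols]
  omega

lemma dep_le {d : ℕ} (h : d ∈ dep σ K M) : d ≤ M.card := by
  simp only [dep, Multiset.mem_add, mem_val, mem_range] at h
  rcases h with ((h | h) | h) | h
  · exact h.le
  · exact (hd_le h).trans card_image_le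
  · exact (hd_le h).trans card_image_le
  · exact (Multiset.eq_of_mem_replicate h).le

lemma wt_pos {y : ℝ} (hy : 0 < y) : 0 < wt σ K M y := by
  apply Multiset.prod_pos
  intro z hz
  obtain ⟨d, _, rfl⟩ := Multiset.mem_map.1 hz
  positivity

/-- the weight only depends on the rows and columns used -/
lemma dep_congr {N : Finset (ℕ × ℕ)} (hc : M.card = N.card) (h1 : rows M = rows N)
    (h2 : cols M = cols N) : dep σ K M = dep σ K N := by
  rw [dep, dep, hc, h1, h2]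

lemma d1_card_small (R : Finset (ℕ × ℕ)) (n : ℕ) :
    (R.powerset.filter fun M => M.card ≤ n).card ≤ (R.card + 1) ^ n := by
  induction n with
  | zero =>
    rw [pow_zero, card_le_one]
    intro a ha b hb
    rw [card_eq_zero.1 (Nat.le_zero.1 (mem_filter.1 ha).2),
      card_eq_zero.1 (Nat.le_zero.1 (mem_filter.1 hb).2)]
  | succ n ih =>
    have h1 : (R.powerset.filter fun M => M.card ≤ n + 1) ⊆
        (R.powerset.filter fun M => M.card ≤ n) ∪
          R.biUnion fun e => (R.powerset.filter fun M => M.card ≤ n).image (insert e) := by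
      intro M hM
      obtain ⟨h2, h3⟩ := mem_filter.1 hM
      rw [mem_union]
      rcases M.eq_empty_or_nonempty with rfl | ⟨e, he⟩
      · exact Or.inl (mem_filter.2 ⟨h2, Nat.zero_le _⟩)
      · refine Or.inr (mem_biUnion.2 ⟨e, mem_powerset.1 h2 he, mem_image.2
          ⟨M.erase e, mem_filter.2 ⟨mem_powerset.2
            ((erase_subset _ _).trans (mem_powerset.1 h2)), ?_⟩, insert_erase he⟩⟩)
        rw [card_erase_of_mem he]
        omega
    have h4 : (R.biUnion fun e => (R.powerset.filter fun M => M.card ≤ n).image (insert e)).card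
        ≤ R.card * (R.card + 1) ^ n :=
      card_biUnion_le_card_mul _ _ _ fun e _ => card_image_le.trans ih
    calc _ ≤ _ := card_le_card h1
      _ ≤ _ := card_union_le _ _
      _ ≤ (R.card + 1) ^ n + R.card * (R.card + 1) ^ n := add_le_add ih h4
      _ = (R.card + 1) ^ (n + 1) := by ring

lemma card_mat_le (hR : R ⊆ box σ σ) {n : ℕ} (h : ∀ M ∈ mat R, M.card ≤ n) :
    (mat R).card ≤ (σ ^ 2 + 1) ^ n := by
  have h1 : mat R ⊆ R.powerset.filter fun M => M.card ≤ n := by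
    intro M hM
    exact mem_filter.2 ⟨mem_powerset.2 (mem_mat.1 hM).1, h M hM⟩
  have h2 : R.card ≤ σ ^ 2 := by
    have h3 := card_le_card hR
    rwa [box, card_product, card_range, ← sq] at h3
  calc (mat R).card ≤ _ := card_le_card h1
    _ ≤ (R.card + 1) ^ n := d1_card_small R n
    _ ≤ (σ ^ 2 + 1) ^ n := Nat.pow_le_pow_left (by omega) n

lemma d1_card_filter (A : Finset ℕ) (Q : ℕ → Prop) [DecidablePred Q] :
    Multiset.card ((hd σ A).filter Q) =
      ((range σ \ A).filter fun x => Q (A.filter fun a => a < x).card).card := by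
  rw [hd, Multiset.filter_map, Multiset.card_map]
  rfl

lemma d1_erase_le {A : Finset ℕ} {p j x : ℕ} (h : ∀ a ∈ A, a ≤ p ∨ a = j) (hx : p < x) :
    A.card ≤ (A.filter fun a => a < x).card + 1 := by
  have h1 : A.erase j ⊆ A.filter fun a => a < x := by
    intro a ha
    obtain ⟨h2, h3⟩ := mem_erase.1 ha
    refine mem_filter.2 ⟨h3, ?_⟩
    have := h a h3
    omega
  have h2 := card_le_card h1
  have h3 := pred_card_le_card_erase (s := A) (a := j)
  omega

/-- few depths differ from the number of elements when all elements are small -/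
lemma card_hd_ne {A : Finset ℕ} {p : ℕ} (h : ∀ a ∈ A, a ≤ p) :
    Multiset.card ((hd σ A).filter fun d => d ≠ A.card) ≤ p + 1 := by
  rw [d1_card_filter]
  calc _ ≤ (range (p + 1)).card := card_le_card ?_
    _ = p + 1 := card_range _
  intro x hx
  rw [mem_range]
  by_contra hcon
  apply (mem_filter.1 hx).2
  rw [filter_true_of_mem]
  intro a ha
  have := h a ha
  omega

/-- few depths are two below the number of elements when all elements but one are small -/
lemma card_hd_low {A : Finset ℕ} {p j : ℕ} (h : ∀ a ∈ A, a ≤ p ∨ a = j) :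
    Multiset.card ((hd σ A).filter fun d => d + 2 ≤ A.card) ≤ p + 1 := by
  rw [d1_card_filter]
  calc _ ≤ (range (p + 1)).card := card_le_card ?_
    _ = p + 1 := card_range _
  intro x hx
  rw [mem_range]
  by_contra hcon
  have h1 := (mem_filter.1 hx).2
  have h2 := d1_erase_le h (x := x) (by omega)
  omega

/-- an element forces many small depths -/
lemma le_card_hd_ne {A : Finset ℕ} (hA : A ⊆ range σ) {a : ℕ} (ha : a ∈ A) :
    a + 1 ≤ Multiset.card ((hd σ A).filter fun d => d ≠ A.card) + A.card := by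
  rw [d1_card_filter]
  have h1 : range a \ A.erase a ⊆
      (range σ \ A).filter fun x => (A.filter fun b => b < x).card ≠ A.card := by
    intro x hx
    obtain ⟨h2, h3⟩ := mem_sdiff.1 hx
    have h4 := mem_range.1 h2
    have h5 := mem_range.1 (hA ha)
    refine mem_filter.2 ⟨mem_sdiff.2 ⟨mem_range.2 (by omega), fun h6 => h3 ?_⟩, ?_⟩
    · exact mem_erase.2 ⟨by omega, h6⟩
    · apply ne_of_lt
      apply card_lt_card
      refine ⟨filter_subset _ _, fun h6 => ?_⟩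
      have h7 := (mem_filter.1 (h6 ha)).2
      omega
  have h2 := card_le_card h1
  have h3 := le_card_sdiff (A.erase a) (range a)
  rw [card_range, card_erase_of_mem ha] at h3
  have h4 : 0 < A.card := card_pos.2 ⟨a, ha⟩
  omega

lemma card_dep_ne (hM : IsM M) {p q : ℕ} (h : ∀ e ∈ M, e.1 ≤ p ∧ e.2 ≤ q) :
    Multiset.card ((dep σ K M).filter fun d => d ≠ M.card) ≤ M.card + (p + 1) + (q + 1) := by
  have h1 : Multiset.card ((hd σ (rows M)).filter fun d => d ≠ (rows M).card) ≤ p + 1 := by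
    apply card_hd_ne
    intro a ha
    obtain ⟨e, he, rfl⟩ := mem_rows.1 ha
    exact (h e he).1
  have h2 : Multiset.card ((hd σ (cols M)).filter fun d => d ≠ (cols M).card) ≤ q + 1 := by
    apply card_hd_ne
    intro a ha
    obtain ⟨e, he, rfl⟩ := mem_cols.1 ha
    exact (h e he).2
  rw [hM.card_rows] at h1
  rw [hM.card_cols] at h2
  have h3 : Multiset.card ((range M.card).val.filter fun d => d ≠ M.card) ≤ M.card := by
    have h4 := Multiset.card_le_card (Multiset.filter_le (fun d => d ≠ M.card) (range M.card).val)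
    rwa [card_val, card_range] at h4
  have h4 : (Multiset.replicate K M.card).filter (fun d => d ≠ M.card) = 0 := by
    rw [Multiset.filter_eq_nil]
    intro a ha h5
    exact h5 (Multiset.eq_of_mem_replicate ha)
  simp only [dep, Multiset.filter_add, Multiset.card_add, h4, Multiset.card_zero]
  omega

lemma d1_norm_prod {F : Type} [NormedField F] {y : F} {x u : ℝ} (D : Multiset ℕ)
    (h : ∀ d ≤ r, ‖y + (d : F)‖ ≤ x * u ^ (r - d)) (hD : ∀ d ∈ D, d ≤ r) :
    ‖(D.map fun d : ℕ => y + (d : F)).prod‖ ≤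
      x ^ (Multiset.card D) * u ^ (D.map fun d => r - d).sum := by
  induction D using Multiset.induction_on with
  | empty => simp
  | cons a D ih =>
    have h1 := ih fun d hd => hD d (Multiset.mem_cons_of_mem hd)
    have h2 := h a (hD a (Multiset.mem_cons_self _ _))
    rw [Multiset.map_cons, Multiset.prod_cons, norm_mul, Multiset.map_cons, Multiset.sum_cons,
      Multiset.card_cons]
    calc _ ≤ (x * u ^ (r - a)) * (x ^ (Multiset.card D) * u ^ (D.map fun d => r - d).sum) :=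
          mul_le_mul h2 h1 (norm_nonneg _) ((norm_nonneg _).trans h2)
      _ = _ := by ring

lemma d1_sum_hd {A : Finset ℕ} (hA : A ⊆ range σ) (hr : A.card ≤ r) :
    ∑ a ∈ A, (a - r) ≤ ((hd σ A).map fun d => r - d).sum := by
  have h1 : ((hd σ A).map fun d => r - d).sum =
      ∑ p ∈ range σ \ A, (r - (A.filter fun a => a < p).card) := by
    rw [hd, Multiset.map_map]
    rfl
  rw [h1]
  calc ∑ a ∈ A, (a - r) ≤ ∑ a ∈ A, ((range σ \ A).filter fun p => p < a).card := by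
        apply sum_le_sum
        intro a ha
        have h2 : range a \ A ⊆ (range σ \ A).filter fun p => p < a := by
          intro p hp
          obtain ⟨h3, h4⟩ := mem_sdiff.1 hp
          have h5 := mem_range.1 h3
          have h6 := mem_range.1 (hA ha)
          exact mem_filter.2 ⟨mem_sdiff.2 ⟨mem_range.2 (by omega), h4⟩, h5⟩
        have h3 := card_le_card h2
        have h4 := le_card_sdiff A (range a)
        rw [card_range] at h4
        omega
    _ = ∑ p ∈ range σ \ A, (A.filter fun a => p < a).card := by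
        simp only [card_filter]
        exact sum_comm
    _ ≤ _ := by
        apply sum_le_sum
        intro p _
        have h2 : Disjoint (A.filter fun a => p < a) (A.filter fun a => a < p) := by
          rw [disjoint_filter]
          intro a _ h3
          omega
        have h3 := card_le_card
          (union_subset (filter_subset (fun a => p < a) A) (filter_subset (fun a => a < p) A))
        rw [card_union_of_disjoint h2] at h3
        omega

/-- upper bound for one weight -/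
theorem wt_upper {F : Type} [NormedField F] (hM : M ∈ mat (box σ σ)) (hr : M.card ≤ r) {y : F}
    {x u : ℝ} (hx : 0 ≤ x) (hu0 : 0 ≤ u) (hu1 : u ≤ 1)
    (h : ∀ d ≤ r, ‖y + (d : F)‖ ≤ x * u ^ (r - d)) :
    ‖wt σ K M y‖ ≤ x ^ (2 * σ + K - M.card) *
      u ^ ((r - M.card) * K + ∑ e ∈ M, ((e.1 - r) + (e.2 - r))) := by
  have hI := (mem_mat.1 hM).2
  have h1 := d1_norm_prod (dep σ K M) h fun d hd => (dep_le hd).trans hr
  have h2 : Multiset.card (dep σ K M) = 2 * σ + K - M.card := by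
    have := card_dep (K := K) hM
    omega
  rw [h2] at h1
  refine h1.trans (mul_le_mul_of_nonneg_left (pow_le_pow_of_le_one hu0 hu1 ?_) (by positivity))
  have h3 := d1_sum_hd (d1_rows_sub hM) (hI.card_rows.le.trans hr)
  have h4 := d1_sum_hd (d1_cols_sub hM) (hI.card_cols.le.trans hr)
  rw [rows, sum_image fun e he f hf hef => hI e he f hf (Or.inl hef)] at h3
  rw [cols, sum_image fun e he f hf hef => hI e he f hf (Or.inr hef)] at h4
  simp only [dep, Multiset.map_add, Multiset.sum_add, Multiset.map_replicate,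
    Multiset.sum_replicate, smul_eq_mul, sum_add_distrib, rows, cols]
  rw [mul_comm (r - M.card) K]
  omega

lemma d1_hd_lower {A : Finset ℕ} (hA : A ⊆ range σ) (hr : A.card = r) (hr1 : 1 ≤ r) {y : ℝ}
    (hy : 0 < y) {j : ℕ} (h : ∀ a ∈ A, a ≤ P ∨ a = j) :
    (y + r) ^ (σ - r) * (y / (y + r)) ^ (P + 1) * ((y + r - 1) / (y + r)) ^ j ≤
      ((hd σ A).map fun d : ℕ => y + (d : ℝ)).prod := by
  have hr1' : (1 : ℝ) ≤ r := by exact_mod_cast hr1
  have hX : 0 < y + r := by positivity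
  set X : ℝ := y + r with hXdef
  set t : ℝ := y / X with ht
  set u : ℝ := (X - 1) / X with hu
  have ht0 : 0 ≤ t := by positivity
  have ht1 : t ≤ 1 := by
    rw [ht, div_le_one hX]
    linarith
  have hu0 : 0 ≤ u := div_nonneg (by linarith) hX.le
  have hu1 : u ≤ 1 := by
    rw [hu, div_le_one hX]
    linarith
  have hXt : X * t = y := mul_div_cancel₀ _ hX.ne'
  have hXu : X * u = X - 1 := mul_div_cancel₀ _ hX.ne'
  have h1 : ((hd σ A).map fun d : ℕ => y + (d : ℝ)).prod =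
      ∏ p ∈ range σ \ A, (y + ((A.filter fun a => a < p).card : ℝ)) := by
    rw [hd, Multiset.map_map]
    rfl
  rw [h1]
  have h2 : ((range σ \ A).filter fun p => p ≤ P).card ≤ P + 1 := by
    calc _ ≤ (range (P + 1)).card := card_le_card fun p hp =>
          mem_range.2 (Nat.lt_succ_of_le (mem_filter.1 hp).2)
      _ = P + 1 := card_range _
  have h3 : ((range σ \ A).filter fun p => p < j).card ≤ j := by
    calc _ ≤ (range j).card := card_le_card fun p hp => mem_range.2 (mem_filter.1 hp).2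
      _ = j := card_range _
  calc X ^ (σ - r) * t ^ (P + 1) * u ^ j
      ≤ X ^ (σ - r) * t ^ ((range σ \ A).filter fun p => p ≤ P).card *
          u ^ ((range σ \ A).filter fun p => p < j).card := by
        apply mul_le_mul (mul_le_mul_of_nonneg_left (pow_le_pow_of_le_one ht0 ht1 h2)
          (by positivity)) (pow_le_pow_of_le_one hu0 hu1 h3) (by positivity) (by positivity)
    _ = ∏ p ∈ range σ \ A, (X * (if p ≤ P then t else 1) * (if p < j then u else 1)) := by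
        rw [prod_mul_distrib, prod_mul_distrib, prod_ite, prod_ite, prod_const, prod_const,
          prod_const, prod_const, prod_const, card_sdiff_of_subset hA, card_range, hr]
        simp
    _ ≤ _ := by
        apply prod_le_prod
        · intro p _
          split_ifs <;> positivity
        · intro p hp
          have hd0 : (0 : ℝ) ≤ ((A.filter fun a => a < p).card : ℝ) := by positivity
          by_cases hpP : p ≤ P
          · rw [if_pos hpP, hXt]
            split_ifs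
            · nlinarith
            · linarith
          · rw [if_neg hpP, mul_one]
            by_cases hpj : p < j
            · rw [if_pos hpj, hXu]
              have h4 := d1_erase_le h (x := p) (by omega)
              rw [hr] at h4
              have h5 : (r : ℝ) ≤ ((A.filter fun a => a < p).card : ℝ) + 1 := by exact_mod_cast h4
              linarith
            · rw [if_neg hpj, mul_one, filter_true_of_mem, hr]
              intro a ha
              have h4 := h a ha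
              have h5 : a ≠ p := fun h6 => (mem_sdiff.1 hp).2 (h6 ▸ ha)
              omega

/-- lower bound for one weight with at most one far line -/
theorem wt_lower (hM : M ∈ mat (box σ σ)) (hr : M.card = r) (hr1 : 1 ≤ r) {y : ℝ} (hy : 0 < y)
    {j : ℕ} (h : (∀ e ∈ M, e.1 ≤ P ∧ (e.2 ≤ P ∨ e.2 = j)) ∨
      (∀ e ∈ M, e.2 ≤ P ∧ (e.1 ≤ P ∨ e.1 = j))) :
    (y + r) ^ (2 * σ + K - r) * (y / (y + r)) ^ (r + 2 * (P + 1)) *
      ((y + r - 1) / (y + r)) ^ j ≤ wt σ K M y := by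
  have hI := (mem_mat.1 hM).2
  have hσ := d1_card_le hM
  have hr1' : (1 : ℝ) ≤ r := by exact_mod_cast hr1
  have hX : 0 < y + r := by positivity
  have hu : 0 ≤ (y + r - 1) / (y + r) := div_nonneg (by linarith) hX.le
  have h0 : (y + r) ^ r * (y / (y + r)) ^ r ≤
      ((range r).val.map fun d : ℕ => y + (d : ℝ)).prod := by
    rw [← mul_pow, mul_div_cancel₀ _ hX.ne']
    have h1 : ((range r).val.map fun d : ℕ => y + (d : ℝ)).prod = ∏ d ∈ range r, (y + (d : ℝ)) :=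
      rfl
    rw [h1]
    calc y ^ r = ∏ _d ∈ range r, y := by simp
      _ ≤ _ := prod_le_prod (fun _ _ => hy.le) fun d _ => le_add_of_nonneg_right (by positivity)
  obtain ⟨j1, j2, hj, h1, h2⟩ : ∃ j1 j2, j1 + j2 = j ∧ (∀ a ∈ rows M, a ≤ P ∨ a = j1) ∧
      ∀ a ∈ cols M, a ≤ P ∨ a = j2 := by
    rcases h with h | h
    · refine ⟨0, j, by simp, fun a ha => ?_, fun a ha => ?_⟩
      · obtain ⟨e, he, rfl⟩ := mem_rows.1 ha
        exact Or.inl (h e he).1
      · obtain ⟨e, he, rfl⟩ := mem_cols.1 ha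
        exact (h e he).2
    · refine ⟨j, 0, by simp, fun a ha => ?_, fun a ha => ?_⟩
      · obtain ⟨e, he, rfl⟩ := mem_rows.1 ha
        exact (h e he).2
      · obtain ⟨e, he, rfl⟩ := mem_cols.1 ha
        exact Or.inl (h e he).1
  have h3 := d1_hd_lower (d1_rows_sub hM) (hI.card_rows.trans hr) hr1 hy h1
  have h4 := d1_hd_lower (d1_cols_sub hM) (hI.card_cols.trans hr) hr1 hy h2
  have h5 : 2 * σ + K - r = r + (σ - r) + (σ - r) + K := by omega
  simp only [wt, dep, Multiset.map_add, Multiset.prod_add, Multiset.map_replicate,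
    Multiset.prod_replicate, hr]
  calc _ = (y + r) ^ r * (y / (y + r)) ^ r *
        ((y + r) ^ (σ - r) * (y / (y + r)) ^ (P + 1) * ((y + r - 1) / (y + r)) ^ j1) *
        ((y + r) ^ (σ - r) * (y / (y + r)) ^ (P + 1) * ((y + r - 1) / (y + r)) ^ j2) *
        (y + r) ^ K := by
          rw [h5, ← hj]
          ring
    _ ≤ _ := by
          apply mul_le_mul_of_nonneg_right _ (by positivity)
          have h6 : 0 ≤ (y + r) ^ r * (y / (y + r)) ^ r := by positivity
          have h7 : 0 ≤ (y + r) ^ (σ - r) * (y / (y + r)) ^ (P + 1) *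
              ((y + r - 1) / (y + r)) ^ j1 := by positivity
          have h8 : 0 ≤ (y + r) ^ (σ - r) * (y / (y + r)) ^ (P + 1) *
              ((y + r - 1) / (y + r)) ^ j2 := by positivity
          exact mul_le_mul (mul_le_mul h0 h3 h7 (h6.trans h0)) h4 h8
            (mul_nonneg (h6.trans h0) (h7.trans h3))

/-- the real case of the hypothesis of `wt_upper` -/
lemma real_hyp {y : ℝ} (hy : 0 < y) (hr1 : 1 ≤ r) {d : ℕ} (hd : d ≤ r) :
    ‖y + (d : ℝ)‖ ≤ (y + r) * ((y + r - 1) / (y + r)) ^ (r - d) := by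
  have hr1' : (1 : ℝ) ≤ r := by exact_mod_cast hr1
  have hX : 0 < y + r := by positivity
  have h1 : (y + r - 1) / (y + r) = 1 + (-(1 / (y + r))) := by
    field_simp
    ring
  have h2 : (-2 : ℝ) ≤ -(1 / (y + r)) := by
    have h3 : 1 / (y + r) ≤ 1 := by
      rw [div_le_one hX]
      linarith
    linarith
  have h3 := one_add_mul_le_pow h2 (r - d)
  rw [Real.norm_of_nonneg (by positivity), h1]
  calc y + (d : ℝ) = (y + r) * (1 + ((r - d : ℕ) : ℝ) * -(1 / (y + r))) := by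
        rw [Nat.cast_sub hd]
        field_simp
        ring
    _ ≤ _ := mul_le_mul_of_nonneg_left h3 hX.le

lemma one_sub_inv_pow_le_half {x : ℝ} (hx : 1 ≤ x) {n : ℕ} (hn : x ≤ n) :
    ((x - 1) / x) ^ n ≤ 1 / 2 := by
  have hx0 : 0 < x := by linarith
  have hu : 0 ≤ (x - 1) / x := div_nonneg (by linarith) hx0.le
  have h1 := one_add_mul_le_pow (a := 1 / x) (by
    have : 0 < 1 / x := by positivity
    linarith) n
  have h2 : (2 : ℝ) ≤ 1 + n * (1 / x) := by
    have h3 : 1 ≤ n * (1 / x) := by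
      rw [mul_one_div, le_div_iff₀ hx0]
      linarith
    linarith
  have h3 : ((x - 1) / x) ^ n * (1 + 1 / x) ^ n ≤ 1 := by
    rw [← mul_pow]
    apply pow_le_one₀ (by positivity)
    have h4 : (x - 1) / x * (1 + 1 / x) = 1 - (1 / x) ^ 2 := by
      field_simp
      ring
    rw [h4]
    nlinarith [sq_nonneg (1 / x)]
  have h4 : 0 ≤ ((x - 1) / x) ^ n := by positivity
  nlinarith

lemma pow_le_half_pow {u : ℝ} (hu0 : 0 ≤ u) (hu1 : u ≤ 1) {n m t : ℕ} (h : u ^ n ≤ 1 / 2)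
    (ht : n * t ≤ m) : u ^ m ≤ (1 / 2) ^ t := by
  calc u ^ m ≤ u ^ (n * t) := pow_le_pow_of_le_one hu0 hu1 ht
    _ = (u ^ n) ^ t := pow_mul _ _ _
    _ ≤ (1 / 2) ^ t := pow_le_pow_left₀ (by positivity) h t

lemma Par.box_le {l E : ℕ} (hp : Par r l E K) : (25 * E) ^ 2 + 1 ≤ 2 ^ (2 * l) := by
  have h1 := hp.hK
  have h2 := hp.hT
  have h3 : 1 ≤ 2 ^ l := Nat.one_le_two_pow
  have h4 : 25 * E + 1 ≤ 2 ^ l := by omega
  calc (25 * E) ^ 2 + 1 ≤ (25 * E + 1) ^ 2 := by nlinarith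
    _ ≤ (2 ^ l) ^ 2 := Nat.pow_le_pow_left h4 2
    _ = 2 ^ (2 * l) := by rw [← pow_mul, mul_comm]

lemma Par.E_le {l E : ℕ} (hp : Par r l E K) : 100 * E ≤ 2 ^ l := by
  have := hp.hK; have := hp.hT; omega

end Pool.Agent.Lib.MP_f7f352_co.SX
end

-- part Pool.Agent.Lib.MP_f7f352_co.SX.D2
section

set_option autoImplicit false

namespace Pool.Agent.Lib.MP_f7f352_co.SX

open Finset Polynomial Pool.Agent.Lib.MP_f7f352_co.U

variable {σ K r P J : ℕ} {R Ms M : Finset (ℕ × ℕ)}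

lemma d2_mem_sw {f e : ℕ × ℕ} : e ∈ sw M f ↔ e = f ∨ (e ∈ M ∧ e.1 ≠ f.1 ∧ e.2 ≠ f.2) := by
  simp [sw, mem_off]

lemma d2_isM (hM : IsM M) (f : ℕ × ℕ) : IsM (sw M f) := by
  intro a ha b hb hab
  rcases d2_mem_sw.1 ha with rfl | ⟨a1, a2, a3⟩ <;> rcases d2_mem_sw.1 hb with rfl | ⟨b1, b2, b3⟩
  · rfl
  · rcases hab with h | h
    · exact absurd h.symm b2
    · exact absurd h.symm b3
  · rcases hab with h | h
    · exact absurd h a2
    · exact absurd h a3
  · exact hM a a1 b b1 hab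

lemma d2_rows_erase (hM : IsM M) {m : ℕ × ℕ} (hm : m ∈ M) :
    rows (M.erase m) = (rows M).erase m.1 := by
  ext i
  simp only [mem_rows, mem_erase]
  constructor
  · rintro ⟨e, ⟨h1, h2⟩, rfl⟩
    exact ⟨fun h => h1 (hM e h2 m hm (Or.inl h)), e, h2, rfl⟩
  · rintro ⟨h1, e, h2, rfl⟩
    exact ⟨e, ⟨fun h => h1 (by rw [h]), h2⟩, rfl⟩

lemma d2_cols_erase (hM : IsM M) {m : ℕ × ℕ} (hm : m ∈ M) :
    cols (M.erase m) = (cols M).erase m.2 := by
  ext i
  simp only [mem_cols, mem_erase]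
  constructor
  · rintro ⟨e, ⟨h1, h2⟩, rfl⟩
    exact ⟨fun h => h1 (hM e h2 m hm (Or.inr h)), e, h2, rfl⟩
  · rintro ⟨h1, e, h2, rfl⟩
    exact ⟨e, ⟨fun h => h1 (by rw [h]), h2⟩, rfl⟩

lemma d2_rows_insert (f : ℕ × ℕ) : rows (insert f M) = insert f.1 (rows M) := image_insert _ _ _

lemma d2_cols_insert (f : ℕ × ℕ) : cols (insert f M) = insert f.2 (cols M) := image_insert _ _ _

lemma sw_row (hM : IsM Ms) {f : ℕ × ℕ} (h1 : f.1 ∈ rows Ms) (h2 : f.2 ∉ cols Ms) :
    IsM (sw Ms f) ∧ (sw Ms f).card = Ms.card ∧ rows (sw Ms f) = rows Ms ∧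
      ∃ m ∈ Ms, m.1 = f.1 ∧ cols (sw Ms f) = insert f.2 ((cols Ms).erase m.2) := by
  obtain ⟨m, hm, e1⟩ := mem_rows.1 h1
  have e : sw Ms f = insert f (Ms.erase m) := by
    ext a
    rw [d2_mem_sw, mem_insert, mem_erase]
    refine or_congr_right ⟨fun ⟨a1, a2, _⟩ => ⟨fun h => a2 (by rw [h, e1]), a1⟩,
      fun ⟨a1, a2⟩ => ⟨a2, fun h => a1 (hM a a2 m hm (Or.inl (h.trans e1.symm))),
        fun h => h2 (mem_cols.2 ⟨a, a2, h⟩)⟩⟩
  have hf : f ∉ Ms.erase m := fun h => h2 (mem_cols.2 ⟨f, mem_of_mem_erase h, rfl⟩)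
  refine ⟨d2_isM hM f, ?_, ?_, m, hm, e1, ?_⟩
  · rw [e, card_insert_of_notMem hf, card_erase_add_one hm]
  · rw [e, d2_rows_insert, d2_rows_erase hM hm, e1, insert_erase h1]
  · rw [e, d2_cols_insert, d2_cols_erase hM hm]

lemma sw_col (hM : IsM Ms) {f : ℕ × ℕ} (h1 : f.2 ∈ cols Ms) (h2 : f.1 ∉ rows Ms) :
    IsM (sw Ms f) ∧ (sw Ms f).card = Ms.card ∧ cols (sw Ms f) = cols Ms ∧
      ∃ m ∈ Ms, m.2 = f.2 ∧ rows (sw Ms f) = insert f.1 ((rows Ms).erase m.1) := by
  obtain ⟨m, hm, e1⟩ := mem_cols.1 h1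
  have e : sw Ms f = insert f (Ms.erase m) := by
    ext a
    rw [d2_mem_sw, mem_insert, mem_erase]
    refine or_congr_right ⟨fun ⟨a1, _, a2⟩ => ⟨fun h => a2 (by rw [h, e1]), a1⟩,
      fun ⟨a1, a2⟩ => ⟨a2, fun h => h2 (mem_rows.2 ⟨a, a2, h⟩),
        fun h => a1 (hM a a2 m hm (Or.inr (h.trans e1.symm)))⟩⟩
  have hf : f ∉ Ms.erase m := fun h => h2 (mem_rows.2 ⟨f, mem_of_mem_erase h, rfl⟩)
  refine ⟨d2_isM hM f, ?_, ?_, m, hm, e1, ?_⟩
  · rw [e, card_insert_of_notMem hf, card_erase_add_one hm]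
  · rw [e, d2_cols_insert, d2_cols_erase hM hm, e1, insert_erase h1]
  · rw [e, d2_rows_insert, d2_rows_erase hM hm]

lemma sw_subset (hM : Ms ⊆ R) {f : ℕ × ℕ} (hf : f ∈ R) : sw Ms f ⊆ R := by
  intro e he
  rcases d2_mem_sw.1 he with rfl | ⟨h, -⟩
  · exact hf
  · exact hM h

lemma Core.line (h : Core σ r P R Ms) {e : ℕ × ℕ} (he : e ∈ R) :
    e.1 ∈ rows Ms ∨ e.2 ∈ cols Ms := by
  by_contra hc
  push Not at hc
  obtain ⟨h1, h2⟩ := mem_mat.1 h.mem
  have e1 : sw Ms e = insert e Ms := by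
    ext a
    rw [d2_mem_sw, mem_insert]
    exact or_congr_right ⟨fun a1 => a1.1, fun a1 => ⟨a1, fun h => hc.1 (mem_rows.2 ⟨a, a1, h⟩),
      fun h => hc.2 (mem_cols.2 ⟨a, a1, h⟩)⟩⟩
  have h3 := h.nu _ (mem_mat.2 ⟨sw_subset h1 he, d2_isM h2 e⟩)
  rw [e1, card_insert_of_notMem fun a1 => hc.1 (mem_rows.2 ⟨e, a1, rfl⟩), h.card] at h3
  omega

lemma Shape.cases (h : Shape σ r P J R Ms) {f : ℕ × ℕ} (hf : f ∈ R \ Ms) :
    (f.1 ∈ rows Ms ∧ f.2 ∉ cols Ms ∧ J ≤ f.2) ∨ (f.2 ∈ cols Ms ∧ f.1 ∉ rows Ms ∧ J ≤ f.1) := by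
  obtain ⟨h1, h2⟩ := mem_sdiff.1 hf
  rcases h.far f h1 with h3 | h3
  · exact absurd (h.near f h1 h3.1 h3.2) h2
  · exact h3

lemma Pre.mono (h : Pre σ r P J R Ms) {P' J' : ℕ} (hP : P ≤ P') (hJ : J' ≤ J) :
    Pre σ r P' J' R Ms := by
  refine ⟨⟨h.sub, h.mem, h.card, fun e he => ?_, h.nu⟩, h.uniq, fun e he => ?_⟩
  · exact ⟨(h.small e he).1.trans hP, (h.small e he).2.trans hP⟩
  · rcases h.far e he with h1 | ⟨h1, h2, h3⟩ | ⟨h1, h2, h3⟩
    · exact Or.inl h1
    · exact Or.inr (Or.inl ⟨h1, h2, hJ.trans h3⟩)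
    · exact Or.inr (Or.inr ⟨h1, h2, hJ.trans h3⟩)

lemma Shape.mono (h : Shape σ r P J R Ms) {P' J' : ℕ} (hP : P ≤ P') (hJ : J' ≤ J) :
    Shape σ r P' J' R Ms :=
  ⟨h.toPre.mono hP hJ, h.near⟩

lemma d2_sum (h : Core σ r P R Ms) {F : Type} [NormedField F] {y : F} {x u : ℝ}
    (hx : 0 ≤ x) (hu0 : 0 ≤ u) (hu1 : u ≤ 1) (hxu : x * u ^ K ≤ 1)
    (hy : ∀ d ≤ r, ‖y + (d : F)‖ ≤ x * u ^ (r - d)) {n : ℕ} {S : Finset (Finset (ℕ × ℕ))}
    (hS : S ⊆ mat R) (hn : ∀ M ∈ S, M.card = r → n ≤ ∑ e ∈ M, ((e.1 - r) + (e.2 - r))) :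
    ∑ M ∈ S, ‖wt σ K M y‖ ≤
      ((σ : ℝ) ^ 2 + 1) ^ r * x ^ (2 * σ + K - r) * (u ^ n + x * u ^ K) := by
  have hT : r ≤ 2 * σ + K := by
    have := card_dep (K := K) (mat_mono h.sub h.mem)
    rw [h.card] at this
    omega
  have h0 : 0 ≤ x * u ^ K := by positivity
  have h1 : ∀ M ∈ S, ‖wt σ K M y‖ ≤ x ^ (2 * σ + K - r) * (u ^ n + x * u ^ K) := by
    intro M hM
    have hk := h.nu M (hS hM)
    refine (wt_upper (mat_mono h.sub (hS hM)) hk hx hu0 hu1 hy).trans ?_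
    rcases hk.eq_or_lt with hk | hk
    · rw [hk]
      refine mul_le_mul_of_nonneg_left ?_ (by positivity)
      have := pow_le_pow_of_le_one hu0 hu1 ((hn M hM hk).trans (Nat.le_add_left _ ((r - r) * K)))
      linarith
    · have e : 2 * σ + K - M.card = (2 * σ + K - r) + (r - M.card) := by omega
      have h2 : u ^ ((r - M.card) * K + ∑ e ∈ M, ((e.1 - r) + (e.2 - r))) ≤
          (u ^ K) ^ (r - M.card) := by
        rw [← pow_mul, mul_comm]
        exact pow_le_pow_of_le_one hu0 hu1 (Nat.le_add_right _ _)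
      have h3 : (x * u ^ K) ^ (r - M.card) ≤ x * u ^ K :=
        pow_le_of_le_one h0 hxu (by omega)
      rw [e, pow_add, mul_assoc]
      refine mul_le_mul_of_nonneg_left ?_ (by positivity)
      refine (mul_le_mul_of_nonneg_left h2 (by positivity)).trans ?_
      rw [← mul_pow]
      have : 0 ≤ u ^ n := by positivity
      linarith
  refine (sum_le_card_nsmul _ _ _ h1).trans ?_
  rw [nsmul_eq_mul, mul_assoc]
  refine mul_le_mul_of_nonneg_right ?_ (by positivity)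
  exact_mod_cast (card_le_card hS).trans (card_mat_le h.sub h.nu)

/-- everything but the main term -/
theorem Pre.others_le (h : Pre σ r P J R Ms) {F : Type} [NormedField F] {y : F} {x u : ℝ}
    (hx : 0 ≤ x) (hu0 : 0 ≤ u) (hu1 : u ≤ 1) (hxu : x * u ^ K ≤ 1)
    (hy : ∀ d ≤ r, ‖y + (d : F)‖ ≤ x * u ^ (r - d)) :
    ∑ M ∈ (mat R).erase Ms, ‖wt σ K M y‖ ≤
      ((σ : ℝ) ^ 2 + 1) ^ r * x ^ (2 * σ + K - r) * (u ^ (J - r) + x * u ^ K) := by
  refine d2_sum h.toCore hx hu0 hu1 hxu hy (erase_subset _ _) fun M hM hc => ?_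
  obtain ⟨h1, h2⟩ := mem_erase.1 hM
  obtain ⟨h3, h4⟩ := mem_mat.1 h2
  have h5 : ∃ e ∈ M, J ≤ e.1 ∨ J ≤ e.2 := by
    by_contra h5
    push Not at h5
    have h6 : ∀ e ∈ M, e.1 ∈ rows Ms ∧ e.2 ∈ cols Ms := fun e he => by
      have := h5 e he
      rcases h.far e (h3 he) with a | a | a
      · exact a
      · omega
      · omega
    have h7 := (mem_mat.1 h.mem).2
    refine h1 (h.uniq M h2 hc (eq_of_subset_of_card_le (fun i hi => ?_) ?_)
      (eq_of_subset_of_card_le (fun i hi => ?_) ?_))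
    · obtain ⟨e, he, rfl⟩ := mem_rows.1 hi
      exact (h6 e he).1
    · rw [h7.card_rows, h4.card_rows, hc, h.card]
    · obtain ⟨e, he, rfl⟩ := mem_cols.1 hi
      exact (h6 e he).2
    · rw [h7.card_cols, h4.card_cols, hc, h.card]
  obtain ⟨e, he, h6⟩ := h5
  refine le_trans ?_ (single_le_sum (f := fun e : ℕ × ℕ => (e.1 - r) + (e.2 - r))
    (fun _ _ => Nat.zero_le _) he)
  omega

/-- everything but the main term and the first order terms -/
theorem Shape.second_le (h : Shape σ r P J R Ms) {F : Type} [NormedField F] {y : F} {x u : ℝ}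
    (hx : 0 ≤ x) (hu0 : 0 ≤ u) (hu1 : u ≤ 1) (hxu : x * u ^ K ≤ 1)
    (hy : ∀ d ≤ r, ‖y + (d : F)‖ ≤ x * u ^ (r - d)) :
    ‖FF σ K R y - wt σ K Ms y - ∑ f ∈ R \ Ms, wt σ K (sw Ms f) y‖ ≤
      ((σ : ℝ) ^ 2 + 1) ^ r * x ^ (2 * σ + K - r) * (u ^ (2 * (J - r)) + x * u ^ K) := by
  obtain ⟨a1, a2⟩ := mem_mat.1 h.mem
  have hinj : Set.InjOn (sw Ms) (R \ Ms : Finset (ℕ × ℕ)) := by
    intro f hf g _ e
    have h1 : f ∈ sw Ms g := e ▸ d2_mem_sw.2 (Or.inl rfl)
    rcases d2_mem_sw.1 h1 with h2 | h2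
    · exact h2
    · exact absurd h2.1 (mem_sdiff.1 (mem_coe.1 hf)).2
  have hsub : (R \ Ms).image (sw Ms) ⊆ (mat R).erase Ms := by
    intro M hM
    obtain ⟨f, hf, rfl⟩ := mem_image.1 hM
    refine mem_erase.2 ⟨fun e => (mem_sdiff.1 hf).2 (e ▸ d2_mem_sw.2 (Or.inl rfl)), ?_⟩
    exact mem_mat.2 ⟨sw_subset a1 (mem_sdiff.1 hf).1, d2_isM a2 f⟩
  have e : FF σ K R y - wt σ K Ms y - ∑ f ∈ R \ Ms, wt σ K (sw Ms f) y =
      ∑ M ∈ (mat R).erase Ms \ (R \ Ms).image (sw Ms), wt σ K M y := by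
    rw [FF, ← add_sum_erase _ _ h.mem, ← sum_sdiff hsub, sum_image hinj]
    ring
  rw [e]
  refine (norm_sum_le _ _).trans (d2_sum h.toCore hx hu0 hu1 hxu hy
    (sdiff_subset.trans (erase_subset _ _)) fun M hM hc => ?_)
  obtain ⟨b1, b2⟩ := mem_sdiff.1 hM
  obtain ⟨b3, b4⟩ := mem_erase.1 b1
  obtain ⟨b5, b6⟩ := mem_mat.1 b4
  have hfar : ∀ f ∈ M, f ∉ Ms → J - r ≤ (f.1 - r) + (f.2 - r) := fun f hf hf' => by
    rcases h.cases (mem_sdiff.2 ⟨b5 hf, hf'⟩) with a | a <;> omega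
  obtain ⟨f, hf, hf'⟩ : ∃ f ∈ M, f ∉ Ms := by
    by_contra h1
    push Not at h1
    exact b3 (eq_of_subset_of_card_le h1 (by rw [hc, h.card]))
  obtain ⟨g, hg, hg', hfg⟩ : ∃ g ∈ M, g ∉ Ms ∧ f ≠ g := by
    by_contra h1
    push Not at h1
    have hfR : f ∈ R \ Ms := mem_sdiff.2 ⟨b5 hf, hf'⟩
    refine b2 (mem_image.2 ⟨f, hfR, (eq_of_subset_of_card_le (fun g hg => ?_) ?_).symm⟩)
    · by_cases c : g = f
      · exact d2_mem_sw.2 (Or.inl c)
      · refine d2_mem_sw.2 (Or.inr ⟨?_, fun e => c (b6 g hg f hf (Or.inl e)),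
          fun e => c (b6 g hg f hf (Or.inr e))⟩)
        by_contra c2
        exact c (h1 g hg c2).symm
    · rcases h.cases hfR with a | a
      · rw [(sw_row a2 a.1 a.2.1).2.1, hc, h.card]
      · rw [(sw_col a2 a.1 a.2.1).2.1, hc, h.card]
  have h1 := sum_le_sum_of_subset (f := fun e : ℕ × ℕ => (e.1 - r) + (e.2 - r))
    (show ({f, g} : Finset (ℕ × ℕ)) ⊆ M from insert_subset hf (singleton_subset_iff.2 hg))
  rw [sum_pair hfg] at h1
  have := hfar f hf hf'
  have := hfar g hg hg'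
  omega

/-- a larger placement can be changed so as to cover the lines of a given placement -/
theorem exists_cover (hM : Ms ∈ mat R) {N : Finset (ℕ × ℕ)} (hN : N ∈ mat R) :
    ∃ N' ∈ mat R, N.card ≤ N'.card ∧ rows Ms ⊆ rows N' ∧ cols Ms ⊆ cols N' := by
  obtain ⟨a1, a2⟩ := mem_mat.1 hM
  induction hn : (Ms \ N).card using Nat.strong_induction_on generalizing N with
  | _ n ih =>
  obtain ⟨b1, b2⟩ := mem_mat.1 hN
  by_cases hc : ∃ m ∈ Ms, m.1 ∉ rows N ∨ m.2 ∉ cols N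
  · obtain ⟨m, hm, h1⟩ := hc
    have hmN : m ∉ N := fun h => h1.elim (fun c => c (mem_rows.2 ⟨m, h, rfl⟩))
      fun c => c (mem_cols.2 ⟨m, h, rfl⟩)
    have h2 : N.card ≤ (sw N m).card := by
      by_cases c1 : m.1 ∈ rows N
      · exact (sw_row b2 c1 (h1.resolve_left (not_not.2 c1))).2.1.ge
      · by_cases c2 : m.2 ∈ cols N
        · exact (sw_col b2 c2 c1).2.1.ge
        · exact card_le_card fun a ha => d2_mem_sw.2 (Or.inr ⟨ha,
            fun h => c1 (mem_rows.2 ⟨a, ha, h⟩), fun h => c2 (mem_cols.2 ⟨a, ha, h⟩)⟩)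
    have h3 : Ms \ sw N m ⊆ (Ms \ N).erase m := by
      intro e he
      obtain ⟨c1, c2⟩ := mem_sdiff.1 he
      have c3 : e ≠ m := fun h => c2 (d2_mem_sw.2 (Or.inl h))
      exact mem_erase.2 ⟨c3, mem_sdiff.2 ⟨c1, fun h => c2 (d2_mem_sw.2 (Or.inr ⟨h,
        fun c => c3 (a2 e c1 m hm (Or.inl c)), fun c => c3 (a2 e c1 m hm (Or.inr c))⟩))⟩⟩
    have h4 := (card_le_card h3).trans_lt (card_erase_lt_of_mem (mem_sdiff.2 ⟨hm, hmN⟩))
    obtain ⟨N', c1, c2, c3⟩ := ih _ (hn ▸ h4)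
      (mem_mat.2 ⟨sw_subset b1 (a1 hm), d2_isM b2 m⟩) rfl
    exact ⟨N', c1, h2.trans c2, c3⟩
  · push Not at hc
    refine ⟨N, hN, le_rfl, fun i hi => ?_, fun i hi => ?_⟩
    · obtain ⟨e, he, rfl⟩ := mem_rows.1 hi
      exact (hc e he).1
    · obtain ⟨e, he, rfl⟩ := mem_cols.1 hi
      exact (hc e he).2

end Pool.Agent.Lib.MP_f7f352_co.SX
end

-- part Pool.Agent.Lib.MP_f7f352_co.SX.D6
section

set_option autoImplicit false

namespace Pool.Agent.Lib.MP_f7f352_co.SX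

open Finset Polynomial Pool.Agent.Lib.MP_f7f352_co.U

lemma d6_re {ρ : ℝ} {z : ℂ} (hz : ‖z‖ = ρ) (hne : z ≠ ρ) : ((ρ : ℂ) / (ρ - z)).re = 1 / 2 := by
  have h0 : Complex.normSq ((ρ : ℂ) - z) ≠ 0 :=
    fun h => hne (sub_eq_zero.1 (Complex.normSq_eq_zero.1 h)).symm
  have h1 : z.re * z.re + z.im * z.im = ρ * ρ := by
    rw [← Complex.normSq_apply, Complex.normSq_eq_norm_sq, hz, sq]
  rw [Complex.div_re]
  simp only [Complex.ofReal_re, Complex.ofReal_im, zero_mul, zero_div, add_zero, Complex.sub_re]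
  rw [div_eq_iff h0, Complex.normSq_apply]
  simp only [Complex.sub_re, Complex.sub_im, Complex.ofReal_re, Complex.ofReal_im]
  linear_combination (-1 / 2 : ℝ) * h1

/-- an integer polynomial that is tiny on a small circular arc near `ρ` vanishes -/
theorem poly_zero (Q : ℤ[X]) {n q : ℕ} (hn : Q.natDegree ≤ n) {H ε ρ δ : ℝ} (hH : 1 ≤ H)
    (hδ : 0 < δ) (hρ : δ < ρ) (hρ1 : ρ ≤ 1) (hq : ρ ≤ q * δ)
    (h1 : ∀ z : ℂ, ‖z‖ = 1 → ‖aeval z Q‖ ≤ H)
    (h2 : ∀ z : ℂ, ‖z‖ ≤ ρ → ‖z - ρ‖ = δ → ‖aeval z Q‖ ≤ ε)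
    (h3 : ε * (2 * H) ^ (2 * q) < (ρ - δ) ^ n) : Q = 0 := by
  by_contra hQ
  obtain ⟨P, hP, hP0⟩ := exists_eq_pow_rootMultiplicity_mul_and_not_dvd Q hQ 0
  set m := rootMultiplicity 0 Q
  rw [C_0, sub_zero] at hP hP0
  have hPne : P ≠ 0 := fun h => hP0 (h ▸ dvd_zero _)
  have hm : m ≤ n := by
    refine le_trans ?_ hn
    rw [hP, natDegree_mul (pow_ne_zero _ X_ne_zero) hPne, natDegree_X_pow]
    exact Nat.le_add_right _ _
  have hev : ∀ z : ℂ, ‖aeval z Q‖ = ‖z‖ ^ m * ‖aeval z P‖ := fun z => by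
    conv_lhs => rw [hP]
    rw [map_mul, map_pow, aeval_X, norm_mul, norm_pow]
  have hdiff : Differentiable ℂ fun z : ℂ => aeval z P := P.differentiable_aeval
  have hdisc : ∀ z : ℂ, ‖z‖ ≤ 1 → ‖aeval z P‖ ≤ H := fun z hz => by
    refine Complex.norm_le_of_forall_mem_frontier_norm_le (U := Metric.closedBall (0 : ℂ) 1)
      Metric.isBounded_closedBall hdiff.diffContOnCl (fun w hw => ?_)
      (subset_closure (mem_closedBall_zero_iff.2 hz))
    rw [frontier_closedBall _ one_ne_zero, mem_sphere_zero_iff_norm] at hw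
    have := h1 w hw
    rwa [hev, hw, one_pow, one_mul] at this
  have hρδ : 0 < ρ - δ := sub_pos.2 hρ
  have h2H : 0 < 2 * H := by linarith
  set L : ℝ := 2 * Real.log (2 * H) with hL
  have hL0 : 0 ≤ L := mul_nonneg zero_le_two (Real.log_nonneg (by linarith))
  set g : ℂ → ℂ := fun z => aeval z P * Complex.exp (L * ((ρ : ℂ) / (ρ - z) - 1)) with hg
  have hgn : ∀ z, ‖g z‖ = ‖aeval z P‖ * Real.exp (L * (((ρ : ℂ) / (ρ - z)).re - 1)) := fun z => by
    simp only [hg, norm_mul, Complex.norm_exp, Complex.re_ofReal_mul, Complex.sub_re,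
      Complex.one_re]
  set U : Set ℂ := Metric.closedBall 0 ρ \ Metric.ball (ρ : ℂ) δ with hU
  have hUc : IsClosed U := Metric.isClosed_closedBall.sdiff Metric.isOpen_ball
  have hmem : ∀ z, z ∈ U ↔ ‖z‖ ≤ ρ ∧ δ ≤ ‖z - ρ‖ := fun z => by
    simp only [hU, Set.mem_sdiff, mem_closedBall_zero_iff, Metric.mem_ball, dist_eq_norm, not_lt]
  have hne : ∀ z ∈ U, z ≠ ρ := fun z hz h => by
    have := ((hmem z).1 hz).2
    rw [h, sub_self, norm_zero] at this
    linarith
  have hgd : DifferentiableOn ℂ g U := fun z hz => by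
    have h0 : (ρ : ℂ) - z ≠ 0 := sub_ne_zero.2 (hne z hz).symm
    refine DifferentiableAt.differentiableWithinAt ((hdiff z).mul (DifferentiableAt.cexp ?_))
    exact (((differentiableAt_const _).div ((differentiableAt_const _).sub differentiableAt_id)
      h0).sub_const 1).const_mul _
  have hmax := Complex.norm_le_of_forall_mem_frontier_norm_le (U := U) (f := g)
    (Metric.isBounded_closedBall.subset Set.sdiff_subset)
    (DifferentiableOn.diffContOnCl (by rwa [hUc.closure_eq]))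
    (C := max (1 / 2) (ε * (2 * H) ^ (2 * q) / (ρ - δ) ^ n)) (z := 0) ?_
    (subset_closure ((hmem 0).2 ⟨by rw [norm_zero]; linarith, by
      rw [zero_sub, norm_neg, Complex.norm_real, Real.norm_eq_abs, abs_of_pos (by linarith)]
      exact hρ.le⟩))
  · have hρ0 : (ρ : ℂ) ≠ 0 := Complex.ofReal_ne_zero.2 (by linarith)
    have e0 : ‖g 0‖ = |(P.coeff 0 : ℝ)| := by
      rw [hgn, sub_zero, div_self hρ0, Complex.one_re, sub_self, mul_zero, Real.exp_zero, mul_one,
        ← coeff_zero_eq_aeval_zero', eq_intCast, Complex.norm_intCast]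
    have e1 : (1 : ℝ) ≤ |(P.coeff 0 : ℝ)| := by
      exact_mod_cast Int.one_le_abs fun h => hP0 (X_dvd_iff.2 h)
    have e2 : max (1 / 2) (ε * (2 * H) ^ (2 * q) / (ρ - δ) ^ n) < 1 :=
      max_lt (by norm_num) ((div_lt_one (pow_pos hρδ n)).2 h3)
    linarith
  intro z hz
  have hzU : z ∈ U := hUc.frontier_subset hz
  obtain ⟨hz1, hz2⟩ := (hmem z).1 hzU
  rcases hz1.eq_or_lt with e1 | e1
  · refine le_max_of_le_left ?_
    rw [hgn, d6_re e1 (hne z hzU), show L * (1 / 2 - 1) = -Real.log (2 * H) by rw [hL]; ring,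
      Real.exp_neg, Real.exp_log h2H, ← div_eq_mul_inv, div_le_iff₀ h2H]
    linarith [hdisc z (hz1.trans hρ1)]
  rcases hz2.eq_or_lt with e2 | e2
  · refine le_max_of_le_right ?_
    have a1 : ρ - δ ≤ ‖z‖ := by
      have := norm_sub_norm_le (ρ : ℂ) z
      rw [norm_sub_rev, ← e2, Complex.norm_real, Real.norm_eq_abs, abs_of_pos (by linarith)] at this
      linarith
    have a2 : (ρ - δ) ^ n * ‖aeval z P‖ ≤ ε := by
      refine le_trans ?_ (h2 z hz1 e2.symm)
      rw [hev]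
      exact mul_le_mul_of_nonneg_right ((pow_le_pow_of_le_one hρδ.le (by linarith) hm).trans
        (pow_le_pow_left₀ hρδ.le a1 m)) (norm_nonneg _)
    have a3 : ((ρ : ℂ) / (ρ - z)).re ≤ q := by
      refine (Complex.re_le_norm _).trans ?_
      rw [norm_div, norm_sub_rev, ← e2, Complex.norm_real, Real.norm_eq_abs,
        abs_of_pos (by linarith), div_le_iff₀ hδ]
      exact hq
    have a4 : Real.exp (L * (((ρ : ℂ) / (ρ - z)).re - 1)) ≤ (2 * H) ^ (2 * q) := by
      rw [← Real.exp_log (pow_pos h2H (2 * q)), Real.log_pow]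
      refine Real.exp_le_exp.2 ((mul_le_mul_of_nonneg_left (by linarith : _ ≤ (q : ℝ)) hL0).trans
        (le_of_eq ?_))
      rw [hL]
      push_cast
      ring
    rw [hgn, le_div_iff₀ (pow_pos hρδ n), mul_right_comm, mul_comm _ ((ρ - δ) ^ n)]
    exact mul_le_mul a2 a4 (Real.exp_pos _).le
      (le_trans (mul_nonneg (pow_pos hρδ n).le (norm_nonneg _)) a2)
  · exfalso
    refine hz.2 (mem_interior.2 ⟨Metric.ball 0 ρ \ Metric.closedBall (ρ : ℂ) δ,
      Set.sdiff_subset_sdiff Metric.ball_subset_closedBall Metric.ball_subset_closedBall,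
      Metric.isOpen_ball.sdiff Metric.isClosed_closedBall, mem_ball_zero_iff.2 e1, ?_⟩)
    rw [Metric.mem_closedBall, dist_eq_norm]
    exact not_le.2 e2

end Pool.Agent.Lib.MP_f7f352_co.SX
end

-- part Pool.Agent.Lib.MP_f7f352_co.SX.B0
section

set_option autoImplicit false

namespace Pool.Agent.Lib.MP_f7f352_co.SX

open Finset Polynomial Pool.Agent.Lib.MP_f7f352_co.U

variable {ι : Type} [Fintype ι] [DecidableEq ι] {Γ : SimpleGraph ι} {U : Finset ι}

lemma b0_mem {M : Finset (Finset ι)} :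
    M ∈ (pack (edg Γ)).filter (fun M => M.biUnion id ⊆ U) ↔
      (∀ I ∈ M, I ∈ edg Γ ∧ I ⊆ U) ∧ ∀ I ∈ M, ∀ J ∈ M, I ≠ J → Disjoint I J := by
  simp only [mem_filter, mem_pack, biUnion_subset, id]
  exact ⟨fun h => ⟨fun I hI => ⟨h.1.1 hI, h.2 I hI⟩, h.1.2⟩,
    fun h => ⟨⟨fun I hI => (h.1 I hI).1, h.2⟩, fun I hI => (h.1 I hI).2⟩⟩

lemma b0_other {I : Finset ι} {v : ι} (h : I ∈ edg Γ) (hv : v ∈ I) :
    ∃ u, Γ.Adj v u ∧ I = {v, u} := by
  obtain ⟨a, b, hab, rfl⟩ := mem_edg.1 h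
  rcases mem_insert.1 hv with rfl | hb
  · exact ⟨b, hab, rfl⟩
  · rw [mem_singleton.1 hb]
    exact ⟨a, hab.symm, pair_comm _ _⟩

lemma b0_coeff (Γ : SimpleGraph ι) (U : Finset ι) (k : ℕ) : (mu Γ U).coeff k =
    (((pack (edg Γ)).filter (fun M => M.biUnion id ⊆ U)).filter fun M => M.card = k).card := by
  rw [mu, finsetSum_coeff, card_filter, Nat.cast_sum]
  refine sum_congr rfl fun M _ => ?_
  rw [coeff_X_pow]
  by_cases h : M.card = k
  · simp [h]
  · simp [h, Ne.symm h]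

lemma mu_vertex (Γ : SimpleGraph ι) {v : ι} (hv : v ∈ U) :
    mu Γ U = mu Γ (U.erase v) + X * ∑ u ∈ nbr Γ U v, mu Γ ((U.erase v).erase u) := by
  unfold mu
  rw [← sum_filter_add_sum_filter_not _ (fun M => ∀ I ∈ M, v ∉ I)]
  congr 1
  · refine sum_congr ?_ fun _ _ => rfl
    ext M
    rw [mem_filter, b0_mem, b0_mem]
    simp only [subset_erase]
    exact ⟨fun h => ⟨fun I hI => ⟨(h.1.1 I hI).1, (h.1.1 I hI).2, h.2 I hI⟩, h.1.2⟩,
      fun h => ⟨⟨fun I hI => ⟨(h.1 I hI).1, (h.1 I hI).2.1⟩, h.2⟩, fun I hI => (h.1 I hI).2.2⟩⟩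
  · rw [sum_sigma', mul_sum]
    have key : ∀ x ∈ (nbr Γ U v).sigma fun u => (pack (edg Γ)).filter
        (fun M => M.biUnion id ⊆ (U.erase v).erase u), ∀ I ∈ x.2, v ∉ I ∧ x.1 ∉ I := by
      intro x hx I hI
      have := ((b0_mem.1 (mem_sigma.1 hx).2).1 I hI).2
      exact ⟨fun k => by simpa using this k, fun k => by simpa using this k⟩
    symm
    refine sum_bij (fun x _ => insert {v, x.1} x.2) (fun x hx => ?_) (fun x hx y hy e => ?_)
      (fun M hM => ?_) fun x hx => ?_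
    · obtain ⟨h1, h2⟩ := mem_sigma.1 hx
      rw [mem_nbr] at h1
      rw [b0_mem] at h2
      have dj : ∀ J ∈ x.2, Disjoint {v, x.1} J := fun J hJ => by
        simpa using key x hx J hJ
      rw [mem_filter, b0_mem]
      refine ⟨⟨fun I hI => ?_, fun I hI J hJ hIJ => ?_⟩,
        fun k => k _ (mem_insert_self _ _) (mem_insert_self _ _)⟩
      · rcases mem_insert.1 hI with rfl | hI
        · exact ⟨mem_edg.2 ⟨_, _, h1.2, rfl⟩, insert_subset hv (singleton_subset_iff.2 h1.1)⟩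
        · exact ⟨(h2.1 I hI).1, (h2.1 I hI).2.trans ((erase_subset _ _).trans (erase_subset _ _))⟩
      · rcases mem_insert.1 hI with rfl | hI <;> rcases mem_insert.1 hJ with rfl | hJ
        · exact absurd rfl hIJ
        · exact dj J hJ
        · exact (dj I hI).symm
        · exact h2.2 I hI J hJ hIJ
    · have n1 : {v, x.1} ∉ x.2 := fun k => (key x hx _ k).1 (mem_insert_self _ _)
      have n2 : {v, y.1} ∉ y.2 := fun k => (key y hy _ k).1 (mem_insert_self _ _)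
      have e1 : ({v, x.1} : Finset ι) = {v, y.1} := by
        have : ({v, x.1} : Finset ι) ∈ insert {v, y.1} y.2 := e ▸ mem_insert_self _ _
        exact (mem_insert.1 this).resolve_right fun k => (key y hy _ k).1 (mem_insert_self _ _)
      have e2 : x.1 = y.1 := by
        have : x.1 ∈ ({v, y.1} : Finset ι) := e1 ▸ mem_insert_of_mem (mem_singleton_self _)
        exact mem_singleton.1 ((mem_insert.1 this).resolve_left
          (mem_nbr.1 (mem_sigma.1 hx).1).2.ne')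
      have e3 : x.2 = y.2 := by
        rw [← erase_insert n1, e, e1, erase_insert n2]
      exact Sigma.ext e2 (heq_of_eq e3)
    · obtain ⟨h1, h2⟩ := mem_filter.1 hM
      rw [b0_mem] at h1
      push Not at h2
      obtain ⟨I, hI, hvI⟩ := h2
      obtain ⟨u, hu, rfl⟩ := b0_other (h1.1 I hI).1 hvI
      refine ⟨⟨u, M.erase {v, u}⟩, mem_sigma.2 ⟨mem_nbr.2 ⟨(h1.1 _ hI).2 (by simp), hu⟩,
        b0_mem.2 ⟨fun J hJ => ⟨(h1.1 J (mem_of_mem_erase hJ)).1, ?_⟩, fun J hJ K hK =>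
          h1.2 J (mem_of_mem_erase hJ) K (mem_of_mem_erase hK)⟩⟩, insert_erase hI⟩
      have := h1.2 _ hI J (mem_of_mem_erase hJ) (ne_of_mem_erase hJ).symm
      simp only [disjoint_insert_left, disjoint_singleton_left] at this
      exact subset_erase.2 ⟨subset_erase.2 ⟨(h1.1 J (mem_of_mem_erase hJ)).2, this.1⟩, this.2⟩
    · rw [card_insert_of_notMem fun k => (key x hx _ k).1 (mem_insert_self _ _), pow_succ']

lemma mu_coeff_nonneg (Γ : SimpleGraph ι) (U : Finset ι) (k : ℕ) : 0 ≤ (mu Γ U).coeff k := by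
  rw [b0_coeff]
  exact Nat.cast_nonneg _

lemma mu_coeff_univ (Γ : SimpleGraph ι) (k : ℕ) : (mu Γ univ).coeff k = mnum Γ k := by
  rw [b0_coeff, filter_true_of_mem fun _ _ => subset_univ _]
  rfl

lemma mu_eval_zero (Γ : SimpleGraph ι) (U : Finset ι) : (mu Γ U).eval 0 = 1 := by
  rw [← coeff_zero_eq_eval_zero, b0_coeff, Nat.cast_eq_one, card_eq_one]
  refine ⟨∅, eq_singleton_iff_unique_mem.2 ⟨mem_filter.2 ⟨b0_mem.2 (by simp), rfl⟩, fun M hM => ?_⟩⟩
  exact card_eq_zero.1 (mem_filter.1 hM).2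

lemma mu_of_no_edge (h : ∀ u ∈ U, ∀ v ∈ U, ¬ Γ.Adj u v) : mu Γ U = 1 := by
  have : (pack (edg Γ)).filter (fun M => M.biUnion id ⊆ U) = {∅} := by
    refine eq_singleton_iff_unique_mem.2 ⟨b0_mem.2 (by simp), fun M hM => ?_⟩
    refine eq_empty_of_forall_notMem fun I hI => ?_
    obtain ⟨h1, h2⟩ := (b0_mem.1 hM).1 I hI
    obtain ⟨u, v, huv, rfl⟩ := mem_edg.1 h1
    exact h u (h2 (by simp)) v (h2 (by simp)) huv
  rw [mu, this, sum_singleton, card_empty, pow_zero]

/-- a vertex cover bounds the degree -/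
lemma mu_coeff_cover (Z : Finset ι) (h : ∀ u ∈ U, ∀ v ∈ U, Γ.Adj u v → u ∈ Z ∨ v ∈ Z) {k : ℕ}
    (hk : Z.card < k) : (mu Γ U).coeff k = 0 := by
  rw [b0_coeff, Nat.cast_eq_zero, card_eq_zero, filter_eq_empty_iff]
  intro M hM e
  rw [b0_mem] at hM
  have h1 : ∀ I ∈ M, ∃ z, z ∈ I ∧ z ∈ Z := fun I hI => by
    obtain ⟨h1, h2⟩ := hM.1 I hI
    obtain ⟨u, v, huv, rfl⟩ := mem_edg.1 h1
    rcases h u (h2 (by simp)) v (h2 (by simp)) huv with k | k
    · exact ⟨u, by simp, k⟩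
    · exact ⟨v, by simp, k⟩
  choose f f1 f2 using h1
  have := card_le_card_of_injOn (s := M.attach) (t := Z) (fun I => f I.1 I.2)
    (fun I _ => f2 I.1 I.2) fun I _ J _ e => Subtype.ext <| by
      by_contra k
      have e' : f I.1 I.2 = f J.1 J.2 := e
      exact disjoint_left.1 (hM.2 _ I.2 _ J.2 k) (f1 I.1 I.2) (e' ▸ f1 J.1 J.2)
  rw [card_attach] at this
  omega

/-- greedy matching -/
lemma mu_coeff_pos (Z : Finset ι) (hZ : Z ⊆ U)
    (h : ∀ z ∈ Z, 2 * Z.card ≤ (nbr Γ U z).card + 1) : 0 < (mu Γ U).coeff Z.card := by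
  induction Z using Finset.induction_on generalizing U with
  | empty => rw [card_empty, coeff_zero_eq_eval_zero, mu_eval_zero]; exact one_pos
  | insert z Z hz ih =>
    rw [card_insert_of_notMem hz] at h ⊢
    have h1 := h z (mem_insert_self _ _)
    obtain ⟨u, hu, huZ⟩ := exists_mem_notMem_of_card_lt_card (s := Z) (t := nbr Γ U z) (by omega)
    rw [mu_vertex Γ (hZ (mem_insert_self _ _)), coeff_add, coeff_X_mul, finsetSum_coeff]
    refine add_pos_of_nonneg_of_pos (mu_coeff_nonneg _ _ _)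
      (sum_pos' (fun _ _ => mu_coeff_nonneg _ _ _) ⟨u, hu, ih ?_ fun y hy => ?_⟩)
    · exact subset_erase.2 ⟨subset_erase.2 ⟨(subset_insert _ _).trans hZ, hz⟩, huZ⟩
    · have h2 := h y (mem_insert_of_mem hy)
      have h3 : nbr Γ U y ⊆ insert z (insert u (nbr Γ ((U.erase z).erase u) y)) := fun w hw => by
        simp only [mem_insert, mem_nbr, mem_erase] at hw ⊢
        tauto
      have h4 := card_le_card h3
      have h5 := card_insert_le z (insert u (nbr Γ ((U.erase z).erase u) y))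
      have h6 := card_insert_le u (nbr Γ ((U.erase z).erase u) y)
      omega

/-- weak Heilmann-Lieb bound -/
lemma mu_pos_of_deg (D : ℕ) (h : ∀ v ∈ U, (nbr Γ U v).card ≤ D) {s : ℝ} (h0 : s ≤ 0)
    (h1 : 4 * D * (-s) ≤ 1) : 0 < (mu Γ U).eval s := by
  have key : ∀ T, T ⊆ U → 0 < (mu Γ T).eval s ∧
      ∀ v ∈ T, (mu Γ (T.erase v)).eval s ≤ 2 * (mu Γ T).eval s := by
    intro T
    induction T using Finset.strongInduction with
    | H T ih =>
      intro hT
      have h2 : ∀ v ∈ T, 0 < (mu Γ (T.erase v)).eval s ∧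
          (mu Γ (T.erase v)).eval s ≤ 2 * (mu Γ T).eval s := fun v hv => by
        obtain ⟨p, q⟩ := ih _ (erase_ssubset hv) ((erase_subset _ _).trans hT)
        refine ⟨p, ?_⟩
        have h3 : (nbr Γ T v).card ≤ D :=
          (card_le_card fun w hw => mem_nbr.2 ⟨hT (mem_nbr.1 hw).1, (mem_nbr.1 hw).2⟩).trans
            (h v (hT hv))
        have h4 : ∑ u ∈ nbr Γ T v, (mu Γ ((T.erase v).erase u)).eval s ≤
            D * (2 * (mu Γ (T.erase v)).eval s) := by
          refine (sum_le_card_nsmul _ _ _ fun u hu =>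
            q u (mem_erase.2 ⟨(mem_nbr.1 hu).2.ne', (mem_nbr.1 hu).1⟩)).trans ?_
          rw [nsmul_eq_mul]
          exact mul_le_mul_of_nonneg_right (by exact_mod_cast h3) (by linarith)
        rw [mu_vertex Γ hv, eval_add, eval_mul, eval_X, eval_finsetSum]
        have h5 := mul_le_mul_of_nonneg_left h4 (neg_nonneg.2 h0)
        have h6 := mul_le_mul_of_nonneg_right h1 p.le
        linarith
      refine ⟨?_, fun v hv => (h2 v hv).2⟩
      rcases T.eq_empty_or_nonempty with rfl | ⟨v, hv⟩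
      · rw [mu_of_no_edge (by simp), eval_one]
        exact one_pos
      · linarith [h2 v hv]
  exact (key U Subset.rfl).1

end Pool.Agent.Lib.MP_f7f352_co.SX
end

-- part Pool.Agent.Lib.MP_f7f352_co.SX.Num
section

set_option autoImplicit false

namespace Pool.Agent.Lib.MP_f7f352_co.SX

open Finset Polynomial Pool.Agent.Lib.MP_f7f352_co.U

lemma num_log (n : ℕ) (hn : 1 ≤ n) :
    ((Nat.log 2 n + 1 : ℕ) : ℝ) ≤ 100 * (n : ℝ) ^ ((1 : ℝ) / 42) := by
  have h1 : (1 : ℝ) ≤ n := by exact_mod_cast hn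
  have h2 : (2 : ℝ) ^ Nat.log 2 n ≤ n := by exact_mod_cast Nat.pow_log_le_self 2 (by omega)
  have h3 : (Nat.log 2 n : ℝ) * Real.log 2 ≤ Real.log n := by
    rw [← Real.log_pow]
    exact Real.log_le_log (by positivity) h2
  have h4 : Real.log n ≤ (n : ℝ) ^ ((1 : ℝ) / 42) / (1 / 42) :=
    Real.log_le_rpow_div (by positivity) (by norm_num)
  have h5 : (1 : ℝ) ≤ (n : ℝ) ^ ((1 : ℝ) / 42) := Real.one_le_rpow h1 (by norm_num)
  have h6 := Real.log_two_gt_d9
  have h7 : (0 : ℝ) ≤ Nat.log 2 n := by positivity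
  push_cast
  nlinarith

theorem exists_par : ∃ n₀ : ℕ, ∀ n ≥ n₀, ∃ h l E : ℕ, Par (2 * h) l E (50 * E) ∧
    9300 * E + 4 ≤ n ∧ (n : ℝ) ^ ((8 : ℝ) / 7) ≤ ((2 * h * E : ℕ) : ℝ) := by
  refine ⟨(10 ^ 42) ^ 14, fun n hn => ?_⟩
  have hn' : ((10 : ℝ) ^ 42) ^ 14 ≤ n := by exact_mod_cast hn
  have hn1 : 20000 ≤ n := le_trans (by norm_num) hn
  have hn0 : (0 : ℝ) < n := by positivity
  set w : ℝ := (n : ℝ) ^ ((1 : ℝ) / 42) with hw
  have hw0 : 0 < w := by positivity
  have hw42 : w ^ 42 = n := by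
    rw [hw, ← Real.rpow_natCast, ← Real.rpow_mul hn0.le]; norm_num
  have hw48 : (n : ℝ) ^ ((8 : ℝ) / 7) = w ^ 48 := by
    rw [hw, ← Real.rpow_natCast, ← Real.rpow_mul hn0.le]; norm_num
  have hwbig : (10 : ℝ) ^ 14 ≤ w := by
    by_contra hlt
    have : w ^ 42 < ((10 : ℝ) ^ 14) ^ 42 := pow_lt_pow_left₀ (not_le.1 hlt) hw0.le (by norm_num)
    rw [hw42, ← pow_mul, mul_comm 14 42, pow_mul] at this
    linarith
  have hw1 : (1 : ℝ) ≤ w := le_trans (by norm_num) hwbig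
  have hw6 : (1 : ℝ) ≤ w ^ 6 := one_le_pow₀ hw1
  set h : ℕ := ⌈10000 * w ^ 6⌉₊ with hh
  have hh1 : 10000 * w ^ 6 ≤ h := Nat.le_ceil _
  have hh2 : (h : ℝ) ≤ 20000 * w ^ 6 := by
    have := Nat.ceil_lt_add_one (show 0 ≤ 10000 * w ^ 6 by positivity)
    linarith
  set E : ℕ := n / 10000 with hE
  have hE1 : (n : ℝ) ≤ 20000 * E := by
    have : n ≤ 20000 * E := by omega
    exact_mod_cast this
  set l : ℕ := Nat.log 2 n + 1 with hl
  have hl1 : (l : ℝ) ≤ 100 * w := num_log n (by omega)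
  refine ⟨h, l, E, ⟨?_, by omega, ?_, le_rfl, ?_⟩, by omega, ?_⟩
  · have : (50 : ℝ) ≤ h := by linarith
    have : 50 ≤ h := by exact_mod_cast this
    omega
  · have h1 : ((2 * h : ℕ) : ℝ) ^ 6 ≤ (40000 * w ^ 6) ^ 6 := by
      apply pow_le_pow_left₀ (by positivity)
      push_cast; linarith
    have h2 : (l : ℝ) ^ 3 ≤ (100 * w) ^ 3 := pow_le_pow_left₀ (by positivity) hl1 3
    have h3 : ((10 : ℝ) ^ 14) ^ 3 ≤ w ^ 3 := pow_le_pow_left₀ (by positivity) hwbig 3
    have h4 : (300 : ℝ) * ((2 * h : ℕ) : ℝ) ^ 6 * (l : ℝ) ^ 3 ≤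
        300 * (40000 * w ^ 6) ^ 6 * (100 * w) ^ 3 := by gcongr
    have h5 : (300 : ℝ) * (40000 * w ^ 6) ^ 6 * (100 * w) ^ 3 * 20000 ≤ w ^ 42 := by
      have h6 : w ^ 42 = w ^ 39 * w ^ 3 := by ring
      have h7 : (300 : ℝ) * (40000 * w ^ 6) ^ 6 * (100 * w) ^ 3 * 20000 =
        w ^ 39 * (300 * 40000 ^ 6 * 100 ^ 3 * 20000) := by ring
      rw [h6, h7]
      exact mul_le_mul_of_nonneg_left (le_trans (by norm_num) h3) (by positivity)
    have h8 : (300 : ℝ) * ((2 * h : ℕ) : ℝ) ^ 6 * (l : ℝ) ^ 3 ≤ E := by linarith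
    exact_mod_cast h8
  · have := Nat.lt_pow_succ_log_self (b := 2) (by norm_num) n
    rw [hl]
    simp only [Nat.succ_eq_add_one] at this
    omega
  · rw [hw48]
    push_cast
    have h1 : w ^ 48 = w ^ 6 * n := by rw [← hw42]; ring
    have h2 : (0 : ℝ) ≤ E := by positivity
    calc w ^ 48 = w ^ 6 * n := h1
      _ ≤ w ^ 6 * (20000 * E) := by gcongr
      _ = 2 * (10000 * w ^ 6) * E := by ring
      _ ≤ 2 * h * E := by gcongr

end Pool.Agent.Lib.MP_f7f352_co.SX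
end
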