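import Mathlib
import Pool.Agent.Lib.MP_f7f352_co.SX.Num

-- part Pool.Agent.Lib.MP_f7f352_co.SX.B1
section

set_option autoImplicit false

namespace Pool.Agent.Lib.MP_f7f352_co.SX

open Finset Polynomial Pool.Agent.Lib.MP_f7f352_co.U

variable {ι : Type} [Fintype ι] [DecidableEq ι] {Γ : SimpleGraph ι} {U : Finset ι}

lemma b1_inv_nonpos {z : ℂ} (h : 0 ≤ z.im) : z⁻¹.im ≤ 0 := by
  rw [Complex.inv_im]
  exact div_nonpos_of_nonpos_of_nonneg (by linarith) (Complex.normSq_nonneg z)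

lemma b1_inv_nonneg {z : ℂ} (h : z.im ≤ 0) : 0 ≤ z⁻¹.im := by
  rw [Complex.inv_im]
  exact div_nonneg (by linarith) (Complex.normSq_nonneg z)

lemma b1_inv_neg {z : ℂ} (h : 0 < z.im) : z⁻¹.im < 0 := by
  rw [Complex.inv_im]
  refine div_neg_of_neg_of_pos (by linarith) (Complex.normSq_pos.2 ?_)
  rintro rfl
  simp at h

/-- the ratios of matching polynomials stay in a cone -/
lemma b1_cone (Γ : SimpleGraph ι) {s : ℂ} (hs : 0 < s.im) (U : Finset ι) :
    aeval s (mu Γ U) ≠ 0 ∧ ∀ v ∈ U, 0 ≤ (aeval s (mu Γ U) / aeval s (mu Γ (U.erase v))).im ∧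
      (aeval s (mu Γ U) / aeval s (mu Γ (U.erase v)) / s).im < 0 := by
  induction U using Finset.strongInduction with
  | H U ih =>
  have hs0 : s ≠ 0 := by
    rintro rfl
    simp at hs
  have key : ∀ v ∈ U, 0 ≤ (aeval s (mu Γ U) / aeval s (mu Γ (U.erase v))).im ∧
      (aeval s (mu Γ U) / aeval s (mu Γ (U.erase v)) / s).im < 0 := by
    intro v hv
    obtain ⟨h1, h2⟩ := ih (U.erase v) (erase_ssubset hv)
    have hm : ∀ u ∈ nbr Γ U v, u ∈ U.erase v := fun u hu =>
      mem_erase.2 ⟨(mem_nbr.1 hu).2.ne', (mem_nbr.1 hu).1⟩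
    have e1 : aeval s (mu Γ U) / aeval s (mu Γ (U.erase v)) = 1 + s * ∑ u ∈ nbr Γ U v,
        (aeval s (mu Γ (U.erase v)) / aeval s (mu Γ ((U.erase v).erase u)))⁻¹ := by
      rw [mu_vertex Γ hv]
      simp only [map_add, map_mul, aeval_X, map_sum, inv_div]
      rw [← sum_div]
      field_simp
    constructor
    · rw [e1, mul_sum, Complex.add_im, Complex.one_im, zero_add, Complex.im_sum]
      refine sum_nonneg fun u hu => ?_
      have := b1_inv_nonneg (h2 u (hm u hu)).2.le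
      rwa [inv_div, div_eq_mul_inv s] at this
    · rw [e1, add_div, mul_div_cancel_left₀ _ hs0, Complex.add_im, Complex.im_sum, one_div]
      have h3 := b1_inv_neg hs
      have h4 := sum_nonpos (s := nbr Γ U v) fun u hu => b1_inv_nonpos (h2 u (hm u hu)).1
      linarith
  refine ⟨?_, key⟩
  rcases U.eq_empty_or_nonempty with rfl | ⟨v, hv⟩
  · rw [mu_of_no_edge (by simp)]
    simp
  · intro h
    have := (key v hv).2
    rw [h] at this
    simp at this

lemma b1_prod (A : Multiset ℂ) (hA : ∀ ρ ∈ A, ρ.im = 0 ∧ ρ.re < 0) (s : ℂ) :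
    (A.map (s - ·)).prod = (A.map ((0 : ℂ) - ·)).prod *
      ((A.map fun ρ => -1 / ρ.re).map fun a : ℝ => 1 + (a : ℂ) * s).prod := by
  rw [Multiset.map_map, ← Multiset.prod_map_mul]
  congr 1
  refine Multiset.map_congr rfl fun ρ hρ => ?_
  obtain ⟨h1, h2⟩ := hA ρ hρ
  have e : ρ = (ρ.re : ℂ) := Complex.ext (by simp) (by simp [h1])
  have h3 : (ρ.re : ℂ) ≠ 0 := by exact_mod_cast h2.ne
  simp only [Function.comp_apply]
  generalize ρ.re = r at e h3
  subst e
  push_cast
  field_simp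
  ring

/-- the matching polynomial is a product of real linear factors -/
lemma b1_factor (Γ : SimpleGraph ι) (U : Finset ι) :
    ∃ A : Multiset ℝ, Multiset.card A = (mu Γ U).natDegree ∧
      (∀ a ∈ A, 0 < a ∧ (mu Γ U).eval (-1 / a) = 0) ∧
      ∀ s : ℂ, aeval s (mu Γ U) = (A.map fun a : ℝ => 1 + (a : ℂ) * s).prod := by
  have hP := IsAlgClosed.splits ((mu Γ U).map (algebraMap ℝ ℂ))
  have hr : ∀ ρ ∈ ((mu Γ U).map (algebraMap ℝ ℂ)).roots,
      ρ.im = 0 ∧ ρ.re < 0 ∧ (mu Γ U).eval ρ.re = 0 := by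
    intro ρ hρ
    have h1 : aeval ρ (mu Γ U) = 0 := by
      rw [← eval_map_algebraMap]
      exact isRoot_of_mem_roots hρ
    have h2 : ρ.im = 0 := by
      rcases lt_trichotomy ρ.im 0 with h | h | h
      · refine absurd ?_ (b1_cone Γ (s := (starRingEnd ℂ) ρ) (by simpa using h) U).1
        rw [aeval_conj, h1, map_zero]
      · exact h
      · exact absurd h1 (b1_cone Γ h U).1
    have e : ρ = algebraMap ℝ ℂ ρ.re := Complex.ext (by simp) (by simp [h2])
    have h3 : (mu Γ U).eval ρ.re = 0 := by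
      rw [e, aeval_algebraMap_apply, coe_aeval_eq_eval] at h1
      simpa using h1
    refine ⟨h2, ?_, h3⟩
    by_contra h
    push Not at h
    have h4 : (mu Γ U).coeff 0 * ρ.re ^ 0 ≤
        ∑ i ∈ range ((mu Γ U).natDegree + 1), (mu Γ U).coeff i * ρ.re ^ i :=
      single_le_sum (f := fun i => (mu Γ U).coeff i * ρ.re ^ i)
        (fun i _ => mul_nonneg (mu_coeff_nonneg Γ U i) (pow_nonneg h i)) (by simp)
    rw [← eval_eq_sum_range, h3, coeff_zero_eq_eval_zero, mu_eval_zero] at h4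
    norm_num at h4
  refine ⟨((mu Γ U).map (algebraMap ℝ ℂ)).roots.map fun ρ => -1 / ρ.re, ?_, ?_, fun s => ?_⟩
  · rw [Multiset.card_map, ← hP.natDegree_eq_card_roots, natDegree_map]
  · intro a ha
    obtain ⟨ρ, hρ, rfl⟩ := Multiset.mem_map.1 ha
    obtain ⟨-, h2, h3⟩ := hr ρ hρ
    refine ⟨div_pos_of_neg_of_neg (by norm_num) h2, ?_⟩
    have : -1 / (-1 / ρ.re) = ρ.re := by field_simp
    rw [this, h3]
  · have h0 := hP.eval_eq_prod_roots 0
    have h1 : eval (0 : ℂ) ((mu Γ U).map (algebraMap ℝ ℂ)) = 1 := by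
      rw [← coeff_zero_eq_eval_zero, coeff_map, coeff_zero_eq_eval_zero, mu_eval_zero, map_one]
    rw [← eval_map_algebraMap, hP.eval_eq_prod_roots s,
      b1_prod _ (fun ρ hρ => ⟨(hr ρ hρ).1, (hr ρ hρ).2.1⟩), ← mul_assoc, ← h0, h1, one_mul]

/-- total argument -/
noncomputable def b1_th (A : Multiset ℝ) (s : ℂ) : ℝ :=
  (A.map fun a : ℝ => Complex.arg (1 + (a : ℂ) * s)).sum

lemma b1_polar (A : Multiset ℝ) (s : ℂ) (h : ∀ a ∈ A, 1 + (a : ℂ) * s ≠ 0) :
    ∃ r : ℝ, 0 < r ∧ (A.map fun a : ℝ => 1 + (a : ℂ) * s).prod =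
      r * Complex.exp (b1_th A s * Complex.I) := by
  induction A using Multiset.induction_on with
  | empty => exact ⟨1, one_pos, by simp [b1_th]⟩
  | cons a A ih =>
    obtain ⟨r, hr, e⟩ := ih fun b hb => h b (Multiset.mem_cons_of_mem hb)
    refine ⟨‖1 + (a : ℂ) * s‖ * r, mul_pos (norm_pos_iff.2 (h a (Multiset.mem_cons_self _ _))) hr,
      ?_⟩
    have e2 : b1_th (a ::ₘ A) s = Complex.arg (1 + (a : ℂ) * s) + b1_th A s := by simp [b1_th]
    rw [Multiset.map_cons, Multiset.prod_cons, e, e2]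
    conv_lhs => rw [← Complex.norm_mul_exp_arg_mul_I (1 + (a : ℂ) * s)]
    push_cast
    rw [add_mul, Complex.exp_add]
    ring

lemma b1_slit {a : ℝ} (ha : 0 < a) {s : ℂ} (hs : 0 < s.im) {τ : ℝ} (hτ : 0 ≤ τ) :
    1 + (a : ℂ) * (τ * s) ∈ Complex.slitPlane := by
  rcases hτ.eq_or_lt with rfl | h
  · simp
  · refine Or.inr ?_
    have : (1 + (a : ℂ) * (τ * s)).im = a * (τ * s.im) := by simp
    rw [this]
    positivity

lemma b1_cont (A : Multiset ℝ) (hA : ∀ a ∈ A, 0 < a) {s : ℂ} (hs : 0 < s.im) :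
    ContinuousOn (fun τ : ℝ => b1_th A (τ * s)) (Set.Icc 0 1) := by
  refine continuousOn_multiset_sum A fun a ha τ hτ => ?_
  have h1 : ContinuousAt (fun τ : ℝ => 1 + (a : ℂ) * (τ * s)) τ := by fun_prop
  exact ((Complex.continuousAt_arg (b1_slit (hA a ha) hs hτ.1)).comp (f := fun τ : ℝ =>
    1 + (a : ℂ) * (τ * s)) h1).continuousWithinAt

lemma b1_step (A B : Multiset ℝ) (hA : ∀ a ∈ A, 0 < a) (hB : ∀ a ∈ B, 0 < a) {s : ℂ}
    (hs : 0 < s.im) (h : ∀ z : ℂ, 0 < z.im → ((A.map fun a : ℝ => 1 + (a : ℂ) * z).prod /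
      (B.map fun a : ℝ => 1 + (a : ℂ) * z).prod / z).im < 0) :
    b1_th A s ≤ b1_th B s + Real.pi := by
  by_contra hc
  push Not at hc
  have h1 := intermediate_value_Icc zero_le_one ((b1_cont A hA hs).sub (b1_cont B hB hs))
  obtain ⟨τ, hτ, e⟩ := h1 (show Real.pi ∈ _ from
    ⟨by simp [b1_th, Real.pi_pos.le], by simp; linarith⟩)
  have hτ0 : 0 < τ := by
    refine hτ.1.lt_of_ne ?_
    rintro rfl
    simp [b1_th] at e
    exact Real.pi_pos.ne e
  obtain ⟨r, hr, e1⟩ := b1_polar A (τ * s) fun a ha =>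
    Complex.slitPlane_ne_zero (b1_slit (hA a ha) hs hτ.1)
  obtain ⟨q, hq, e2⟩ := b1_polar B (τ * s) fun a ha =>
    Complex.slitPlane_ne_zero (b1_slit (hB a ha) hs hτ.1)
  have hz : 0 < ((τ : ℂ) * s).im := by simpa using mul_pos hτ0 hs
  have h2 := h _ hz
  have e3 : b1_th A (τ * s) = b1_th B (τ * s) + Real.pi := by
    have e' : b1_th A (τ * s) - b1_th B (τ * s) = Real.pi := e
    linarith
  have hq' : (q : ℂ) ≠ 0 := by exact_mod_cast hq.ne'
  have e4 : (r : ℂ) * Complex.exp (b1_th A (τ * s) * Complex.I) /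
      (q * Complex.exp (b1_th B (τ * s) * Complex.I)) / (τ * s) =
      ((-(r / q) : ℝ) : ℂ) * ((τ : ℂ) * s)⁻¹ := by
    rw [e3]
    push_cast
    rw [add_mul, Complex.exp_add, Complex.exp_pi_mul_I, div_eq_mul_inv _ ((τ : ℂ) * s)]
    congr 1
    field_simp
  rw [e1, e2, e4, Complex.im_ofReal_mul] at h2
  have h3 := b1_inv_neg hz
  have h4 : 0 < r / q := div_pos hr hq
  nlinarith

open Filter Topology in
lemma b1_lim (A B : Multiset ℝ) {s0 : ℝ} (n : ℕ) (hA : ∀ a ∈ A, 0 < a ∧ 1 + a * s0 < 0)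
    (hB : ∀ a ∈ B, 0 < 1 + a * s0)
    (h : ∀ s : ℂ, 0 < s.im → b1_th A s ≤ b1_th B s + n * Real.pi) : Multiset.card A ≤ n := by
  have hc : ∀ a : ℝ, Tendsto (fun ε : ℝ => 1 + (a : ℂ) * (s0 + ε * Complex.I)) (𝓝[>] 0)
      (𝓝 ((1 + a * s0 : ℝ) : ℂ)) := by
    intro a
    have h1 : Continuous fun ε : ℝ => 1 + (a : ℂ) * (s0 + ε * Complex.I) := by fun_prop
    have h2 := (h1.tendsto 0).mono_left (nhdsWithin_le_nhds (s := Set.Ioi 0))
    simpa using h2
  have t1 : Tendsto (fun ε : ℝ => b1_th A (s0 + ε * Complex.I)) (𝓝[>] 0)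
      (𝓝 (A.map fun _ => Real.pi).sum) := by
    refine tendsto_multiset_sum A fun a ha => ?_
    refine (Complex.tendsto_arg_nhdsWithin_im_nonneg_of_re_neg_of_im_zero
      (z := ((1 + a * s0 : ℝ) : ℂ)) (by simpa using (hA a ha).2) (by simp)).comp ?_
    refine tendsto_nhdsWithin_iff.2 ⟨hc a, ?_⟩
    filter_upwards [self_mem_nhdsWithin] with ε hε
    have : 0 ≤ a * ε := mul_nonneg (hA a ha).1.le (le_of_lt hε)
    simpa using this
  have t2 : Tendsto (fun ε : ℝ => b1_th B (s0 + ε * Complex.I)) (𝓝[>] 0)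
      (𝓝 (B.map fun _ => (0 : ℝ)).sum) := by
    refine tendsto_multiset_sum B fun a ha => ?_
    have h1 := (Complex.continuousAt_arg (x := ((1 + a * s0 : ℝ) : ℂ))
      (Or.inl (by simpa using hB a ha))).tendsto.comp (hc a)
    rwa [Complex.arg_ofReal_of_nonneg (hB a ha).le] at h1
  have h3 := le_of_tendsto_of_tendsto t1 (t2.add_const (n * Real.pi)) (by
    filter_upwards [self_mem_nhdsWithin] with ε hε
    exact h _ (by simpa using hε))
  simp at h3
  exact_mod_cast le_of_mul_le_mul_right h3 Real.pi_pos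

/-- interlacing: deleting a vertex removes at most one root from `(s0, 0)` -/
theorem root_count (Γ : SimpleGraph ι) (S0 : Finset ι) {s0 : ℝ} (hs : s0 < 0)
    (h0 : ∀ s, s0 ≤ s → s ≤ 0 → (mu Γ (univ \ S0)).eval s ≠ 0)
    (h1 : ∀ s, s ≤ s0 → (mu Γ univ).eval s ≠ 0) : (mu Γ univ).natDegree ≤ S0.card := by
  choose A hA1 hA2 hA3 using b1_factor Γ
  have key : ∀ s : ℂ, 0 < s.im → ∀ S : Finset ι,
      b1_th (A univ) s ≤ b1_th (A (univ \ S)) s + S.card * Real.pi := by
    intro s hs S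
    induction S using Finset.induction_on with
    | empty => simp
    | insert v S hv ih =>
      have hv' : v ∈ univ \ S := by simpa using hv
      have := b1_step (A (univ \ S)) (A ((univ \ S).erase v)) (fun a ha => (hA2 _ a ha).1)
        (fun a ha => (hA2 _ a ha).1) hs fun z hz => by
          rw [← hA3, ← hA3]
          exact ((b1_cone Γ hz _).2 v hv').2
      rw [sdiff_insert, card_insert_of_notMem hv]
      push_cast
      linarith
  rw [← hA1]
  refine b1_lim (A univ) (A (univ \ S0)) (s0 := s0) _ (fun a ha => ?_) (fun a ha => ?_)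
    fun s hs => key s hs S0
  · obtain ⟨a1, a2⟩ := hA2 _ a ha
    refine ⟨a1, ?_⟩
    have : s0 < -1 / a := by
      by_contra h
      exact h1 _ (not_lt.1 h) a2
    rw [lt_div_iff₀ a1] at this
    linarith
  · obtain ⟨a1, a2⟩ := hA2 _ a ha
    have : -1 / a < s0 := by
      by_contra h
      exact h0 _ (not_lt.1 h) (div_neg_of_neg_of_pos (by norm_num) a1).le a2
    rw [div_lt_iff₀ a1] at this
    linarith

end Pool.Agent.Lib.MP_f7f352_co.SX
end

-- part Pool.Agent.Lib.MP_f7f352_co.SX.B2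
section

set_option autoImplicit false

namespace Pool.Agent.Lib.MP_f7f352_co.SX

open Finset Polynomial Pool.Agent.Lib.MP_f7f352_co.U

/-- normalised value of the matching polynomial of a sub-board -/
noncomputable def b2_q (a c : ℕ) (B : Finset (ℕ × ℕ)) (s : ℝ) (S : Finset (Fin a))
    (I : Finset (Fin c)) : ℝ :=
  (mu (bip a c B) (S.disjSum I)).eval s / s ^ S.card

lemma b2_erase_inl {a c : ℕ} (S : Finset (Fin a)) (I : Finset (Fin c)) (v : Fin a) :
    (S.disjSum I).erase (Sum.inl v) = (S.erase v).disjSum I := by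
  ext x
  rcases x with x | x <;> simp

lemma b2_erase_inr {a c : ℕ} (S : Finset (Fin a)) (I : Finset (Fin c)) (u : Fin c) :
    (S.disjSum I).erase (Sum.inr u) = S.disjSum (I.erase u) := by
  ext x
  rcases x with x | x <;> simp

lemma b2_nbr_inl {a c : ℕ} (B : Finset (ℕ × ℕ)) (S : Finset (Fin a)) (I : Finset (Fin c))
    (v : Fin a) :
    nbr (bip a c B) (S.disjSum I) (Sum.inl v) =
      (I.filter fun u : Fin c => ((v : ℕ), (u : ℕ)) ∈ B).map Function.Embedding.inr := by
  ext x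
  rw [mem_nbr]
  rcases x with x | x
  · simp [bip]
  · simp [bip]

lemma b2_nbr_inr {a c : ℕ} (B : Finset (ℕ × ℕ)) (S : Finset (Fin a)) (I : Finset (Fin c))
    (u : Fin c) :
    nbr (bip a c B) (S.disjSum I) (Sum.inr u) =
      (S.filter fun v : Fin a => ((v : ℕ), (u : ℕ)) ∈ B).map Function.Embedding.inl := by
  ext x
  rw [mem_nbr]
  rcases x with x | x
  · simp [bip]
  · simp [bip]

lemma b2_row {a c : ℕ} (B : Finset (ℕ × ℕ)) {s : ℝ} (hs : s ≠ 0) {S : Finset (Fin a)}
    (I : Finset (Fin c)) {v : Fin a} (hv : v ∈ S) :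
    b2_q a c B s S I = s⁻¹ * b2_q a c B s (S.erase v) I +
      ∑ u ∈ I.filter (fun u : Fin c => ((v : ℕ), (u : ℕ)) ∈ B),
        b2_q a c B s (S.erase v) (I.erase u) := by
  have hm : (Sum.inl v : Fin a ⊕ Fin c) ∈ S.disjSum I := by simpa using hv
  have hc : S.card = (S.erase v).card + 1 := (card_erase_add_one hv).symm
  unfold b2_q
  rw [mu_vertex _ hm, b2_nbr_inl, sum_map, b2_erase_inl, eval_add, eval_mul, eval_X,
    eval_finsetSum, hc, ← sum_div]
  simp only [Function.Embedding.inr_apply, b2_erase_inr]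
  field_simp
  ring

lemma b2_col {a c : ℕ} (B : Finset (ℕ × ℕ)) {s : ℝ} (hs : s ≠ 0) (S : Finset (Fin a))
    {I : Finset (Fin c)} {u : Fin c} (hu : u ∈ I) :
    b2_q a c B s S I = b2_q a c B s S (I.erase u) +
      ∑ v ∈ S.filter (fun v : Fin a => ((v : ℕ), (u : ℕ)) ∈ B),
        b2_q a c B s (S.erase v) (I.erase u) := by
  have hm : (Sum.inr u : Fin a ⊕ Fin c) ∈ S.disjSum I := by simpa using hu
  unfold b2_q
  rw [mu_vertex _ hm, b2_nbr_inr, sum_map, b2_erase_inr, eval_add, eval_mul, eval_X,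
    eval_finsetSum, add_div, mul_sum, sum_div]
  congr 1
  refine sum_congr rfl fun v hv => ?_
  have hc : S.card = (S.erase v).card + 1 := (card_erase_add_one (mem_filter.1 hv).1).symm
  simp only [Function.Embedding.inl_apply, b2_erase_inl]
  rw [hc]
  field_simp
  ring

lemma b2_empty {a c : ℕ} (B : Finset (ℕ × ℕ)) (s : ℝ) (I : Finset (Fin c)) :
    b2_q a c B s ∅ I = 1 := by
  unfold b2_q
  rw [mu_of_no_edge]
  · simp
  · intro u hu v hv h
    obtain ⟨i, j, -, h | h⟩ := h
    · rw [h.1] at hu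
      simp at hu
    · rw [h.2] at hv
      simp at hv

lemma b2_deg {a c : ℕ} {B : Finset (ℕ × ℕ)}
    (hB : ∀ i < a, ∀ j, a ≤ j → j < c → (i, j) ∈ B) (I : Finset (Fin c)) (v : Fin a) :
    I.card ≤ (I.filter fun u : Fin c => ((v : ℕ), (u : ℕ)) ∈ B).card + a := by
  have h1 := card_filter_add_card_filter_not (s := I) (fun u : Fin c => ((v : ℕ), (u : ℕ)) ∈ B)
  have h2 : (I.filter fun u : Fin c => ¬ ((v : ℕ), (u : ℕ)) ∈ B).card ≤ (range a).card := by
    refine card_le_card_of_injOn (fun u => (u : ℕ)) ?_ ?_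
    · intro u hu
      have hu' := (mem_filter.1 (mem_coe.1 hu)).2
      simp only [coe_range, Set.mem_Iio]
      by_contra hlt
      exact hu' (hB v v.2 u (not_lt.1 hlt) u.2)
    · intro u _ u' _ h
      exact Fin.ext h
  rw [card_range] at h2
  omega

lemma b2_main {a c : ℕ} (ha : 2 ≤ a) (hc : 30 * a ≤ c) {B : Finset (ℕ × ℕ)}
    (hB : ∀ i < a, ∀ j, a ≤ j → j < c → (i, j) ∈ B) {s : ℝ} (hs : 2 ≤ -s * (a + c + 2))
    (j : ℕ) : ∀ (S : Finset (Fin a)) (I : Finset (Fin c)), S.card = j → c + j ≤ a + I.card →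
      0 < b2_q a c B s S I ∧ ∀ v ∈ S, 5 * a * b2_q a c B s (S.erase v) I ≤ b2_q a c B s S I := by
  have ha' : (2 : ℝ) ≤ a := by exact_mod_cast ha
  have hc' : (30 : ℝ) * a ≤ c := by exact_mod_cast hc
  have hneg : s < 0 := by
    by_contra h
    have : -s * ((a : ℝ) + c + 2) ≤ 0 :=
      mul_nonpos_of_nonpos_of_nonneg (by linarith) (by linarith)
    linarith
  have hs0 : s ≠ 0 := hneg.ne
  have hinv : -(((a : ℝ) + c + 2) / 2) ≤ s⁻¹ := by
    rw [← one_div, le_div_iff_of_neg hneg]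
    linarith
  induction j with
  | zero =>
    intro S I hS _
    rw [card_eq_zero] at hS
    subst hS
    exact ⟨by rw [b2_empty]; exact one_pos, by simp⟩
  | succ j ih =>
    intro S I hS hI
    have key : ∀ v ∈ S, 0 < b2_q a c B s (S.erase v) I ∧
        5 * a * b2_q a c B s (S.erase v) I ≤ b2_q a c B s S I := by
      intro v hv
      have hS' : (S.erase v).card = j := by rw [card_erase_of_mem hv]; omega
      have hpos := (ih (S.erase v) I hS' (by omega)).1
      refine ⟨hpos, ?_⟩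
      have hstep : ∀ u ∈ I.filter (fun u : Fin c => ((v : ℕ), (u : ℕ)) ∈ B),
          5 / 6 * b2_q a c B s (S.erase v) I ≤ b2_q a c B s (S.erase v) (I.erase u) := by
        intro u hu
        have huI := (mem_filter.1 hu).1
        have hI' : (I.erase u).card + 1 = I.card := card_erase_add_one huI
        obtain ⟨h1, h2⟩ := ih (S.erase v) (I.erase u) hS' (by omega)
        rw [b2_col B hs0 (S.erase v) huI]
        have h3 : ∑ w ∈ (S.erase v).filter (fun w : Fin a => ((w : ℕ), (u : ℕ)) ∈ B),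
            b2_q a c B s ((S.erase v).erase w) (I.erase u) ≤
            (((S.erase v).filter (fun w : Fin a => ((w : ℕ), (u : ℕ)) ∈ B)).card : ℝ) *
              (b2_q a c B s (S.erase v) (I.erase u) / (5 * a)) := by
          rw [← nsmul_eq_mul]
          refine sum_le_card_nsmul _ _ _ fun w hw => ?_
          rw [le_div_iff₀ (by linarith)]
          have := h2 w (mem_filter.1 hw).1
          linarith
        have h4 : (((S.erase v).filter (fun w : Fin a => ((w : ℕ), (u : ℕ)) ∈ B)).card : ℝ) ≤ a := by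
          have := card_le_univ ((S.erase v).filter (fun w : Fin a => ((w : ℕ), (u : ℕ)) ∈ B))
          rw [Fintype.card_fin] at this
          exact_mod_cast this
        have h5 := mul_le_mul_of_nonneg_right h4
          (show 0 ≤ b2_q a c B s (S.erase v) (I.erase u) / (5 * a) by positivity)
        have h6 : (a : ℝ) * (b2_q a c B s (S.erase v) (I.erase u) / (5 * a)) =
            b2_q a c B s (S.erase v) (I.erase u) / 5 := by
          field_simp
        linarith
      have hsum := card_nsmul_le_sum _ _ _ hstep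
      rw [nsmul_eq_mul] at hsum
      have hdeg : (c : ℝ) - 2 * a ≤
          ((I.filter (fun u : Fin c => ((v : ℕ), (u : ℕ)) ∈ B)).card : ℝ) := by
        have h1 := b2_deg hB I v
        have h2 : c ≤ (I.filter (fun u : Fin c => ((v : ℕ), (u : ℕ)) ∈ B)).card + 2 * a := by omega
        have h3 : (c : ℝ) ≤ ((I.filter (fun u : Fin c => ((v : ℕ), (u : ℕ)) ∈ B)).card : ℝ)
            + 2 * a := by exact_mod_cast h2
        linarith
      rw [b2_row B hs0 I hv]
      have h7 := mul_le_mul_of_nonneg_right hdeg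
        (show 0 ≤ 5 / 6 * b2_q a c B s (S.erase v) I by positivity)
      have h8 := mul_le_mul_of_nonneg_right hinv hpos.le
      have h9 : 0 ≤ ((c : ℝ) / 3 - 43 / 6 * a - 1) * b2_q a c B s (S.erase v) I :=
        mul_nonneg (by linarith) hpos.le
      nlinarith
    obtain ⟨v, hv⟩ : S.Nonempty := card_pos.1 (by omega)
    refine ⟨?_, fun w hw => (key w hw).2⟩
    obtain ⟨h1, h2⟩ := key v hv
    have : 0 < 5 * a * b2_q a c B s (S.erase v) I := by positivity
    linarith

/-- the matching polynomial of a board with many full columns has no very negative root -/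
theorem target_ne {a c : ℕ} (ha : 2 ≤ a) (hc : 30 * a ≤ c) {B : Finset (ℕ × ℕ)}
    (hB : ∀ i < a, ∀ j, a ≤ j → j < c → (i, j) ∈ B) {s : ℝ} (hs : 2 ≤ -s * (a + c + 2)) :
    (mu (bip a c B) univ).eval s ≠ 0 := by
  have h := (b2_main ha hc hB hs a univ univ (by simp) (by simp; omega)).1
  intro h0
  unfold b2_q at h
  rw [univ_disjSum_univ, h0, zero_div] at h
  exact lt_irrefl _ h

end Pool.Agent.Lib.MP_f7f352_co.SX
end

-- part Pool.Agent.Lib.MP_f7f352_co.SX.B3
section

set_option autoImplicit false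

namespace Pool.Agent.Lib.MP_f7f352_co.SX

open Finset Polynomial Pool.Agent.Lib.MP_f7f352_co.U

variable {ι : Type} [Fintype ι] [DecidableEq ι] {Γ : SimpleGraph ι} {U : Finset ι}

lemma b3_top_pos {a c : ℕ} (hc : 30 * a ≤ c) {B : Finset (ℕ × ℕ)}
    (hB : ∀ i < a, ∀ j, a ≤ j → j < c → (i, j) ∈ B) :
    0 < (mu (bip a c B) univ).coeff a := by
  have hZ : ((univ : Finset (Fin a)).map
      (Function.Embedding.inl : Fin a ↪ Fin a ⊕ Fin c)).card = a := by
    rw [card_map, card_univ, Fintype.card_fin]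
  have key := mu_coeff_pos (Γ := bip a c B) (U := univ)
    ((univ : Finset (Fin a)).map (Function.Embedding.inl : Fin a ↪ Fin a ⊕ Fin c))
    (subset_univ _) (by
      intro z hz
      rw [hZ]
      obtain ⟨i, -, rfl⟩ := mem_map.1 hz
      have hsub : ((univ : Finset (Fin (c - a))).image
          fun j : Fin (c - a) =>
            (Sum.inr ⟨a + (j : ℕ), by have := j.2; omega⟩ : Fin a ⊕ Fin c)) ⊆
          nbr (bip a c B) univ (Function.Embedding.inl i) := by
        intro w hw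
        obtain ⟨j, -, rfl⟩ := mem_image.1 hw
        rw [mem_nbr]
        refine ⟨mem_univ _, i, ⟨a + j, by have := j.2; omega⟩, ?_, Or.inl ⟨rfl, rfl⟩⟩
        exact hB i i.2 _ (Nat.le_add_right _ _) (by have := j.2; show a + (j : ℕ) < c; omega)
      have hcard := card_le_card hsub
      rw [card_image_of_injective _ (by
        intro j j' h
        have h1 := Sum.inr.inj h
        have h2 := congrArg Fin.val h1
        simp only at h2
        exact Fin.ext (by omega)), card_univ, Fintype.card_fin] at hcard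
      omega)
  rwa [hZ] at key

lemma b3_top_zero (a c : ℕ) (B : Finset (ℕ × ℕ)) {k : ℕ} (hk : a < k) :
    (mu (bip a c B) univ).coeff k = 0 := by
  refine mu_coeff_cover
    ((univ : Finset (Fin a)).map (Function.Embedding.inl : Fin a ↪ Fin a ⊕ Fin c)) ?_ ?_
  · rintro u - v - ⟨i, j, -, ⟨rfl, rfl⟩ | ⟨rfl, rfl⟩⟩
    · exact Or.inl (mem_map.2 ⟨i, mem_univ _, rfl⟩)
    · exact Or.inr (mem_map.2 ⟨i, mem_univ _, rfl⟩)
  · rw [card_map, card_univ, Fintype.card_fin]
    exact hk

lemma b3_nbr_mono (Γ : SimpleGraph ι) {U U' : Finset ι} (h : U ⊆ U') (v : ι) :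
    nbr Γ U v ⊆ nbr Γ U' v := fun _ hw =>
  mem_nbr.2 ⟨h (mem_nbr.1 hw).1, (mem_nbr.1 hw).2⟩

lemma b3_nbr_erase (Γ : SimpleGraph ι) (U : Finset ι) (v x : ι) :
    (nbr Γ U v).card ≤ (nbr Γ (U.erase x) v).card + 1 := by
  have h : nbr Γ U v ⊆ insert x (nbr Γ (U.erase x) v) := by
    intro w hw
    rw [mem_insert]
    by_cases hx : w = x
    · exact Or.inl hx
    · exact Or.inr (mem_nbr.2 ⟨mem_erase.2 ⟨hx, (mem_nbr.1 hw).1⟩, (mem_nbr.1 hw).2⟩)
  exact (card_le_card h).trans (card_insert_le _ _)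

/-- an edge away from a set of vertices of large degree extends a matching -/
lemma b3_edge_out (Γ : SimpleGraph ι) (S : Finset ι)
    (hS : ∀ z ∈ S, 2 * S.card + 1 ≤ (nbr Γ univ z).card) {u v : ι} (hu : u ∉ S) (hv : v ∉ S)
    (huv : Γ.Adj u v) : 0 < (mu Γ univ).coeff (S.card + 1) := by
  rw [mu_vertex Γ (mem_univ u), coeff_add, coeff_X_mul, finsetSum_coeff]
  have h1 := mu_coeff_nonneg Γ (univ.erase u) (S.card + 1)
  have h2 : 0 < (mu Γ ((univ.erase u).erase v)).coeff S.card := by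
    refine mu_coeff_pos S ?_ ?_
    · intro z hz
      refine mem_erase.2 ⟨?_, mem_erase.2 ⟨?_, mem_univ _⟩⟩
      · rintro rfl; exact hv hz
      · rintro rfl; exact hu hz
    · intro z hz
      have e1 := b3_nbr_erase Γ univ z u
      have e2 := b3_nbr_erase Γ (univ.erase u) z v
      have e3 := hS z hz
      omega
  have h3 : (mu Γ ((univ.erase u).erase v)).coeff S.card ≤
      ∑ w ∈ nbr Γ univ u, (mu Γ ((univ.erase u).erase w)).coeff S.card :=
    single_le_sum (f := fun w => (mu Γ ((univ.erase u).erase w)).coeff S.card)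
      (fun w _ => mu_coeff_nonneg Γ _ _) (mem_nbr.2 ⟨mem_univ _, huv⟩)
  linarith

/-- adjacent vertices of a triangle-free graph have disjoint neighbourhoods -/
lemma b3_deg_sum (h3 : Γ.CliqueFree 3) {u v : ι} (huv : Γ.Adj u v) :
    (nbr Γ univ u).card + (nbr Γ univ v).card ≤ Fintype.card ι := by
  rw [← card_union_of_disjoint]
  · exact card_le_univ _
  · rw [Finset.disjoint_left]
    intro w h1 h2
    exact h3 {u, v, w} (SimpleGraph.is3Clique_triple_iff.2
      ⟨huv, (mem_nbr.1 h1).2, (mem_nbr.1 h2).2⟩)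

/-- a star plus isolated vertices -/
lemma b3_star (S : Finset ι) (hout : ∀ u, u ∉ S → ∀ v, v ∉ S → ¬ Γ.Adj u v) (v : ι)
    (s : ℝ) : (mu Γ (univ \ S.erase v)).eval s =
      1 + s * ((nbr Γ (univ \ S.erase v) v).card : ℝ) := by
  have hvU : v ∈ univ \ S.erase v := mem_sdiff.2 ⟨mem_univ _, notMem_erase _ _⟩
  have hno : ∀ x ∈ (univ \ S.erase v).erase v, x ∉ S := by
    intro x hx hxS
    have h1 := mem_erase.1 hx
    exact (mem_sdiff.1 h1.2).2 (mem_erase.2 ⟨h1.1, hxS⟩)
  rw [mu_vertex Γ hvU, mu_of_no_edge (fun x hx y hy => hout x (hno x hx) y (hno y hy))]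
  have hs : ∑ w ∈ nbr Γ (univ \ S.erase v) v, mu Γ (((univ \ S.erase v).erase v).erase w) =
      ∑ _w ∈ nbr Γ (univ \ S.erase v) v, (1 : ℝ[X]) := by
    refine sum_congr rfl fun w _ => mu_of_no_edge fun x hx y hy => ?_
    exact hout x (hno x (mem_of_mem_erase hx)) y (hno y (mem_of_mem_erase hy))
  rw [hs]
  simp

/-- a graph with two independent sides is the graph of a board -/
lemma b3_iso {a c : ℕ} (Γ : SimpleGraph ι) (hι : Fintype.card ι = a + c) (S : Finset ι)
    (hS : S.card = a) (hin : ∀ u ∈ S, ∀ v ∈ S, ¬ Γ.Adj u v)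
    (hout : ∀ u, u ∉ S → ∀ v, v ∉ S → ¬ Γ.Adj u v) :
    ∃ B' ⊆ box a c, Nonempty (Γ ≃g bip a c B') := by
  classical
  have c1 : Fintype.card {x // x ∈ S} = a := by rw [Fintype.card_coe, hS]
  have c2 : Fintype.card {x // x ∉ S} = c := by
    rw [Fintype.card_subtype_compl, c1, hι]
    omega
  let e1 : Fin a ≃ {x // x ∈ S} := (Fintype.equivFinOfCardEq c1).symm
  let e2 : Fin c ≃ {x // x ∉ S} := (Fintype.equivFinOfCardEq c2).symm
  let e : Fin a ⊕ Fin c ≃ ι := (Equiv.sumCongr e1 e2).trans (Equiv.sumCompl fun x => x ∈ S)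
  have el : ∀ i, e (Sum.inl i) ∈ S := fun i => (e1 i).2
  have er : ∀ j, e (Sum.inr j) ∉ S := fun j => (e2 j).2
  let B' : Finset (ℕ × ℕ) := (box a c).filter fun p => ∃ (i : Fin a) (j : Fin c),
    p = ((i : ℕ), (j : ℕ)) ∧ Γ.Adj (e (Sum.inl i)) (e (Sum.inr j))
  have hB' : ∀ (i : Fin a) (j : Fin c), ((i : ℕ), (j : ℕ)) ∈ B' ↔
      Γ.Adj (e (Sum.inl i)) (e (Sum.inr j)) := by
    intro i j
    simp only [B', mem_filter, mem_box]
    constructor
    · rintro ⟨-, i', j', h1, h2⟩
      have h3 : i = i' := Fin.ext (congrArg Prod.fst h1)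
      have h4 : j = j' := Fin.ext (congrArg Prod.snd h1)
      rw [h3, h4]
      exact h2
    · intro h
      exact ⟨⟨i.2, j.2⟩, i, j, rfl, h⟩
  refine ⟨B', filter_subset _ _, ⟨(SimpleGraph.Iso.symm ⟨e, ?_⟩)⟩⟩
  intro x y
  constructor
  · intro h
    rcases x with i | j <;> rcases y with i' | j'
    · exact absurd h (hin _ (el i) _ (el i'))
    · exact ⟨i, j', (hB' i j').2 h, Or.inl ⟨rfl, rfl⟩⟩
    · exact ⟨i', j, (hB' i' j).2 h.symm, Or.inr ⟨rfl, rfl⟩⟩
    · exact absurd h (hout _ (er j) _ (er j'))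
  · rintro ⟨i, j, h1, ⟨rfl, rfl⟩ | ⟨rfl, rfl⟩⟩
    · exact (hB' i j).1 h1
    · exact ((hB' i j).1 h1).symm

/-- a triangle-free matching mate is bipartite with the same sides -/
theorem bip_of_mk {a c : ℕ} (ha : 2 ≤ a) (hc : 30 * a ≤ c) {B : Finset (ℕ × ℕ)}
    (hB : ∀ i < a, ∀ j, a ≤ j → j < c → (i, j) ∈ B) (Γ : SimpleGraph ι)
    (hι : Fintype.card ι = a + c) (h3 : Γ.CliqueFree 3)
    (he : ∀ k, mnum Γ k = mnum (bip a c B) k) :
    ∃ B' ⊆ box a c, Nonempty (Γ ≃g bip a c B') := by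
  have hmu : mu Γ univ = mu (bip a c B) univ := by
    ext k
    rw [mu_coeff_univ, mu_coeff_univ, he k]
  have hpos : 0 < (mu Γ univ).coeff a := by rw [hmu]; exact b3_top_pos hc hB
  have hzero : (mu Γ univ).coeff (a + 1) = 0 := by
    rw [hmu]; exact b3_top_zero a c B (Nat.lt_succ_self a)
  have hdeg : a ≤ (mu Γ univ).natDegree := le_natDegree_of_ne_zero hpos.ne'
  have hA : (2 : ℝ) ≤ a := by exact_mod_cast ha
  have hC : (30 : ℝ) * a ≤ c := by exact_mod_cast hc
  have hN : (0 : ℝ) < a + c + 2 := by linarith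
  have hs0 : -2 / ((a : ℝ) + c + 2) < 0 := div_neg_of_neg_of_pos (by norm_num) hN
  have h1 : ∀ s, s ≤ -2 / ((a : ℝ) + c + 2) → (mu Γ univ).eval s ≠ 0 := by
    intro s hs
    rw [hmu]
    refine target_ne ha hc hB ?_
    rw [le_div_iff₀ hN] at hs
    linarith
  have hroot : ∀ S0 : Finset ι, (∀ s : ℝ, s ≤ 0 → -s * ((a : ℝ) + c + 2) ≤ 2 →
      0 < (mu Γ (univ \ S0)).eval s) → a ≤ S0.card := by
    intro S0 h
    refine hdeg.trans (root_count Γ S0 hs0 (fun s h4 h5 => (h s h5 ?_).ne') h1)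
    rw [div_le_iff₀ hN] at h4
    linarith
  set S : Finset ι := univ.filter fun v => 2 * a + 3 ≤ (nbr Γ univ v).card with hSdef
  have hmem : ∀ v, v ∈ S ↔ 2 * a + 3 ≤ (nbr Γ univ v).card := by
    intro v
    simp only [hSdef, mem_filter, mem_univ, true_and]
  have hle : S.card ≤ a := by
    by_contra hlt
    obtain ⟨Z, hZS, hZ⟩ := exists_subset_card_eq (s := S) (n := a + 1) (by omega)
    have := mu_coeff_pos (Γ := Γ) (U := univ) Z (subset_univ _) (by
      intro z hz
      have := (hmem z).1 (hZS hz)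
      omega)
    rw [hZ, hzero] at this
    exact lt_irrefl _ this
  have hge : a ≤ S.card := by
    refine hroot S fun s h4 h5 => mu_pos_of_deg (2 * a + 2) ?_ h4 ?_
    · intro v hv
      have h6 : ¬ 2 * a + 3 ≤ (nbr Γ univ v).card := fun h => (mem_sdiff.1 hv).2 ((hmem v).2 h)
      have h7 := card_le_card (b3_nbr_mono Γ (subset_univ (univ \ S)) v)
      omega
    · push_cast
      have h6 : 0 ≤ -s := by linarith
      nlinarith [mul_nonneg h6 (show (0 : ℝ) ≤ (a + c + 2) - 8 * (2 * a + 2) by linarith)]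
  have hS : S.card = a := le_antisymm hle hge
  have hout : ∀ u, u ∉ S → ∀ v, v ∉ S → ¬ Γ.Adj u v := by
    intro u hu v hv huv
    have := b3_edge_out Γ S (by
      intro z hz
      have := (hmem z).1 hz
      omega) hu hv huv
    rw [hS, hzero] at this
    exact lt_irrefl _ this
  have hbig : ∀ v ∈ S, a + c < 2 * (nbr Γ univ v).card := by
    intro v hv
    by_contra hlt
    have h4 : a ≤ (S.erase v).card := by
      refine hroot (S.erase v) fun s h4 h5 => ?_
      rw [b3_star S hout v]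
      have h7 := card_le_card (b3_nbr_mono Γ (subset_univ (univ \ S.erase v)) v)
      have h8 : 2 * (nbr Γ (univ \ S.erase v) v).card ≤ a + c := by omega
      have h9 : (2 : ℝ) * ((nbr Γ (univ \ S.erase v) v).card : ℝ) ≤ a + c := by
        exact_mod_cast h8
      have h6 : 0 ≤ -s := by linarith
      rcases h6.eq_or_lt with h10 | h10
      · have : s = 0 := by linarith
        rw [this]
        norm_num
      · nlinarith [mul_nonneg h6 (sub_nonneg.2 h9)]
    rw [card_erase_of_mem hv, hS] at h4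
    omega
  have hin : ∀ u ∈ S, ∀ v ∈ S, ¬ Γ.Adj u v := by
    intro u hu v hv huv
    have e1 := b3_deg_sum h3 huv
    have e2 := hbig u hu
    have e3 := hbig v hv
    omega
  exact b3_iso Γ hι S hS hin hout

end Pool.Agent.Lib.MP_f7f352_co.SX
end

-- part Pool.Agent.Lib.MP_f7f352_co.SX.A0
section

set_option autoImplicit false

namespace Pool.Agent.Lib.MP_f7f352_co.SX

open Finset Polynomial Pool.Agent.Lib.MP_f7f352_co.U

variable {ι : Type} [Fintype ι] [DecidableEq ι] {V : Type} [Fintype V] [DecidableEq V]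
  {G : SimpleGraph V} {Γ : SimpleGraph ι} {b : ℕ} {cls : V → ι ⊕ Fin b} {port : ι → V}
  {ι' : Type} [Fintype ι'] [DecidableEq ι'] {V' : Type} [Fintype V'] [DecidableEq V']
  {G' : SimpleGraph V'} {Γ' : SimpleGraph ι'} {cls' : V' → ι' ⊕ Fin b} {port' : ι' → V'}

theorem pres_model (Γ : SimpleGraph ι) (b : ℕ) :
    Pres (model Γ b) Γ b (mcls ι b) (fun i => Sum.inl (i, 0)) := by
  refine ⟨fun i => ?_, fun j => ?_, fun i => rfl, fun u v => Iff.rfl⟩
  · have : cl (mcls ι b) (Sum.inl i) = (univ : Finset (Fin 3)).image fun t => Sum.inl (i, t) := by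
      ext v
      rcases v with ⟨a, t⟩ | ⟨a, t⟩
      · simp only [mem_cl, mcls, Sum.map_inl, Sum.inl.injEq, mem_image, mem_univ, true_and,
          Prod.mk.injEq]
        constructor
        · rintro rfl
          exact ⟨t, rfl, rfl⟩
        · rintro ⟨_, h, _⟩
          exact h.symm
      · simp [mcls]
    rw [this, card_image_of_injective _ (fun s t h => by simpa using h)]
    simp
  · have : cl (mcls ι b) (Sum.inr j) = (univ : Finset (Fin 2)).image fun t => Sum.inr (j, t) := by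
      ext v
      rcases v with ⟨a, t⟩ | ⟨a, t⟩
      · simp [mcls]
      · simp only [mem_cl, mcls, Sum.map_inr, Sum.inr.injEq, mem_image, mem_univ, true_and,
          Prod.mk.injEq]
        constructor
        · rintro rfl
          exact ⟨t, rfl, rfl⟩
        · rintro ⟨_, h, _⟩
          exact h.symm
    rw [this, card_image_of_injective _ (fun s t h => by simpa using h)]
    simp

lemma Pres.proper (h : Pres G Γ b cls port) : ∀ u v, G.Adj u v → cls u ≠ cls v :=
  fun u v huv => ((h.adj u v).1 huv).1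

lemma Pres.port_inj (h : Pres G Γ b cls port) : Function.Injective port := by
  intro i j hij
  have := h.cls_port i
  rw [hij, h.cls_port j] at this
  exact (Sum.inl.inj this).symm

lemma Pres.card_V (h : Pres G Γ b cls port) : Fintype.card V = 3 * Fintype.card ι + 2 * b := by
  have h1 := card_eq_sum_card_fiberwise (f := cls) (s := univ) (t := univ)
    (fun _ _ => mem_univ _)
  rw [← card_univ, h1, Fintype.sum_sum_type]
  have h2 : ∀ i, (univ.filter fun v => cls v = Sum.inl i).card = 3 := h.three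
  have h3 : ∀ j, (univ.filter fun v => cls v = Sum.inr j).card = 2 := h.two
  simp only [h2, h3, sum_const, card_univ, Fintype.card_fin, smul_eq_mul]
  ring

lemma Pres.cross_eq (h : Pres G Γ b cls port) (h3 : Γ.CliqueFree 3) :
    cross G cls = (edg Γ).image fun I => I.image port := by
  have key : ∀ u v, cls u ≠ cls v → ¬ G.Adj u v →
      ∃ i j, Γ.Adj i j ∧ u = port i ∧ v = port j := by
    intro u v h1 h2
    by_contra h4
    exact h2 ((h.adj u v).2 ⟨h1, h4⟩)
  ext I
  simp only [mem_cross, mem_image, mem_edg]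
  constructor
  · rintro ⟨h1, u, hu, v, hv, huv⟩
    obtain ⟨i, j, hij, rfl, rfl⟩ := key u v huv (h1 u hu v hv)
    refine ⟨{i, j}, ⟨i, j, hij, rfl⟩, ?_⟩
    rw [image_insert, image_singleton]
    refine Subset.antisymm (insert_subset hu (singleton_subset_iff.2 hv)) fun w hw => ?_
    have hk : ∃ k, w = port k := by
      by_cases h5 : cls w = cls (port i)
      · obtain ⟨k, _, _, h6, _⟩ := key w (port j) (fun e => huv (h5.symm.trans e)) (h1 _ hw _ hv)
        exact ⟨k, h6⟩
      · obtain ⟨k, _, _, h6, _⟩ := key w (port i) h5 (h1 _ hw _ hu)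
        exact ⟨k, h6⟩
    obtain ⟨k, rfl⟩ := hk
    by_contra hne
    simp only [mem_insert, mem_singleton, not_or] at hne
    have adjk : ∀ l, port l ∈ I → port k ≠ port l → Γ.Adj k l := by
      intro l hl hkl
      have h5 : cls (port k) ≠ cls (port l) := by
        rw [h.cls_port, h.cls_port]
        intro e
        exact hkl (by rw [Sum.inl.inj e])
      obtain ⟨k', l', h6, h7, h8⟩ := key _ _ h5 (h1 _ hw _ hl)
      rw [h.port_inj h7, h.port_inj h8]
      exact h6
    exact h3 {k, i, j} (SimpleGraph.is3Clique_triple_iff.2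
      ⟨adjk i hu hne.1, adjk j hv hne.2, hij⟩)
  · rintro ⟨_, ⟨i, j, hij, rfl⟩, rfl⟩
    rw [image_insert, image_singleton]
    refine ⟨?_, port i, by simp, port j, by simp, ?_⟩
    · intro u hu v hv hadj
      have h4 := (h.adj u v).1 hadj
      simp only [mem_insert, mem_singleton] at hu hv
      rcases hu with rfl | rfl <;> rcases hv with rfl | rfl
      · exact h4.1 rfl
      · exact h4.2 ⟨i, j, hij, rfl, rfl⟩
      · exact h4.2 ⟨j, i, hij.symm, rfl, rfl⟩
      · exact h4.1 rfl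
    · rw [h.cls_port, h.cls_port]
      intro e
      exact hij.ne (Sum.inl.inj e)

lemma a0_card_biUnion {M : Finset (Finset ι)} (hM : M ∈ pack (edg Γ)) :
    (M.biUnion id).card = 2 * M.card := by
  rw [card_biUnion (t := id) fun I hI J hJ hne => (mem_pack.1 hM).2 I hI J hJ hne,
    card_eq_sum_ones M, mul_sum]
  exact sum_congr rfl fun I hI => card_of_mem_edg ((mem_pack.1 hM).1 hI)

omit [Fintype ι] [Fintype V] in
lemma a0_pack_image (F : Finset (Finset ι)) (hp : Function.Injective port) :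
    pack (F.image fun I => I.image port) =
      (pack F).image fun M => M.image fun I => I.image port := by
  ext N
  simp only [mem_pack, mem_image]
  constructor
  · rintro ⟨h1, h2⟩
    obtain ⟨M, hM, rfl⟩ := subset_image_iff.1 h1
    refine ⟨M, ⟨hM, fun I hI J hJ hne => ?_⟩, rfl⟩
    exact (disjoint_image hp).1 (h2 _ (mem_image_of_mem _ hI) _ (mem_image_of_mem _ hJ)
      fun e => hne (image_injective hp e))
  · rintro ⟨M, ⟨h1, h2⟩, rfl⟩
    refine ⟨image_subset_image h1, fun I hI J hJ hne => ?_⟩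
    obtain ⟨I', hI', rfl⟩ := mem_image.1 hI
    obtain ⟨J', hJ', rfl⟩ := mem_image.1 hJ
    exact (disjoint_image hp).2 (h2 _ hI' _ hJ' fun e => hne (by rw [e]))

lemma a0_term {y : ℝ} (hy : 0 < y) (b : ℕ) {m N : ℕ} (hm : 2 * m ≤ N) :
    y ^ m * (y ^ 2 + y) ^ (b + 2 * m) * (y ^ 3 + 3 * y ^ 2 + y) ^ (N - 2 * m) =
      ((y ^ 2 + y) ^ b * (y ^ 3 + 3 * y ^ 2 + y) ^ N) *
        (y * (y + 1) ^ 2 / (y ^ 2 + 3 * y + 1) ^ 2) ^ m := by
  obtain ⟨c, rfl⟩ := Nat.exists_eq_add_of_le hm
  have h1 : (y ^ 3 + 3 * y ^ 2 + y) ^ 2 * (y * (y + 1) ^ 2 / (y ^ 2 + 3 * y + 1) ^ 2) =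
      y * (y ^ 2 + y) ^ 2 := by
    have : y ^ 2 + 3 * y + 1 ≠ 0 := by positivity
    field_simp
  rw [Nat.add_sub_cancel_left, pow_add, pow_add, pow_mul, pow_mul]
  have h2 := congrArg (· ^ m) h1
  simp only [mul_pow] at h2
  calc y ^ m * ((y ^ 2 + y) ^ b * ((y ^ 2 + y) ^ 2) ^ m) * (y ^ 3 + 3 * y ^ 2 + y) ^ c
      = (y ^ 2 + y) ^ b * (y ^ 3 + 3 * y ^ 2 + y) ^ c * (y ^ m * ((y ^ 2 + y) ^ 2) ^ m) := by
        ring
    _ = _ := by
        rw [← h2]
        generalize (y * (y + 1) ^ 2 / (y ^ 2 + 3 * y + 1) ^ 2) ^ m = q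
        generalize ((y ^ 3 + 3 * y ^ 2 + y) ^ 2) ^ m = p
        ring

lemma two_mul_card_le {M : Finset (Finset ι)} (hM : M ∈ pack (edg Γ)) :
    2 * M.card ≤ Fintype.card ι := by
  rw [← a0_card_biUnion hM]
  exact card_le_univ _

theorem Pres.W_eq (h : Pres G Γ b cls port) (h3 : Γ.CliqueFree 3) {S : Type} [CommSemiring S]
    (y : S) : W (fun _ => y) (ind G) univ = ∑ M ∈ pack (edg Γ),
      y ^ M.card * (y ^ 2 + y) ^ (b + 2 * M.card) *
        (y ^ 3 + 3 * y ^ 2 + y) ^ (Fintype.card ι - 2 * M.card) := by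
  have hφ : Function.Injective fun I : Finset ι => I.image port := image_injective h.port_inj
  rw [W_main _ G cls h.proper, h.cross_eq h3, a0_pack_image _ h.port_inj,
    sum_image fun M _ N _ e => image_injective hφ e]
  refine sum_congr rfl fun M hM => ?_
  have hb : (M.image fun I => I.image port).biUnion id = (M.biUnion id).image port := by
    ext v
    simp only [mem_biUnion, mem_image, id]
    constructor
    · rintro ⟨_, ⟨I, hI, rfl⟩, hv⟩
      obtain ⟨i, hi, rfl⟩ := mem_image.1 hv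
      exact ⟨i, ⟨I, hI, hi⟩, rfl⟩
    · rintro ⟨i, ⟨I, hI, hi⟩, rfl⟩
      exact ⟨_, ⟨I, hI, rfl⟩, mem_image_of_mem _ hi⟩
  have r2 : ∀ j, rest cls (M.image fun I => I.image port) (Sum.inr j) = 2 := by
    intro j
    rw [rest, hb, ← h.two j]
    congr 1
    refine sdiff_eq_self_of_disjoint (Finset.disjoint_left.2 fun v hv hv' => ?_)
    obtain ⟨i, _, rfl⟩ := mem_image.1 hv'
    rw [mem_cl, h.cls_port] at hv
    exact Sum.inl_ne_inr hv
  have r3 : ∀ i, rest cls (M.image fun I => I.image port) (Sum.inl i) =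
      if i ∈ M.biUnion id then 2 else 3 := by
    intro i
    rw [rest, hb]
    split_ifs with hi
    · have : cl cls (Sum.inl i) \ (M.biUnion id).image port = (cl cls (Sum.inl i)).erase (port i) := by
        ext v
        simp only [mem_sdiff, mem_erase, mem_cl]
        constructor
        · rintro ⟨h1, h2⟩
          refine ⟨?_, h1⟩
          rintro rfl
          exact h2 (mem_image_of_mem _ hi)
        · rintro ⟨h1, h2⟩
          refine ⟨h2, fun h4 => ?_⟩
          obtain ⟨k, _, rfl⟩ := mem_image.1 h4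
          rw [h.cls_port] at h2
          exact h1 (by rw [Sum.inl.inj h2])
      rw [this, card_erase_of_mem (mem_cl.2 (h.cls_port i)), h.three]
    · rw [← h.three i]
      congr 1
      refine sdiff_eq_self_of_disjoint (Finset.disjoint_left.2 fun v hv hv' => ?_)
      obtain ⟨k, hk, rfl⟩ := mem_image.1 hv'
      rw [mem_cl, h.cls_port] at hv
      exact hi (Sum.inl.inj hv ▸ hk)
  have b2 : bell (fun _ => y) 2 = y ^ 2 + y := by rw [bell_two]
  have b3 : bell (fun _ => y) 3 = y ^ 3 + 3 * y ^ 2 + y := by rw [bell_three]; ring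
  rw [Fintype.prod_sum_type, prod_const, card_image_of_injective _ hφ]
  simp only [r2, r3, apply_ite (bell fun _ => y), b2, b3]
  rw [prod_ite, prod_const, prod_const, prod_const, card_univ, Fintype.card_fin]
  have c1 : (univ.filter fun i => i ∈ M.biUnion id).card = 2 * M.card := by
    rw [← a0_card_biUnion hM]
    congr 1
    ext i
    simp only [mem_filter, mem_univ, true_and]
  have c2 : (univ.filter fun i => ¬ i ∈ M.biUnion id).card = Fintype.card ι - 2 * M.card := by
    have h4 := card_filter_add_card_filter_not (s := univ) (fun i => i ∈ M.biUnion id)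
    rw [c1, card_univ] at h4
    omega
  rw [c1, c2]
  ring

theorem Pres.mk_eq (h : Pres G Γ b cls port) (h3 : Γ.CliqueFree 3)
    (h' : Pres G' Γ' b cls' port') (h3' : Γ'.CliqueFree 3)
    (he : ∀ k, ncol G k = ncol G' k) (k : ℕ) : mnum Γ k = mnum Γ' k := by
  have hN : Fintype.card ι = Fintype.card ι' := by
    have h1 := card_eq_of_ncol he
    rw [h.card_V, h'.card_V] at h1
    omega
  have hs : ∀ y : ℝ, 0 < y →
      ∑ M ∈ pack (edg Γ), (y * (y + 1) ^ 2 / (y ^ 2 + 3 * y + 1) ^ 2) ^ M.card =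
      ∑ M ∈ pack (edg Γ'), (y * (y + 1) ^ 2 / (y ^ 2 + 3 * y + 1) ^ 2) ^ M.card := by
    intro y hy
    have h1 := W_bot_congr he y
    rw [h.W_eq h3, h'.W_eq h3', ← hN,
      sum_congr rfl fun M hM => a0_term hy b (two_mul_card_le hM),
      sum_congr rfl fun M hM => a0_term hy b (hN ▸ two_mul_card_le hM), ← mul_sum, ← mul_sum] at h1
    exact mul_left_cancel₀ (by positivity) h1
  have hp : (∑ M ∈ pack (edg Γ), X ^ M.card : ℝ[X]) = ∑ M ∈ pack (edg Γ'), X ^ M.card := by
    refine Polynomial.eq_of_infinite_eval_eq _ _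
      ((Set.Ioo_infinite (show (0 : ℝ) < 4 / 25 by norm_num)).mono fun s hs' => ?_)
    have hc : ContinuousOn (fun y : ℝ => y * (y + 1) ^ 2 / (y ^ 2 + 3 * y + 1) ^ 2)
        (Set.Icc 0 1) := by
      refine ContinuousOn.div (by fun_prop) (by fun_prop) fun y hy => ?_
      have := hy.1
      positivity
    have hi := intermediate_value_Ioo (show (0 : ℝ) ≤ 1 by norm_num) hc
    have hm : s ∈ Set.Ioo ((fun y : ℝ => y * (y + 1) ^ 2 / (y ^ 2 + 3 * y + 1) ^ 2) 0)
        ((fun y : ℝ => y * (y + 1) ^ 2 / (y ^ 2 + 3 * y + 1) ^ 2) 1) := by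
      refine ⟨?_, ?_⟩
      · have := hs'.1
        norm_num
        exact this
      · have := hs'.2
        norm_num
        exact this
    obtain ⟨y, hy, rfl⟩ := hi hm
    simp only [Set.mem_ofPred_eq, eval_finsetSum, eval_pow, eval_X]
    exact hs y hy.1
  have hc := congrArg (fun p : ℝ[X] => p.coeff k) hp
  simp only [finsetSum_coeff, coeff_X_pow] at hc
  have e : ∀ {κ : Type} [Fintype κ] [DecidableEq κ] (Δ : SimpleGraph κ),
      ∑ M ∈ pack (edg Δ), (if k = M.card then (1 : ℝ) else 0) = (mnum Δ k : ℝ) := by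
    intro κ _ _ Δ
    rw [mnum, pk, card_filter]
    push_cast
    exact sum_congr rfl fun M _ => by simp only [eq_comm]
  rw [e, e] at hc
  exact_mod_cast hc

end Pool.Agent.Lib.MP_f7f352_co.SX
end

-- part Pool.Agent.Lib.MP_f7f352_co.SX.A2
section

set_option autoImplicit false

namespace Pool.Agent.Lib.MP_f7f352_co.SX

open Finset Polynomial Pool.Agent.Lib.MP_f7f352_co.U

variable {ι : Type} [Fintype ι] [DecidableEq ι] {V : Type} [Fintype V] [DecidableEq V]
  {G : SimpleGraph V} {Γ : SimpleGraph ι} {b : ℕ} {cls : V → ι ⊕ Fin b} {port : ι → V}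
  {ι' : Type} [Fintype ι'] [DecidableEq ι'] {V' : Type} [Fintype V'] [DecidableEq V']
  {G' : SimpleGraph V'} {Γ' : SimpleGraph ι'} {cls' : V' → ι' ⊕ Fin b} {port' : ι' → V'}

lemma a2_exists_cls (G' : SimpleGraph V') (r : ℕ) (h : (Wb G').coeff r ≠ 0) :
    ∃ c : V' → Fin r, (∀ u v, G'.Adj u v → c u ≠ c v) ∧ Function.Surjective c := by
  unfold Wb W at h
  rw [finsetSum_coeff] at h
  obtain ⟨π, hπ, h1⟩ := exists_ne_zero_of_sum_ne_zero h
  rw [prod_const, coeff_X_pow] at h1
  have h2 : r = π.card := by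
    by_contra hne
    exact h1 (if_neg hne)
  obtain ⟨blk, hb1, _, hb3⟩ := exists_blk hπ
  have e : π ≃ Fin r := Fintype.equivFinOfCardEq (by simp [h2])
  refine ⟨fun v => e (blk v), fun u v huv h => ?_, e.surjective.comp hb3⟩
  have h1 : blk u = blk v := e.injective h
  exact (mem_ind.1 ((mem_part.1 hπ).1.1 (blk u).2)).2 u (hb1 u) v (h1 ▸ hb1 v) huv

lemma a2_sig (p : ℕ) (hp : p ≠ 0) : p.choose 2 ≤ sig p ∧ (p.choose 2 = sig p → p ≤ 3) := by
  have h := (sig_ge p hp).1
  rcases Nat.lt_or_ge p 4 with h4 | h4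
  · obtain ⟨q, rfl⟩ := Nat.exists_eq_succ_of_ne_zero hp
    have h2 := sig_succ q
    have h5 : q < 3 := by omega
    interval_cases q <;> simp [Nat.choose] at h2 ⊢ <;> omega
  · omega

lemma a2_pow_zero (p : ℕ[X]) (hp : p.coeff 0 = 1) (k : ℕ) : (p ^ k).coeff 0 = 1 := by
  induction k with
  | zero => simp
  | succ k ih => rw [pow_succ, mul_coeff_zero, ih, hp, mul_one]

lemma a2_pow_one (p : ℕ[X]) (hp : p.coeff 0 = 1) (k : ℕ) : (p ^ k).coeff 1 = k * p.coeff 1 := by
  induction k with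
  | zero => simp [coeff_one]
  | succ k ih => rw [pow_succ, mul_coeff_one, ih, hp, a2_pow_zero p hp]; ring

/-- the reduced term of a matching with `m` edges -/
noncomputable def a2_term (N b m : ℕ) : ℕ[X] :=
  (X + 1) ^ (b + 2 * m) * (X ^ 2 + 3 * X + 1) ^ (N - 2 * m)

lemma a2_term_zero (N b m : ℕ) : (a2_term N b m).coeff 0 = 1 := by
  rw [a2_term, mul_coeff_zero, a2_pow_zero _ (by simp), a2_pow_zero _ (by simp), mul_one]

lemma a2_term_one (N b : ℕ) : (a2_term N b 0).coeff 1 = 3 * N + b := by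
  rw [a2_term, mul_coeff_one, a2_pow_zero _ (by simp), a2_pow_zero _ (by simp),
    a2_pow_one _ (by simp), a2_pow_one _ (by simp)]
  simp [coeff_one, coeff_X]
  ring

lemma a2_Wb (h : Pres G Γ b cls port) (h3 : Γ.CliqueFree 3) :
    Wb G = X ^ (Fintype.card ι + b) *
      ∑ M ∈ pack (edg Γ), X ^ M.card * a2_term (Fintype.card ι) b M.card := by
  rw [Wb, h.W_eq h3, mul_sum]
  refine sum_congr rfl fun M hM => ?_
  obtain ⟨k, hk⟩ := Nat.exists_eq_add_of_le (two_mul_card_le hM)
  rw [a2_term, hk, Nat.add_sub_cancel_left,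
    show (X ^ 2 + X : ℕ[X]) = X * (X + 1) by ring,
    show (X ^ 3 + 3 * X ^ 2 + X : ℕ[X]) = X * (X ^ 2 + 3 * X + 1) by ring, mul_pow, mul_pow]
  ring

lemma a2_mnum_one (Γ : SimpleGraph ι) : mnum Γ 1 = (edg Γ).card := by
  rw [mnum, card_eq_sum_ones, sum_pk_one, ← card_eq_sum_ones]

lemma a2_Wb_lt (h : Pres G Γ b cls port) (h3 : Γ.CliqueFree 3) {k : ℕ}
    (hk : k < Fintype.card ι + b) : (Wb G).coeff k = 0 := by
  rw [a2_Wb h h3, coeff_X_pow_mul', if_neg (by omega)]

lemma a2_Wb_zero (h : Pres G Γ b cls port) (h3 : Γ.CliqueFree 3) :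
    (Wb G).coeff (Fintype.card ι + b) = 1 := by
  rw [a2_Wb h h3, coeff_X_pow_mul', if_pos le_rfl, Nat.sub_self, finsetSum_coeff,
    sum_pack_eq _ _ 1]
  · simp only [sum_range_succ, range_zero, sum_empty, zero_add, pk_zero, sum_singleton,
      card_empty, pow_zero, one_mul, a2_term_zero]
  · intro M _ h1
    rw [coeff_X_pow_mul', if_neg (by omega)]

lemma a2_Wb_one (h : Pres G Γ b cls port) (h3 : Γ.CliqueFree 3) :
    (Wb G).coeff (Fintype.card ι + b + 1) = 3 * Fintype.card ι + b + mnum Γ 1 := by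
  rw [a2_Wb h h3, coeff_X_pow_mul', if_pos (by omega), Nat.add_sub_cancel_left, finsetSum_coeff,
    sum_pack_eq _ _ 2]
  · simp only [sum_range_succ, range_zero, sum_empty, zero_add, pk_zero, sum_singleton,
      sum_pk_one, card_empty, card_singleton, pow_zero, one_mul, a2_term_one]
    rw [a2_mnum_one, card_eq_sum_ones (edg Γ)]
    congr 1
    refine sum_congr rfl fun I _ => ?_
    rw [coeff_X_pow_mul', if_pos le_rfl, Nat.sub_self, a2_term_zero]
  · intro M _ h1
    rw [coeff_X_pow_mul', if_neg (by omega)]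

lemma a2_Wt_one (h : Pres G Γ b cls port) (h3 : Γ.CliqueFree 3) :
    (Wt G).coeff 1 = ((3 * Fintype.card ι + b + mnum Γ 1 : ℕ) : ℤ) := by
  rw [top_one G cls h.proper, Fintype.sum_sum_type]
  have h1 : ((cross G cls).filter fun I => I.card = 2).card = mnum Γ 1 := by
    rw [filter_true_of_mem, h.cross_eq h3, card_image_of_injective _
      (image_injective h.port_inj), a2_mnum_one]
    intro I hI
    rw [h.cross_eq h3] at hI
    obtain ⟨J, hJ, rfl⟩ := mem_image.1 hI
    rw [card_image_of_injective _ h.port_inj, card_of_mem_edg hJ]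
  rw [h1]
  simp only [h.three, h.two, sum_const, card_univ, Fintype.card_fin, nsmul_eq_mul]
  push_cast
  simp [Nat.choose]
  ring

/-- a chromatic mate has classes of size at most three and only pairs across classes -/
theorem small_classes (h : Pres G Γ b cls port) (h3 : Γ.CliqueFree 3) (G' : SimpleGraph V')
    (he : ∀ k, ncol G k = ncol G' k) :
    ∃ c : V' → Fin (Fintype.card ι + b), (∀ u v, G'.Adj u v → c u ≠ c v) ∧
      (∀ i, 1 ≤ (cl c i).card ∧ (cl c i).card ≤ 3) ∧ (∀ I ∈ cross G' c, I.card = 2) ∧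
      ∑ i, (cl c i).card = 3 * Fintype.card ι + 2 * b ∧
      ∑ i, (cl c i).card.choose 2 + (cross G' c).card = 3 * Fintype.card ι + b + mnum Γ 1 := by
  have hb : Wb G' = Wb G := (W_bot_congr he _).symm
  have ht : Wt G' = Wt G := (W_top_congr he _).symm
  obtain ⟨c, hc, hsurj⟩ := a2_exists_cls G' (Fintype.card ι + b)
    (by rw [hb, a2_Wb_zero h h3]; exact one_ne_zero)
  have hne : ∀ i, (cl c i).card ≠ 0 := by
    intro i
    obtain ⟨v, hv⟩ := hsurj i
    exact (card_pos.2 ⟨v, mem_cl.2 hv⟩).ne'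
  have hsw : ∀ I ∈ cross G' c, ∀ i, rest c {I} i ≠ 0 := fun I hI i =>
    no_swallow G' c hc hne
      (fun k hk => by rw [hb]; exact a2_Wb_lt h h3 (by rwa [Fintype.card_fin] at hk))
      (by rw [hb, Fintype.card_fin, a2_Wb_zero h h3]) hI i
  have c1 := bot_one_ge G' c hc hne hsw
  rw [Fintype.card_fin, hb, a2_Wb_one h h3] at c1
  have c2 := top_one G' c hc
  rw [ht, a2_Wt_one h h3] at c2
  have c2' : 3 * Fintype.card ι + b + mnum Γ 1 = ∑ i, (cl c i).card.choose 2 +
      ((cross G' c).filter fun I => I.card = 2).card := by exact_mod_cast c2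
  have c3 : ∑ i, (cl c i).card = 3 * Fintype.card ι + 2 * b := by
    rw [← h.card_V, card_eq_of_ncol he, ← card_univ (α := V'),
      card_eq_sum_card_fiberwise (f := c) (t := univ) fun _ _ => mem_univ _]
    rfl
  have c4 : ((cross G' c).filter fun I => I.card = 2).card ≤ (cross G' c).card :=
    card_filter_le _ _
  have c5 : ∑ i, (cl c i).card.choose 2 ≤ ∑ i, sig (cl c i).card :=
    sum_le_sum fun i _ => (a2_sig _ (hne i)).1
  have c6 : ∑ i, (cl c i).card.choose 2 = ∑ i, sig (cl c i).card := by omega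
  have c7 : ((cross G' c).filter fun I => I.card = 2).card = (cross G' c).card := by omega
  refine ⟨c, hc, fun i => ⟨Nat.one_le_iff_ne_zero.2 (hne i), ?_⟩,
    fun I hI => card_filter_eq_iff.1 c7 I hI, c3, by omega⟩
  exact (a2_sig _ (hne i)).2 ((sum_eq_sum_iff_of_le fun i _ => (a2_sig _ (hne i)).1).1 c6 i
    (mem_univ i))

/-- the symmetrised Touchard polynomials -/
noncomputable def tau (p : ℕ) : ℕ[X] := if p = 2 then X else if p = 3 then X ^ 2 + 1 else 1

/-- evaluation at a real number -/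
noncomputable def a2_ev (w : ℝ) : ℕ[X] →+* ℝ := eval₂RingHom (Nat.castRingHom ℝ) w

lemma a2_ev_X (w : ℝ) : a2_ev w X = w := by simp [a2_ev]

lemma a2_ev_tau_pos {w : ℝ} (hw : 0 < w) (p : ℕ) : 0 < a2_ev w (tau p) := by
  unfold tau
  split_ifs
  · rwa [a2_ev_X]
  · rw [map_add, map_pow, a2_ev_X, map_one]; positivity
  · rw [map_one]; exact one_pos

lemma a2_bell {t : ℝ} (ht : t ≠ 0) {p : ℕ} (hp : p ≤ 3) :
    bell (fun _ => t ^ 2) p =
      t ^ (p + 1) * (a2_ev (t + t⁻¹) (tau p) * t⁻¹ ^ (if p = 0 then 1 else 0)) := by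
  interval_cases p
  · rw [bell_zero]
    simp [tau, ht]
  · rw [bell_one]
    simp [tau]
  · rw [bell_two]
    simp only [tau, if_true, a2_ev_X]
    simp
    field_simp
  · rw [bell_three]
    simp only [tau, if_true, if_false, map_add, map_pow, map_one, a2_ev_X,
      show ¬ (3 = 2) by decide, show ¬ (3 = 0) by decide]
    field_simp
    ring

lemma a2_real (h : Pres G Γ b cls port) (h3 : Γ.CliqueFree 3) (G' : SimpleGraph V')
    (he : ∀ k, ncol G k = ncol G' k) (c : V' → Fin (Fintype.card ι + b))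
    (hc : ∀ u v, G'.Adj u v → c u ≠ c v) (hs : ∀ i, (cl c i).card ≤ 3)
    (hp : ∀ I ∈ cross G' c, I.card = 2) {t : ℝ} (ht : t ≠ 0) :
    ∑ M ∈ pack (cross G' c), a2_ev (t + t⁻¹) (∏ i, tau (rest c M i)) *
        t⁻¹ ^ (∑ i, if rest c M i = 0 then 1 else 0) =
      a2_ev (t + t⁻¹) (∑ M ∈ pack (edg Γ),
        X ^ (b + 2 * M.card) * (X ^ 2 + 1) ^ (Fintype.card ι - 2 * M.card)) := by
  have h1 := W_bot_congr he (t ^ 2)
  rw [h.W_eq h3, W_main _ G' c hc] at h1
  have c3 : ∑ i, (cl c i).card = 3 * Fintype.card ι + 2 * b := by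
    rw [← h.card_V, card_eq_of_ncol he, ← card_univ (α := V'),
      card_eq_sum_card_fiberwise (f := c) (t := univ) fun _ _ => mem_univ _]
    rfl
  refine mul_left_cancel₀ (pow_ne_zero (4 * Fintype.card ι + 3 * b) ht) ?_
  rw [map_sum, mul_sum, mul_sum]
  refine Eq.trans ?_ (Eq.trans h1.symm ?_)
  · refine sum_congr rfl fun M hM => ?_
    have hr : ∀ i, rest c M i ≤ 3 := fun i => by
      have := rest_add c hM i
      have := hs i
      omega
    have hsum : 2 * M.card + ∑ i, (rest c M i + 1) = 4 * Fintype.card ι + 3 * b := by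
      have h2 : ∑ i, (rest c M i + ∑ I ∈ M, tt c I i) = ∑ i, (cl c i).card :=
        sum_congr rfl fun i _ => rest_add c hM i
      have h4 : ∑ I ∈ M, ∑ i, tt c I i = ∑ I ∈ M, 2 := sum_congr rfl fun I hI => by
        rw [sum_tt, hp I ((mem_pack.1 hM).1 hI)]
      rw [sum_add_distrib, sum_comm, h4, c3, sum_const, smul_eq_mul] at h2
      rw [sum_add_distrib, sum_const, card_univ, Fintype.card_fin, smul_eq_mul]
      omega
    rw [prod_congr rfl fun i _ => a2_bell ht (hr i), prod_const, prod_mul_distrib,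
      prod_mul_distrib, prod_pow_eq_pow_sum, prod_pow_eq_pow_sum, ← hsum, map_prod, pow_add,
      pow_mul, mul_assoc]
  · refine sum_congr rfl fun M hM => ?_
    obtain ⟨k, hk⟩ := Nat.exists_eq_add_of_le (two_mul_card_le hM)
    have e2 : (t ^ 2) ^ 2 + t ^ 2 = t ^ 3 * (t + t⁻¹) := by field_simp
    have e3 : (t ^ 2) ^ 3 + 3 * (t ^ 2) ^ 2 + t ^ 2 = t ^ 4 * ((t + t⁻¹) ^ 2 + 1) := by
      field_simp
      ring
    simp only [map_mul, map_pow, map_add, map_one, a2_ev_X]
    rw [e2, e3, hk, Nat.add_sub_cancel_left, mul_pow, mul_pow]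
    ring

/-- the identity in the variable `t + 1 / t` -/
theorem w_identity (h : Pres G Γ b cls port) (h3 : Γ.CliqueFree 3) (G' : SimpleGraph V')
    (he : ∀ k, ncol G k = ncol G' k) (c : V' → Fin (Fintype.card ι + b))
    (hc : ∀ u v, G'.Adj u v → c u ≠ c v) (hs : ∀ i, (cl c i).card ≤ 3)
    (hp : ∀ I ∈ cross G' c, I.card = 2) :
    ∑ M ∈ pack (cross G' c), ∏ i, tau (rest c M i) =
      ∑ M ∈ pack (edg Γ), X ^ (b + 2 * M.card) * (X ^ 2 + 1) ^ (Fintype.card ι - 2 * M.card) := by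
  have hpos : ∀ M : Finset (Finset V'), 0 < a2_ev (2 + 2⁻¹) (∏ i, tau (rest c M i)) := by
    intro M
    rw [map_prod]
    exact prod_pos fun i _ => a2_ev_tau_pos (by norm_num) _
  have hf : ∀ M ∈ pack (cross G' c), (∑ i, if rest c M i = 0 then 1 else 0) = 0 := by
    have h1 := a2_real h h3 G' he c hc hs hp (t := 2) (by norm_num)
    have h2 := a2_real h h3 G' he c hc hs hp (t := 2⁻¹) (by norm_num)
    rw [inv_inv, add_comm (2⁻¹ : ℝ) 2, ← h1] at h2
    intro M hM
    have h4 := (sum_eq_sum_iff_of_le fun M _ => mul_le_mul_of_nonneg_left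
      (pow_le_pow_left₀ (by norm_num) (by norm_num : (2⁻¹ : ℝ) ≤ 2) _) (hpos M).le).1 h2.symm M hM
    have h5 := mul_left_cancel₀ (hpos M).ne' h4
    by_contra hne
    exact absurd h5 (pow_lt_pow_left₀ (by norm_num : (2⁻¹ : ℝ) < 2) (by norm_num) hne).ne
  apply Polynomial.map_injective (Nat.castRingHom ℝ) Nat.cast_injective
  apply eq_of_infinite_eval_eq
  refine Set.infinite_of_not_bddAbove ?_
  rintro ⟨B, hB⟩
  have ht : (0 : ℝ) < |B| + 1 := by positivity
  have h1 := a2_real h h3 G' he c hc hs hp ht.ne'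
  rw [sum_congr rfl fun M hM => by rw [hf M hM, pow_zero, mul_one], ← map_sum] at h1
  have h2 : |B| + 1 + (|B| + 1)⁻¹ ≤ B := hB (by
    rw [Set.mem_ofPred_eq, eval_map, eval_map]
    exact h1)
  have h4 := le_abs_self B
  have h5 := inv_pos.2 ht
  linarith

end Pool.Agent.Lib.MP_f7f352_co.SX
end
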