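import Mathlib
import Pool.Agent.Lib.MP_f7f352_co.SX.A2

set_option autoImplicit false

namespace Pool.Agent.Lib.MP_f7f352_co.SX

open Finset Polynomial Pool.Agent.Lib.MP_f7f352_co.U

variable {ι : Type} [Fintype ι] [DecidableEq ι] {V : Type} [Fintype V] [DecidableEq V]
  {G : SimpleGraph V} {Γ : SimpleGraph ι} {b : ℕ} {cls : V → ι ⊕ Fin b} {port : ι → V}
  {ι' : Type} [Fintype ι'] [DecidableEq ι'] {V' : Type} [Fintype V'] [DecidableEq V']
  {G' : SimpleGraph V'} {Γ' : SimpleGraph ι'} {cls' : V' → ι' ⊕ Fin b} {port' : ι' → V'}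

lemma a1_fib (h : Pres G Γ b cls port) (h' : Pres G' Γ' b cls' port') (e : Γ ≃g Γ')
    (k : ι ⊕ Fin b) :
    ∃ φ : {v // cls v = k} ≃ {v' // Sum.map e.symm id (cls' v') = k},
      ∀ i (hi : cls (port i) = k), (φ ⟨port i, hi⟩).1 = port' (e i) := by
  have hc : (cl cls k).card = (cl cls' (Sum.map e id k)).card := by
    cases k with
    | inl i => exact (h.three i).trans (h'.three (e i)).symm
    | inr j => exact (h.two j).trans (h'.two j).symm
  have hk : ∀ v', v' ∈ cl cls' (Sum.map e id k) ↔ Sum.map e.symm id (cls' v') = k := by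
    intro v'
    rw [mem_cl]
    constructor
    · intro hv
      rw [hv]
      cases k with
      | inl i => simp
      | inr j => simp
    · intro hv
      rw [← hv]
      cases cls' v' with
      | inl i => simp
      | inr j => simp
  let φ : {v // cls v = k} ≃ {v' // Sum.map e.symm id (cls' v') = k} :=
    ((Equiv.subtypeEquivRight (fun v => (mem_cl (cls := cls) (i := k) (v := v)).symm)).trans
      (Finset.equivOfCardEq hc)).trans (Equiv.subtypeEquivRight hk)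
  cases k with
  | inl i =>
    have hp : Sum.map e.symm id (cls' (port' (e i))) = (Sum.inl i : ι ⊕ Fin b) := by
      rw [h'.cls_port]
      simp
    refine ⟨φ.trans (Equiv.swap (φ ⟨port i, h.cls_port i⟩) ⟨port' (e i), hp⟩), ?_⟩
    intro j hj
    have hji : j = i := by
      have h1 := hj
      rw [h.cls_port] at h1
      exact Sum.inl.inj h1
    subst hji
    rw [Equiv.trans_apply, Equiv.swap_apply_left]
  | inr j =>
    refine ⟨φ, fun i hi => ?_⟩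
    have h1 := hi
    rw [h.cls_port] at h1
    cases h1

theorem Pres.iso (h : Pres G Γ b cls port) (h' : Pres G' Γ' b cls' port') (e : Γ ≃g Γ') :
    Nonempty (G ≃g G') := by
  choose φ hφ using a1_fib h h' e
  let ψ : V ≃ V' := Equiv.ofFiberEquiv (f := cls) (g := fun v' => Sum.map e.symm id (cls' v')) φ
  have hψ : ∀ v, Sum.map e.symm id (cls' (ψ v)) = cls v := fun v =>
    Equiv.ofFiberEquiv_map (f := cls) (g := fun v' => Sum.map e.symm id (cls' v')) φ v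
  have hp : ∀ i, ψ (port i) = port' (e i) := fun i => hφ (cls (port i)) i rfl
  have hinj : Function.Injective (Sum.map e.symm id : ι' ⊕ Fin b → ι ⊕ Fin b) :=
    Sum.map_injective.2 ⟨e.symm.injective, Function.injective_id⟩
  refine ⟨⟨ψ, ?_⟩⟩
  intro u v
  rw [h.adj, h'.adj]
  have h1 : cls' (ψ u) = cls' (ψ v) ↔ cls u = cls v := by
    rw [← hψ u, ← hψ v]
    exact hinj.eq_iff.symm
  refine and_congr (not_congr h1) (not_congr ⟨?_, ?_⟩)
  · rintro ⟨i, j, hij, hu, hv⟩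
    refine ⟨e.symm i, e.symm j, e.symm.map_adj_iff.2 hij, ψ.injective ?_, ψ.injective ?_⟩
    · rw [hp, hu]
      simp
    · rw [hp, hv]
      simp
  · rintro ⟨i, j, hij, rfl, rfl⟩
    exact ⟨e i, e j, e.map_adj_iff.2 hij, hp i, hp j⟩

lemma a1_le (e : Γ ≃g Γ') (k : ℕ) : mnum Γ k ≤ mnum Γ' k := by
  have hi : Function.Injective (fun I : Finset ι => I.image e) := image_injective e.injective
  refine card_le_card_of_injOn (fun M => M.image fun I => I.image e) ?_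
    (fun M _ N _ hMN => image_injective hi hMN)
  intro M hM
  obtain ⟨hM1, hM2⟩ := mem_pk.1 (mem_coe.1 hM)
  obtain ⟨hs, hd⟩ := mem_pack.1 hM1
  refine mem_coe.2 (mem_pk.2 ⟨mem_pack.2 ⟨?_, ?_⟩, ?_⟩)
  · intro I hI
    obtain ⟨J, hJ, rfl⟩ := mem_image.1 hI
    obtain ⟨u, v, huv, rfl⟩ := mem_edg.1 (hs hJ)
    exact mem_edg.2 ⟨e u, e v, e.map_adj_iff.2 huv, by rw [image_insert, image_singleton]⟩
  · intro I hI J hJ hne
    obtain ⟨I', hI', rfl⟩ := mem_image.1 hI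
    obtain ⟨J', hJ', rfl⟩ := mem_image.1 hJ
    exact (disjoint_image e.injective).2 (hd I' hI' J' hJ' fun h => hne (h ▸ rfl))
  · rw [card_image_of_injective _ hi, hM2]

theorem mk_iso (e : Γ ≃g Γ') (k : ℕ) : mnum Γ k = mnum Γ' k :=
  le_antisymm (a1_le e k) (a1_le e.symm k)

lemma a1_side {a c : ℕ} {B : Finset (ℕ × ℕ)} {u v : Fin a ⊕ Fin c} (h : (bip a c B).Adj u v) :
    u.isLeft ≠ v.isLeft := by
  obtain ⟨i, j, _, ⟨rfl, rfl⟩ | ⟨rfl, rfl⟩⟩ := h <;> simp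

theorem bip_cliqueFree (a c : ℕ) (B : Finset (ℕ × ℕ)) : (bip a c B).CliqueFree 3 := by
  intro s hs
  obtain ⟨u, v, w, huv, huw, hvw, _⟩ := SimpleGraph.is3Clique_iff.1 hs
  have h1 := a1_side huv
  have h2 := a1_side huw
  have h3 := a1_side hvw
  revert h1 h2 h3
  cases u.isLeft <;> cases v.isLeft <;> cases w.isLeft <;> simp

/-- the edge of a cell -/
def a1_cell (a c : ℕ) (e : ℕ × ℕ) : Finset (Fin a ⊕ Fin c) :=
  (univ.filter fun i : Fin a => (i : ℕ) = e.1).disjSum (univ.filter fun j : Fin c => (j : ℕ) = e.2)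

lemma a1_inl {a c : ℕ} {e : ℕ × ℕ} {i : Fin a} : Sum.inl i ∈ a1_cell a c e ↔ (i : ℕ) = e.1 := by
  simp [a1_cell]

lemma a1_inr {a c : ℕ} {e : ℕ × ℕ} {j : Fin c} : Sum.inr j ∈ a1_cell a c e ↔ (j : ℕ) = e.2 := by
  simp [a1_cell]

lemma a1_pair {a c : ℕ} (i : Fin a) (j : Fin c) :
    a1_cell a c ((i : ℕ), (j : ℕ)) = {Sum.inl i, Sum.inr j} := by
  ext u
  cases u with
  | inl x => rw [a1_inl]; simp [Fin.ext_iff]
  | inr x => rw [a1_inr]; simp [Fin.ext_iff]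

lemma a1_inj {a c : ℕ} {e f : ℕ × ℕ} (he : e ∈ box a c) (h : a1_cell a c e = a1_cell a c f) :
    e = f := by
  obtain ⟨h1, h2⟩ := mem_box.1 he
  have e1 : (Sum.inl ⟨e.1, h1⟩ : Fin a ⊕ Fin c) ∈ a1_cell a c e := a1_inl.2 rfl
  have e2 : (Sum.inr ⟨e.2, h2⟩ : Fin a ⊕ Fin c) ∈ a1_cell a c e := a1_inr.2 rfl
  rw [h] at e1 e2
  exact Prod.ext (a1_inl.1 e1) (a1_inr.1 e2)

lemma a1_disj {a c : ℕ} {e f : ℕ × ℕ} (he : e ∈ box a c) :
    Disjoint (a1_cell a c e) (a1_cell a c f) ↔ ¬ (e.1 = f.1 ∨ e.2 = f.2) := by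
  obtain ⟨h1, h2⟩ := mem_box.1 he
  rw [Finset.disjoint_left]
  constructor
  · rintro h (h3 | h3)
    · exact h (a1_inl.2 rfl : (Sum.inl ⟨e.1, h1⟩ : Fin a ⊕ Fin c) ∈ a1_cell a c e) (a1_inl.2 h3)
    · exact h (a1_inr.2 rfl : (Sum.inr ⟨e.2, h2⟩ : Fin a ⊕ Fin c) ∈ a1_cell a c e) (a1_inr.2 h3)
  · intro h u hu hv
    cases u with
    | inl x => exact h (Or.inl ((a1_inl.1 hu).symm.trans (a1_inl.1 hv)))
    | inr x => exact h (Or.inr ((a1_inr.1 hu).symm.trans (a1_inr.1 hv)))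

lemma a1_edg {a c : ℕ} {B : Finset (ℕ × ℕ)} (hB : B ⊆ box a c) :
    edg (bip a c B) = B.image (a1_cell a c) := by
  ext I
  rw [mem_edg, mem_image]
  constructor
  · rintro ⟨u, v, ⟨i, j, hij, ⟨rfl, rfl⟩ | ⟨rfl, rfl⟩⟩, rfl⟩
    · exact ⟨_, hij, a1_pair i j⟩
    · exact ⟨_, hij, (a1_pair i j).trans (pair_comm _ _)⟩
  · rintro ⟨e, he, rfl⟩
    obtain ⟨h1, h2⟩ := mem_box.1 (hB he)
    exact ⟨Sum.inl ⟨e.1, h1⟩, Sum.inr ⟨e.2, h2⟩, ⟨⟨e.1, h1⟩, ⟨e.2, h2⟩, he, Or.inl ⟨rfl, rfl⟩⟩,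
      a1_pair (⟨e.1, h1⟩ : Fin a) (⟨e.2, h2⟩ : Fin c)⟩

theorem mk_bip {a c : ℕ} {B : Finset (ℕ × ℕ)} (hB : B ⊆ box a c) (k : ℕ) :
    mnum (bip a c B) k = rk B k := by
  have hc : ∀ M, M ⊆ B → (M.image (a1_cell a c)).card = M.card := fun M hM =>
    card_image_of_injOn fun e he f _ hef => a1_inj (hB (hM (mem_coe.1 he))) hef
  symm
  refine card_bij (fun M _ => M.image (a1_cell a c)) ?_ ?_ ?_
  · intro M hM
    obtain ⟨hM1, hM2⟩ := mem_filter.1 hM
    obtain ⟨hs, hm⟩ := mem_mat.1 hM1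
    refine mem_pk.2 ⟨mem_pack.2 ⟨?_, ?_⟩, (hc M hs).trans hM2⟩
    · rw [a1_edg hB]
      exact image_subset_image hs
    · intro I hI J hJ hne
      obtain ⟨e, he, rfl⟩ := mem_image.1 hI
      obtain ⟨f, hf, rfl⟩ := mem_image.1 hJ
      exact (a1_disj (hB (hs he))).2 fun h => hne (by rw [hm e he f hf h])
  · intro M hM N hN hMN
    have hMs := (mem_mat.1 (mem_filter.1 hM).1).1
    have hNs := (mem_mat.1 (mem_filter.1 hN).1).1
    ext e
    constructor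
    · intro he
      have h1 : a1_cell a c e ∈ N.image (a1_cell a c) := hMN ▸ mem_image_of_mem _ he
      obtain ⟨f, hf, hfe⟩ := mem_image.1 h1
      rwa [← a1_inj (hB (hNs hf)) hfe]
    · intro he
      have h1 : a1_cell a c e ∈ M.image (a1_cell a c) := hMN.symm ▸ mem_image_of_mem _ he
      obtain ⟨f, hf, hfe⟩ := mem_image.1 h1
      rwa [← a1_inj (hB (hMs hf)) hfe]
  · intro N hN
    obtain ⟨hN1, hN2⟩ := mem_pk.1 hN
    obtain ⟨hs, hd⟩ := mem_pack.1 hN1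
    rw [a1_edg hB] at hs
    obtain ⟨M, hM, rfl⟩ := subset_image_iff.1 hs
    refine ⟨M, mem_filter.2 ⟨mem_mat.2 ⟨hM, ?_⟩, (hc M hM).symm.trans hN2⟩, rfl⟩
    intro e he f hf hef
    by_contra hne
    exact (a1_disj (hB (hM he))).1 (hd _ (mem_image_of_mem _ he) _ (mem_image_of_mem _ hf)
      fun h => hne (a1_inj (hB (hM he)) h)) hef

end Pool.Agent.Lib.MP_f7f352_co.SX
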