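import Mathlib
import Pool.Agent.Lib.MP_f7f352_co.SX.Num

set_option autoImplicit false

namespace Pool.Agent.Lib.MP_f7f352_co.SX

open Finset Polynomial Pool.Agent.Lib.MP_f7f352_co.U

lemma c2_periodic {α : Type} [Finite α] (g : α → α) (z : α) :
    ∃ m : ℕ, g^[m] z ∈ Function.periodicPts g := by
  obtain ⟨m, n, hmn, h⟩ := Finite.exists_ne_map_eq_of_infinite (fun n : ℕ => g^[n] z)
  rcases lt_or_gt_of_ne hmn with hlt | hlt
  · refine ⟨m, Function.mk_mem_periodicPts (n := n - m) (by omega) ?_⟩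
    show g^[n - m] (g^[m] z) = g^[m] z
    rw [← Function.iterate_add_apply, Nat.sub_add_cancel hlt.le]
    exact h.symm
  · refine ⟨n, Function.mk_mem_periodicPts (n := m - n) (by omega) ?_⟩
    show g^[m - n] (g^[n] z) = g^[n] z
    rw [← Function.iterate_add_apply, Nat.sub_add_cancel hlt.le]
    exact h

lemma c2_wf {α : Type} [Finite α] (q : α → α → Prop) (hq : ∀ i, q i i)
    (hu : ∀ h : α → α, Function.Injective h → (∀ i, q i (h i)) → ∀ i, h i = i) :
    WellFounded (fun x m : α => x ≠ m ∧ q m x) := by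
  classical
  rw [WellFounded.wellFounded_iff_has_min]
  intro Z hZ
  by_contra hcon
  push Not at hcon
  choose! g0 hg0 using hcon
  let g : α → α := fun m => if m ∈ Z then g0 m else m
  have hgZ : ∀ m ∈ Z, g m ∈ Z ∧ g m ≠ m := by
    intro m hm
    simp only [g, if_pos hm]
    exact ⟨(hg0 m hm).1, (hg0 m hm).2.1⟩
  have hgq : ∀ m, q m (g m) := by
    intro m
    by_cases hm : m ∈ Z
    · simp only [g, if_pos hm]
      exact (hg0 m hm).2.2
    · simp only [g, if_neg hm]
      exact hq m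
  have hb := Function.bijOn_periodicPts (f := g)
  let h : α → α := fun m => if m ∈ Function.periodicPts g then g m else m
  have hinj : Function.Injective h := by
    intro x y hxy
    by_cases hx : x ∈ Function.periodicPts g <;> by_cases hy : y ∈ Function.periodicPts g
    · simp only [h, if_pos hx, if_pos hy] at hxy
      exact hb.injOn hx hy hxy
    · simp only [h, if_pos hx, if_neg hy] at hxy
      exact absurd (hxy ▸ hb.mapsTo hx) hy
    · simp only [h, if_neg hx, if_pos hy] at hxy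
      exact absurd (hxy ▸ hb.mapsTo hy) hx
    · simpa only [h, if_neg hx, if_neg hy] using hxy
  have hhq : ∀ i, q i (h i) := by
    intro i
    by_cases hi : i ∈ Function.periodicPts g
    · simp only [h, if_pos hi]
      exact hgq i
    · simp only [h, if_neg hi]
      exact hq i
  obtain ⟨z, hz⟩ := hZ
  obtain ⟨m, hm⟩ := c2_periodic g z
  have hmZ : ∀ k : ℕ, g^[k] z ∈ Z := by
    intro k
    induction k with
    | zero => exact hz
    | succ k ih =>
      rw [Function.iterate_succ_apply']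
      exact (hgZ _ ih).1
  have h1 := hu h hinj hhq (g^[m] z)
  simp only [h, if_pos hm] at h1
  exact (hgZ _ (hmZ m)).2 h1

lemma c2_pos {a : ℕ} (r : Fin a → Fin a → Prop) (hr : WellFounded r) :
    ∃ pos : Equiv.Perm (Fin a), ∀ x m, r x m → pos x < pos m := by
  classical
  let rank : Fin a → ℕ := fun i => (univ.filter fun k => Relation.TransGen r k i).card
  have hrank : ∀ x m, r x m → rank x < rank m := by
    intro x m hxm
    apply card_lt_card
    refine ⟨fun k hk => ?_, fun hsub => ?_⟩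
    · simp only [mem_filter, mem_univ, true_and] at hk ⊢
      exact hk.tail hxm
    · have hx : x ∈ univ.filter fun k => Relation.TransGen r k m := by
        simp only [mem_filter, mem_univ, true_and]
        exact Relation.TransGen.single hxm
      have h2 := hsub hx
      simp only [mem_filter, mem_univ, true_and] at h2
      exact hr.transGen.irrefl.irrefl x h2
  refine ⟨(Tuple.sort rank).symm, fun x m hxm => ?_⟩
  by_contra hcon
  have h1 := Tuple.monotone_sort rank (not_lt.1 hcon)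
  simp only [Function.comp_apply, Equiv.apply_symm_apply] at h1
  exact absurd (hrank x m hxm) (not_lt.2 h1)

/-- the placement of an injective map -/
def c2_pl {a c : ℕ} (g : Fin a → Fin c) : Finset (ℕ × ℕ) :=
  univ.image fun i : Fin a => ((i : ℕ), (g i : ℕ))

lemma c2_mem_pl {a c : ℕ} {g : Fin a → Fin c} {e : ℕ × ℕ} :
    e ∈ c2_pl g ↔ ∃ i : Fin a, ((i : ℕ), (g i : ℕ)) = e := by
  simp [c2_pl]

lemma c2_pl_mem {a c : ℕ} {D : Finset (ℕ × ℕ)} {g : Fin a → Fin c} (hg : Function.Injective g)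
    (hD : ∀ i : Fin a, ((i : ℕ), (g i : ℕ)) ∈ D) :
    c2_pl g ∈ (mat D).filter fun M => M.card = a := by
  rw [mem_filter, mem_mat]
  refine ⟨⟨fun e he => ?_, fun e he f hf hef => ?_⟩, ?_⟩
  · obtain ⟨i, rfl⟩ := c2_mem_pl.1 he
    exact hD i
  · obtain ⟨i, rfl⟩ := c2_mem_pl.1 he
    obtain ⟨j, rfl⟩ := c2_mem_pl.1 hf
    have hij : i = j := by
      rcases hef with h | h
      · exact Fin.ext h
      · exact hg (Fin.ext h)
    rw [hij]
  · rw [c2_pl, card_image_of_injective]
    · simp
    · intro i j hij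
      exact Fin.ext (congrArg Prod.fst hij)

lemma c2_pl_inj {a c : ℕ} {g g' : Fin a → Fin c} (h : c2_pl g = c2_pl g') : g = g' := by
  funext i
  have h1 : ((i : ℕ), (g i : ℕ)) ∈ c2_pl g' := h ▸ c2_mem_pl.2 ⟨i, rfl⟩
  obtain ⟨j, hj⟩ := c2_mem_pl.1 h1
  have hji : j = i := Fin.ext (congrArg Prod.fst hj)
  subst hji
  exact (Fin.ext (congrArg Prod.snd hj)).symm

lemma c2_exists {a c : ℕ} {D P : Finset (ℕ × ℕ)} (hD : D ⊆ box a c) (hP : P ∈ mat D)
    (hc : P.card = a) :
    ∃ f : Fin a → Fin c, Function.Injective f ∧ ∀ i : Fin a, ((i : ℕ), (f i : ℕ)) ∈ D := by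
  obtain ⟨hPD, hM⟩ := mem_mat.1 hP
  have hrows : rows P = range a := by
    apply eq_of_subset_of_card_le
    · intro i hi
      obtain ⟨e, he, rfl⟩ := mem_rows.1 hi
      exact mem_range.2 (mem_box.1 (hD (hPD he))).1
    · rw [hM.card_rows, hc, card_range]
  have hex : ∀ i : Fin a, ∃ j : Fin c, ((i : ℕ), (j : ℕ)) ∈ P := by
    intro i
    have hi : (i : ℕ) ∈ rows P := by
      rw [hrows]
      exact mem_range.2 i.2
    obtain ⟨e, he, hei⟩ := mem_rows.1 hi
    refine ⟨⟨e.2, (mem_box.1 (hD (hPD he))).2⟩, ?_⟩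
    rw [← hei]
    exact he
  choose f hf using hex
  refine ⟨f, fun i j hij => ?_, fun i => hPD (hf i)⟩
  have h1 := hM _ (hf i) _ (hf j) (Or.inr (by simp [hij]))
  exact Fin.ext (congrArg Prod.fst h1)

lemma c2_iso {a c : ℕ} {B B' : Finset (ℕ × ℕ)} (σ : Equiv.Perm (Fin a)) (τ : Equiv.Perm (Fin c))
    (h : ∀ (i : Fin a) (j : Fin c), ((σ i : ℕ), (τ j : ℕ)) ∈ B' ↔ ((i : ℕ), (j : ℕ)) ∈ B) :
    Nonempty (bip a c B ≃g bip a c B') := by
  refine ⟨⟨Equiv.sumCongr σ τ, ?_⟩⟩
  intro u v
  constructor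
  · rintro ⟨i, j, hij, h2⟩
    obtain ⟨i, rfl⟩ := σ.surjective i
    obtain ⟨j, rfl⟩ := τ.surjective j
    refine ⟨i, j, (h i j).1 hij, ?_⟩
    rcases h2 with ⟨h3, h4⟩ | ⟨h3, h4⟩
    · exact Or.inl ⟨(Equiv.sumCongr σ τ).injective h3, (Equiv.sumCongr σ τ).injective h4⟩
    · exact Or.inr ⟨(Equiv.sumCongr σ τ).injective h3, (Equiv.sumCongr σ τ).injective h4⟩
  · rintro ⟨i, j, hij, h2⟩
    refine ⟨σ i, τ j, (h i j).2 hij, ?_⟩
    rcases h2 with ⟨rfl, rfl⟩ | ⟨rfl, rfl⟩
    · exact Or.inl ⟨rfl, rfl⟩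
    · exact Or.inr ⟨rfl, rfl⟩

/-- a board whose complement has a unique full placement is a staircase complement plus cells -/
theorem stair {a c : ℕ} (hac : a ≤ c) {B : Finset (ℕ × ℕ)} (hB : B ⊆ box a c)
    (h1 : rk (box a c \ B) a = 1) :
    ∃ R ⊆ st a, Nonempty (bip a c B ≃g bip a c (fer a c ∪ R)) := by
  classical
  obtain ⟨P, hP⟩ := card_eq_one.1 h1
  have hPm : P ∈ (mat (box a c \ B)).filter fun M => M.card = a := by
    rw [hP]
    exact mem_singleton_self P
  obtain ⟨f, hf, hfD⟩ := c2_exists sdiff_subset (mem_filter.1 hPm).1 (mem_filter.1 hPm).2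
  have huniq : ∀ g : Fin a → Fin c, Function.Injective g →
      (∀ i : Fin a, ((i : ℕ), (g i : ℕ)) ∈ box a c \ B) → g = f := by
    intro g hg hgD
    have h2 := c2_pl_mem hg hgD
    have h3 := c2_pl_mem hf hfD
    rw [hP, mem_singleton] at h2 h3
    exact c2_pl_inj (h2.trans h3.symm)
  have hrange : ∀ (i : Fin a) (j : Fin c), ((i : ℕ), (j : ℕ)) ∈ box a c \ B →
      ∃ k, f k = j := by
    intro i j hij
    by_contra hcon
    push Not at hcon
    have h2 := huniq (Function.update f i j) ?_ ?_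
    · have h3 := congrFun h2 i
      rw [Function.update_self] at h3
      exact hcon i h3.symm
    · intro x y hxy
      by_cases hx : x = i <;> by_cases hy : y = i
      · rw [hx, hy]
      · subst hx
        rw [Function.update_self, Function.update_of_ne hy] at hxy
        exact absurd hxy.symm (hcon y)
      · subst hy
        rw [Function.update_self, Function.update_of_ne hx] at hxy
        exact absurd hxy (hcon x)
      · rw [Function.update_of_ne hx, Function.update_of_ne hy] at hxy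
        exact hf hxy
    · intro x
      by_cases hx : x = i
      · subst hx
        rw [Function.update_self]
        exact hij
      · rw [Function.update_of_ne hx]
        exact hfD x
  have hwf := c2_wf (fun i k : Fin a => ((i : ℕ), (f k : ℕ)) ∈ box a c \ B) hfD (by
    intro h hh hq i
    have h2 := huniq (f ∘ h) (hf.comp hh) hq
    exact hf (congrFun h2 i))
  obtain ⟨pos, hpos⟩ := c2_pos _ hwf
  obtain ⟨τ, hτ⟩ := Equiv.Perm.exists_extending_pair (f := f)
    (g := fun k => Fin.castLE hac (pos k)) hf ((Fin.castLE_injective hac).comp pos.injective)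
  have hτv : ∀ k, (τ (f k) : ℕ) = pos k := by
    intro k
    rw [hτ k]
    rfl
  let σ : Equiv.Perm (Fin a) := pos.trans Fin.revPerm
  have hσv : ∀ i, (σ i : ℕ) + pos i + 1 = a := by
    intro i
    have h2 : (σ i : ℕ) = a - (pos i + 1) := Fin.val_rev (pos i)
    have h3 := (pos i).2
    omega
  let R : Finset (ℕ × ℕ) := (st a).filter fun e =>
    ∃ (i : Fin a) (j : Fin c), ((i : ℕ), (j : ℕ)) ∈ B ∧ (σ i : ℕ) = e.1 ∧ (τ j : ℕ) = e.2
  refine ⟨R, filter_subset _ _, c2_iso σ τ fun i j => ?_⟩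
  rw [mem_union, mem_fer]
  constructor
  · rintro (⟨_, h3⟩ | h3)
    · by_contra hcon
      have hD : ((i : ℕ), (j : ℕ)) ∈ box a c \ B :=
        mem_sdiff.2 ⟨mem_box.2 ⟨i.2, j.2⟩, hcon⟩
      obtain ⟨k, rfl⟩ := hrange i j hD
      have h4 := hτv k
      have h5 := hσv i
      dsimp only at h3
      by_cases hk : k = i
      · subst hk
        omega
      · have h6 : (pos k : ℕ) < pos i := hpos k i ⟨hk, hD⟩
        omega
    · obtain ⟨i', j', h4, h5, h6⟩ := (mem_filter.1 h3).2
      have h7 : i' = i := σ.injective (Fin.ext h5)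
      have h8 : j' = j := τ.injective (Fin.ext h6)
      rw [← h7, ← h8]
      exact h4
  · intro hij
    by_cases h2 : a ≤ (σ i : ℕ) + (τ j : ℕ)
    · exact Or.inl ⟨⟨(σ i).2, (τ j).2⟩, h2⟩
    · refine Or.inr (mem_filter.2 ⟨mem_st.2 ?_, i, j, hij, rfl, rfl⟩)
      dsimp only
      by_contra h3
      have h4 := hτv i
      have h5 := hσv i
      have h6 : τ j = τ (f i) := Fin.ext (by omega)
      have h7 : j = f i := τ.injective h6
      subst h7
      exact (mem_sdiff.1 (hfD i)).2 hij

end Pool.Agent.Lib.MP_f7f352_co.SX
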