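import Mathlib
import Pool.Agent.Lib.MP_f7f352_co.SX.Num

-- part Pool.Agent.Lib.MP_f7f352_co.SX.C1
section

set_option autoImplicit false

namespace Pool.Agent.Lib.MP_f7f352_co.SX

open Finset Polynomial Pool.Agent.Lib.MP_f7f352_co.U

variable {S : Type} [CommRing S]

lemma c1_disjoint_off {B M N : Finset (ℕ × ℕ)} (hN : N ⊆ off B M) : Disjoint N M := by
  rw [Finset.disjoint_left]
  intro e he heM
  exact ((mem_off.1 (hN he)).2 e heM).1 rfl

lemma c1_isM_union {B M N : Finset (ℕ × ℕ)} (hM : IsM M) (hN : N ∈ mat (off B M)) :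
    IsM (N ∪ M) := by
  obtain ⟨hs, hN⟩ := mem_mat.1 hN
  intro e he f hf hef
  rcases mem_union.1 he with he | he <;> rcases mem_union.1 hf with hf | hf
  · exact hN e he f hf hef
  · have := (mem_off.1 (hs he)).2 f hf
    rcases hef with h | h
    · exact absurd h this.1
    · exact absurd h this.2
  · have := (mem_off.1 (hs hf)).2 e he
    rcases hef with h | h
    · exact absurd h.symm this.1
    · exact absurd h.symm this.2
  · exact hM e he f hf hef

lemma c1_sdiff_mem {B M N : Finset (ℕ × ℕ)} (hN : IsM N) (hMN : M ⊆ N)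
    (hB : ∀ e ∈ N, e ∉ M → e ∈ B) : N \ M ∈ mat (off B M) := by
  refine mem_mat.2 ⟨fun e he => ?_, hN.mono sdiff_subset⟩
  obtain ⟨h1, h2⟩ := mem_sdiff.1 he
  refine mem_off.2 ⟨hB e h1 h2, fun m hm => ⟨fun h => ?_, fun h => ?_⟩⟩
  · exact h2 (hN e h1 m (hMN hm) (Or.inl h) ▸ hm)
  · exact h2 (hN e h1 m (hMN hm) (Or.inr h) ▸ hm)

lemma sum_superset {A : Type} [AddCommMonoid A] {B M : Finset (ℕ × ℕ)} (hM : M ∈ mat B)
    (φ : ℕ → A) : ∑ N ∈ (mat B).filter (fun N => M ⊆ N), φ N.card =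
      ∑ N ∈ mat (off B M), φ (N.card + M.card) := by
  obtain ⟨hMB, hM⟩ := mem_mat.1 hM
  refine sum_nbij' (fun N => N \ M) (fun N => N ∪ M) ?_ ?_ ?_ ?_ ?_
  · intro N hN
    obtain ⟨h1, h2⟩ := mem_filter.1 hN
    obtain ⟨h3, h4⟩ := mem_mat.1 h1
    exact c1_sdiff_mem h4 h2 fun e he _ => h3 he
  · intro N hN
    refine mem_filter.2 ⟨mem_mat.2 ⟨?_, c1_isM_union hM hN⟩, subset_union_right⟩
    exact union_subset (fun e he => (mem_off.1 ((mem_mat.1 hN).1 he)).1) hMB
  · intro N hN
    exact sdiff_union_of_subset (mem_filter.1 hN).2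
  · intro N hN
    exact union_sdiff_cancel_right (c1_disjoint_off (mem_mat.1 hN).1)
  · intro N hN
    rw [card_sdiff_add_card_eq_card (mem_filter.1 hN).2]

lemma c1_Phi_eq (B : Finset (ℕ × ℕ)) (a : ℕ) (x : S) (n : ℕ) (hn : B.card < n) :
    Phi B a x = ∑ k ∈ range n, (rk B k : S) * ff x (a - k) := by
  unfold Phi rk
  rw [← sum_fiberwise_of_maps_to (s := mat B) (t := range n) (g := fun M => M.card)
    (fun M hM => mem_range.2 ((card_le_card (mem_mat.1 hM).1).trans_lt hn))]
  refine sum_congr rfl fun k _ => ?_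
  rw [sum_congr rfl (g := fun _ => ff x (a - k))
    (fun M hM => by rw [(mem_filter.1 hM).2]), sum_const, nsmul_eq_mul]

lemma Phi_congr {B B' : Finset (ℕ × ℕ)} (h : ∀ k, rk B k = rk B' k) (a : ℕ) (x : S) :
    Phi B a x = Phi B' a x := by
  rw [c1_Phi_eq B a x (B.card + B'.card + 1) (by omega),
    c1_Phi_eq B' a x (B.card + B'.card + 1) (by omega)]
  exact sum_congr rfl fun k _ => by rw [h k]

theorem Phi_union {B₁ B₂ : Finset (ℕ × ℕ)} (h : Disjoint B₁ B₂) (a : ℕ) (x : S) :
    Phi (B₁ ∪ B₂) a x = ∑ M ∈ mat B₂, Phi (off B₁ M) (a - M.card) x := by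
  unfold Phi
  rw [← sum_fiberwise_of_maps_to (s := mat (B₁ ∪ B₂)) (t := mat B₂) (g := fun N => N ∩ B₂)
    (fun N hN => mem_mat.2 ⟨inter_subset_right, (mem_mat.1 hN).2.mono inter_subset_left⟩)]
  refine sum_congr rfl fun M hM => ?_
  obtain ⟨hMB, hM⟩ := mem_mat.1 hM
  refine sum_nbij' (fun N => N \ M) (fun N => N ∪ M) ?_ ?_ ?_ ?_ ?_
  · intro N hN
    obtain ⟨h1, h2⟩ := mem_filter.1 hN
    obtain ⟨h3, h4⟩ := mem_mat.1 h1
    refine c1_sdiff_mem h4 (h2 ▸ inter_subset_left) fun e he heM => ?_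
    rcases mem_union.1 (h3 he) with h5 | h5
    · exact h5
    · exact absurd (h2 ▸ mem_inter.2 ⟨he, h5⟩) heM
  · intro N hN
    have hN1 : N ⊆ B₁ := fun e he => (mem_off.1 ((mem_mat.1 hN).1 he)).1
    refine mem_filter.2 ⟨mem_mat.2 ⟨union_subset_union hN1 hMB, c1_isM_union hM hN⟩, ?_⟩
    ext e
    simp only [mem_inter, mem_union]
    constructor
    · rintro ⟨h1 | h1, h2⟩
      · exact absurd h2 (Finset.disjoint_left.1 h (hN1 h1))
      · exact h1
    · intro h1
      exact ⟨Or.inr h1, hMB h1⟩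
  · intro N hN
    exact sdiff_union_of_subset ((mem_filter.1 hN).2 ▸ inter_subset_left)
  · intro N hN
    exact union_sdiff_cancel_right (c1_disjoint_off (mem_mat.1 hN).1)
  · intro N hN
    have h1 : M ⊆ N := (mem_filter.1 hN).2 ▸ inter_subset_left
    have h2 := card_sdiff_add_card_eq_card h1
    congr 1
    omega

/-- placements on a one row board -/
lemma c1_mat_row {B : Finset (ℕ × ℕ)} {v : ℕ} (h : ∀ e ∈ B, e.1 = v) :
    mat B = insert ∅ (B.image fun e => {e}) := by
  ext M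
  simp only [mem_mat, mem_insert, mem_image]
  constructor
  · rintro ⟨h1, h2⟩
    rcases M.eq_empty_or_nonempty with h3 | ⟨e, he⟩
    · exact Or.inl h3
    · refine Or.inr ⟨e, h1 he, ?_⟩
      symm
      rw [eq_singleton_iff_unique_mem]
      exact ⟨he, fun f hf => h2 f hf e he (Or.inl ((h f (h1 hf)).trans (h e (h1 he)).symm))⟩
  · rintro (rfl | ⟨e, he, rfl⟩)
    · exact ⟨empty_subset _, fun e he => absurd he (notMem_empty e)⟩
    · refine ⟨singleton_subset_iff.2 he, fun f hf g hg _ => ?_⟩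
      rw [mem_singleton.1 hf, mem_singleton.1 hg]

lemma c1_ff_succ (x : S) (n : ℕ) : ff x (n + 1) = ff x n * (x - (n : S)) := by
  unfold ff
  rw [prod_range_succ]

lemma c1_Phi_row {B : Finset (ℕ × ℕ)} {v : ℕ} (h : ∀ e ∈ B, e.1 = v) (m : ℕ) (x : S) :
    Phi B (m + 1) x = ff x m * (x - (m : S) + (B.card : S)) := by
  unfold Phi
  rw [c1_mat_row h, sum_insert (by simp), sum_image (fun e _ f _ hef => singleton_injective hef)]
  simp only [card_empty, Nat.sub_zero, card_singleton, Nat.add_sub_cancel, sum_const,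
    nsmul_eq_mul, c1_ff_succ]
  ring

lemma c1_card_off_row {B M : Finset (ℕ × ℕ)} {v : ℕ} (h : ∀ e ∈ B, e.1 = v) (hM : IsM M)
    (h1 : ∀ m ∈ M, m.1 ≠ v) (h2 : ∀ m ∈ M, (v, m.2) ∈ B) :
    (off B M).card + M.card = B.card := by
  have h3 : off B M = B \ M.image fun m => (v, m.2) := by
    ext e
    simp only [mem_off, mem_sdiff, mem_image, not_exists, not_and]
    constructor
    · rintro ⟨he, h4⟩
      exact ⟨he, fun m hm h5 => (h4 m hm).2 (by rw [← h5])⟩
    · rintro ⟨he, h4⟩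
      refine ⟨he, fun m hm => ⟨fun h5 => h1 m hm (h5.symm.trans (h e he)), fun h5 => ?_⟩⟩
      exact h4 m hm (Prod.ext (h e he).symm h5.symm)
  have h4 : (M.image fun m => (v, m.2)).card = M.card :=
    card_image_of_injOn fun e he f hf hef => hM e he f hf (Or.inr (Prod.ext_iff.1 hef).2)
  have h5 : (M.image fun m => (v, m.2)) ⊆ B := fun e he => by
    obtain ⟨m, hm, rfl⟩ := mem_image.1 he
    exact h2 m hm
  rw [h3, ← h4, card_sdiff_add_card_eq_card h5]

/-- product formula for nested rows -/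
theorem Phi_nested (Z : Finset ℕ) (B : Finset (ℕ × ℕ)) (hZ : ∀ e ∈ B, e.1 ∈ Z)
    (hn : ∀ v ∈ Z, ∀ w ∈ Z, v < w → ∀ u, (v, u) ∈ B → (w, u) ∈ B) (x : S) :
    Phi B Z.card x = ∏ v ∈ Z, (x + ((B.filter fun e => e.1 = v).card : S) -
      ((Z.filter fun w => w < v).card : S)) := by
  induction Z using Finset.induction_on_max generalizing B with
  | empty =>
    have hB : B = ∅ := eq_empty_of_forall_notMem fun e he => notMem_empty _ (hZ e he)
    subst hB
    have : mat (∅ : Finset (ℕ × ℕ)) = {∅} := by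
      rw [c1_mat_row (v := 0) (fun e he => absurd he (notMem_empty e))]
      simp
    simp [Phi, this, ff]
  | insert v Z hv ih =>
    have hvZ : v ∉ Z := fun h => lt_irrefl v (hv v h)
    set B₁ := B.filter fun e => e.1 = v with hB₁
    set B₂ := B.filter fun e => ¬ e.1 = v with hB₂
    have hB : B = B₁ ∪ B₂ := (filter_union_filter_not_eq _ B).symm
    have hd : Disjoint B₁ B₂ := disjoint_filter_filter_not B B _
    have hZ₂ : ∀ e ∈ B₂, e.1 ∈ Z := fun e he => by
      obtain ⟨h1, h2⟩ := mem_filter.1 he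
      exact (mem_insert.1 (hZ e h1)).resolve_left h2
    have hn₂ : ∀ a ∈ Z, ∀ w ∈ Z, a < w → ∀ u, (a, u) ∈ B₂ → (w, u) ∈ B₂ :=
      fun a ha w hw haw u hu => mem_filter.2
        ⟨hn a (mem_insert_of_mem ha) w (mem_insert_of_mem hw) haw u (mem_filter.1 hu).1,
          (hv w hw).ne⟩
    have hrow : ∀ e ∈ B₁, e.1 = v := fun e he => (mem_filter.1 he).2
    have key : Phi B (insert v Z).card x = (x + (B₁.card : S) - (Z.card : S)) * Phi B₂ Z.card x := by
      conv_lhs => rw [hB]
      rw [Phi_union hd, card_insert_of_notMem hvZ]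
      conv_rhs => unfold Phi
      rw [mul_sum]
      refine sum_congr rfl fun M hM => ?_
      obtain ⟨hM1, hM2⟩ := mem_mat.1 hM
      have hk : M.card ≤ Z.card := by
        rw [← hM2.card_rows]
        refine card_le_card fun i hi => ?_
        obtain ⟨e, he, rfl⟩ := mem_rows.1 hi
        exact hZ₂ e (hM1 he)
      have hc := c1_card_off_row hrow hM2 (fun m hm => (mem_filter.1 (hM1 hm)).2)
        (fun m hm => mem_filter.2 ⟨hn m.1 (mem_insert_of_mem (hZ₂ m (hM1 hm))) v
          (mem_insert_self v Z) (hv _ (hZ₂ m (hM1 hm))) m.2 (mem_filter.1 (hM1 hm)).1, rfl⟩)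
      have h1 : Z.card + 1 - M.card = (Z.card - M.card) + 1 := by omega
      rw [h1, c1_Phi_row (v := v) (fun e he => hrow e (mem_off.1 he).1), ← hc, Nat.cast_sub hk]
      push_cast
      ring
    rw [key, ih B₂ hZ₂ hn₂, prod_insert hvZ]
    have h1 : ((insert v Z).filter fun w => w < v) = Z := by
      ext w
      simp only [mem_filter, mem_insert]
      constructor
      · rintro ⟨h1 | h1, h2⟩
        · exact absurd h1 h2.ne
        · exact h1
      · intro h1
        exact ⟨Or.inr h1, hv w h1⟩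
    rw [h1]
    congr 1
    refine prod_congr rfl fun w hw => ?_
    have h2 : (B₂.filter fun e => e.1 = w) = B.filter fun e => e.1 = w := by
      ext e
      simp only [hB₂, mem_filter]
      constructor
      · rintro ⟨⟨h1, _⟩, h3⟩
        exact ⟨h1, h3⟩
      · rintro ⟨h1, h3⟩
        exact ⟨⟨h1, h3 ▸ (hv w hw).ne⟩, h3⟩
    have h3 : ((insert v Z).filter fun w' => w' < w) = Z.filter fun w' => w' < w := by
      rw [filter_insert, if_neg (hv w hw).not_gt]
    rw [h2, h3]

lemma c1_prod_rank (Z : Finset ℕ) (g : ℕ → S) :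
    ∏ v ∈ Z, g (Z.filter fun w => w < v).card = ∏ i ∈ range Z.card, g i := by
  induction Z using Finset.induction_on_max with
  | empty => simp
  | insert v Z hv ih =>
    have hvZ : v ∉ Z := fun h => lt_irrefl v (hv v h)
    rw [prod_insert hvZ, card_insert_of_notMem hvZ, prod_range_succ, ← ih, mul_comm]
    have h1 : ((insert v Z).filter fun w => w < v) = Z := by
      ext w
      simp only [mem_filter, mem_insert]
      constructor
      · rintro ⟨h1 | h1, h2⟩
        · exact absurd h1 h2.ne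
        · exact h1
      · intro h1
        exact ⟨Or.inr h1, hv w h1⟩
    rw [h1]
    congr 1
    refine prod_congr rfl fun w hw => ?_
    rw [filter_insert, if_neg (hv w hw).not_gt]

lemma c1_ff_reflect (y : S) (n : ℕ) : ff y n = (-1) ^ n * ff ((n : S) - 1 - y) n := by
  unfold ff
  rw [← prod_range_reflect (fun i => ((n : S) - 1 - y - (i : S))) n,
    ← card_range n, ← prod_const, card_range, ← prod_mul_distrib]
  refine prod_congr rfl fun i hi => ?_
  have hi' := mem_range.1 hi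
  have h1 : n - 1 - i + i + 1 = n := by omega
  have h2 : ((n - 1 - i : ℕ) : S) = (n : S) - 1 - (i : S) := by
    have := congrArg (Nat.cast : ℕ → S) h1
    push_cast at this
    linear_combination this
  rw [h2]
  ring

lemma c1_Phi_off_box {a c : ℕ} {M : Finset (ℕ × ℕ)} (hM : M ∈ mat (box a c)) (x : S) :
    Phi (off (box a c) M) (a - M.card) x = ff (x + (c : S) - (M.card : S)) (a - M.card) := by
  obtain ⟨hM1, hM2⟩ := mem_mat.1 hM
  have hr : rows M ⊆ range a := fun i hi => by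
    obtain ⟨e, he, rfl⟩ := mem_rows.1 hi
    exact mem_range.2 (mem_box.1 (hM1 he)).1
  have hc : cols M ⊆ range c := fun i hi => by
    obtain ⟨e, he, rfl⟩ := mem_cols.1 hi
    exact mem_range.2 (mem_box.1 (hM1 he)).2
  have hZ : (range a \ rows M).card = a - M.card := by
    rw [card_sdiff_of_subset hr, card_range, hM2.card_rows]
  have hC : (range c \ cols M).card + M.card = c := by
    rw [← hM2.card_cols, card_sdiff_add_card_eq_card hc, card_range]
  have hoff : off (box a c) M = (range a \ rows M) ×ˢ (range c \ cols M) := by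
    ext e
    simp only [mem_off, mem_box, mem_product, mem_sdiff, mem_range, mem_rows, mem_cols,
      not_exists, not_and]
    constructor
    · rintro ⟨⟨h1, h2⟩, h3⟩
      exact ⟨⟨h1, fun m hm h => (h3 m hm).1 h.symm⟩, ⟨h2, fun m hm h => (h3 m hm).2 h.symm⟩⟩
    · rintro ⟨⟨h1, h2⟩, h3, h4⟩
      exact ⟨⟨h1, h3⟩, fun m hm => ⟨fun h => h2 m hm h.symm, fun h => h4 m hm h.symm⟩⟩
  rw [← hZ, Phi_nested (range a \ rows M) (off (box a c) M)
    (fun e he => (mem_product.1 (hoff ▸ he)).1)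
    (fun v _ w hw _ u hu => by
      rw [hoff] at hu ⊢
      exact mem_product.2 ⟨hw, (mem_product.1 hu).2⟩)]
  unfold ff
  rw [← c1_prod_rank (range a \ rows M) (fun i => x + (c : S) - (M.card : S) - (i : S))]
  refine prod_congr rfl fun v hv => ?_
  have h1 : ((off (box a c) M).filter fun e => e.1 = v) = {v} ×ˢ (range c \ cols M) := by
    rw [hoff]
    ext e
    simp only [mem_filter, mem_product, mem_singleton]
    constructor
    · rintro ⟨⟨_, h2⟩, h3⟩
      exact ⟨h3, h2⟩
    · rintro ⟨h1, h2⟩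
      exact ⟨⟨h1 ▸ hv, h2⟩, h1⟩
  have h2 : ((range c \ cols M).card : S) = (c : S) - (M.card : S) := by
    have := congrArg (Nat.cast : ℕ → S) hC
    push_cast at this
    linear_combination this
  rw [h1, card_product, card_singleton, one_mul, h2]
  ring

lemma c1_sum_sign (T : Finset (ℕ × ℕ)) :
    ∑ M ∈ T.powerset, (-1 : S) ^ M.card = if T = ∅ then 1 else 0 := by
  have h := congrArg (Int.cast : ℤ → S) (sum_powerset_neg_one_pow_card (x := T))
  push_cast at h
  exact h

/-- reciprocity -/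
theorem Phi_compl {a c : ℕ} {B : Finset (ℕ × ℕ)} (hB : B ⊆ box a c) (x : S) :
    Phi (box a c \ B) a x = (-1) ^ a * Phi B a ((a : S) - c - 1 - x) := by
  have h1 : Phi (box a c \ B) a x = ∑ N ∈ mat (box a c),
      ∑ M ∈ (mat B).filter (fun M => M ⊆ N), (-1 : S) ^ M.card * ff x (a - N.card) := by
    unfold Phi
    have h2 : mat (box a c \ B) = (mat (box a c)).filter fun N => N ∩ B = ∅ := by
      ext N
      simp only [mem_mat, mem_filter, subset_sdiff, disjoint_iff_inter_eq_empty]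
      tauto
    rw [h2, sum_filter]
    refine sum_congr rfl fun N hN => ?_
    have h3 : (mat B).filter (fun M => M ⊆ N) = (N ∩ B).powerset := by
      ext M
      simp only [mem_filter, mem_mat, mem_powerset, subset_inter_iff]
      constructor
      · rintro ⟨⟨h1, _⟩, h3⟩
        exact ⟨h3, h1⟩
      · rintro ⟨h1, h3⟩
        exact ⟨⟨h3, (mem_mat.1 hN).2.mono h1⟩, h1⟩
    rw [h3, ← sum_mul, c1_sum_sign]
    split_ifs <;> simp
  have h2 : ∑ N ∈ mat (box a c),
      ∑ M ∈ (mat B).filter (fun M => M ⊆ N), (-1 : S) ^ M.card * ff x (a - N.card) =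
      ∑ M ∈ mat B, ∑ N ∈ (mat (box a c)).filter (fun N => M ⊆ N),
        (-1 : S) ^ M.card * ff x (a - N.card) := by
    refine sum_comm' fun N M => ?_
    simp only [mem_filter]
    tauto
  rw [h1, h2]
  conv_rhs => unfold Phi
  rw [mul_sum]
  refine sum_congr rfl fun M hM => ?_
  have hM' : M ∈ mat (box a c) := mat_mono hB hM
  obtain ⟨hM1, hM2⟩ := mem_mat.1 hM'
  have hk : M.card ≤ a := by
    rw [← hM2.card_rows, ← card_range a]
    refine card_le_card fun i hi => ?_
    obtain ⟨e, he, rfl⟩ := mem_rows.1 hi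
    exact mem_range.2 (mem_box.1 (hM1 he)).1
  rw [← mul_sum, sum_superset hM' (fun k => ff x (a - k))]
  have h3 : ∑ N ∈ mat (off (box a c) M), ff x (a - (N.card + M.card)) =
      Phi (off (box a c) M) (a - M.card) x := by
    unfold Phi
    refine sum_congr rfl fun N _ => ?_
    congr 1
    omega
  rw [h3, c1_Phi_off_box hM', c1_ff_reflect, ← mul_assoc, ← pow_add, Nat.add_sub_cancel' hk,
    Nat.cast_sub hk]
  congr 2
  ring

end Pool.Agent.Lib.MP_f7f352_co.SX
end

-- part Pool.Agent.Lib.MP_f7f352_co.SX.C3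
section

set_option autoImplicit false

namespace Pool.Agent.Lib.MP_f7f352_co.SX

open Finset Polynomial Pool.Agent.Lib.MP_f7f352_co.U

variable {S : Type} [CommRing S]

lemma c3_rank (f : ℕ → S) (A : Finset ℕ) :
    ∏ q ∈ A, f (A.filter fun a => a < q).card = ∏ i ∈ range A.card, f i := by
  induction A using Finset.induction_on_max with
  | empty => simp
  | insert m A hm ih =>
    have hmA : m ∉ A := fun h => lt_irrefl _ (hm m h)
    rw [prod_insert hmA, card_insert_of_notMem hmA, prod_range_succ, ← ih, mul_comm]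
    congr 1
    · refine prod_congr rfl fun q hq => ?_
      rw [filter_insert, if_neg (not_lt.2 (hm q hq).le)]
    · rw [filter_insert, if_neg (lt_irrefl m), filter_true_of_mem hm]

lemma c3_wt (σ K : ℕ) (M : Finset (ℕ × ℕ)) (y : S) :
    wt σ K M y = (∏ i ∈ range M.card, (y + (i : S))) *
      (∏ p ∈ range σ \ rows M, (y + (((rows M).filter fun a => a < p).card : S))) *
      (∏ p ∈ range σ \ cols M, (y + (((cols M).filter fun a => a < p).card : S))) *
      (y + (M.card : S)) ^ K := by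
  simp only [wt, dep, hd, Multiset.map_add, Multiset.prod_add, Multiset.map_map,
    Multiset.map_replicate, Multiset.prod_replicate, Function.comp_def]
  rfl

lemma c3_term {σ K a c : ℕ} (hK : 1 ≤ K) (ha : a + 1 = 2 * σ + K) (hac : a ≤ c)
    {M : Finset (ℕ × ℕ)} (hM : M ⊆ box σ σ) (hI : IsM M) (y : S) :
    y * Phi (off (fer a c) M) (a - M.card) (y - ((c : S) - a)) = wt σ K M y := by
  have hr : ∀ i ∈ rows M, i < σ := fun i hi => by
    obtain ⟨e, he, rfl⟩ := mem_rows.1 hi
    exact (mem_box.1 (hM he)).1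
  have hc : ∀ j ∈ cols M, j < σ := fun j hj => by
    obtain ⟨e, he, rfl⟩ := mem_cols.1 hj
    exact (mem_box.1 (hM he)).2
  have hra : rows M ⊆ range a := fun i hi => mem_range.2 (by have := hr i hi; omega)
  have hmem : ∀ v u, (v, u) ∈ off (fer a c) M ↔
      (v < a ∧ v ∉ rows M) ∧ (u < c ∧ u ∉ cols M) ∧ a ≤ v + u := fun v u => by
    simp only [mem_off, mem_fer, mem_rows, mem_cols, not_exists, not_and]
    constructor
    · rintro ⟨⟨⟨h1, h2⟩, h3⟩, h4⟩
      exact ⟨⟨h1, fun e he h => (h4 e he).1 h.symm⟩, ⟨h2, fun e he h => (h4 e he).2 h.symm⟩, h3⟩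
    · rintro ⟨⟨h1, h2⟩, ⟨h3, h4⟩, h5⟩
      exact ⟨⟨⟨h1, h3⟩, h5⟩, fun e he => ⟨fun h => h2 e he h.symm, fun h => h4 e he h.symm⟩⟩
  have hcard : (range a \ rows M).card = a - M.card := by
    rw [card_sdiff_of_subset hra, card_range, hI.card_rows]
  have hN := Phi_nested (range a \ rows M) (off (fer a c) M)
    (fun e he => by
      have := ((hmem e.1 e.2).1 he).1
      exact mem_sdiff.2 ⟨mem_range.2 this.1, this.2⟩)
    (fun v _ w hw hvw u hu => by
      have h1 := (hmem v u).1 hu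
      have h2 := mem_sdiff.1 hw
      exact (hmem w u).2 ⟨⟨mem_range.1 h2.1, h2.2⟩, h1.2.1, by omega⟩)
    (y - ((c : S) - a))
  rw [hcard] at hN
  set g : ℕ → S := fun v => y + (((rows M).filter fun i => i < v).card : S) -
    (((cols M).filter fun j => a ≤ v + j).card : S) with hg
  have hfac : ∀ v ∈ range a \ rows M, y - ((c : S) - a) +
      (((off (fer a c) M).filter fun e => e.1 = v).card : S) -
      (((range a \ rows M).filter fun w => w < v).card : S) = g v := fun v hv => by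
    obtain ⟨hv1, hv2⟩ := mem_sdiff.1 hv
    rw [mem_range] at hv1
    have e1 : (off (fer a c) M).filter (fun e => e.1 = v) =
        (Ico (a - v) c \ (cols M).filter fun j => a ≤ v + j).image (Prod.mk v) := by
      ext ⟨i, j⟩
      simp only [mem_filter, hmem, mem_image, mem_sdiff, mem_Ico, Prod.mk.injEq, not_and]
      constructor
      · rintro ⟨⟨_, ⟨h1, h2⟩, h3⟩, rfl⟩
        exact ⟨j, ⟨⟨by omega, h1⟩, fun h => absurd h h2⟩, rfl, rfl⟩
      · rintro ⟨u, ⟨⟨h1, h2⟩, h3⟩, rfl, rfl⟩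
        exact ⟨⟨⟨hv1, hv2⟩, ⟨h2, fun h => h3 h (by omega)⟩, by omega⟩, rfl⟩
    have s1 : ((cols M).filter fun j => a ≤ v + j) ⊆ Ico (a - v) c := fun j hj => by
      have h1 := mem_filter.1 hj
      have h2 := hc j h1.1
      exact mem_Ico.2 ⟨by omega, by omega⟩
    have e2 : (range a \ rows M).filter (fun w => w < v) =
        range v \ (rows M).filter fun i => i < v := by
      ext w
      simp only [mem_filter, mem_sdiff, mem_range, not_and]
      constructor
      · rintro ⟨⟨_, h1⟩, h2⟩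
        exact ⟨h2, fun h => absurd h h1⟩
      · rintro ⟨h1, h2⟩
        exact ⟨⟨by omega, fun h => h2 h h1⟩, h1⟩
    have s2 : ((rows M).filter fun i => i < v) ⊆ range v := fun i hi =>
      mem_range.2 (mem_filter.1 hi).2
    rw [e1, e2, card_image_of_injective _ (Prod.mk_right_injective v), cast_card_sdiff s1,
      cast_card_sdiff s2, Nat.card_Ico, card_range, Nat.cast_sub (by omega),
      Nat.cast_sub hv1.le, hg]
    ring
  have hga : g a = y := by
    simp only [hg]
    rw [filter_true_of_mem (fun i hi => mem_range.1 (hra hi)),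
      filter_true_of_mem (fun j _ => Nat.le_add_right a j), hI.card_rows, hI.card_cols]
    ring
  have hsplit : insert a (range a \ rows M) =
      (range σ \ rows M) ∪ (Ico σ (σ + K) ∪ (range σ).image fun q => a - q) := by
    ext v
    simp only [mem_insert, mem_sdiff, mem_range, mem_union, mem_Ico, mem_image]
    constructor
    · rintro (rfl | ⟨h1, h2⟩)
      · rcases Nat.eq_zero_or_pos σ with h0 | h0
        · exact Or.inr (Or.inl ⟨by omega, by omega⟩)
        · exact Or.inr (Or.inr ⟨0, h0, rfl⟩)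
      · by_cases h3 : v < σ
        · exact Or.inl ⟨h3, h2⟩
        by_cases h4 : v < σ + K
        · exact Or.inr (Or.inl ⟨by omega, h4⟩)
        · exact Or.inr (Or.inr ⟨a - v, by omega, by omega⟩)
    · have hn : σ ≤ v → v ≤ a → v = a ∨ v < a ∧ v ∉ rows M := fun h1 h2 => by
        rcases h2.eq_or_lt with h | h
        · exact Or.inl h
        · exact Or.inr ⟨h, fun h3 => by have := hr v h3; omega⟩
      rintro (⟨h1, h2⟩ | ⟨h1, h2⟩ | ⟨q, h1, rfl⟩)
      · exact Or.inr ⟨by omega, h2⟩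
      · exact hn h1 (by omega)
      · exact hn (by omega) (by omega)
  have d1 : Disjoint (range σ \ rows M) (Ico σ (σ + K) ∪ (range σ).image fun q => a - q) := by
    refine disjoint_left.2 fun v h1 h2 => ?_
    simp only [mem_sdiff, mem_range, mem_union, mem_Ico, mem_image] at h1 h2
    rcases h2 with h2 | ⟨q, h2, h3⟩ <;> omega
  have d2 : Disjoint (Ico σ (σ + K)) ((range σ).image fun q => a - q) := by
    refine disjoint_left.2 fun v h1 h2 => ?_
    simp only [mem_range, mem_Ico, mem_image] at h1 h2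
    obtain ⟨q, h2, h3⟩ := h2
    omega
  have hz : ∀ v < σ + K, ((cols M).filter fun j => a ≤ v + j).card = 0 := fun v hv =>
    card_eq_zero.2 (filter_false_of_mem fun j hj => by have := hc j hj; omega)
  have hk : ∀ v, σ ≤ v → ((rows M).filter fun i => i < v).card = M.card := fun v hv => by
    rw [filter_true_of_mem (fun i hi => (hr i hi).trans_le hv), hI.card_rows]
  have p1 : ∏ v ∈ range σ \ rows M, g v =
      ∏ p ∈ range σ \ rows M, (y + (((rows M).filter fun a => a < p).card : S)) := by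
    refine prod_congr rfl fun v hv => ?_
    have := mem_range.1 (mem_sdiff.1 hv).1
    simp only [hg, hz v (by omega), Nat.cast_zero, sub_zero]
  have p2 : ∏ v ∈ Ico σ (σ + K), g v = (y + (M.card : S)) ^ K := by
    rw [prod_congr rfl (g := fun _ => y + (M.card : S)), prod_const, Nat.card_Ico,
      Nat.add_sub_cancel_left]
    intro v hv
    have := mem_Ico.1 hv
    simp only [hg, hz v this.2, hk v this.1, Nat.cast_zero, sub_zero]
  have p3 : ∏ v ∈ (range σ).image (fun q => a - q), g v = (∏ i ∈ range M.card, (y + (i : S))) *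
      ∏ p ∈ range σ \ cols M, (y + (((cols M).filter fun a => a < p).card : S)) := by
    rw [prod_image (fun q hq q' hq' h => by
      simp only [coe_range, Set.mem_Iio] at hq hq' h
      omega), ← hI.card_cols, ← c3_rank (fun i => y + (i : S)), mul_comm,
      prod_sdiff (fun j hj => mem_range.2 (hc j hj))]
    refine prod_congr rfl fun q hq => ?_
    have hq' := mem_range.1 hq
    have e1 := card_filter_add_card_filter_not (s := cols M) (fun j => j < q)
    have e2 : (cols M).filter (fun j => a ≤ a - q + j) = (cols M).filter fun j => ¬ j < q :=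
      filter_congr fun j _ => by omega
    simp only [hg, hk (a - q) (by omega), e2]
    rw [← hI.card_cols, ← e1]
    push_cast
    ring
  rw [hN, prod_congr rfl hfac, c3_wt]
  conv_lhs => rw [← hga]
  rw [← prod_insert (by simp), hsplit, prod_union d1, prod_union d2, p1, p2, p3]
  ring

/-- the positive expansion -/
theorem FF_eq {σ K a c : ℕ} (hK : 1 ≤ K) (ha : a + 1 = 2 * σ + K) (hac : a ≤ c)
    {R : Finset (ℕ × ℕ)} (hR : R ⊆ box σ σ) (y : S) :
    y * Phi (fer a c ∪ R) a (y - ((c : S) - a)) = FF σ K R y := by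
  have hd : Disjoint (fer a c) R := disjoint_left.2 fun e h1 h2 => by
    have h3 := mem_fer.1 h1
    have h4 := mem_box.1 (hR h2)
    omega
  rw [Phi_union hd, mul_sum, FF]
  exact sum_congr rfl fun M hM =>
    c3_term hK ha hac ((mem_mat.1 hM).1.trans hR) (mem_mat.1 hM).2 y

lemma c3_zero {σ K : ℕ} (hK : 1 ≤ K) {M : Finset (ℕ × ℕ)} {n : ℕ} (hn : n ≤ M.card) :
    wt σ K M (-(n : ℤ)) = 0 := by
  rw [c3_wt]
  rcases hn.eq_or_lt with h | h
  · rw [← h, neg_add_cancel, zero_pow (by omega), mul_zero]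
  · rw [prod_eq_zero (mem_range.2 h) (neg_add_cancel _)]
    simp

lemma c3_empty (σ K : ℕ) (y : S) : wt σ K ∅ y = y ^ (2 * σ + K) := by
  rw [c3_wt]
  simp [rows, cols]
  ring

theorem FF_neg_one {σ K : ℕ} (hK : 1 ≤ K) {R : Finset (ℕ × ℕ)} (hR : R ⊆ box σ σ) :
    FF σ K R (-1 : ℤ) = (-1) ^ K := by
  rw [FF, sum_eq_single_of_mem ∅ (empty_mem_mat R), c3_empty, pow_add, pow_mul]
  · simp
  · intro M _ hM
    exact c3_zero (n := 1) hK (card_pos.2 (nonempty_iff_ne_empty.2 hM))

lemma c3_line {σ i : ℕ} (hi : i < σ) :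
    ∏ p ∈ range σ \ {i}, ((-2 : ℤ) + ((({i} : Finset ℕ).filter fun a => a < p).card : ℤ)) =
      (-1) ^ (σ - 1) * 2 ^ i := by
  have e : range σ \ {i} = range i ∪ Ico (i + 1) σ := by
    ext p
    simp only [mem_sdiff, mem_range, mem_singleton, mem_union, mem_Ico]
    omega
  have d : Disjoint (range i) (Ico (i + 1) σ) := disjoint_left.2 fun p h1 h2 => by
    simp only [mem_range, mem_Ico] at h1 h2
    omega
  rw [e, prod_union d, prod_congr rfl (g := fun _ => (-2 : ℤ)),
    prod_congr (s₁ := Ico (i + 1) σ) rfl (g := fun _ => (-1 : ℤ)), prod_const, prod_const,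
    card_range, Nat.card_Ico, show σ - 1 = i + (σ - (i + 1)) by omega, pow_add, neg_pow 2]
  · ring
  · intro p hp
    have := mem_Ico.1 hp
    rw [filter_singleton, if_pos (by omega)]
    simp
  · intro p hp
    have := mem_range.1 hp
    rw [filter_singleton, if_neg (by omega)]
    simp

lemma c3_single {σ K : ℕ} {e : ℕ × ℕ} (he : e ∈ box σ σ) :
    wt σ K {e} (-2 : ℤ) = (-1) ^ K * (-2 * 2 ^ (e.1 + e.2)) := by
  obtain ⟨h1, h2⟩ := mem_box.1 he
  rw [c3_wt]
  simp only [rows, cols, image_singleton, card_singleton, c3_line h1, c3_line h2]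
  have e1 : ((-1 : ℤ) ^ (σ - 1)) * (-1) ^ (σ - 1) = 1 := by
    rw [← mul_pow]
    simp
  norm_num
  linear_combination ((-1 : ℤ) ^ K * 2 * 2 ^ e.1 * 2 ^ e.2) * e1

theorem FF_neg_two {σ K : ℕ} (hK : 1 ≤ K) {R : Finset (ℕ × ℕ)} (hR : R ⊆ box σ σ) :
    FF σ K R (-2 : ℤ) = (-1) ^ K * (2 ^ (2 * σ + K) - 2 * ∑ e ∈ R, 2 ^ (e.1 + e.2)) := by
  have hs : insert ∅ (R.image fun e => ({e} : Finset (ℕ × ℕ))) ⊆ mat R := fun M hM => by
    rcases mem_insert.1 hM with rfl | hM
    · exact empty_mem_mat R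
    · obtain ⟨e, he, rfl⟩ := mem_image.1 hM
      exact mem_mat.2 ⟨singleton_subset_iff.2 he, by simp [IsM]⟩
  rw [FF, ← sum_subset hs, sum_insert (by simp), sum_image (fun e _ f _ h => by simpa using h),
    sum_congr rfl fun e he => c3_single (hR he), c3_empty, ← mul_sum, ← mul_sum, neg_pow 2,
    pow_add (-1 : ℤ), pow_mul]
  · ring
  · intro M hM hn
    refine c3_zero (n := 2) hK ?_
    by_contra hlt
    have h1 : M.card = 0 ∨ M.card = 1 := by omega
    rcases h1 with h | h
    · exact hn (mem_insert.2 (Or.inl (card_eq_zero.1 h)))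
    · obtain ⟨e, rfl⟩ := card_eq_one.1 h
      exact hn (mem_insert_of_mem (mem_image.2
        ⟨e, singleton_subset_iff.1 (mem_mat.1 hM).1, rfl⟩))

end Pool.Agent.Lib.MP_f7f352_co.SX
end

-- part Pool.Agent.Lib.MP_f7f352_co.SX.C4
section

set_option autoImplicit false

namespace Pool.Agent.Lib.MP_f7f352_co.SX

open Finset Polynomial Pool.Agent.Lib.MP_f7f352_co.U

lemma c4_card_le {a c : ℕ} {D M : Finset (ℕ × ℕ)} (hD : D ⊆ box a c) (hM : M ∈ mat D) :
    M.card ≤ a := by
  obtain ⟨h1, h2⟩ := mem_mat.1 hM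
  rw [← h2.card_rows]
  have : rows M ⊆ range a := by
    intro i hi
    obtain ⟨e, he, rfl⟩ := mem_rows.1 hi
    exact mem_range.2 (mem_box.1 (hD (h1 he))).1
  simpa using card_le_card this

lemma c4_ff_zero (n : ℕ) : ff (0 : ℤ) n = if n = 0 then 1 else 0 := by
  unfold ff
  split_ifs with h
  · subst h; simp
  · exact prod_eq_zero (mem_range.2 (Nat.pos_of_ne_zero h)) (by simp)

lemma c4_ff_one_nonneg (n : ℕ) : 0 ≤ ff (1 : ℤ) n := by
  unfold ff
  rcases Nat.lt_or_ge n 2 with h | h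
  · interval_cases n <;> simp
  · exact le_of_eq (prod_eq_zero (i := 1) (mem_range.2 h) (by simp)).symm

lemma c4_Phi_zero {a c : ℕ} {D : Finset (ℕ × ℕ)} (hD : D ⊆ box a c) :
    Phi D a (0 : ℤ) = rk D a := by
  unfold Phi rk
  rw [card_filter]
  push_cast
  refine sum_congr rfl fun M hM => ?_
  have := c4_card_le hD hM
  rw [c4_ff_zero]
  by_cases h : M.card = a
  · rw [if_pos h, if_pos (by omega)]
  · rw [if_neg h, if_neg (by omega)]

lemma c4_Phi_mono {a : ℕ} {D D' : Finset (ℕ × ℕ)} (h : D ⊆ D') :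
    Phi D a (1 : ℤ) ≤ Phi D' a (1 : ℤ) :=
  sum_le_sum_of_subset_of_nonneg (mat_mono h) fun _ _ _ => c4_ff_one_nonneg _

lemma c4_sign {σ K a : ℕ} (ha : a + 1 = 2 * σ + K) : (-1 : ℤ) ^ a * (-1) ^ K = -1 := by
  have h1 : (-1 : ℤ) ^ (a + 1) = (-1) ^ K := by
    rw [ha, pow_add, pow_mul]; simp
  rw [← h1, pow_succ, ← mul_assoc, ← pow_add, ← two_mul, pow_mul]
  simp

theorem rk_compl_one {σ K a c : ℕ} (hK : 1 ≤ K) (ha : a + 1 = 2 * σ + K) (hac : a ≤ c)
    {R B : Finset (ℕ × ℕ)} (hR : R ⊆ box σ σ) (hB : B ⊆ box a c)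
    (he : ∀ k, rk B k = rk (fer a c ∪ R) k) : rk (box a c \ B) a = 1 := by
  have h1 := c4_Phi_zero (a := a) (c := c) (D := box a c \ B) sdiff_subset
  have h2 := Phi_compl hB (0 : ℤ)
  have h3 := FF_eq hK ha hac hR (-1 : ℤ)
  rw [FF_neg_one hK hR] at h3
  rw [Phi_congr he, show (a : ℤ) - c - 1 - 0 = -1 - ((c : ℤ) - a) by ring] at h2
  have h4 : Phi (fer a c ∪ R) a (-1 - ((c : ℤ) - a)) = -(-1) ^ K := by linear_combination -h3
  have h5 := c4_sign ha
  have h6 : (rk (box a c \ B) a : ℤ) = 1 := by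
    rw [← h1, h2, h4]
    linear_combination -h5
  exact_mod_cast h6

lemma c4_row_fer {a c v : ℕ} (hac : a ≤ c) (hv : v < a) :
    ((fer a c).filter fun e => e.1 = v).card = c - a + v := by
  have : ((fer a c).filter fun e => e.1 = v) = (Ico (a - v) c).image fun u => (v, u) := by
    ext ⟨p, q⟩
    simp only [mem_filter, mem_fer, mem_image, mem_Ico, Prod.mk.injEq]
    constructor
    · rintro ⟨⟨⟨h1, h2⟩, h3⟩, rfl⟩
      exact ⟨q, ⟨by omega, h2⟩, rfl, rfl⟩
    · rintro ⟨u, ⟨h1, h2⟩, rfl, rfl⟩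
      exact ⟨⟨⟨hv, h2⟩, by omega⟩, rfl⟩
  rw [this, card_image_of_injective _ (fun x y h => (Prod.mk.inj h).2), Nat.card_Ico]
  omega

lemma c4_row_off {a c v i j : ℕ} (hac : a ≤ c) (hv : v < a) (hvi : v ≠ i) (hj : j < c) :
    ((off (fer a c) {(i, j)}).filter fun e => e.1 = v).card + (if a ≤ v + j then 1 else 0) =
      c - a + v := by
  have : ((off (fer a c) {(i, j)}).filter fun e => e.1 = v) =
      ((Ico (a - v) c).erase j).image fun u => (v, u) := by
    ext ⟨p, q⟩
    simp only [mem_filter, mem_off, mem_fer, mem_image, mem_erase, mem_Ico, Prod.mk.injEq,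
      mem_singleton, forall_eq]
    constructor
    · rintro ⟨⟨⟨⟨h1, h2⟩, h3⟩, h4, h5⟩, rfl⟩
      exact ⟨q, ⟨h5, by omega, h2⟩, rfl, rfl⟩
    · rintro ⟨u, ⟨h0, h1, h2⟩, rfl, rfl⟩
      exact ⟨⟨⟨⟨hv, h2⟩, by omega⟩, hvi, h0⟩, rfl⟩
  rw [this, card_image_of_injective _ (fun x y h => (Prod.mk.inj h).2)]
  split_ifs with h
  · rw [card_erase_of_mem (mem_Ico.2 ⟨by omega, hj⟩), Nat.card_Ico]
    omega
  · rw [erase_eq_of_notMem (fun hh => h (by have := (mem_Ico.1 hh).1; omega)), Nat.card_Ico]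
    omega

lemma c4_rank {a v i : ℕ} (hv : v < a) :
    (((range a).erase i).filter fun w => w < v).card + (if i < v then 1 else 0) = v := by
  have : (((range a).erase i).filter fun w => w < v) = (range v).erase i := by
    ext w
    simp only [mem_filter, mem_erase, mem_range]
    omega
  rw [this]
  split_ifs with h
  · rw [card_erase_of_mem (mem_range.2 h), card_range]
    omega
  · rw [erase_eq_of_notMem (fun hh => h (mem_range.1 hh)), card_range]
    omega

lemma c4_Phi_fer {a c : ℕ} (hac : a ≤ c) :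
    Phi (fer a c) a (-2 - ((c : ℤ) - a)) = (-2) ^ a := by
  have h := Phi_nested (range a) (fer a c) (fun e he => mem_range.2 (mem_fer.1 he).1.1)
    (fun v _ w hw hvw u hu => mem_fer.2 ⟨⟨mem_range.1 hw, (mem_fer.1 hu).1.2⟩, by
      have := (mem_fer.1 hu).2
      simp only at this ⊢
      omega⟩) (-2 - ((c : ℤ) - a))
  rw [card_range] at h
  rw [h]
  refine (prod_congr rfl fun v hv => ?_).trans ((prod_const (-2 : ℤ)).trans (by rw [card_range]))
  have hv' := mem_range.1 hv
  have h2 : ((range a).filter fun w => w < v) = range v := by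
    ext w
    simp only [mem_filter, mem_range]
    omega
  rw [c4_row_fer hac hv', h2, card_range]
  push_cast [hac]
  ring

lemma c4_Phi_off {a c i j : ℕ} (hac : a ≤ c) (hij : i + j + 1 < a) :
    Phi (off (fer a c) {(i, j)}) (a - 1) (-2 - ((c : ℤ) - a)) = (-1) ^ (a - 1) * 2 ^ (i + j) := by
  have hcard : ((range a).erase i).card = a - 1 := by
    rw [card_erase_of_mem (mem_range.2 (by omega)), card_range]
  have h := Phi_nested ((range a).erase i) (off (fer a c) {(i, j)})
    (fun e he => mem_erase.2 ⟨((mem_off.1 he).2 _ (mem_singleton_self _)).1,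
      mem_range.2 (mem_fer.1 (mem_off.1 he).1).1.1⟩)
    (fun v _ w hw hvw u hu => by
      obtain ⟨h1, h2⟩ := mem_off.1 hu
      obtain ⟨h3, h4⟩ := mem_erase.1 hw
      refine mem_off.2 ⟨mem_fer.2 ⟨⟨mem_range.1 h4, (mem_fer.1 h1).1.2⟩, ?_⟩, fun m hm => ?_⟩
      · have := (mem_fer.1 h1).2
        simp only at this ⊢
        omega
      · rw [mem_singleton.1 hm]
        exact ⟨h3, (h2 _ (mem_singleton_self _)).2⟩) (-2 - ((c : ℤ) - a))
  rw [hcard] at h
  rw [h]
  have h2 : ∀ v ∈ (range a).erase i,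
      (-2 - ((c : ℤ) - a)) + (((off (fer a c) {(i, j)}).filter fun e => e.1 = v).card : ℤ) -
        ((((range a).erase i).filter fun w => w < v).card : ℤ) =
      (-1) * (if i < v ∧ v + j < a then 1 else 2) := by
    intro v hv
    obtain ⟨h3, h4⟩ := mem_erase.1 hv
    have h5 := c4_row_off hac (mem_range.1 h4) h3 (show j < c by omega)
    have h6 := c4_rank (i := i) (mem_range.1 h4)
    have h7 := mem_range.1 h4
    split_ifs at h5 h6 ⊢ <;> omega
  rw [prod_congr rfl h2, prod_mul_distrib, prod_const, hcard, prod_ite, prod_const_one, one_mul,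
    prod_const]
  congr 2
  have h3 : (((range a).erase i).filter fun v => ¬ (i < v ∧ v + j < a)) =
      range i ∪ Ico (a - j) a := by
    ext w
    simp only [mem_filter, mem_erase, mem_range, mem_union, mem_Ico]
    omega
  rw [h3, card_union_of_disjoint, card_range, Nat.card_Ico]
  · omega
  · rw [disjoint_left]
    intro w h4 h5
    have := mem_range.1 h4
    have := (mem_Ico.1 h5).1
    omega

lemma c4_mat_single (e : ℕ × ℕ) : mat {e} = {∅, {e}} := by
  ext M
  simp only [mem_mat, subset_singleton_iff, mem_insert, mem_singleton]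
  refine ⟨fun h => h.1, fun h => ⟨h, ?_⟩⟩
  rcases h with rfl | rfl
  · intro p hp
    simp at hp
  · intro p hp q hq _
    rw [mem_singleton.1 hp, mem_singleton.1 hq]

lemma c4_single {a c : ℕ} (hac : a ≤ c) {e : ℕ × ℕ} (he : e ∈ st a) :
    Phi (box a c \ (fer a c ∪ {e})) a (1 : ℤ) = 2 ^ a - 2 ^ (e.1 + e.2) := by
  obtain ⟨i, j⟩ := e
  have hij : i + j + 1 < a := mem_st.1 he
  have hsub : fer a c ∪ {(i, j)} ⊆ box a c := by
    refine union_subset (filter_subset _ _) ?_
    rw [singleton_subset_iff, mem_box]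
    constructor <;> simp only <;> omega
  have hdis : Disjoint (fer a c) {(i, j)} := by
    rw [disjoint_singleton_right, mem_fer]
    simp only
    omega
  have hoff : off (fer a c) ∅ = fer a c := by
    ext p
    simp [mem_off]
  rw [Phi_compl hsub, show (a : ℤ) - c - 1 - 1 = -2 - ((c : ℤ) - a) by ring, Phi_union hdis,
    c4_mat_single, sum_pair (singleton_ne_empty _).symm, hoff, card_empty, Nat.sub_zero,
    card_singleton, c4_Phi_fer hac, c4_Phi_off hac hij]
  obtain ⟨b, rfl⟩ : ∃ b, a = b + 1 := ⟨a - 1, by omega⟩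
  have h1 : (-1 : ℤ) ^ b * (-1) ^ b = 1 := by
    rw [← mul_pow]; simp
  have h2 : (-2 : ℤ) ^ (b + 1) = (-1) ^ (b + 1) * 2 ^ (b + 1) := by
    rw [← mul_pow]; norm_num
  rw [Nat.add_sub_cancel, h2]
  simp only [pow_succ]
  linear_combination (2 ^ b * 2 - 2 ^ (i + j)) * h1

/-- all cells of a rook equivalent board are near the corner -/
theorem long {σ K a c : ℕ} (hK : 1 ≤ K) (ha : a + 1 = 2 * σ + K) (hac : a ≤ c)
    {R R' : Finset (ℕ × ℕ)} (hR : R ⊆ box σ σ) (hR' : R' ⊆ st a)
    (he : ∀ k, rk (fer a c ∪ R') k = rk (fer a c ∪ R) k) {e : ℕ × ℕ} (h : e ∈ R') :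
    2 ^ (e.1 + e.2) ≤ ∑ f ∈ R, 2 ^ (f.1 + f.2) := by
  have hsub : fer a c ∪ R' ⊆ box a c := by
    refine union_subset (filter_subset _ _) fun p hp => ?_
    have := mem_st.1 (hR' hp)
    rw [mem_box]
    omega
  have h2 := Phi_compl hsub (1 : ℤ)
  have h3 := FF_eq hK ha hac hR (-2 : ℤ)
  rw [FF_neg_two hK hR, ← ha] at h3
  rw [Phi_congr he, show (a : ℤ) - c - 1 - 1 = -2 - ((c : ℤ) - a) by ring] at h2
  have h5 := c4_sign ha
  have h4 : Phi (box a c \ (fer a c ∪ R')) a (1 : ℤ) =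
      2 ^ a - ∑ f ∈ R, (2 : ℤ) ^ (f.1 + f.2) := by
    have h6 : (2 : ℤ) * Phi (box a c \ (fer a c ∪ R')) a (1 : ℤ) =
        2 * (2 ^ a - ∑ f ∈ R, (2 : ℤ) ^ (f.1 + f.2)) := by
      rw [h2]
      rw [pow_succ] at h3
      linear_combination (-(-1) ^ a) * h3 -
        (2 ^ a * 2 - 2 * ∑ f ∈ R, (2 : ℤ) ^ (f.1 + f.2)) * h5
    exact mul_left_cancel₀ (by norm_num) h6
  have h7 : Phi (box a c \ (fer a c ∪ R')) a (1 : ℤ) ≤
      Phi (box a c \ (fer a c ∪ {e})) a (1 : ℤ) :=
    c4_Phi_mono (sdiff_subset_sdiff (Subset.refl _)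
      (union_subset_union (Subset.refl _) (singleton_subset_iff.2 h)))
  rw [h4, c4_single hac (hR' h)] at h7
  have h8 : (2 : ℤ) ^ (e.1 + e.2) ≤ ∑ f ∈ R, (2 : ℤ) ^ (f.1 + f.2) := by linarith
  exact_mod_cast h8

theorem FF_congr {σ K a c : ℕ} (hK : 1 ≤ K) (ha : a + 1 = 2 * σ + K) (hac : a ≤ c)
    {R R' : Finset (ℕ × ℕ)} (hR : R ⊆ box σ σ) (hR' : R' ⊆ box σ σ)
    (he : ∀ k, rk (fer a c ∪ R') k = rk (fer a c ∪ R) k) (y : ℂ) :
    FF σ K R' y = FF σ K R y := by
  rw [← FF_eq hK ha hac hR, ← FF_eq hK ha hac hR', Phi_congr he]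

theorem sum_pow_eq {σ K : ℕ} (hK : 1 ≤ K) {R R' : Finset (ℕ × ℕ)} (hR : R ⊆ box σ σ)
    (hR' : R' ⊆ box σ σ) (h : ∀ y : ℂ, FF σ K R' y = FF σ K R y) :
    ∑ e ∈ R', 2 ^ (e.1 + e.2) = ∑ e ∈ R, 2 ^ (e.1 + e.2) := by
  have h1 := FF_int h (-2)
  rw [FF_neg_two hK hR, FF_neg_two hK hR'] at h1
  have h2 := mul_left_cancel₀ (pow_ne_zero K (by norm_num : (-1 : ℤ) ≠ 0)) h1
  have h3 : ∑ e ∈ R', (2 : ℤ) ^ (e.1 + e.2) = ∑ e ∈ R, (2 : ℤ) ^ (e.1 + e.2) := by linarith
  exact_mod_cast h3

end Pool.Agent.Lib.MP_f7f352_co.SX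
end
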