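import Mathlib
import Pool.Agent.Lib.MP_f7f352_co.SX.Num

-- part Pool.Agent.Lib.MP_f7f352_co.SX.D3
section

set_option autoImplicit false

namespace Pool.Agent.Lib.MP_f7f352_co.SX

open Finset Polynomial Pool.Agent.Lib.MP_f7f352_co.U

variable {r l E K : ℕ} {R R' M : Finset (ℕ × ℕ)}

lemma d3_nonneg (D : Multiset ℕ) {y : ℝ} (hy : 0 ≤ y) :
    0 ≤ (D.map fun d : ℕ => y + (d : ℝ)).prod := by
  induction D using Multiset.induction_on with
  | empty => simp
  | cons a s ih =>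
    rw [Multiset.map_cons, Multiset.prod_cons]
    exact mul_nonneg (by positivity) ih

lemma d3_up (D : Multiset ℕ) {y : ℝ} (hy : 0 ≤ y) {n : ℕ} (h : ∀ d ∈ D, d ≤ n) :
    (D.map fun d : ℕ => y + (d : ℝ)).prod ≤ (y + n) ^ Multiset.card D := by
  induction D using Multiset.induction_on with
  | empty => simp
  | cons a s ih =>
    rw [Multiset.map_cons, Multiset.prod_cons, Multiset.card_cons, pow_succ']
    have h1 : (a : ℝ) ≤ n := by exact_mod_cast h a (Multiset.mem_cons_self _ _)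
    exact mul_le_mul (by linarith) (ih fun d hd => h d (Multiset.mem_cons_of_mem hd))
      (d3_nonneg s hy) (by positivity)

lemma d3_low (D : Multiset ℕ) (n : ℕ) :
    ((n : ℝ) + 1) ^ Multiset.card (D.filter fun d => n ≤ d) ≤
      (D.map fun d : ℕ => (1 : ℝ) + (d : ℝ)).prod := by
  induction D using Multiset.induction_on with
  | empty => simp
  | cons a s ih =>
    rw [Multiset.map_cons, Multiset.prod_cons]
    by_cases ha : n ≤ a
    · rw [Multiset.filter_cons_of_pos _ ha, Multiset.card_cons, pow_succ']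
      have h1 : (n : ℝ) ≤ a := by exact_mod_cast ha
      exact mul_le_mul (by linarith) ih (by positivity) (by positivity)
    · rw [Multiset.filter_cons_of_neg _ ha]
      have h1 : (0 : ℝ) ≤ a := Nat.cast_nonneg a
      have h2 := d3_nonneg s (zero_le_one (α := ℝ))
      nlinarith

lemma d3_one_le (D : Multiset ℕ) : 1 ≤ (D.map fun d : ℕ => (1 : ℝ) + (d : ℝ)).prod := by
  have := d3_low D 0
  simpa using this

lemma d3_factor (n d : ℕ) (hd : d ≠ n) :
    4 * ((n : ℝ) + 1) * (1 + d) * (1 + 1 / ((4 * (n + 1) * (n + 2) : ℕ) : ℝ)) ≤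
      ((n : ℝ) + 2 + d) ^ 2 := by
  have h1 : (1 : ℝ) + d ≤ ((d : ℝ) - n) ^ 2 * (n + 2) := by
    have hn : (0 : ℝ) ≤ n := Nat.cast_nonneg n
    rcases lt_or_gt_of_ne hd with h | h
    · have h2 : (d : ℝ) + 1 ≤ n := by exact_mod_cast h
      have h3 : (1 : ℝ) ≤ ((d : ℝ) - n) ^ 2 := by nlinarith
      nlinarith
    · have h2 : (n : ℝ) + 1 ≤ d := by exact_mod_cast h
      have h3 : (d : ℝ) - n ≤ ((d : ℝ) - n) ^ 2 := by nlinarith
      nlinarith
  have h4 : 4 * ((n : ℝ) + 1) * (1 + d) * (1 + 1 / ((4 * (n + 1) * (n + 2) : ℕ) : ℝ)) =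
      4 * ((n : ℝ) + 1) * (1 + d) + (1 + d) / (n + 2) := by
    push_cast
    field_simp
  have h5 : ((1 : ℝ) + d) / (n + 2) ≤ ((d : ℝ) - n) ^ 2 := by
    rw [div_le_iff₀ (by positivity)]
    exact h1
  rw [h4]
  nlinarith

lemma d3_sq (D : Multiset ℕ) (n : ℕ) :
    (4 * ((n : ℝ) + 1)) ^ Multiset.card D * (D.map fun d : ℕ => (1 : ℝ) + (d : ℝ)).prod *
      (1 + 1 / ((4 * (n + 1) * (n + 2) : ℕ) : ℝ)) ^ Multiset.card (D.filter fun d => d ≠ n) ≤
      (D.map fun d : ℕ => ((n : ℝ) + 2) + (d : ℝ)).prod ^ 2 := by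
  induction D using Multiset.induction_on with
  | empty => simp
  | cons a s ih =>
    rw [Multiset.map_cons, Multiset.prod_cons, Multiset.map_cons, Multiset.prod_cons,
      Multiset.card_cons, mul_pow ((n : ℝ) + 2 + a), pow_succ']
    have h2 := d3_nonneg s (zero_le_one (α := ℝ))
    by_cases ha : a ≠ n
    · rw [Multiset.filter_cons_of_pos (p := fun d => d ≠ n) _ ha, Multiset.card_cons, pow_succ']
      refine le_trans (le_of_eq ?_) (mul_le_mul (d3_factor n a ha) ih (by positivity)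
        (by positivity))
      ring
    · rw [Multiset.filter_cons_of_neg (p := fun d => d ≠ n) _ ha]
      have h3 : 4 * ((n : ℝ) + 1) * (1 + a) ≤ ((n : ℝ) + 2 + a) ^ 2 := by
        nlinarith [sq_nonneg ((n : ℝ) - a)]
      refine le_trans (le_of_eq ?_) (mul_le_mul h3 ih (by positivity) (by positivity))
      ring

lemma d3_bern {w t m : ℕ} (hw : 0 < w) (h : w * t ≤ m) :
    (2 : ℝ) ^ t ≤ (1 + 1 / (w : ℝ)) ^ m := by
  have hw' : (0 : ℝ) < w := by exact_mod_cast hw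
  have h0 : (0 : ℝ) ≤ 1 / w := by positivity
  have h1 := one_add_mul_le_pow (a := 1 / (w : ℝ)) (by linarith) w
  rw [mul_one_div_cancel hw'.ne'] at h1
  calc (2 : ℝ) ^ t ≤ ((1 + 1 / (w : ℝ)) ^ w) ^ t :=
        pow_le_pow_left₀ (by norm_num) (by linarith) t
    _ = (1 + 1 / (w : ℝ)) ^ (w * t) := (pow_mul _ _ _).symm
    _ ≤ (1 + 1 / (w : ℝ)) ^ m := pow_le_pow_right₀ (by linarith) h

lemma d3_wt_le {σ : ℕ} {N : Finset (ℕ × ℕ)} (hN : N ∈ mat R) {y : ℝ} (hy : 0 < y) :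
    wt σ K N y ≤ FF σ K R y :=
  single_le_sum (f := fun N => wt σ K N y) (fun _ _ => (wt_pos hy).le) hN

lemma d3_card_mat {σ n : ℕ} (hR : R ⊆ box σ σ) (hσ : σ ^ 2 + 1 ≤ 2 ^ (2 * l))
    (h : ∀ N ∈ mat R, N.card ≤ n) : ((mat R).card : ℝ) ≤ ((2 : ℝ) ^ l) ^ (2 * n) := by
  have h1 := (card_mat_le hR h).trans (Nat.pow_le_pow_left hσ n)
  have h2 : (2 ^ (2 * l)) ^ n = (2 ^ l) ^ (2 * n) := by
    rw [← pow_mul, ← pow_mul]
    congr 1
    ring
  rw [h2] at h1
  exact_mod_cast h1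

lemma d3_FF_up {σ : ℕ} (hR : R ⊆ box σ σ) (hσ : σ ^ 2 + 1 ≤ 2 ^ (2 * l))
    (h : ∀ N ∈ mat R, N.card ≤ r) {y : ℝ} (hy : 1 ≤ y) :
    FF σ K R y ≤ ((2 : ℝ) ^ l) ^ (2 * r) * (y + r) ^ (2 * σ + K) := by
  have hr0 : (0 : ℝ) ≤ r := Nat.cast_nonneg r
  have h1 : FF σ K R y ≤ (mat R).card • (y + r) ^ (2 * σ + K) := by
    refine sum_le_card_nsmul _ _ _ fun N hN => ?_
    have h2 := card_dep (K := K) (mat_mono hR hN)
    calc wt σ K N y ≤ (y + r) ^ Multiset.card (dep σ K N) :=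
          d3_up _ (by linarith) fun d hd => (dep_le hd).trans (h N hN)
      _ ≤ (y + r) ^ (2 * σ + K) := pow_le_pow_right₀ (by linarith) (by omega)
  rw [nsmul_eq_mul] at h1
  exact h1.trans (mul_le_mul_of_nonneg_right (d3_card_mat hR hσ h) (by positivity))

lemma d3_split (σ K : ℕ) (N : Finset (ℕ × ℕ)) :
    ((hd σ (rows N)).map fun d : ℕ => (1 : ℝ) + (d : ℝ)).prod *
      ((hd σ (cols N)).map fun d : ℕ => (1 : ℝ) + (d : ℝ)).prod * (1 + (N.card : ℝ)) ^ K ≤
      wt σ K N 1 := by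
  unfold wt dep
  rw [Multiset.map_add, Multiset.map_add, Multiset.map_add, Multiset.prod_add, Multiset.prod_add,
    Multiset.prod_add, Multiset.map_replicate, Multiset.prod_replicate]
  have h1 := d3_one_le (range N.card).val
  have h2 := d3_nonneg (hd σ (rows N)) (zero_le_one (α := ℝ))
  have h3 := d3_nonneg (hd σ (cols N)) (zero_le_one (α := ℝ))
  refine mul_le_mul_of_nonneg_right (mul_le_mul_of_nonneg_right ?_ h3) (by positivity)
  exact le_mul_of_one_le_left h2 h1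

lemma d3_many (σ : ℕ) {A B : Finset ℕ} (hBA : B ⊆ A) {P : ℕ} (hB : ∀ b ∈ B, b ≤ P) :
    σ ≤ Multiset.card ((hd σ A).filter fun d => B.card ≤ d) + (P + 1) + A.card := by
  unfold hd
  rw [Multiset.filter_map, Multiset.card_map]
  have h1 : Ico (P + 1) σ \ A ⊆ (range σ \ A).filter
      ((fun d => B.card ≤ d) ∘ fun p => (A.filter fun a => a < p).card) := by
    intro p hp
    have h2 := mem_sdiff.1 hp
    have h3 := mem_Ico.1 h2.1
    refine mem_filter.2 ⟨mem_sdiff.2 ⟨mem_range.2 h3.2, h2.2⟩, ?_⟩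
    refine card_le_card fun b hb => mem_filter.2 ⟨hBA hb, ?_⟩
    have := hB b hb
    omega
  have h4 := card_le_card h1
  have h5 := le_card_sdiff A (Ico (P + 1) σ)
  rw [Nat.card_Ico] at h5
  have h6 : ((range σ \ A).filter
      ((fun d => B.card ≤ d) ∘ fun p => (A.filter fun a => a < p).card)).card =
      Multiset.card (Multiset.filter
        ((fun d => B.card ≤ d) ∘ fun p => (A.filter fun a => a < p).card) (range σ \ A).val) :=
    rfl
  omega

/-- the arithmetic of the comparison at two scales -/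
lemma d3_two {a L W1 W2 z : ℝ} {c c0 k T n0 g : ℕ} (ha : 1 ≤ a) (hL : 4 * a ≤ L) (hz : 0 ≤ z)
    (hW2 : 0 ≤ W2) (hc : c + k = T) (hk : k ≤ n0) (hc0 : T ≤ c0 + g)
    (h1 : a ^ c0 ≤ L ^ (2 * n0) * W1) (h2 : (4 * a) ^ c * W1 * z ≤ W2 ^ 2)
    (h3 : W2 ≤ L ^ (2 * r) * (2 * a) ^ T) : z ≤ L ^ (3 * n0 + 4 * r + g) := by
  have hL1 : 1 ≤ L := by linarith
  have hpos : 0 < (4 * a) ^ c * a ^ c0 := by positivity
  refine le_of_mul_le_mul_left ?_ hpos
  have e1 : (4 * a) ^ k ≤ L ^ n0 :=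
    (pow_le_pow_left₀ (by positivity) hL k).trans (pow_le_pow_right₀ hL1 hk)
  have e2 : a ^ T ≤ a ^ c0 * L ^ g := by
    calc a ^ T ≤ a ^ (c0 + g) := pow_le_pow_right₀ ha hc0
      _ = a ^ c0 * a ^ g := pow_add _ _ _
      _ ≤ a ^ c0 * L ^ g := mul_le_mul_of_nonneg_left
          (pow_le_pow_left₀ (by positivity) (by linarith) g) (by positivity)
  have e3 : ((2 * a) ^ T) ^ 2 = (4 * a) ^ c * (4 * a) ^ k * a ^ T := by
    rw [← pow_add, hc, ← mul_pow, ← pow_mul, mul_comm T 2, pow_mul]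
    congr 1
    ring
  calc (4 * a) ^ c * a ^ c0 * z ≤ (4 * a) ^ c * (L ^ (2 * n0) * W1) * z :=
        mul_le_mul_of_nonneg_right (mul_le_mul_of_nonneg_left h1 (by positivity)) hz
    _ = L ^ (2 * n0) * ((4 * a) ^ c * W1 * z) := by ring
    _ ≤ L ^ (2 * n0) * (L ^ (2 * r) * (2 * a) ^ T) ^ 2 :=
        mul_le_mul_of_nonneg_left (h2.trans (pow_le_pow_left₀ hW2 h3 2)) (by positivity)
    _ = L ^ (2 * n0) * (L ^ (2 * r)) ^ 2 * (4 * a) ^ c * ((4 * a) ^ k * a ^ T) := by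
        rw [mul_pow, e3]; ring
    _ ≤ L ^ (2 * n0) * (L ^ (2 * r)) ^ 2 * (4 * a) ^ c * (L ^ n0 * (a ^ c0 * L ^ g)) :=
        mul_le_mul_of_nonneg_left (mul_le_mul e1 e2 (by positivity) (by positivity))
          (by positivity)
    _ = (4 * a) ^ c * a ^ c0 * L ^ (3 * n0 + 4 * r + g) := by ring

lemma d3_num (hp : Par r l E K) : 4 * (r + 1) ≤ 2 ^ l ∧ l * (2 * r) < K ∧
    4 * (r + 1) * (r + 2) * (l * (3 * (2 * (r + 1) ^ 2) + 4 * r + (r + 5 * r ^ 2)) + 1) ≤
      60 * r ^ 4 * l ∧ 60 * r ^ 4 * l < K ∧ 60 * r ^ 4 * l + r ≤ 70 * r ^ 4 * l ∧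
    (r + 1) * (l * (2 * r + 2 * (70 * r ^ 4 * l + 1 + 2 * (r + 1) ^ 2)) + 1) ≤ K := by
  have hr := hp.hr
  have hl := hp.hl
  have hE := hp.hE
  have hK := hp.hK
  have hE2 := hp.E_le
  have p2 : 100 * r ≤ r ^ 2 := by nlinarith
  have p3 : 100 * r ^ 2 ≤ r ^ 3 := by nlinarith
  have p4 : 100 * r ^ 3 ≤ r ^ 4 := by nlinarith
  have p5 : 100 * r ^ 4 ≤ r ^ 5 := by nlinarith
  have p6 : 100 * r ^ 5 ≤ r ^ 6 := by nlinarith
  have l2 : l ≤ l ^ 2 := by nlinarith
  have l3 : l ^ 2 ≤ l ^ 3 := by nlinarith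
  have q1 : r ^ 6 * l ^ 2 ≤ r ^ 6 * l ^ 3 := Nat.mul_le_mul_left _ l3
  have q2 : r ^ 6 * l ≤ r ^ 6 * l ^ 2 := Nat.mul_le_mul_left _ l2
  have q3 : r ^ 6 ≤ r ^ 6 * l := Nat.le_mul_of_pos_right _ hl
  have s1 : 100 * r * l ≤ r ^ 2 * l := Nat.mul_le_mul_right _ p2
  have s2 : 100 * r ^ 2 * l ≤ r ^ 3 * l := Nat.mul_le_mul_right _ p3
  have s3 : 100 * r ^ 3 * l ≤ r ^ 4 * l := Nat.mul_le_mul_right _ p4
  have s4 : 100 * r ^ 4 * l ≤ r ^ 5 * l := Nat.mul_le_mul_right _ p5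
  have s5 : 100 * r ^ 5 * l ≤ r ^ 6 * l := Nat.mul_le_mul_right _ p6
  have s0 : 100 * l ≤ r * l := Nat.mul_le_mul_right _ hr
  have t4 : 100 * r ^ 4 * l ^ 2 ≤ r ^ 5 * l ^ 2 := Nat.mul_le_mul_right _ p5
  have t5 : 100 * r ^ 5 * l ^ 2 ≤ r ^ 6 * l ^ 2 := Nat.mul_le_mul_right _ p6
  have u4 : r ^ 4 ≤ r ^ 4 * l := Nat.le_mul_of_pos_right _ hl
  refine ⟨by nlinarith, by nlinarith, ?_, by nlinarith, by nlinarith, ?_⟩
  · have e : 4 * (r + 1) * (r + 2) * (l * (3 * (2 * (r + 1) ^ 2) + 4 * r + (r + 5 * r ^ 2)) + 1)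
        = 44 * (r ^ 4 * l) + 200 * (r ^ 3 * l) + 316 * (r ^ 2 * l) + 208 * (r * l) + 48 * l +
          (4 * r ^ 2 + 12 * r + 8) := by ring
    rw [e]
    nlinarith
  · have e : (r + 1) * (l * (2 * r + 2 * (70 * r ^ 4 * l + 1 + 2 * (r + 1) ^ 2)) + 1) =
        140 * (r ^ 5 * l ^ 2) + 140 * (r ^ 4 * l ^ 2) + 4 * (r ^ 3 * l) + 14 * (r ^ 2 * l) +
          16 * (r * l) + 6 * l + (r + 1) := by ring
    rw [e]
    nlinarith

/-- an equivalent board has a placement of the same size near the corner, and no larger one -/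
theorem exists_core (hp : Par r l E K) (h : Core (25 * E) r (2 * r ^ 2) R M)
    (hR' : R' ⊆ box (25 * E) (25 * E))
    (he : ∀ y : ℝ, FF (25 * E) K R' y = FF (25 * E) K R y) :
    ∃ Ms, Core (25 * E) r (70 * r ^ 4 * l) R' Ms := by
  obtain ⟨n1, n2, n3, n4, n5, n6⟩ := d3_num hp
  have hr := hp.hr
  have hK := hp.hK
  have hσ := hp.box_le
  have hr0 : (0 : ℝ) ≤ r := Nat.cast_nonneg r
  have hL : 4 * ((r : ℝ) + 1) ≤ (2 : ℝ) ^ l := by exact_mod_cast n1
  have hup : ∀ y : ℝ, 1 ≤ y → ∀ N ∈ mat R', wt (25 * E) K N y ≤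
      ((2 : ℝ) ^ l) ^ (2 * r) * (y + r) ^ (2 * (25 * E) + K) := by
    intro y hy N hN
    refine (d3_wt_le hN (by linarith)).trans ?_
    rw [he y]
    exact d3_FF_up h.sub hσ h.nu hy
  -- step 1: all placements are small
  have hn0 : ∀ N ∈ mat R', N.card ≤ 2 * (r + 1) ^ 2 := by
    intro N hN
    by_contra hlt
    have e1 : (2 : ℝ) * (r + 1) ^ 2 ≤ 1 + (N.card : ℝ) := by
      have : 2 * (r + 1) ^ 2 ≤ 1 + N.card := by omega
      exact_mod_cast this
    have e2 := hup 1 le_rfl N hN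
    have e3 := d3_split (25 * E) K N
    have e4 := d3_one_le (hd (25 * E) (rows N))
    have e5 := d3_one_le (hd (25 * E) (cols N))
    have e6 : (1 + (N.card : ℝ)) ^ K ≤ wt (25 * E) K N 1 :=
      (le_mul_of_one_le_left (by positivity) (one_le_mul_of_one_le_of_one_le e4 e5)).trans e3
    have e7 : ((2 : ℝ) * (r + 1) ^ 2) ^ K ≤ (1 + (N.card : ℝ)) ^ K :=
      pow_le_pow_left₀ (by positivity) e1 K
    have e8 : ((1 : ℝ) + r) ^ (2 * (25 * E) + K) ≤ (((r : ℝ) + 1) ^ 2) ^ K := by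
      rw [← pow_mul, add_comm (1 : ℝ)]
      exact pow_le_pow_right₀ (by linarith) (by omega)
    have e9 : ((2 : ℝ) ^ l) ^ (2 * r) < 2 ^ K := by
      rw [← pow_mul]
      exact pow_lt_pow_right₀ (by norm_num) n2
    have e10 : ((2 : ℝ) ^ l) ^ (2 * r) * ((1 : ℝ) + r) ^ (2 * (25 * E) + K) <
        ((2 : ℝ) * (r + 1) ^ 2) ^ K := by
      rw [mul_pow]
      exact mul_lt_mul e9 e8 (by positivity) (by positivity)
    linarith
  -- step 2: the heaviest placement
  obtain ⟨Ms, hMs, hmax⟩ := exists_max_image (mat R') (fun N => wt (25 * E) K N (1 : ℝ))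
    ⟨∅, empty_mem_mat R'⟩
  have hMsI : IsM Ms := (mem_mat.1 hMs).2
  have hMI : IsM M := (mem_mat.1 h.mem).2
  have f1 : ((r : ℝ) + 1) ^ Multiset.card ((dep (25 * E) K M).filter fun d => r ≤ d) ≤
      ((2 : ℝ) ^ l) ^ (2 * (2 * (r + 1) ^ 2)) * wt (25 * E) K Ms 1 := by
    have e1 : FF (25 * E) K R' (1 : ℝ) ≤ (mat R').card • wt (25 * E) K Ms (1 : ℝ) :=
      sum_le_card_nsmul _ _ _ hmax
    rw [nsmul_eq_mul, he 1] at e1
    exact (d3_low _ r).trans ((d3_wt_le h.mem one_pos).trans (e1.trans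
      (mul_le_mul_of_nonneg_right (d3_card_mat hR' hσ hn0) (wt_pos one_pos).le)))
  have f2 : 2 * (25 * E) + K ≤
      Multiset.card ((dep (25 * E) K M).filter fun d => r ≤ d) + (r + 5 * r ^ 2) := by
    have e1 := card_dep (K := K) (mat_mono h.sub h.mem)
    have e2 := card_dep_ne (σ := 25 * E) (K := K) hMI h.small
    rw [h.card] at e1 e2
    have e3 := congrArg Multiset.card
      (Multiset.filter_add_not (fun d => r ≤ d) (dep (25 * E) K M))
    rw [Multiset.card_add] at e3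
    have e4 : Multiset.card ((dep (25 * E) K M).filter fun d => ¬ r ≤ d) ≤
        Multiset.card ((dep (25 * E) K M).filter fun d => d ≠ r) :=
      Multiset.card_le_card (Multiset.monotone_filter_right _ fun d hd => by
        intro hdr
        exact hd (le_of_eq hdr.symm))
    have e5 : 100 * r ≤ r ^ 2 := by nlinarith
    omega
  have f3 := hup ((r : ℝ) + 2) (by linarith) Ms hMs
  have f4 : (r : ℝ) + 2 + r = 2 * ((r : ℝ) + 1) := by ring
  rw [f4] at f3
  have f5 := d3_two (r := r) (a := (r : ℝ) + 1) (by linarith) hL (by positivity)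
    (wt_pos (by linarith)).le (card_dep (K := K) (mat_mono hR' hMs)) (hn0 Ms hMs) f2 f1
    (d3_sq (dep (25 * E) K Ms) r) f3
  have hm : Multiset.card ((dep (25 * E) K Ms).filter fun d => d ≠ r) ≤ 60 * r ^ 4 * l := by
    by_contra hlt
    have e1 := d3_bern (w := 4 * (r + 1) * (r + 2)) (by positivity)
      (n3.trans (not_le.1 hlt).le)
    have e2 := e1.trans f5
    rw [← pow_mul] at e2
    have e3 := (pow_le_pow_iff_right₀ (by norm_num : (1 : ℝ) < 2)).1 e2
    omega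
  have hparts : Multiset.card ((hd (25 * E) (rows Ms)).filter fun d => d ≠ r) +
      Multiset.card ((hd (25 * E) (cols Ms)).filter fun d => d ≠ r) +
      Multiset.card ((Multiset.replicate K Ms.card).filter fun d => d ≠ r) ≤ 60 * r ^ 4 * l := by
    refine le_trans ?_ hm
    unfold dep
    rw [Multiset.filter_add, Multiset.filter_add, Multiset.filter_add, Multiset.card_add,
      Multiset.card_add, Multiset.card_add]
    omega
  have hcard : Ms.card = r := by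
    by_contra hne
    have e1 : (Multiset.replicate K Ms.card).filter (fun d => d ≠ r) =
        Multiset.replicate K Ms.card := Multiset.filter_eq_self.2 fun d hd => by
      rw [Multiset.eq_of_mem_replicate hd]
      exact hne
    rw [e1, Multiset.card_replicate] at hparts
    omega
  have hbox : ∀ e ∈ Ms, e.1 < 25 * E ∧ e.2 < 25 * E := fun e he' =>
    mem_box.1 (hR' ((mem_mat.1 hMs).1 he'))
  have hrows : ∀ a ∈ rows Ms, a ≤ 70 * r ^ 4 * l := by
    intro a ha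
    have e1 := le_card_hd_ne (σ := 25 * E) (A := rows Ms) (fun b hb => by
      obtain ⟨e, he', rfl⟩ := mem_rows.1 hb
      exact mem_range.2 (hbox e he').1) ha
    rw [hMsI.card_rows, hcard] at e1
    omega
  have hcols : ∀ a ∈ cols Ms, a ≤ 70 * r ^ 4 * l := by
    intro a ha
    have e1 := le_card_hd_ne (σ := 25 * E) (A := cols Ms) (fun b hb => by
      obtain ⟨e, he', rfl⟩ := mem_cols.1 hb
      exact mem_range.2 (hbox e he').2) ha
    rw [hMsI.card_cols, hcard] at e1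
    omega
  refine ⟨Ms, hR', hMs, hcard, fun e he' =>
    ⟨hrows _ (mem_rows.2 ⟨e, he', rfl⟩), hcols _ (mem_cols.2 ⟨e, he', rfl⟩)⟩, ?_⟩
  -- step 3: no larger placement
  intro N hN
  by_contra hlt
  obtain ⟨N', hN', g1, g2, g3⟩ := exists_cover hMs hN
  have hNI : IsM N' := (mem_mat.1 hN').2
  have g4 := hn0 N' hN'
  have g5 := d3_many (25 * E) g2 hrows
  have g6 := d3_many (25 * E) g3 hcols
  rw [hMsI.card_rows, hcard, hNI.card_rows] at g5
  rw [hMsI.card_cols, hcard, hNI.card_cols] at g6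
  have g7 := d3_low (hd (25 * E) (rows N')) r
  have g8 := d3_low (hd (25 * E) (cols N')) r
  have g9 := d3_split (25 * E) K N'
  have g10 := hup 1 le_rfl N' hN'
  set x1 := Multiset.card ((hd (25 * E) (rows N')).filter fun d => r ≤ d)
  set x2 := Multiset.card ((hd (25 * E) (cols N')).filter fun d => r ≤ d)
  have g11 : ((r : ℝ) + 1) * (1 + 1 / ((r + 1 : ℕ) : ℝ)) ≤ 1 + (N'.card : ℝ) := by
    have e1 : r + 2 ≤ 1 + N'.card := by omega
    have e2 : (r : ℝ) + 2 ≤ 1 + (N'.card : ℝ) := by exact_mod_cast e1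
    refine le_trans (le_of_eq ?_) e2
    push_cast
    field_simp
    ring
  have g12 := d3_bern (w := r + 1) (Nat.succ_pos r) n6
  have g13 : ((r : ℝ) + 1) ^ x1 * ((r : ℝ) + 1) ^ x2 * (((r : ℝ) + 1) ^ K *
      2 ^ (l * (2 * r + 2 * (70 * r ^ 4 * l + 1 + 2 * (r + 1) ^ 2)) + 1)) ≤
      wt (25 * E) K N' 1 := by
    refine le_trans ?_ g9
    refine mul_le_mul (mul_le_mul g7 g8 (by positivity) (d3_nonneg _ zero_le_one)) ?_
      (by positivity) (mul_nonneg (d3_nonneg _ zero_le_one) (d3_nonneg _ zero_le_one))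
    refine le_trans ?_ (pow_le_pow_left₀ (by positivity) g11 K)
    rw [mul_pow]
    exact mul_le_mul_of_nonneg_left g12 (by positivity)
  have g14 : ((1 : ℝ) + r) ^ (2 * (25 * E) + K) ≤ ((r : ℝ) + 1) ^ (x1 + x2 + K) *
      ((2 : ℝ) ^ l) ^ (2 * (70 * r ^ 4 * l + 1 + 2 * (r + 1) ^ 2)) := by
    calc ((1 : ℝ) + r) ^ (2 * (25 * E) + K) ≤ ((r : ℝ) + 1) ^
          (x1 + x2 + K + 2 * (70 * r ^ 4 * l + 1 + 2 * (r + 1) ^ 2)) := by
          rw [add_comm (1 : ℝ)]
          exact pow_le_pow_right₀ (by linarith) (by omega)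
      _ = ((r : ℝ) + 1) ^ (x1 + x2 + K) *
          ((r : ℝ) + 1) ^ (2 * (70 * r ^ 4 * l + 1 + 2 * (r + 1) ^ 2)) := pow_add _ _ _
      _ ≤ _ := mul_le_mul_of_nonneg_left
          (pow_le_pow_left₀ (by positivity) (by linarith) _) (by positivity)
  have g15 := g13.trans (g10.trans (mul_le_mul_of_nonneg_left g14 (by positivity)))
  rw [pow_succ, pow_mul, pow_add ((2 : ℝ) ^ l), pow_add ((r : ℝ) + 1), pow_add ((r : ℝ) + 1)]
    at g15
  have g16 : 0 < ((r : ℝ) + 1) ^ x1 * ((r : ℝ) + 1) ^ x2 * ((r : ℝ) + 1) ^ K *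
      (((2 : ℝ) ^ l) ^ (2 * r) *
        ((2 : ℝ) ^ l) ^ (2 * (70 * r ^ 4 * l + 1 + 2 * (r + 1) ^ 2))) := by positivity
  generalize ((r : ℝ) + 1) ^ x1 = A1 at g15 g16
  generalize ((r : ℝ) + 1) ^ x2 = A2 at g15 g16
  generalize ((r : ℝ) + 1) ^ K = A3 at g15 g16
  generalize ((2 : ℝ) ^ l) ^ (2 * r) = A4 at g15 g16
  generalize ((2 : ℝ) ^ l) ^ (2 * (70 * r ^ 4 * l + 1 + 2 * (r + 1) ^ 2)) = A5 at g15 g16
  nlinarith

end Pool.Agent.Lib.MP_f7f352_co.SX
end

-- part Pool.Agent.Lib.MP_f7f352_co.SX.D4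
section

set_option autoImplicit false

namespace Pool.Agent.Lib.MP_f7f352_co.SX

open Finset Polynomial Pool.Agent.Lib.MP_f7f352_co.U

variable {r l E K : ℕ} {R R' M Ms : Finset (ℕ × ℕ)}

lemma d4_mono (hp : Par r l E K) {a b a' b' : ℕ} (ha : a < a') (hb : b ≤ b') :
    100 * (r ^ a * l ^ b) ≤ r ^ a' * l ^ b' := by
  have h1 : 100 * r ^ a ≤ r ^ a' :=
    calc 100 * r ^ a ≤ r * r ^ a := Nat.mul_le_mul_right _ hp.hr
      _ = r ^ (a + 1) := by ring
      _ ≤ r ^ a' := Nat.pow_le_pow_right (by have := hp.hr; omega) ha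
  calc 100 * (r ^ a * l ^ b) = (100 * r ^ a) * l ^ b := by ring
    _ ≤ _ := Nat.mul_le_mul h1 (Nat.pow_le_pow_right hp.hl hb)

lemma d4_mono0 (hp : Par r l E K) {a b b' : ℕ} (hb : b ≤ b') :
    r ^ a * l ^ b ≤ r ^ a * l ^ b' :=
  Nat.mul_le_mul_left _ (Nat.pow_le_pow_right hp.hl hb)

lemma d4_split {σ : ℕ} (hM : M ∈ mat R) (y : ℝ) :
    FF σ K R y = wt σ K M y + ∑ N ∈ (mat R).erase M, wt σ K N y :=
  (add_sum_erase (mat R) (fun N => wt σ K N y) hM).symm

lemma d4_others (hp : Par r l E K) {P J : ℕ} (h : Pre (25 * E) r P J R M) {y : ℝ} (hy : 0 < y)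
    {n t j : ℕ} (hn : y + r ≤ n) (hn2 : n ≤ 2 ^ l) (h1 : n * t + j + r ≤ J)
    (h2 : n * (t + l) + j ≤ K) :
    ∑ N ∈ (mat R).erase M, wt (25 * E) K N y ≤ (y + r) ^ (2 * (25 * E) + K - r) *
      (2 ^ (2 * l * r + 1) * (1 / 2) ^ t * ((y + r - 1) / (y + r)) ^ j) := by
  have hr1 : 1 ≤ r := by have := hp.hr; omega
  have hr1' : (1 : ℝ) ≤ r := by exact_mod_cast hr1
  have hx1 : 1 ≤ y + r := by linarith
  have hun := one_sub_inv_pow_le_half hx1 hn
  have hhyp := fun d (hd : d ≤ r) => real_hyp hy hr1 hd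
  have hu0 : 0 ≤ (y + r - 1) / (y + r) := div_nonneg (by linarith) (by linarith)
  have hu1 : (y + r - 1) / (y + r) ≤ 1 := (div_le_one (by linarith)).2 (by linarith)
  have hx2 : y + r ≤ 2 ^ l := hn.trans (by exact_mod_cast hn2)
  generalize (y + r - 1) / (y + r) = u at *
  have a1 : u ^ (J - r) ≤ (1 / 2) ^ t * u ^ j := by
    rw [show J - r = (J - r - j) + j by omega, pow_add]
    exact mul_le_mul_of_nonneg_right (pow_le_half_pow hu0 hu1 hun (by omega)) (by positivity)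
  have a2 : (y + r) * u ^ K ≤ (1 / 2) ^ t * u ^ j := by
    have b1 : u ^ K ≤ (1 / 2) ^ (t + l) * u ^ j := by
      rw [show K = (K - j) + j by omega, pow_add u]
      exact mul_le_mul_of_nonneg_right (pow_le_half_pow hu0 hu1 hun (by omega)) (by positivity)
    calc (y + r) * u ^ K ≤ 2 ^ l * ((1 / 2) ^ (t + l) * u ^ j) :=
          mul_le_mul hx2 b1 (by positivity) (by positivity)
      _ = (2 * (1 / 2)) ^ l * ((1 / 2) ^ t * u ^ j) := by rw [mul_pow, pow_add]; ring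
      _ = _ := by norm_num
  have a3 : (y + r) * u ^ K ≤ 1 :=
    a2.trans (mul_le_one₀ (pow_le_one₀ (by norm_num) (by norm_num)) (by positivity)
      (pow_le_one₀ hu0 hu1))
  have a4 := h.others_le (K := K) (y := y) (by linarith) hu0 hu1 a3 hhyp
  have a5 : (((25 * E : ℕ) : ℝ) ^ 2 + 1) ^ r ≤ 2 ^ (2 * l * r) := by
    rw [pow_mul]
    refine pow_le_pow_left₀ (by positivity) ?_ _
    exact_mod_cast hp.box_le
  calc ∑ N ∈ (mat R).erase M, wt (25 * E) K N y
      ≤ ∑ N ∈ (mat R).erase M, ‖wt (25 * E) K N y‖ := sum_le_sum fun N _ => le_abs_self _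
    _ ≤ _ := a4
    _ ≤ 2 ^ (2 * l * r) * (y + r) ^ (2 * (25 * E) + K - r) *
        ((1 / 2) ^ t * u ^ j + (1 / 2) ^ t * u ^ j) := by gcongr
    _ = _ := by rw [pow_succ]; ring

lemma d4_main_le {σ P : ℕ} (h : Core σ r P R M) (hr1 : 1 ≤ r) {y : ℝ} (hy : 0 < y) :
    wt σ K M y ≤ (y + r) ^ (2 * σ + K - r) := by
  have hr1' : (1 : ℝ) ≤ r := by exact_mod_cast hr1
  have hu0 : 0 ≤ (y + r - 1) / (y + r) := div_nonneg (by linarith) (by linarith)
  have hu1 : (y + r - 1) / (y + r) ≤ 1 := (div_le_one (by linarith)).2 (by linarith)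
  have h1 := wt_upper (K := K) (mat_mono h.sub h.mem) h.card.le (y := y) (by linarith) hu0 hu1
    fun d hd => real_hyp hy hr1 hd
  rw [h.card] at h1
  refine (le_abs_self _).trans (h1.trans ?_)
  exact mul_le_of_le_one_right (by positivity) (pow_le_one₀ hu0 hu1)

lemma d4_far {σ P J : ℕ} (h : Core σ r P R M) (hr1 : 1 ≤ r) {y : ℝ} (hy : 0 < y)
    (H : ∀ j < J, ∀ N ∈ (mat R).erase M, wt σ K N y <
      (y + r) ^ (2 * σ + K - r) * (y / (y + r)) ^ (r + 2 * (P + 1)) *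
        ((y + r - 1) / (y + r)) ^ j) (e : ℕ × ℕ) (he : e ∈ R) :
    (e.1 ∈ rows M ∧ e.2 ∈ cols M) ∨ (e.1 ∈ rows M ∧ e.2 ∉ cols M ∧ J ≤ e.2) ∨
      (e.2 ∈ cols M ∧ e.1 ∉ rows M ∧ J ≤ e.1) := by
  obtain ⟨hsub, hM⟩ := mem_mat.1 h.mem
  have hmem : ∀ f ∈ sw M e, f = e ∨ f ∈ M := fun f hf =>
    (mem_insert.1 hf).imp id fun h1 => (mem_off.1 h1).1
  have hself : e ∈ sw M e := mem_insert_self _ _
  by_cases h1 : e.1 ∈ rows M <;> by_cases h2 : e.2 ∈ cols M
  · exact Or.inl ⟨h1, h2⟩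
  · refine Or.inr (Or.inl ⟨h1, h2, ?_⟩)
    by_contra hlt
    obtain ⟨s1, s2, -⟩ := sw_row hM h1 h2
    have hN : sw M e ∈ mat R := mem_mat.2 ⟨sw_subset hsub he, s1⟩
    have hne : sw M e ≠ M := fun h3 => h2 (mem_cols.2 ⟨e, h3 ▸ hself, rfl⟩)
    refine absurd (H e.2 (by omega) _ (mem_erase.2 ⟨hne, hN⟩)) (not_lt.2 ?_)
    refine wt_lower (mat_mono h.sub hN) (s2.trans h.card) hr1 hy (Or.inl fun f hf => ?_)
    rcases hmem f hf with rfl | h3
    · obtain ⟨m, hm, h4⟩ := mem_rows.1 h1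
      exact ⟨h4 ▸ (h.small m hm).1, Or.inr rfl⟩
    · exact ⟨(h.small f h3).1, Or.inl (h.small f h3).2⟩
  · refine Or.inr (Or.inr ⟨h2, h1, ?_⟩)
    by_contra hlt
    obtain ⟨s1, s2, -⟩ := sw_col hM h2 h1
    have hN : sw M e ∈ mat R := mem_mat.2 ⟨sw_subset hsub he, s1⟩
    have hne : sw M e ≠ M := fun h3 => h1 (mem_rows.2 ⟨e, h3 ▸ hself, rfl⟩)
    refine absurd (H e.1 (by omega) _ (mem_erase.2 ⟨hne, hN⟩)) (not_lt.2 ?_)
    refine wt_lower (mat_mono h.sub hN) (s2.trans h.card) hr1 hy (Or.inr fun f hf => ?_)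
    rcases hmem f hf with rfl | h3
    · obtain ⟨m, hm, h4⟩ := mem_cols.1 h2
      exact ⟨h4 ▸ (h.small m hm).2, Or.inr rfl⟩
    · exact ⟨(h.small f h3).2, Or.inl (h.small f h3).1⟩
  · exact absurd (h.line he) (not_or.2 ⟨h1, h2⟩)

lemma d4_bern {x a c : ℝ} (hx : 0 < x) (ha : a ≤ x) {m : ℕ} (h : m * a ≤ c * x) :
    1 - c ≤ ((x - a) / x) ^ m := by
  have h1 : a / x ≤ 1 := (div_le_one hx).2 ha
  have h2 := one_add_mul_le_pow (a := -(a / x)) (by linarith) m
  have h3 : (x - a) / x = 1 + -(a / x) := by field_simp; ring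
  have h4 : m * (a / x) ≤ c := by rw [← mul_div_assoc, div_le_iff₀ hx]; exact h
  rw [h3]
  linarith

lemma d4_half (a b : ℕ) : (2 : ℝ) ^ a * (1 / 2) ^ (a + b) = (1 / 2) ^ b := by
  rw [pow_add, ← mul_assoc, ← mul_pow]
  norm_num

/-- large scale: the main term is unique -/
theorem pre_one (hp : Par r l E K) (h : Pre (25 * E) r (2 * r ^ 2) (20 * E) R M)
    (h' : Core (25 * E) r (70 * r ^ 4 * l) R' Ms)
    (he : ∀ y : ℝ, FF (25 * E) K R' y = FF (25 * E) K R y) :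
    Pre (25 * E) r (70 * r ^ 4 * l) (600 * r ^ 5 * l ^ 2) R' Ms := by
  have hr := hp.hr
  have hl := hp.hl
  have hE := hp.hE
  have hK := hp.hK
  have hE2 := hp.E_le
  have hr1 : 1 ≤ r := by omega
  have m1 := d4_mono hp (a := 1) (b := 0) (a' := 5) (b' := 2) (by omega) (by omega)
  have m2 := d4_mono hp (a := 2) (b := 0) (a' := 5) (b' := 2) (by omega) (by omega)
  have m3 := d4_mono0 hp (a := 5) (b := 1) (b' := 2) (by omega)
  have m4 := d4_mono hp (a := 5) (b := 2) (a' := 6) (b' := 3) (by omega) (by omega)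
  have m5 := d4_mono hp (a := 5) (b := 3) (a' := 6) (b' := 3) (by omega) (by omega)
  have m6 := d4_mono hp (a := 0) (b := 1) (a' := 1) (b' := 1) (by omega) (by omega)
  obtain ⟨n, hn⟩ : ∃ n, n = 1500 * r ^ 5 * l ^ 2 := ⟨_, rfl⟩
  have hrn : r < n := by rw [hn]; linarith
  have hrn' : (r : ℝ) < n := by exact_mod_cast hrn
  have hr1' : (1 : ℝ) ≤ r := by exact_mod_cast hr1
  have hy : (0 : ℝ) < n - r := by linarith
  have hx : (n : ℝ) - r + r = n := by ring
  obtain ⟨k, hk⟩ : ∃ k, r * l = k + 6 := ⟨r * l - 6, by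
    have : 6 ≤ r * l := by linarith
    omega⟩
  have o1 := d4_others hp h hy (n := n) (t := 2 * l * r + 1 + (k + 5)) (j := 0) hx.le
    (by rw [hn]; linarith)
    (by rw [show 2 * l * r + 1 + (k + 5) = 3 * (r * l) by linarith, hn]; linarith)
    (by rw [show 2 * l * r + 1 + (k + 5) = 3 * (r * l) by linarith, hn]; linarith)
  have o2 := d4_main_le (K := K) h.toCore hr1 hy
  have o3 := he (n - r)
  rw [d4_split h'.mem, d4_split h.mem] at o3
  have o4 := wt_lower (K := K) (mat_mono h'.sub h'.mem) h'.card hr1 hy (j := 0)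
    (Or.inl fun e he => ⟨(h'.small e he).1, Or.inl (h'.small e he).2⟩)
  have o5 : 1 - 1 / 10 ≤ (((n : ℝ) - r) / n) ^ (r + 2 * (70 * r ^ 4 * l + 1)) := by
    refine d4_bern (by linarith) hrn'.le ?_
    have : 10 * ((r + 2 * (70 * r ^ 4 * l + 1)) * r) ≤ n := by rw [hn]; linarith
    have h2 : (10 : ℝ) * (((r + 2 * (70 * r ^ 4 * l + 1) : ℕ) : ℝ) * r) ≤ n := by
      exact_mod_cast this
    linarith
  rw [d4_half, hx, pow_zero, mul_one] at o1
  rw [hx] at o2
  rw [hx, pow_zero, mul_one] at o4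
  have o6 : ((1 : ℝ) / 2) ^ (k + 5) ≤ 1 / 10 :=
    (pow_le_pow_of_le_one (by norm_num) (by norm_num) (by omega : 5 ≤ k + 5)).trans (by norm_num)
  have hZ : (0 : ℝ) < n ^ (2 * (25 * E) + K - r) := pow_pos (by linarith) _
  have o7 := mul_le_mul_of_nonneg_left o5 hZ.le
  have o8 := mul_le_mul_of_nonneg_left o6 hZ.le
  have o9 : ∀ N ∈ (mat R').erase Ms, wt (25 * E) K N ((n : ℝ) - r) ≤
      n ^ (2 * (25 * E) + K - r) * (1 / 5) := fun N hN => by
    have := single_le_sum (f := fun N => wt (25 * E) K N ((n : ℝ) - r))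
      (fun N _ => (wt_pos hy).le) hN
    linarith
  refine ⟨h', fun N hN h1 h2 h3 => ?_, d4_far (K := K) h' hr1 hy fun j hj N hN => ?_⟩
  · by_contra hne
    have h4 := o9 N (mem_erase.2 ⟨hne, hN⟩)
    rw [wt, dep_congr (h1.trans h'.card.symm) h2 h3, ← wt] at h4
    linarith
  · have h4 := o9 N hN
    have h5 : 1 - 2 / 5 ≤ (((n : ℝ) - 1) / n) ^ j := by
      refine d4_bern (by linarith) (by linarith) ?_
      have : 5 * j ≤ 2 * n := by rw [hn]; linarith
      have h2 : (5 : ℝ) * j ≤ 2 * n := by exact_mod_cast this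
      linarith
    rw [hx]
    have h6 := mul_le_mul o7 h5 (by norm_num) (by linarith)
    linarith

lemma d4_val {p d : ℕ} (hp : p.Prime) (hr : r < p) (hd : d ≤ r) (D : Multiset ℕ)
    (hD : ∀ a ∈ D, a ≤ r) :
    padicValNat p (D.map fun a => p - d + a).prod = D.count d := by
  have := Fact.mk hp
  induction D using Multiset.induction_on with
  | empty => simp
  | cons a D ih =>
    have ha := hD a (Multiset.mem_cons_self _ _)
    have h0 : (D.map fun a => p - d + a).prod ≠ 0 := by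
      refine Multiset.prod_ne_zero fun h => ?_
      obtain ⟨b, _, hb⟩ := Multiset.mem_map.1 h
      omega
    rw [Multiset.map_cons, Multiset.prod_cons, padicValNat.mul (by omega) h0,
      ih fun b hb => hD b (Multiset.mem_cons_of_mem hb), Multiset.count_cons, add_comm]
    congr 1
    split_ifs with h1
    · rw [show p - d + a = p by omega, padicValNat_self]
    · refine padicValNat.eq_zero_of_not_dvd fun h2 => ?_
      obtain ⟨c, hc⟩ := h2
      rcases Nat.lt_or_ge c 2 with h3 | h3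
      · interval_cases c <;> omega
      · have := Nat.mul_le_mul_left p h3
        omega

lemma d4_cast {σ : ℕ} (y : ℕ) :
    wt σ K M (y : ℝ) = (((dep σ K M).map fun a => y + a).prod : ℕ) := by
  rw [wt, Nat.cast_multiset_prod, Multiset.map_map]
  simp only [Function.comp_def, Nat.cast_add]

lemma d4_dvd {σ P g : ℕ} (h : Core σ r P R M) (hg : r + (P + 1) + (P + 1) ≤ g) (y : ℕ) :
    (y + r) ^ (2 * σ + K - r - g) ∣ ((dep σ K M).map fun a => y + a).prod := by
  have h1 := card_dep (K := K) (mat_mono h.sub h.mem)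
  have h2 := card_dep_ne (σ := σ) (K := K) (mem_mat.1 h.mem).2 h.small
  rw [h.card] at h1 h2
  have h3 := Multiset.filter_add_not (fun d => d ≠ r) (dep σ K M)
  have h4 := congrArg Multiset.card h3
  rw [Multiset.card_add] at h4
  have h5 : (dep σ K M).filter (fun d => ¬ d ≠ r) = Multiset.replicate _ r :=
    Multiset.eq_replicate_card.2 fun b hb => not_not.1 (Multiset.mem_filter.1 hb).2
  rw [← h3, Multiset.map_add, Multiset.prod_add, h5, Multiset.map_replicate,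
    Multiset.prod_replicate]
  exact Dvd.dvd.mul_left (pow_dvd_pow _ (by omega)) _

lemma d4_small (hp : Par r l E K)
    (h : Pre (25 * E) r (70 * r ^ 4 * l) (600 * r ^ 5 * l ^ 2) R M) {y : ℕ} (hy : 0 < y)
    (hy2 : y ≤ 2 * r) : ∑ N ∈ (mat R).erase M, wt (25 * E) K N (y : ℝ) <
      ((y + r) ^ (2 * (25 * E) + K - r - 141 * r ^ 4 * l) : ℕ) := by
  have hr := hp.hr
  have hl := hp.hl
  have hE := hp.hE
  have hK := hp.hK
  have hE2 := hp.E_le
  have m1 := d4_mono hp (a := 1) (b := 0) (a' := 5) (b' := 2) (by omega) (by omega)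
  have m2 := d4_mono hp (a := 2) (b := 1) (a' := 5) (b' := 2) (by omega) (by omega)
  have m3 := d4_mono hp (a := 1) (b := 1) (a' := 5) (b' := 2) (by omega) (by omega)
  have m4 := d4_mono hp (a := 5) (b := 2) (a' := 6) (b' := 3) (by omega) (by omega)
  have m5 := d4_mono hp (a := 4) (b := 1) (a' := 5) (b' := 2) (by omega) (by omega)
  have hy' : (0 : ℝ) < y := by exact_mod_cast hy
  have hx2 : (y : ℝ) + r ≤ (3 * r : ℕ) := by
    have : y + r ≤ 3 * r := by omega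
    exact_mod_cast this
  have hx3 : (y : ℝ) + r ≤ 2 ^ l := by
    have : y + r ≤ 2 ^ l := by linarith
    exact_mod_cast this
  obtain ⟨g, hg⟩ : ∃ g, g = 141 * r ^ 4 * l := ⟨_, rfl⟩
  have o1 := d4_others hp h hy' (n := 3 * r) (t := 2 * l * r + 1 + (l * g + 1)) (j := 0) hx2
    (by linarith) (by rw [hg]; linarith) (by rw [hg]; linarith)
  rw [d4_half, pow_zero, mul_one] at o1
  have hg2 : g + r ≤ 50 * E := by rw [hg]; linarith
  rw [← hg]
  refine o1.trans_lt ?_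
  push_cast
  rw [show 2 * (25 * E) + K - r = (2 * (25 * E) + K - r - g) + g by omega, Nat.add_sub_cancel,
    pow_add, mul_assoc]
  refine mul_lt_of_lt_one_right (by positivity) ?_
  calc ((y : ℝ) + r) ^ g * (1 / 2) ^ (l * g + 1) ≤ (2 ^ l) ^ g * (1 / 2) ^ (l * g + 1) := by
        gcongr
    _ = (1 / 2) ^ 1 := by rw [← pow_mul, d4_half]
    _ < 1 := by norm_num

/-- small scale: the main terms agree -/
theorem dep_eq (hp : Par r l E K) (h : Pre (25 * E) r (2 * r ^ 2) (20 * E) R M)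
    (h' : Pre (25 * E) r (70 * r ^ 4 * l) (600 * r ^ 5 * l ^ 2) R' Ms)
    (he : ∀ y : ℝ, FF (25 * E) K R' y = FF (25 * E) K R y) :
    dep (25 * E) K Ms = dep (25 * E) K M := by
  have hr := hp.hr
  have hE := hp.hE
  have m1 := d4_mono hp (a := 2) (b := 0) (a' := 4) (b' := 1) (by omega) (by omega)
  have m2 := d4_mono hp (a := 1) (b := 0) (a' := 4) (b' := 1) (by omega) (by omega)
  have m4 := d4_mono hp (a := 5) (b := 2) (a' := 6) (b' := 3) (by omega) (by omega)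
  have h0 : Pre (25 * E) r (70 * r ^ 4 * l) (600 * r ^ 5 * l ^ 2) R M :=
    h.mono (by linarith) (by linarith)
  have hg : r + (70 * r ^ 4 * l + 1) + (70 * r ^ 4 * l + 1) ≤ 141 * r ^ 4 * l := by linarith
  have key : ∀ y : ℕ, 0 < y → y ≤ 2 * r → ((dep (25 * E) K Ms).map fun a => y + a).prod =
      ((dep (25 * E) K M).map fun a => y + a).prod := by
    intro y hy hy2
    have hy' : (0 : ℝ) < y := by exact_mod_cast hy
    have s1 := d4_small hp h0 hy hy2
    have s2 := d4_small hp h' hy hy2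
    have s3 : 0 ≤ ∑ N ∈ (mat R).erase M, wt (25 * E) K N (y : ℝ) :=
      sum_nonneg fun N _ => (wt_pos hy').le
    have s4 : 0 ≤ ∑ N ∈ (mat R').erase Ms, wt (25 * E) K N (y : ℝ) :=
      sum_nonneg fun N _ => (wt_pos hy').le
    have s5 := he y
    rw [d4_split h'.mem, d4_split h.mem, d4_cast, d4_cast] at s5
    obtain ⟨a, ha⟩ := d4_dvd (K := K) h0.toCore hg y
    obtain ⟨b, hb⟩ := d4_dvd (K := K) h'.toCore hg y
    rw [ha, hb] at s5 ⊢
    generalize (y + r) ^ (2 * (25 * E) + K - r - 141 * r ^ 4 * l) = D at *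
    have t1 : D * a < D * (b + 1) := by
      have : ((D * a : ℕ) : ℝ) < (D * b : ℕ) + D := by linarith
      rw [mul_add, mul_one]
      exact_mod_cast this
    have t2 : D * b < D * (a + 1) := by
      have : ((D * b : ℕ) : ℝ) < (D * a : ℕ) + D := by linarith
      rw [mul_add, mul_one]
      exact_mod_cast this
    have t3 := Nat.lt_of_mul_lt_mul_left t1
    have t4 := Nat.lt_of_mul_lt_mul_left t2
    rw [show a = b by omega]
  have l1 : ∀ a ∈ dep (25 * E) K Ms, a ≤ r := fun a ha => h'.card ▸ dep_le ha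
  have l2 : ∀ a ∈ dep (25 * E) K M, a ≤ r := fun a ha => h.card ▸ dep_le ha
  obtain ⟨p, hpp, hp1, hp2⟩ := Nat.exists_prime_lt_and_le_two_mul r (by omega)
  ext d
  by_cases hd : d ≤ r
  · rw [← d4_val hpp hp1 hd _ l1, ← d4_val hpp hp1 hd _ l2, key _ (by omega) (by omega)]
  · rw [Multiset.count_eq_zero_of_notMem fun h1 => hd (l1 d h1),
      Multiset.count_eq_zero_of_notMem fun h1 => hd (l2 d h1)]

/-- the other lines are almost as far as in the original -/
theorem pre_two (hp : Par r l E K) (h : Pre (25 * E) r (2 * r ^ 2) (20 * E) R M)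
    (h' : Pre (25 * E) r (70 * r ^ 4 * l) (600 * r ^ 5 * l ^ 2) R' Ms)
    (hd : dep (25 * E) K Ms = dep (25 * E) K M)
    (he : ∀ y : ℝ, FF (25 * E) K R' y = FF (25 * E) K R y) :
    Pre (25 * E) r (70 * r ^ 4 * l) (19 * E) R' Ms := by
  have hr := hp.hr
  have hl := hp.hl
  have hE := hp.hE
  have hK := hp.hK
  have hE2 := hp.E_le
  have hr1 : 1 ≤ r := by omega
  have m1 := d4_mono hp (a := 1) (b := 0) (a' := 5) (b' := 2) (by omega) (by omega)
  have m2 := d4_mono hp (a := 2) (b := 1) (a' := 5) (b' := 2) (by omega) (by omega)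
  have m3 := d4_mono hp (a := 1) (b := 1) (a' := 5) (b' := 2) (by omega) (by omega)
  have m4 := d4_mono hp (a := 5) (b := 2) (a' := 6) (b' := 3) (by omega) (by omega)
  refine ⟨h'.toCore, h'.uniq, d4_far (K := K) h'.toCore hr1 one_pos fun j hj N hN => ?_⟩
  obtain ⟨g, hg⟩ : ∃ g, g = r + 2 * (70 * r ^ 4 * l + 1) := ⟨_, rfl⟩
  have hx2 : (1 : ℝ) + r ≤ (2 * r : ℕ) := by
    have : 1 + r ≤ 2 * r := by omega
    exact_mod_cast this
  have hx3 : (1 : ℝ) + r ≤ 2 ^ l := by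
    have : 1 + r ≤ 2 ^ l := by linarith
    exact_mod_cast this
  have o1 := d4_others hp h one_pos (n := 2 * r) (t := 2 * l * r + 1 + (l * g + 1)) (j := j) hx2
    (by linarith) (by rw [hg]; linarith) (by rw [hg]; linarith)
  rw [d4_half] at o1
  have o2 := he 1
  rw [d4_split h'.mem, d4_split h.mem, wt, hd, ← wt, add_right_inj] at o2
  have o3 := single_le_sum (f := fun N => wt (25 * E) K N (1 : ℝ))
    (fun N _ => (wt_pos one_pos).le) hN
  have hr' : (0 : ℝ) < r := by exact_mod_cast hr1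
  have hu : (0 : ℝ) < (1 + r - 1) / (1 + r) := div_pos (by linarith) (by linarith)
  refine (o3.trans (o2.le.trans o1)).trans_lt ?_
  rw [← hg, mul_assoc]
  refine mul_lt_mul_of_pos_left (mul_lt_mul_of_pos_right ?_ (by positivity)) (by positivity)
  calc ((1 : ℝ) / 2) ^ (l * g + 1) < (1 / 2) ^ (l * g) :=
        pow_lt_pow_right_of_lt_one₀ (by norm_num) (by norm_num) (by omega)
    _ = (1 / 2 ^ l) ^ g := by rw [pow_mul, one_div_pow]
    _ ≤ _ := by gcongr

end Pool.Agent.Lib.MP_f7f352_co.SX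
end

-- part Pool.Agent.Lib.MP_f7f352_co.SX.D5
section

set_option autoImplicit false

namespace Pool.Agent.Lib.MP_f7f352_co.SX

open Finset Polynomial Pool.Agent.Lib.MP_f7f352_co.U

variable {σ r l E K : ℕ} {R R' M Ms : Finset (ℕ × ℕ)}

lemma d5_choose (A : Finset ℕ) :
    ∑ p ∈ A, (A.filter fun a => a < p).card = A.card.choose 2 := by
  induction A using Finset.induction_on_max with
  | empty => simp
  | insert x s hx ih =>
    have h1 : x ∉ s := fun h => lt_irrefl _ (hx x h)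
    have h2 : (insert x s).filter (fun a => a < x) = s := by
      rw [filter_insert, if_neg (lt_irrefl x), filter_true_of_mem hx]
    have h3 : ∀ p ∈ s, (insert x s).filter (fun a => a < p) = s.filter fun a => a < p :=
      fun p hp => by rw [filter_insert, if_neg (hx p hp).not_gt]
    rw [sum_insert h1, h2, sum_congr rfl fun p hp => congrArg card (h3 p hp), ih,
      card_insert_of_notMem h1, Nat.choose_succ_succ' s.card 1, Nat.choose_one_right]

lemma sum_hd {A : Finset ℕ} (hA : A ⊆ range σ) :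
    (hd σ A).sum + ∑ a ∈ A, (a + 1) + A.card.choose 2 = A.card * σ := by
  have h1 : (hd σ A).sum = ∑ p ∈ range σ \ A, (A.filter fun a => a < p).card := rfl
  have h2 : ∑ p ∈ range σ, (A.filter fun a => a < p).card + ∑ a ∈ A, (a + 1) = A.card * σ := by
    simp only [card_filter]
    rw [sum_comm, ← sum_add_distrib, ← smul_eq_mul, ← sum_const]
    refine sum_congr rfl fun a ha => ?_
    have h3 : (range σ).filter (fun p => a < p) = Ioo a σ := by
      ext p
      simp [and_comm]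
    have h4 := mem_range.1 (hA ha)
    rw [← card_filter, h3, Nat.card_Ioo]
    omega
  rw [h1, ← h2, ← sum_sdiff hA, d5_choose]
  ring

lemma sum_coord (hM : M ∈ mat (box σ σ)) (hMs : Ms ∈ mat (box σ σ)) (hc : Ms.card = M.card)
    (hd : dep σ K Ms = dep σ K M) : ∑ e ∈ Ms, (e.1 + e.2) = ∑ e ∈ M, (e.1 + e.2) := by
  have key : ∀ N ∈ mat (box σ σ), (dep σ K N).sum + ∑ e ∈ N, (e.1 + e.2) + 2 * N.card +
      2 * N.card.choose 2 = (range N.card).val.sum + K * N.card + 2 * (N.card * σ) := by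
    intro N hN
    obtain ⟨h1, h2⟩ := mem_mat.1 hN
    have h3 := sum_hd (σ := σ) (A := rows N) fun a ha => by
      obtain ⟨e, he, rfl⟩ := mem_rows.1 ha
      exact mem_range.2 (mem_box.1 (h1 he)).1
    have h4 := sum_hd (σ := σ) (A := cols N) fun a ha => by
      obtain ⟨e, he, rfl⟩ := mem_cols.1 ha
      exact mem_range.2 (mem_box.1 (h1 he)).2
    rw [h2.card_rows, rows, sum_image fun e he f hf hef => h2 e he f hf (Or.inl hef)] at h3
    rw [h2.card_cols, cols, sum_image fun e he f hf hef => h2 e he f hf (Or.inr hef)] at h4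
    simp only [sum_add_distrib, sum_const, smul_eq_mul, mul_one] at h3 h4
    simp only [dep, Multiset.sum_add, Multiset.sum_replicate, smul_eq_mul, sum_add_distrib, rows,
      cols]
    omega
  have h1 := key M hM
  have h2 := key Ms hMs
  rw [hd, hc] at h2
  omega

lemma d5_tangent (n s : ℕ) : (2 : ℤ) ^ s * (4 + 3 * ((n : ℤ) - s)) ≤ 4 * 2 ^ n ∧
    ((2 : ℤ) ^ s * (4 + 3 * ((n : ℤ) - s)) = 4 * 2 ^ n → n = s) := by
  have key : n ≠ s → (2 : ℤ) ^ s * (4 + 3 * ((n : ℤ) - s)) < 4 * 2 ^ n := fun hne => by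
    have hs : (0 : ℤ) < 2 ^ s := by positivity
    have hn : (0 : ℤ) < 2 ^ n := by positivity
    rcases lt_or_gt_of_ne hne with h | h
    · rcases (Nat.succ_le_of_lt h).eq_or_lt with e | e
      · subst e
        push_cast
        rw [pow_succ]
        linarith
      · have : (n : ℤ) + 2 ≤ s := by exact_mod_cast e
        nlinarith
    · obtain ⟨k, rfl⟩ := Nat.exists_eq_add_of_lt h
      have h1 : ((k + 1 : ℕ) : ℤ) < 2 ^ (k + 1) := by exact_mod_cast Nat.lt_two_pow_self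
      rw [add_assoc, pow_add]
      push_cast at h1 ⊢
      nlinarith [Int.natCast_nonneg k]
  refine ⟨?_, fun h => by_contra fun hne => (key hne).ne h⟩
  rcases eq_or_ne n s with rfl | hne
  · simp [mul_comm]
  · exact (key hne).le

lemma d5_split (R : Finset (ℕ × ℕ)) (p : ℕ × ℕ → Prop) [DecidablePred p] {J : ℕ}
    (h : ∀ e ∈ R, ¬ p e → J ≤ e.1 + e.2) (hlt : ∑ e ∈ R.filter p, 2 ^ (e.1 + e.2) < 2 ^ J) :
    (∑ e ∈ R, 2 ^ (e.1 + e.2)) % 2 ^ J = ∑ e ∈ R.filter p, 2 ^ (e.1 + e.2) := by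
  have h1 : 2 ^ J ∣ ∑ e ∈ R.filter (fun e => ¬ p e), 2 ^ (e.1 + e.2) :=
    dvd_sum fun e he => pow_dvd_pow _ (h e (mem_filter.1 he).1 (mem_filter.1 he).2)
  obtain ⟨c, hc⟩ := h1
  rw [← sum_filter_add_sum_filter_not R p, hc, Nat.add_mul_mod_self_left, Nat.mod_eq_of_lt hlt]

lemma d5_lt {a b c : ℕ} (h : a + b ≤ c) : a * 2 ^ b < 2 ^ c :=
  (Nat.mul_lt_mul_of_pos_right Nat.lt_two_pow_self (by positivity)).trans_le
    (by rw [← pow_add]; exact Nat.pow_le_pow_right (by norm_num) h)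

/-- convexity: the main placement lies on one diagonal and has no companion cell -/
theorem shape_of (hp : Par r l E K) (h : Shape (25 * E) r (2 * r ^ 2) (20 * E) R M) {s : ℕ}
    (hs : ∀ e ∈ M, e.1 + e.2 = s) (hs2 : s ≤ 2 * r ^ 2)
    (h' : Pre (25 * E) r (70 * r ^ 4 * l) (19 * E) R' Ms)
    (hd : dep (25 * E) K Ms = dep (25 * E) K M)
    (he : ∑ e ∈ R', 2 ^ (e.1 + e.2) = ∑ e ∈ R, 2 ^ (e.1 + e.2)) :
    Shape (25 * E) r (2 * r ^ 2) (19 * E) R' Ms ∧ ∀ e ∈ Ms, e.1 + e.2 = s := by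
  have hr := hp.hr
  have hl := hp.hl
  have hE := hp.hE
  have q1 : r ^ 4 * l ≤ r ^ 6 * l ^ 3 :=
    Nat.mul_le_mul (Nat.pow_le_pow_right (by omega) (by norm_num))
      (Nat.le_self_pow (by norm_num) l)
  have q2 : r ^ 2 ≤ r ^ 4 * l :=
    (Nat.pow_le_pow_right (by omega) (by norm_num)).trans (Nat.le_mul_of_pos_right _ hl)
  have q3 : r ≤ r ^ 2 := Nat.le_self_pow (by norm_num) r
  rw [mul_assoc] at hE
  obtain ⟨m1, m2⟩ := mem_mat.1 h.mem
  obtain ⟨m3, m4⟩ := mem_mat.1 h'.mem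
  have f1 : R.filter (fun e => e.1 ∈ rows M ∧ e.2 ∈ cols M) = M := by
    ext e
    rw [mem_filter]
    exact ⟨fun a => h.near e a.1 a.2.1 a.2.2,
      fun a => ⟨m1 a, mem_image_of_mem _ a, mem_image_of_mem _ a⟩⟩
  have f2 : ∑ e ∈ M, 2 ^ (e.1 + e.2) = r * 2 ^ s := by
    rw [sum_congr rfl fun e he => by rw [hs e he], sum_const, h.card, smul_eq_mul]
  have f3 := d5_split R (fun e => e.1 ∈ rows M ∧ e.2 ∈ cols M) (J := 19 * E)
    (fun e he hn => by rcases h.far e he with a | a | a <;> [exact absurd a hn; omega; omega])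
    (by rw [f1, f2]; exact d5_lt (by omega))
  have f4 := d5_split R' (fun e => e.1 ∈ rows Ms ∧ e.2 ∈ cols Ms) (J := 19 * E)
    (fun e he hn => by rcases h'.far e he with a | a | a <;> [exact absurd a hn; omega; omega])
    (by
      refine (sum_le_card_nsmul _ _ (2 ^ (140 * (r ^ 4 * l))) fun e he => ?_).trans_lt ?_
      · obtain ⟨-, a1, a2⟩ := mem_filter.1 he
        obtain ⟨x, hx, e1⟩ := mem_rows.1 a1
        obtain ⟨y, hy, e2⟩ := mem_cols.1 a2
        have b1 := (h'.small x hx).1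
        have b2 := (h'.small y hy).2
        rw [mul_assoc] at b1 b2
        exact Nat.pow_le_pow_right (by norm_num) (by omega)
      · have : (R'.filter fun e => e.1 ∈ rows Ms ∧ e.2 ∈ cols Ms).card ≤ r ^ 2 := by
          refine (card_le_card (t := rows Ms ×ˢ cols Ms) fun e he =>
            mem_product.2 (mem_filter.1 he).2).trans_eq ?_
          rw [card_product, m4.card_rows, m4.card_cols, h'.card, sq]
        rw [smul_eq_mul]
        exact d5_lt (by omega))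
  rw [he, f3, f1, f2] at f4
  have g1 : Ms ⊆ R'.filter fun e => e.1 ∈ rows Ms ∧ e.2 ∈ cols Ms := fun e a =>
    mem_filter.2 ⟨m3 a, mem_image_of_mem _ a, mem_image_of_mem _ a⟩
  have g2 := sum_coord (mat_mono h.sub h.mem) (mat_mono h'.sub h'.mem)
    (h'.card.trans h.card.symm) hd
  rw [sum_congr rfl hs, sum_const, h.card, smul_eq_mul] at g2
  have g3 : ∑ e ∈ Ms, (2 : ℤ) ^ s * (4 + 3 * (((e.1 + e.2 : ℕ) : ℤ) - s)) = 4 * (r * 2 ^ s) := by
    rw [← mul_sum, sum_add_distrib, ← mul_sum, sum_sub_distrib, ← Nat.cast_sum, g2, sum_const,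
      sum_const, h'.card]
    simp only [nsmul_eq_mul, Nat.cast_mul]
    ring
  have g4 := sum_le_sum fun e (_ : e ∈ Ms) => (d5_tangent (e.1 + e.2) s).1
  have g5 := sum_sdiff (f := fun e : ℕ × ℕ => 2 ^ (e.1 + e.2)) g1
  rw [← f4] at g5
  have g6 : ∑ e ∈ Ms, (4 : ℤ) * 2 ^ (e.1 + e.2) = 4 * ((∑ e ∈ Ms, 2 ^ (e.1 + e.2) : ℕ) : ℤ) := by
    rw [← mul_sum]
    push_cast
    rfl
  have g7 : r * 2 ^ s ≤ ∑ e ∈ Ms, 2 ^ (e.1 + e.2) := by
    rw [g3, g6] at g4
    exact_mod_cast le_of_mul_le_mul_left g4 (by norm_num)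
  have g8 : ∑ e ∈ Ms, 2 ^ (e.1 + e.2) = r * 2 ^ s := by omega
  have g9 : ∀ e ∈ Ms, e.1 + e.2 = s := fun e he' => (d5_tangent _ s).2
    ((sum_eq_sum_iff_of_le fun e _ => (d5_tangent (e.1 + e.2) s).1).1
      (by rw [g3, g6, g8]; push_cast; rfl) e he')
  refine ⟨⟨⟨⟨h'.sub, h'.mem, h'.card, fun e a => ?_, h'.nu⟩, h'.uniq, h'.far⟩,
    fun e a b c => by_contra fun hn => ?_⟩, g9⟩
  · have := g9 e a
    omega
  · have := (sum_eq_zero_iff.1 (by omega : ∑ e ∈ (R'.filter fun e => e.1 ∈ rows Ms ∧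
      e.2 ∈ cols Ms) \ Ms, 2 ^ (e.1 + e.2) = 0)) e (mem_sdiff.2 ⟨mem_filter.2 ⟨a, b, c⟩, hn⟩)
    exact absurd this (by positivity)

end Pool.Agent.Lib.MP_f7f352_co.SX
end
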