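import Mathlib
import Pool.Agent.Lib.MP_f7f352_co.SX.Num

-- part Pool.Agent.Lib.MP_f7f352_co.SX.D7
section

set_option autoImplicit false

namespace Pool.Agent.Lib.MP_f7f352_co.SX

open Finset Polynomial Pool.Agent.Lib.MP_f7f352_co.U

variable {r l E K : ℕ} {R R' M Ms : Finset (ℕ × ℕ)}

lemma d7_lam (k : ℕ) (z : ℂ) : aeval z (lam k) = (k : ℂ) * z - ((k : ℂ) - 1) := by
  simp [lam]

lemma d7_cons (d : ℕ) (D : Multiset ℕ) : Pz r (d ::ₘ D) = lam (r - d) * Pz r D := by
  simp only [Pz, Multiset.map_cons, Multiset.prod_cons]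

lemma aeval_Pz {D : Multiset ℕ} (hD : ∀ d ∈ D, d ≤ r) {x : ℂ} (hx : x ≠ 0) :
    (D.map fun d : ℕ => (x - r) + (d : ℂ)).prod =
      x ^ Multiset.card D * aeval (1 - x⁻¹) (Pz r D) := by
  induction D using Multiset.induction_on with
  | empty => simp [Pz]
  | cons d D ih =>
    have hd : d ≤ r := hD d (Multiset.mem_cons_self d D)
    rw [Multiset.map_cons, Multiset.prod_cons, ih fun e he => hD e (Multiset.mem_cons_of_mem he),
      d7_cons, map_mul, d7_lam, Multiset.card_cons, Nat.cast_sub hd, pow_succ]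
    have h1 : x * x⁻¹ = 1 := mul_inv_cancel₀ hx
    linear_combination (x ^ Multiset.card D * aeval (1 - x⁻¹) (Pz r D) * ((r : ℂ) - d)) * h1

lemma d7_lam_zero : lam 0 = 1 := by
  simp [lam]

lemma d7_lam_deg {k : ℕ} (hk : 0 < k) : (lam k).natDegree = 1 := by
  rw [lam, natDegree_sub_C]
  exact natDegree_C_mul_X _ (by exact_mod_cast hk.ne')

lemma d7_lam_ne (k : ℕ) : lam k ≠ 0 := by
  rcases Nat.eq_zero_or_pos k with rfl | hk
  · rw [d7_lam_zero]
    exact one_ne_zero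
  · intro h
    have := d7_lam_deg hk
    rw [h, natDegree_zero] at this
    exact zero_ne_one this

lemma d7_Pz_ne (D : Multiset ℕ) : Pz r D ≠ 0 := by
  induction D using Multiset.induction_on with
  | empty => simp [Pz]
  | cons d D ih =>
    rw [d7_cons]
    exact mul_ne_zero (d7_lam_ne _) ih

lemma natDegree_Pz (D : Multiset ℕ) :
    (Pz r D).natDegree = Multiset.card (D.filter fun d => d < r) := by
  induction D using Multiset.induction_on with
  | empty => simp [Pz]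
  | cons d D ih =>
    rw [d7_cons, natDegree_mul (d7_lam_ne _) (d7_Pz_ne D), ih]
    by_cases hd : d < r
    · rw [Multiset.filter_cons_of_pos (p := fun d => d < r) _ hd, Multiset.card_cons,
        d7_lam_deg (by omega), add_comm]
    · rw [Multiset.filter_cons_of_neg (p := fun d => d < r) _ hd, show r - d = 0 by omega,
        d7_lam_zero, natDegree_one, zero_add]

lemma d7_circle (hr : 1 ≤ r) (D : Multiset ℕ) {z : ℂ} (hz : ‖z‖ = 1) :
    ‖aeval z (Pz r D)‖ ≤ (2 * r : ℝ) ^ Multiset.card (D.filter fun d => d + 2 ≤ r) := by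
  have hr' : (1 : ℝ) ≤ r := by exact_mod_cast hr
  induction D using Multiset.induction_on with
  | empty => simp [Pz]
  | cons d D ih =>
    rw [d7_cons, map_mul, norm_mul, d7_lam]
    by_cases hd : d + 2 ≤ r
    · rw [Multiset.filter_cons_of_pos (p := fun d => d + 2 ≤ r) _ hd, Multiset.card_cons,
        pow_succ, mul_comm]
      refine mul_le_mul ih ?_ (norm_nonneg _) (by positivity)
      obtain ⟨k, hk⟩ : ∃ k, r - d = k + 1 := ⟨r - d - 1, by omega⟩
      have h1 : ((k + 1 : ℕ) : ℝ) ≤ r := by exact_mod_cast (by omega : k + 1 ≤ r)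
      rw [hk]
      refine (norm_sub_le _ _).trans ?_
      have h2 : ((k + 1 : ℕ) : ℂ) - 1 = (k : ℂ) := by push_cast; ring
      rw [h2, norm_mul, hz, Complex.norm_natCast, Complex.norm_natCast]
      push_cast at h1 ⊢
      linarith
    · rw [Multiset.filter_cons_of_neg (p := fun d => d + 2 ≤ r) _ hd]
      have h1 : ‖((r - d : ℕ) : ℂ) * z - (((r - d : ℕ) : ℂ) - 1)‖ = 1 := by
        have h2 : r - d = 0 ∨ r - d = 1 := by omega
        rcases h2 with h2 | h2 <;> rw [h2] <;> simp [hz]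
      rw [h1, one_mul]
      exact ih

lemma d7_sw {σ P J : ℕ} (h : Shape σ r P J R M) {f : ℕ × ℕ} (hf : f ∈ R \ M) :
    sw M f ∈ mat (box σ σ) ∧ (sw M f).card = r ∧
      Multiset.card ((dep σ K (sw M f)).filter fun d => d < r) ≤ r + P + σ + 2 ∧
      Multiset.card ((dep σ K (sw M f)).filter fun d => d + 2 ≤ r) ≤ r + 2 * (P + 1) := by
  obtain ⟨hMR, hM⟩ := mem_mat.1 h.mem
  have hsub : sw M f ⊆ box σ σ := (sw_subset hMR (mem_sdiff.1 hf).1).trans h.sub
  have hrow : ∀ a ∈ rows M, a ≤ P := by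
    intro a ha
    obtain ⟨e, he, rfl⟩ := mem_rows.1 ha
    exact (h.small e he).1
  have hcol : ∀ a ∈ cols M, a ≤ P := by
    intro a ha
    obtain ⟨e, he, rfl⟩ := mem_cols.1 ha
    exact (h.small e he).2
  have key : IsM (sw M f) ∧ (sw M f).card = r ∧
      Multiset.card ((dep σ K (sw M f)).filter fun d => d ≠ (sw M f).card) ≤ r + P + σ + 2 := by
    rcases h.cases hf with ⟨h1, h2, _⟩ | ⟨h1, h2, _⟩
    · obtain ⟨a1, a2, a3, _⟩ := sw_row hM h1 h2
      refine ⟨a1, a2.trans h.card, ?_⟩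
      have := card_dep_ne (σ := σ) (K := K) a1 (p := P) (q := σ) fun e he =>
        ⟨hrow _ (a3 ▸ mem_rows.2 ⟨e, he, rfl⟩), (mem_box.1 (hsub he)).2.le⟩
      have h4 := h.card
      omega
    · obtain ⟨a1, a2, a3, _⟩ := sw_col hM h1 h2
      refine ⟨a1, a2.trans h.card, ?_⟩
      have := card_dep_ne (σ := σ) (K := K) a1 (p := σ) (q := P) fun e he =>
        ⟨(mem_box.1 (hsub he)).1.le, hcol _ (a3 ▸ mem_cols.2 ⟨e, he, rfl⟩)⟩
      have h4 := h.card
      omega
  obtain ⟨k1, k2, k3⟩ := key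
  refine ⟨mem_mat.2 ⟨hsub, k1⟩, k2, ?_, ?_⟩
  · refine le_trans (Multiset.card_le_card ?_) k3
    refine Multiset.monotone_filter_right _ fun d hd => ?_
    rw [k2]
    exact hd.ne
  · have hmem : ∀ e ∈ sw M f, e = f ∨ e ∈ M := by
      intro e he
      rcases mem_insert.1 he with h1 | h1
      · exact Or.inl h1
      · exact Or.inr (mem_off.1 h1).1
    have b1 := card_hd_low (σ := σ) (A := rows (sw M f)) (p := P) (j := f.1) fun a ha => by
      obtain ⟨e, he, rfl⟩ := mem_rows.1 ha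
      rcases hmem e he with rfl | h1
      · exact Or.inr rfl
      · exact Or.inl (h.small e h1).1
    have b2 := card_hd_low (σ := σ) (A := cols (sw M f)) (p := P) (j := f.2) fun a ha => by
      obtain ⟨e, he, rfl⟩ := mem_cols.1 ha
      rcases hmem e he with rfl | h1
      · exact Or.inr rfl
      · exact Or.inl (h.small e h1).2
    rw [k1.card_rows, k2] at b1
    rw [k1.card_cols, k2] at b2
    have b3 : Multiset.card ((range r).val.filter fun d => d + 2 ≤ r) ≤ r := by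
      refine (Multiset.card_le_card (Multiset.filter_le _ _)).trans ?_
      simp
    have b4 : (Multiset.replicate K r).filter (fun d => d + 2 ≤ r) = 0 := by
      rw [Multiset.filter_eq_nil]
      intro a ha
      rw [Multiset.eq_of_mem_replicate ha]
      omega
    rw [dep, k2, Multiset.filter_add, Multiset.filter_add, Multiset.filter_add, b4,
      Multiset.card_add, Multiset.card_add, Multiset.card_add, Multiset.card_zero]
    omega

lemma d7_deg {σ P J : ℕ} (h : Shape σ r P J R M) :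
    (Q1 σ K r R M).natDegree ≤ r + P + σ + 2 := by
  refine natDegree_sum_le_of_forall_le _ _ fun f hf => ?_
  rw [natDegree_Pz]
  exact (d7_sw h hf).2.2.1

lemma d7_Q_circle {σ P J : ℕ} (hr : 1 ≤ r) (h : Shape σ r P J R M) {z : ℂ} (hz : ‖z‖ = 1) :
    ‖aeval z (Q1 σ K r R M)‖ ≤ (σ : ℝ) ^ 2 * (2 * r : ℝ) ^ (r + 2 * (P + 1)) := by
  have hr' : (1 : ℝ) ≤ r := by exact_mod_cast hr
  rw [Q1, map_sum]
  refine (norm_sum_le _ _).trans ?_
  refine (sum_le_card_nsmul _ _ ((2 * r : ℝ) ^ (r + 2 * (P + 1))) fun f hf => ?_).trans ?_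
  · exact (d7_circle hr _ hz).trans (pow_le_pow_right₀ (by linarith) (d7_sw h hf).2.2.2)
  · rw [nsmul_eq_mul]
    refine mul_le_mul_of_nonneg_right ?_ (by positivity)
    have h1 : (R \ M).card ≤ σ ^ 2 := by
      refine (card_le_card (sdiff_subset.trans h.sub)).trans ?_
      rw [box, card_product, card_range, sq]
    exact_mod_cast h1

lemma d7_sum {σ P J : ℕ} (h : Shape σ r P J R M) {x : ℂ} (hx : x ≠ 0) :
    ∑ f ∈ R \ M, wt σ K (sw M f) (x - r) =
      x ^ (2 * σ + K - r) * aeval (1 - x⁻¹) (Q1 σ K r R M) := by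
  rw [Q1, map_sum, mul_sum]
  refine sum_congr rfl fun f hf => ?_
  obtain ⟨h1, h2, _⟩ := d7_sw (K := K) h hf
  have h3 := card_dep (K := K) h1
  rw [wt, aeval_Pz (fun d hd => h2 ▸ dep_le hd) hx,
    show Multiset.card (dep σ K (sw M f)) = 2 * σ + K - r by omega]

lemma d7_factor {t : ℝ} (ht : 0 < t) (hrt : r * t = 1 / 100) (hr : 1 ≤ r) {ζ : ℂ}
    (h1 : 10 * t ≤ ζ.re) (h2 : ‖ζ‖ ≤ 11 * t) {k : ℕ} (hk : k ≤ r) :
    ‖1 - (k : ℂ) * ζ‖ ≤ (1 - 9 * t) ^ k := by
  have hr' : (1 : ℝ) ≤ r := by exact_mod_cast hr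
  have hk' : (k : ℝ) ≤ r := by exact_mod_cast hk
  have hk0 : (0 : ℝ) ≤ k := Nat.cast_nonneg k
  have ht1 : t ≤ 1 / 100 := by nlinarith
  have hv : 0 ≤ 1 - 9 * t := by linarith
  refine le_of_pow_le_pow_left₀ two_ne_zero (pow_nonneg hv k) ?_
  have e1 : ‖1 - (k : ℂ) * ζ‖ ^ 2 = 1 - 2 * k * ζ.re + k ^ 2 * ‖ζ‖ ^ 2 := by
    rw [Complex.sq_norm, Complex.sq_norm, Complex.normSq_apply, Complex.normSq_apply]
    simp
    ring
  have e2 : ‖ζ‖ ^ 2 ≤ (11 * t) ^ 2 := pow_le_pow_left₀ (norm_nonneg _) h2 2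
  have e3 : 1 + ((2 * k : ℕ) : ℝ) * (-(9 * t)) ≤ (1 + -(9 * t)) ^ (2 * k) :=
    one_add_mul_le_pow (by linarith) _
  have e4 : (k : ℝ) * t ≤ 1 / 100 := by nlinarith
  have e5 : (k : ℝ) ^ 2 * ‖ζ‖ ^ 2 ≤ 2 * (k * t) := by
    have : (k : ℝ) ^ 2 * ‖ζ‖ ^ 2 ≤ 121 * ((k * t) * (k * t)) := by nlinarith [sq_nonneg (k : ℝ)]
    nlinarith [mul_nonneg hk0 ht.le]
  rw [e1, ← pow_mul, mul_comm k 2]
  push_cast at e3
  rw [sub_eq_add_neg 1 (9 * t)]
  nlinarith [mul_le_mul_of_nonneg_left h1 hk0]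

lemma d7_num (hp : Par r l E K) :
    r + 2 * r ^ 2 + 25 * E + 2 ≤ 26 * E ∧ 2 * r ≤ E ∧ r + 2 * (2 * r ^ 2 + 1) ≤ 5 * r ^ 2 ∧
      1000 * (r * r) ≤ E ∧
      100 * r * (1 + 2 * l * r + l + (2 * l + 2 + l * (5 * r ^ 2)) * (2 * (100 * r))) ≤ 21 * E := by
  have hr := hp.hr
  have hl := hp.hl
  have hE := hp.hE
  have h1 : 100 * r ≤ r ^ 2 := by nlinarith
  have h2 : l ≤ l ^ 3 := Nat.le_self_pow (by norm_num) l
  have h3 : 10000 * (r ^ 4 * l) ≤ r ^ 6 * l ^ 3 := by
    calc 10000 * (r ^ 4 * l) ≤ r ^ 2 * (r ^ 4 * l ^ 3) :=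
          Nat.mul_le_mul (by nlinarith) (Nat.mul_le_mul_left _ h2)
      _ = r ^ 6 * l ^ 3 := by ring
  have h4 : r ^ 2 * l ≤ r ^ 4 * l :=
    Nat.mul_le_mul_right _ (Nat.pow_le_pow_right (by omega) (by norm_num))
  have h5 : r * l ≤ r ^ 2 * l := Nat.mul_le_mul_right _ (by omega)
  have h6 : r ^ 2 ≤ r ^ 2 * l := Nat.le_mul_of_pos_right _ hl
  have h7 : 300 * r ^ 6 * l ^ 3 = 300 * (r ^ 6 * l ^ 3) := by ring
  have h8 : r * r = r ^ 2 := by ring
  have h9 : 100 * r * (1 + 2 * l * r + l + (2 * l + 2 + l * (5 * r ^ 2)) * (2 * (100 * r))) =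
      100 * r + 40200 * (r ^ 2 * l) + 100 * (r * l) + 40000 * r ^ 2 + 100000 * (r ^ 4 * l) := by
    ring
  refine ⟨by omega, by omega, by omega, by omega, by omega⟩

/-- the first order terms agree -/
theorem first_order (hp : Par r l E K) (h : Shape (25 * E) r (2 * r ^ 2) (19 * E) R M)
    (h' : Shape (25 * E) r (2 * r ^ 2) (19 * E) R' Ms)
    (hd : dep (25 * E) K Ms = dep (25 * E) K M)
    (he : ∀ y : ℂ, FF (25 * E) K R' y = FF (25 * E) K R y) :
    Q1 (25 * E) K r R' Ms = Q1 (25 * E) K r R M := by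
  obtain ⟨n1, n2, n3, n4, n5⟩ := d7_num hp
  have hr := hp.hr
  have hK := hp.hK
  have hEl := hp.E_le
  have hr1 : 1 ≤ r := by omega
  have hr' : (100 : ℝ) ≤ r := by exact_mod_cast hr
  obtain ⟨t, ht, hrt⟩ : ∃ t : ℝ, 0 < t ∧ r * t = 1 / 100 :=
    ⟨1 / (100 * r), by positivity, by field_simp⟩
  have ht1 : t ≤ 1 / 10000 := by nlinarith
  have hv0 : 0 ≤ 1 - 9 * t := by linarith
  have hv1 : 1 - 9 * t ≤ 1 := by linarith
  have hve : 1 - 9 * t ≤ Real.exp (-(9 * t)) := by linarith [Real.add_one_le_exp (-(9 * t))]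
  have hbox : (((25 * E : ℕ) : ℝ)) ^ 2 + 1 ≤ 2 ^ (2 * l) := by exact_mod_cast hp.box_le
  have h2r : (2 * r : ℝ) ≤ 2 ^ l := by exact_mod_cast (by omega : 2 * r ≤ 2 ^ l)
  have h10r : (1 + 10 * r : ℝ) ≤ 2 ^ l := by exact_mod_cast (by omega : 1 + 10 * r ≤ 2 ^ l)
  rw [← sub_eq_zero]
  refine poly_zero _ (n := 26 * E) (q := 100 * r) ?_ (H := 2 ^ (2 * l + 1 + l * (5 * r ^ 2)))
    (ε := 2 ^ (1 + 2 * l * r + l) * (1 - 9 * t) ^ (37 * E)) (ρ := 1 - 10 * t) (δ := t)
    (one_le_pow₀ one_le_two) ht (by linarith) (by linarith) ?_ ?_ ?_ ?_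
  · exact (natDegree_sub_le _ _).trans (max_le ((d7_deg h').trans n1) ((d7_deg h).trans n1))
  · push_cast
    nlinarith
  · intro z hz
    have a1 : (2 * r : ℝ) ^ (r + 2 * (2 * r ^ 2 + 1)) ≤ 2 ^ (l * (5 * r ^ 2)) := by
      rw [pow_mul]
      exact (pow_le_pow_right₀ (by linarith) n3).trans (pow_le_pow_left₀ (by positivity) h2r _)
    have a2 : (((25 * E : ℕ) : ℝ)) ^ 2 * (2 * r : ℝ) ^ (r + 2 * (2 * r ^ 2 + 1)) ≤
        2 ^ (2 * l) * 2 ^ (l * (5 * r ^ 2)) :=
      mul_le_mul (by linarith) a1 (by positivity) (by positivity)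
    rw [map_sub]
    refine (norm_sub_le _ _).trans ?_
    have a3 := d7_Q_circle (K := K) hr1 h hz
    have a4 := d7_Q_circle (K := K) hr1 h' hz
    rw [pow_add, pow_succ]
    linarith
  · intro z hz1 hz2
    obtain ⟨ζ, hζ⟩ : ∃ ζ : ℂ, ζ = 1 - z := ⟨_, rfl⟩
    have a1 : 10 * t ≤ ζ.re := by
      have := (Complex.re_le_norm z).trans hz1
      rw [hζ, Complex.sub_re, Complex.one_re]
      linarith
    have a2 : ‖ζ‖ ≤ 11 * t := by
      have e1 : ζ = ((10 * t : ℝ) : ℂ) - (z - ((1 - 10 * t : ℝ) : ℂ)) := by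
        rw [hζ]
        push_cast
        ring
      rw [e1]
      refine (norm_sub_le _ _).trans ?_
      rw [hz2, Complex.norm_real, Real.norm_of_nonneg (by linarith)]
      linarith
    have a3 : 10 * t ≤ ‖ζ‖ := a1.trans (Complex.re_le_norm ζ)
    have a4 : 0 < ‖ζ‖ := by linarith
    have hζ0 : ζ ≠ 0 := norm_pos_iff.1 a4
    have hx0 : ζ⁻¹ ≠ 0 := inv_ne_zero hζ0
    have hxp : 0 < ‖ζ⁻¹‖ := norm_pos_iff.2 hx0
    have hx : ‖ζ⁻¹‖ ≤ 10 * r := by
      rw [norm_inv, inv_le_iff_one_le_mul₀ a4]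
      nlinarith
    have hy : ∀ d ≤ r, ‖ζ⁻¹ - r + (d : ℂ)‖ ≤ ‖ζ⁻¹‖ * (1 - 9 * t) ^ (r - d) := by
      intro d hdr
      have e1 : ζ⁻¹ - r + (d : ℂ) = ζ⁻¹ * (1 - ((r - d : ℕ) : ℂ) * ζ) := by
        rw [Nat.cast_sub hdr]
        field_simp
        ring
      rw [e1, norm_mul]
      exact mul_le_mul_of_nonneg_left (d7_factor ht hrt hr1 a1 a2 (Nat.sub_le r d)) hxp.le
    have hxu : ‖ζ⁻¹‖ * (1 - 9 * t) ^ K ≤ 1 := by
      have e1 : (1 - 9 * t) ^ K ≤ Real.exp (-(K * (9 * t))) := by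
        rw [← mul_neg, Real.exp_nat_mul]
        exact pow_le_pow_left₀ hv0 hve K
      have e2 : (1000 : ℝ) * (r * r) ≤ K := by exact_mod_cast (by omega : 1000 * (r * r) ≤ K)
      have e3 : (10 : ℝ) * r ≤ K * (9 * t) := by
        have : 1000 * (r * (r * t)) ≤ (K : ℝ) * t := by nlinarith
        rw [hrt] at this
        nlinarith
      have e4 : (10 : ℝ) * r ≤ Real.exp (K * (9 * t)) := by
        linarith [Real.add_one_le_exp (K * (9 * t))]
      calc ‖ζ⁻¹‖ * (1 - 9 * t) ^ K ≤ Real.exp (K * (9 * t)) * Real.exp (-(K * (9 * t))) :=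
            mul_le_mul (hx.trans e4) e1 (by positivity) (by positivity)
        _ = 1 := by rw [← Real.exp_add, add_neg_cancel, Real.exp_zero]
    have b1 := h.second_le (K := K) hxp.le hv0 hv1 hxu hy
    have b2 := h'.second_le (K := K) hxp.le hv0 hv1 hxu hy
    have hw : wt (25 * E) K Ms (ζ⁻¹ - r) = wt (25 * E) K M (ζ⁻¹ - r) := by rw [wt, wt, hd]
    have hz : 1 - ζ⁻¹⁻¹ = z := by rw [inv_inv, hζ]; ring
    rw [d7_sum h hx0, hz] at b1
    rw [d7_sum h' hx0, hz, he, hw] at b2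
    have b3 := (norm_sub_le _ _).trans (add_le_add b1 b2)
    rw [sub_sub_sub_cancel_left, ← mul_sub, norm_mul, norm_pow, ← map_sub] at b3
    have c1 : (1 - 9 * t) ^ (2 * (19 * E - r)) ≤ (1 - 9 * t) ^ (37 * E) :=
      pow_le_pow_of_le_one hv0 hv1 (by omega)
    have c2 : (1 - 9 * t) ^ K ≤ (1 - 9 * t) ^ (37 * E) := pow_le_pow_of_le_one hv0 hv1 (by omega)
    have c3 : (1 - 9 * t) ^ (2 * (19 * E - r)) + ‖ζ⁻¹‖ * (1 - 9 * t) ^ K ≤
        2 ^ l * (1 - 9 * t) ^ (37 * E) := by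
      have e1 := mul_le_mul hx c2 (by positivity) (by positivity)
      have e2 := mul_le_mul_of_nonneg_right h10r (pow_nonneg hv0 (37 * E))
      linarith
    have c4 : ((((25 * E : ℕ) : ℝ)) ^ 2 + 1) ^ r ≤ 2 ^ (2 * l * r) := by
      rw [pow_mul]
      exact pow_le_pow_left₀ (by positivity) hbox r
    have c5 : ((((25 * E : ℕ) : ℝ)) ^ 2 + 1) ^ r * ‖ζ⁻¹‖ ^ (2 * (25 * E) + K - r) *
        ((1 - 9 * t) ^ (2 * (19 * E - r)) + ‖ζ⁻¹‖ * (1 - 9 * t) ^ K) ≤
        2 ^ (2 * l * r) * ‖ζ⁻¹‖ ^ (2 * (25 * E) + K - r) * (2 ^ l * (1 - 9 * t) ^ (37 * E)) :=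
      mul_le_mul (mul_le_mul_of_nonneg_right c4 (by positivity)) c3 (by positivity) (by positivity)
    refine le_of_mul_le_mul_left (b3.trans ((add_le_add c5 c5).trans (le_of_eq ?_)))
      (pow_pos hxp _)
    rw [pow_add, pow_add]
    ring
  · have a1 : Real.exp (-(12 * t)) ≤ 1 - 10 * t - t := by
      rw [Real.exp_neg, inv_le_iff_one_le_mul₀ (Real.exp_pos _)]
      nlinarith [Real.add_one_le_exp (12 * t)]
    have a2 : Real.exp (-((26 * E : ℕ) * (12 * t))) ≤ (1 - 10 * t - t) ^ (26 * E) := by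
      rw [← mul_neg, Real.exp_nat_mul]
      exact pow_le_pow_left₀ (Real.exp_pos _).le a1 _
    have a3 : (1 - 9 * t) ^ (37 * E) ≤ Real.exp (-((37 * E : ℕ) * (9 * t))) := by
      rw [← mul_neg, Real.exp_nat_mul]
      exact pow_le_pow_left₀ hv0 hve _
    obtain ⟨N, hN⟩ : ∃ N,
        N = 1 + 2 * l * r + l + (2 * l + 2 + l * (5 * r ^ 2)) * (2 * (100 * r)) := ⟨_, rfl⟩
    rw [← hN] at n5
    have a4 : (2 : ℝ) ^ N < Real.exp N := by
      have e1 : Real.exp N = Real.exp 1 ^ N := by rw [← Real.exp_nat_mul, mul_one]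
      rw [e1]
      exact pow_lt_pow_left₀ (by linarith [Real.add_one_lt_exp one_ne_zero]) (by norm_num)
        (by omega)
    have a5 : (N : ℝ) ≤ 21 * (E * t) := by
      have e1 : (100 : ℝ) * r * N ≤ 21 * E := by exact_mod_cast n5
      have e2 := mul_le_mul_of_nonneg_right e1 ht.le
      have e3 : (100 : ℝ) * r * N * t = 100 * (r * t) * N := by ring
      rw [e3, hrt] at e2
      linarith
    calc 2 ^ (1 + 2 * l * r + l) * (1 - 9 * t) ^ (37 * E) *
          (2 * 2 ^ (2 * l + 1 + l * (5 * r ^ 2))) ^ (2 * (100 * r))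
        = 2 ^ N * (1 - 9 * t) ^ (37 * E) := by
          rw [hN, pow_add (2 : ℝ) (1 + 2 * l * r + l), pow_mul (2 : ℝ) (2 * l + 2 + _),
            show 2 * l + 2 + l * (5 * r ^ 2) = 2 * l + 1 + l * (5 * r ^ 2) + 1 by ring,
            pow_succ' (2 : ℝ)]
          ring
      _ ≤ 2 ^ N * Real.exp (-((37 * E : ℕ) * (9 * t))) :=
          mul_le_mul_of_nonneg_left a3 (by positivity)
      _ < Real.exp N * Real.exp (-((37 * E : ℕ) * (9 * t))) :=
          mul_lt_mul_of_pos_right a4 (Real.exp_pos _)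
      _ ≤ Real.exp (-((26 * E : ℕ) * (12 * t))) := by
          rw [← Real.exp_add]
          refine Real.exp_le_exp.2 ?_
          push_cast
          linarith
      _ ≤ _ := a2

end Pool.Agent.Lib.MP_f7f352_co.SX
end

-- part Pool.Agent.Lib.MP_f7f352_co.SX.E1
section

set_option autoImplicit false

namespace Pool.Agent.Lib.MP_f7f352_co.SX

open Finset Polynomial Pool.Agent.Lib.MP_f7f352_co.U

variable {σ r h l E K : ℕ} {F R' Ms : Finset (ℕ × ℕ)}

/-- the lines of the reference placement -/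
def A0 (r : ℕ) : Finset ℕ := (range r).image fun l => l * (2 * r)

lemma e1_mem_A0 {x : ℕ} : x ∈ A0 r ↔ ∃ k < r, k * (2 * r) = x := by
  simp only [A0, mem_image, mem_range]

lemma e1_mem_M0 {e : ℕ × ℕ} :
    e ∈ M0 r ↔ ∃ k < r, (k * (2 * r), (r - 1 - k) * (2 * r)) = e := by
  simp only [M0, mem_image, mem_range]

lemma rows_M0 (r : ℕ) : rows (M0 r) = A0 r := by
  rw [rows, M0, image_image]
  rfl

lemma cols_M0 (r : ℕ) : cols (M0 r) = A0 r := by
  ext x
  rw [mem_cols, e1_mem_A0]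
  constructor
  · rintro ⟨e, he, rfl⟩
    obtain ⟨k, hk, rfl⟩ := e1_mem_M0.1 he
    exact ⟨r - 1 - k, by omega, rfl⟩
  · rintro ⟨k, hk, rfl⟩
    exact ⟨_, e1_mem_M0.2 ⟨r - 1 - k, by omega, rfl⟩, by
      rw [show r - 1 - (r - 1 - k) = k by omega]⟩

lemma M0_diag {e : ℕ × ℕ} (he : e ∈ M0 r) : e.1 + e.2 = (r - 1) * (2 * r) := by
  obtain ⟨k, hk, rfl⟩ := e1_mem_M0.1 he
  rw [← add_mul, show k + (r - 1 - k) = r - 1 by omega]

lemma card_A0 (r : ℕ) : (A0 r).card = r := by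
  rw [A0, card_image_of_injOn, card_range]
  intro i hi j _ hij
  have : i < r := mem_range.1 hi
  exact Nat.eq_of_mul_eq_mul_right (by omega) hij

lemma e1_isM (r : ℕ) : IsM (M0 r) := fun e he f hf hef => by
  have h1 := M0_diag he
  have h2 := M0_diag hf
  exact Prod.ext (by omega) (by omega)

lemma e1_lt {x : ℕ} (hx : x ∈ A0 r) : x < 2 * r ^ 2 := by
  obtain ⟨k, hk, rfl⟩ := e1_mem_A0.1 hx
  calc k * (2 * r) < r * (2 * r) := Nat.mul_lt_mul_of_pos_right hk (by omega)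
    _ = 2 * r ^ 2 := by ring

lemma e1_par (hp : Par r l E K) : 2 * l + 4 * r ^ 2 < E := by
  have h1 := hp.hr
  have h2 := hp.hl
  have h3 : r ^ 2 ≤ r ^ 6 := Nat.pow_le_pow_right (by omega) (by norm_num)
  have h4 : l ^ 1 ≤ l ^ 3 := Nat.pow_le_pow_right h2 (by norm_num)
  have h5 : 1 ≤ r ^ 2 := Nat.one_le_pow _ _ (by omega)
  have h6 : r ^ 2 * l ^ 1 ≤ r ^ 6 * l ^ 3 := Nat.mul_le_mul h3 h4
  have h7 := hp.hE
  rw [pow_one] at h6
  have h8 : l ≤ r ^ 2 * l := Nat.le_mul_of_pos_left l h5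
  have h9 : r ^ 2 ≤ r ^ 2 * l := Nat.le_mul_of_pos_right _ h2
  rw [mul_assoc] at h7
  omega

lemma e1_M0_A0 {e : ℕ × ℕ} (he : e ∈ M0 r) : e.1 ∈ A0 r ∧ e.2 ∈ A0 r :=
  ⟨rows_M0 r ▸ mem_rows.2 ⟨e, he, rfl⟩, cols_M0 r ▸ mem_cols.2 ⟨e, he, rfl⟩⟩

/-- the upper half of the reference lines -/
def e1_up (h : ℕ) : Finset ℕ := (Ico h (2 * h)).image fun l => l * (2 * (2 * h))

lemma e1_up_sub : e1_up h ⊆ A0 (2 * h) :=
  image_subset_image fun _ hk => mem_range.2 (mem_Ico.1 hk).2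

lemma e1_fa (hp : Par (2 * h) l E K) (hF : F ⊆ data h E) {e : ℕ × ℕ} (he : e ∈ fa h E F) :
    e.1 ∈ e1_up h ∧ 20 * E ≤ e.2 ∧ e.2 ≤ 24 * E := by
  have h1 := hp.hr
  rcases mem_insert.1 he with rfl | he
  · exact ⟨mem_image.2 ⟨2 * h - 1, mem_Ico.2 ⟨by omega, by omega⟩, rfl⟩, by omega, le_rfl⟩
  · obtain ⟨h2, h3⟩ := mem_product.1 (hF he)
    have := mem_Ico.1 h3
    exact ⟨h2, this.1, by omega⟩

lemma e1_mem_tgt {e : ℕ × ℕ} :
    e ∈ tgt h E F ↔ e ∈ M0 (2 * h) ∨ e ∈ fa h E F ∨ e.swap ∈ fa h E F := by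
  simp only [tgt, mem_union, mem_image]
  refine or_congr_right (or_congr_right ⟨?_, fun h => ⟨_, h, Prod.swap_swap e⟩⟩)
  rintro ⟨f, hf, rfl⟩
  exact hf

lemma e1_cases (hp : Par (2 * h) l E K) (hF : F ⊆ data h E) {e : ℕ × ℕ} (he : e ∈ tgt h E F) :
    e ∈ M0 (2 * h) ∨ (e.1 ∈ e1_up h ∧ 20 * E ≤ e.2 ∧ e.2 ≤ 24 * E) ∨
      (e.2 ∈ e1_up h ∧ 20 * E ≤ e.1 ∧ e.1 ≤ 24 * E) :=
  (e1_mem_tgt.1 he).imp_right (Or.imp (e1_fa hp hF) fun h => e1_fa (e := e.swap) hp hF h)

theorem tgt_shape (hp : Par (2 * h) l E K) (hF : F ⊆ data h E) :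
    Shape (25 * E) (2 * h) (2 * (2 * h) ^ 2) (20 * E) (tgt h E F) (M0 (2 * h)) := by
  have hE := e1_par hp
  have hfar : ∀ x, 20 * E ≤ x → x ∉ A0 (2 * h) := fun x hx h => by
    have := e1_lt h
    omega
  have hcard : (M0 (2 * h)).card = 2 * h := by rw [← (e1_isM _).card_rows, rows_M0, card_A0]
  have hnear : ∀ e ∈ tgt h E F, e.1 ∈ A0 (2 * h) → e.2 ∈ A0 (2 * h) → e ∈ M0 (2 * h) :=
    fun e he h1 h2 => by
      rcases e1_cases hp hF he with h3 | h3 | h3
      · exact h3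
      · exact absurd h2 (hfar _ h3.2.1)
      · exact absurd h1 (hfar _ h3.2.1)
  refine ⟨⟨⟨fun e he => mem_box.2 ?_, mem_mat.2 ⟨subset_union_left, e1_isM _⟩, hcard,
    fun e he => ⟨(e1_lt (e1_M0_A0 he).1).le, (e1_lt (e1_M0_A0 he).2).le⟩, fun M hM => ?_⟩,
    fun M hM hc h1 h2 => ?_, fun e he => ?_⟩, fun e he h1 h2 => ?_⟩
  · rcases e1_cases hp hF he with h3 | h3 | h3
    · have h4 := e1_lt (e1_M0_A0 h3).1
      have h5 := e1_lt (e1_M0_A0 h3).2
      omega
    · have h4 := e1_lt (e1_up_sub h3.1)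
      omega
    · have h4 := e1_lt (e1_up_sub h3.1)
      omega
  · obtain ⟨hs, hI⟩ := mem_mat.1 hM
    have hu : (e1_up h).card ≤ h := card_image_le.trans (by rw [Nat.card_Ico]; omega)
    have c1 : (M.filter fun e => e.1 ∈ e1_up h).card ≤ (e1_up h).card :=
      card_le_card_of_injOn Prod.fst (fun e he => (mem_filter.1 he).2) fun e he f hf hef =>
        hI e (mem_filter.1 he).1 f (mem_filter.1 hf).1 (Or.inl hef)
    have c2 : (M.filter fun e => e.2 ∈ e1_up h).card ≤ (e1_up h).card :=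
      card_le_card_of_injOn Prod.snd (fun e he => (mem_filter.1 he).2) fun e he f hf hef =>
        hI e (mem_filter.1 he).1 f (mem_filter.1 hf).1 (Or.inr hef)
    have c3 : M ⊆ (M.filter fun e => e.1 ∈ e1_up h) ∪ M.filter fun e => e.2 ∈ e1_up h := by
      intro e he
      simp only [mem_union, mem_filter, he, true_and]
      rcases e1_cases hp hF (hs he) with h3 | h3 | h3
      · obtain ⟨k, hk, rfl⟩ := e1_mem_M0.1 h3
        by_cases h4 : h ≤ k
        · exact Or.inl (mem_image.2 ⟨k, mem_Ico.2 ⟨h4, hk⟩, rfl⟩)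
        · exact Or.inr (mem_image.2 ⟨2 * h - 1 - k, mem_Ico.2 ⟨by omega, by omega⟩, rfl⟩)
      · exact Or.inl h3.1
      · exact Or.inr h3.1
    have c4 := (card_le_card c3).trans (card_union_le _ _)
    omega
  · refine eq_of_subset_of_card_le (fun e he => hnear e ((mem_mat.1 hM).1 he) ?_ ?_)
      (by rw [hcard, hc])
    · rw [← rows_M0, ← h1]
      exact mem_rows.2 ⟨e, he, rfl⟩
    · rw [← cols_M0, ← h2]
      exact mem_cols.2 ⟨e, he, rfl⟩
  · rw [rows_M0, cols_M0]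
    rcases e1_cases hp hF he with h3 | h3 | h3
    · exact Or.inl (e1_M0_A0 h3)
    · exact Or.inr (Or.inl ⟨e1_up_sub h3.1, hfar _ h3.2.1, h3.2.1⟩)
    · exact Or.inr (Or.inr ⟨e1_up_sub h3.1, hfar _ h3.2.1, h3.2.1⟩)
  · exact hnear e he (rows_M0 _ ▸ h1) (cols_M0 _ ▸ h2)

lemma tgt_sdiff (hp : Par (2 * h) l E K) (hF : F ⊆ data h E) :
    tgt h E F \ M0 (2 * h) = fa h E F ∪ (fa h E F).image Prod.swap := by
  have hE := e1_par hp
  refine union_sdiff_cancel_left (disjoint_left.2 fun e h1 h2 => ?_)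
  have h3 := e1_lt (e1_M0_A0 h1).1
  have h4 := e1_lt (e1_M0_A0 h1).2
  rcases mem_union.1 h2 with h5 | h5
  · have := e1_fa hp hF h5
    omega
  · obtain ⟨f, hf, rfl⟩ := mem_image.1 h5
    have := e1_fa hp hF hf
    rw [Prod.fst_swap] at h3
    omega

lemma e1_sub (hp : Par (2 * h) l E K) {F' : Finset (ℕ × ℕ)} (hF : F ⊆ data h E)
    (hF' : F' ⊆ data h E) (he : tgt h E F = tgt h E F') : F ⊆ F' := fun e h1 => by
  have hE := e1_par hp
  have h2 := mem_Ico.1 (mem_product.1 (hF h1)).2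
  rcases e1_mem_tgt.1 (he ▸ e1_mem_tgt.2 (Or.inr (Or.inl (mem_insert_of_mem h1))) :
    e ∈ tgt h E F') with h3 | h3 | h3
  · have := e1_lt (e1_M0_A0 h3).2
    omega
  · rcases mem_insert.1 h3 with rfl | h3
    · omega
    · exact h3
  · have := e1_lt (e1_up_sub (e1_fa hp hF' h3).1)
    rw [Prod.fst_swap] at this
    omega

lemma tgt_inj (hp : Par (2 * h) l E K) {F' : Finset (ℕ × ℕ)} (hF : F ⊆ data h E)
    (hF' : F' ⊆ data h E) (he : tgt h E F = tgt h E F') : F = F' :=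
  Subset.antisymm (e1_sub hp hF hF' he) (e1_sub hp hF' hF he.symm)

lemma card_data (hp : Par (2 * h) l E K) : (data h E).card = 2 * h * E := by
  have := hp.hr
  rw [data, card_product, card_image_of_injective _ (mul_left_injective₀ (by omega)),
    Nat.card_Ico, Nat.card_Ico, show 2 * h - h = h by omega, show 22 * E - 20 * E = 2 * E by omega]
  ring

/-- the diagonal sum of the target is small -/
lemma tgt_sum_lt (hp : Par (2 * h) l E K) (hF : F ⊆ data h E) :
    ∑ f ∈ tgt h E F, 2 ^ (f.1 + f.2) < 2 ^ (25 * E) := by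
  have hE := e1_par hp
  have h1 := sum_le_card_nsmul (tgt h E F) (fun f => 2 ^ (f.1 + f.2)) (2 ^ (25 * E - 2 * l))
    fun e he => Nat.pow_le_pow_right (by norm_num) (by
      rcases e1_cases hp hF he with h3 | h3 | h3
      · have h4 := e1_lt (e1_M0_A0 h3).1
        have h5 := e1_lt (e1_M0_A0 h3).2
        omega
      · have h4 := e1_lt (e1_up_sub h3.1)
        omega
      · have h4 := e1_lt (e1_up_sub h3.1)
        omega)
  have h2 : (tgt h E F).card < 2 ^ (2 * l) := by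
    have h3 := card_le_card (tgt_shape hp hF).sub
    rw [box, card_product, card_range, ← sq] at h3
    exact Nat.lt_of_lt_of_le (Nat.lt_succ_of_le h3) hp.box_le
  refine h1.trans_lt ((Nat.mul_lt_mul_of_pos_right h2 (by positivity)).trans_le (le_of_eq ?_))
  rw [← pow_add]
  congr 1
  omega

lemma e1_count (σ : ℕ) (A : Finset ℕ) (d : ℕ) : Multiset.count d (hd σ A) =
    ((range σ \ A).filter fun p => d = (A.filter fun a => a < p).card).card := by
  rw [hd, Multiset.count_map]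
  rfl

lemma e1_rk_mono (A : Finset ℕ) {p q : ℕ} (h : p ≤ q) :
    (A.filter fun a => a < p).card ≤ (A.filter fun a => a < q).card :=
  card_le_card (monotone_filter_right A fun _ _ ha => ha.trans_le h)

lemma e1_rk_lt {A : Finset ℕ} {p q : ℕ} (hp : p ∈ A) (h : p < q) :
    (A.filter fun a => a < p).card < (A.filter fun a => a < q).card :=
  card_lt_card ⟨monotone_filter_right A fun _ _ ha => ha.trans h, fun hs =>
    lt_irrefl p (mem_filter.1 (hs (mem_filter.2 ⟨hp, h⟩))).2⟩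

/-- depth statistics after moving one element beyond all others -/
lemma count_hd_move {A : Finset ℕ} {a j : ℕ} (ha : a ∈ A) (hj : ∀ x ∈ A, x < j) (hjσ : j < σ)
    {d : ℕ} (hd1 : d + 1 < A.card) :
    Multiset.count d (hd σ (insert j (A.erase a))) =
      if d < (A.filter fun x => x < a).card then Multiset.count d (hd σ A)
      else if d = (A.filter fun x => x < a).card then
        Multiset.count d (hd σ A) + Multiset.count (d + 1) (hd σ A) + 1
      else Multiset.count (d + 1) (hd σ A) := by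
  simp only [e1_count]
  set ρ : ℕ → ℕ := fun p => (A.filter fun x => x < p).card with hρ
  have haj := hj a ha
  have hnew : ∀ p, ((insert j (A.erase a)).filter fun x => x < p).card + (if a < p then 1 else 0) =
      ρ p + if j < p then 1 else 0 := fun p => by
    have e1 : j ∉ (A.filter fun x => x < p).erase a := fun h =>
      lt_irrefl j (hj j (mem_filter.1 (mem_of_mem_erase h)).1)
    have e2 : ((A.filter fun x => x < p).erase a).card + (if a < p then 1 else 0) = ρ p := by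
      split_ifs with h
      · exact card_erase_add_one (mem_filter.2 ⟨ha, h⟩)
      · rw [erase_eq_of_notMem (a := a) (s := A.filter fun x => x < p)
          (fun h' => h (mem_filter.1 h').2), add_zero]
    rw [filter_insert, filter_erase]
    by_cases h : j < p
    · rw [if_pos h, if_pos h, card_insert_of_notMem e1]
      omega
    · rw [if_neg h, if_neg h]
      omega
  have key : ∀ p, p ∉ A → (p < a ∧ ρ p ≤ ρ a) ∨ (a < p ∧ ρ a < ρ p) := fun p hp => by
    rcases lt_trichotomy p a with h | h | h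
    · exact Or.inl ⟨h, e1_rk_mono A h.le⟩
    · exact absurd (h ▸ ha) hp
    · exact Or.inr ⟨h, e1_rk_lt ha h⟩
  have big : ∀ p, j ≤ p → ρ p = A.card := fun p hp => by
    simp only [hρ]
    rw [filter_true_of_mem fun x hx => (hj x hx).trans_le hp]
  have hmem : ∀ p, p ∈ (range σ \ insert j (A.erase a)).filter
      (fun p => d = ((insert j (A.erase a)).filter fun x => x < p).card) ↔
      (p = a ∧ d = ρ a) ∨ ((p < σ ∧ p ∉ A) ∧
        ((d = ρ p ∧ d ≤ ρ a) ∨ (d + 1 = ρ p ∧ ρ a ≤ d))) := fun p => by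
    simp only [mem_filter, mem_sdiff, mem_range, mem_insert, mem_erase, not_or, not_and]
    have h1 := hnew p
    have h2 := big p
    by_cases hpa : p = a
    · subst hpa
      simp only [lt_irrefl, if_false, if_neg haj.not_gt, add_zero] at h1
      simp only [h1, ha, ne_eq, not_true_eq_false, false_imp_iff, and_true, true_and, and_false,
        false_and, or_false]
      omega
    by_cases hpA : p ∈ A
    · simp [hpa, hpA]
    have h3 := key p hpA
    simp only [hpa, hpA, ne_eq, not_false_eq_true, imp_self, and_true, false_and, false_or]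
    split_ifs at h1 <;> omega
  have haA : ∀ s : ℕ → Prop, ∀ [DecidablePred s], a ∉ (range σ \ A).filter s := fun s _ h =>
    (mem_sdiff.1 (mem_filter.1 h).1).2 ha
  split_ifs with c1 c2
  · congr 1
    ext p
    rw [hmem, mem_filter, mem_sdiff, mem_range]
    change d < ρ a at c1
    change _ ↔ _ ∧ d = ρ p
    constructor
    · rintro (h | ⟨h1, h2⟩)
      · omega
      · exact ⟨h1, by omega⟩
    · exact fun h => Or.inr ⟨h.1, by omega⟩
  · change d = ρ a at c2
    rw [← card_union_of_disjoint (disjoint_filter.2 fun p _ h1 h2 => by omega),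
      ← card_insert_of_notMem (a := a) (by simp only [mem_union, haA, or_self, not_false_eq_true])]
    congr 1
    ext p
    rw [hmem, mem_insert, mem_union, mem_filter, mem_filter, mem_sdiff, mem_range]
    change _ ↔ _ ∨ _ ∧ d = ρ p ∨ _ ∧ d + 1 = ρ p
    constructor
    · rintro (h | ⟨h1, h2 | h2⟩)
      · exact Or.inl h.1
      · exact Or.inr (Or.inl ⟨h1, h2.1⟩)
      · exact Or.inr (Or.inr ⟨h1, h2.1⟩)
    · rintro (h | h | h)
      · exact Or.inl ⟨h, c2⟩
      · exact Or.inr ⟨h.1, Or.inl ⟨h.2, c2.le⟩⟩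
      · exact Or.inr ⟨h.1, Or.inr ⟨h.2, c2.ge⟩⟩
  · congr 1
    ext p
    rw [hmem, mem_filter, mem_sdiff, mem_range]
    change ¬ d < ρ a at c1
    change ¬ d = ρ a at c2
    change _ ↔ _ ∧ d + 1 = ρ p
    constructor
    · rintro (h | ⟨h1, h2⟩)
      · omega
      · exact ⟨h1, by omega⟩
    · exact fun h => Or.inr ⟨h.1, by omega⟩

lemma e1_first {A B : Finset ℕ} {x : ℕ} (hx : x < σ) (hA : x ∈ A) (hB : x ∉ B)
    (h : ∀ p < x, p ∈ A ↔ p ∈ B) :
    Multiset.count (A.filter fun a => a < x).card (hd σ A) <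
      Multiset.count (A.filter fun a => a < x).card (hd σ B) := by
  have e : ∀ p ≤ x, (A.filter fun a => a < p) = B.filter fun a => a < p := fun p hp => by
    ext a
    simp only [mem_filter]
    exact and_congr_left fun ha => h a (ha.trans_le hp)
  rw [e1_count, e1_count]
  refine card_lt_card ⟨fun p hp => ?_, fun hs => ?_⟩
  · simp only [mem_filter, mem_sdiff] at hp ⊢
    have h1 : p ≤ x := not_lt.1 fun h1 => (e1_rk_lt hA h1).ne hp.2
    have h2 : p < x := lt_of_le_of_ne h1 fun h2 => hp.1.2 (h2 ▸ hA)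
    exact ⟨⟨hp.1.1, fun h3 => hp.1.2 ((h p h2).2 h3)⟩, by rw [← e p h1]; exact hp.2⟩
  · have := hs (mem_filter.2 ⟨mem_sdiff.2 ⟨mem_range.2 hx, hB⟩, by rw [e x le_rfl]⟩)
    exact (mem_sdiff.1 (mem_filter.1 this).1).2 hA

/-- the depth statistics determine the set -/
lemma eq_of_count {A B : Finset ℕ} (hA : A ⊆ range σ) (hB : B ⊆ range σ) (hc : A.card = B.card)
    (h : ∀ d < A.card, Multiset.count d (hd σ A) = Multiset.count d (hd σ B)) : A = B := by
  ext x
  induction x using Nat.strong_induction_on with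
  | _ x ih =>
    have lt : ∀ C : Finset ℕ, x ∈ C → (C.filter fun a => a < x).card < C.card := fun C hC =>
      card_lt_card (filter_ssubset.2 ⟨x, hC, lt_irrefl x⟩)
    constructor
    · intro h1
      by_contra h2
      exact (e1_first (mem_range.1 (hA h1)) h1 h2 ih).ne (h _ (lt A h1))
    · intro h1
      by_contra h2
      exact (e1_first (mem_range.1 (hB h1)) h1 h2 fun p hp => (ih p hp).symm).ne'
        (h _ (hc ▸ lt B h1))

lemma e1_rk_A0 {p d : ℕ} (hd : d ≤ r) (h : ∀ k < r, k * (2 * r) < p ↔ k < d) :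
    ((A0 r).filter fun x => x < p).card = d := by
  rw [A0, filter_image, card_image_of_injOn, ← card_range d]
  · congr 1
    ext k
    simp only [mem_filter, mem_range]
    exact ⟨fun hk => (h k hk.1).1 hk.2, fun hk => ⟨by omega, (h k (by omega)).2 hk⟩⟩
  · intro i hi j _ hij
    have : i < r := mem_range.1 (mem_filter.1 hi).1
    exact Nat.eq_of_mul_eq_mul_right (by omega) hij

lemma rank_A0 {k : ℕ} (hk : k < r) : ((A0 r).filter fun x => x < k * (2 * r)).card = k :=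
  e1_rk_A0 hk.le fun _ _ => Nat.mul_lt_mul_right (by omega)

lemma count_A0 (hσ : (r - 1) * (2 * r) < σ) {d : ℕ} (hd1 : d < r) :
    Multiset.count d (hd σ (A0 r)) = if d = 0 then 0 else 2 * r - 1 := by
  rw [e1_count]
  have hin : ∀ k < r, k * (2 * r) ∈ A0 r := fun k hk => e1_mem_A0.2 ⟨k, hk, rfl⟩
  rcases d with _ | d
  · rw [if_pos rfl, card_eq_zero, filter_eq_empty_iff]
    intro p hp h
    have h0 := hin 0 hd1
    rw [zero_mul] at h0
    have h1 := e1_rk_lt h0 (Nat.pos_of_ne_zero (n := p) fun h1 => (mem_sdiff.1 hp).2 (h1 ▸ h0))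
    omega
  rw [if_neg (Nat.succ_ne_zero d), show 2 * r - 1 = (d + 1) * (2 * r) - d * (2 * r) - 1 by
    rw [add_mul, one_mul, Nat.add_sub_cancel_left], ← Nat.card_Ioo]
  congr 1
  ext p
  simp only [mem_filter, mem_sdiff, mem_range, mem_Ioo]
  constructor
  · rintro ⟨⟨_, h1⟩, h2⟩
    refine ⟨not_le.1 fun h3 => ?_, lt_of_le_of_ne (not_lt.1 fun h3 => ?_) fun h3 => ?_⟩
    · have := e1_rk_mono (A0 r) h3
      rw [rank_A0 (by omega)] at this
      omega
    · have := e1_rk_lt (hin _ hd1) h3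
      rw [rank_A0 hd1] at this
      omega
    · exact h1 (h3 ▸ hin _ hd1)
  · rintro ⟨h1, h2⟩
    have h3 : ∀ k, k * (2 * r) ≤ p → k < d + 1 := fun k hk =>
      Nat.lt_of_mul_lt_mul_right (hk.trans_lt h2)
    refine ⟨⟨h2.trans ((Nat.mul_le_mul_right _ (by omega)).trans_lt hσ), fun h4 => ?_⟩,
      (e1_rk_A0 hd1.le fun k _ => ⟨fun h => h3 k h.le, fun h =>
        (Nat.mul_le_mul_right _ (by omega)).trans_lt h1⟩).symm⟩
    obtain ⟨k, _, rfl⟩ := e1_mem_A0.1 h4
    have h5 := h3 k le_rfl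
    have h6 := Nat.lt_of_mul_lt_mul_right h1
    omega

/-- number of depths below the number of elements -/
lemma card_hd_lt {A : Finset ℕ} {m : ℕ} (hm : m ∈ A) (hmax : ∀ x ∈ A, x ≤ m) (hσ : m < σ) :
    Multiset.card ((hd σ A).filter fun d => d < A.card) + A.card = m + 1 := by
  have e : (range σ \ A).filter (fun p => (A.filter fun a => a < p).card < A.card) =
      range (m + 1) \ A := by
    ext p
    simp only [mem_filter, mem_sdiff, mem_range]
    constructor
    · rintro ⟨⟨_, h1⟩, h2⟩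
      refine ⟨not_le.1 fun h3 => ?_, h1⟩
      rw [filter_true_of_mem fun x hx => by have := hmax x hx; omega] at h2
      exact lt_irrefl _ h2
    · rintro ⟨h1, h2⟩
      exact ⟨⟨by omega, h2⟩, card_lt_card (filter_ssubset.2 ⟨m, hm, by omega⟩)⟩
  have e2 := card_sdiff_add_card_eq_card (s := A) (t := range (m + 1))
    fun x hx => mem_range.2 (Nat.lt_succ_of_le (hmax x hx))
  rw [← e, card_range] at e2
  rw [hd, Multiset.filter_map, Multiset.card_map]
  exact e2

end Pool.Agent.Lib.MP_f7f352_co.SX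
end

-- part Pool.Agent.Lib.MP_f7f352_co.SX.E2
section

set_option autoImplicit false

namespace Pool.Agent.Lib.MP_f7f352_co.SX

open Finset Polynomial Pool.Agent.Lib.MP_f7f352_co.U

variable {σ r h l E K : ℕ} {F R' Ms : Finset (ℕ × ℕ)}

lemma e2_count {A : Finset ℕ} {P j : ℕ} (hA : ∀ a ∈ A, a ≤ P) (hj : j < σ) :
    j - P - 1 ≤ (hd σ (insert j A)).count A.card := by
  rw [hd, Multiset.count_map]
  have h1 : Ioo P j ⊆ (range σ \ insert j A).filter
      (fun p => A.card = ((insert j A).filter fun a => a < p).card) := by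
    intro p hp
    rw [mem_Ioo] at hp
    refine mem_filter.2 ⟨mem_sdiff.2 ⟨mem_range.2 (by omega), fun hm => ?_⟩, ?_⟩
    · rcases mem_insert.1 hm with h2 | h2
      · omega
      · have := hA p h2
        omega
    · rw [filter_insert, if_neg (by omega), filter_true_of_mem]
      intro a ha
      have := hA a ha
      omega
  have h2 := card_le_card h1
  rw [Nat.card_Ioo] at h2
  exact h2

lemma e2_fact {P J : ℕ} {R : Finset (ℕ × ℕ)} (h' : Shape σ r P J R Ms) (hPJ : P < J)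
    {f : ℕ × ℕ} (hf : f ∈ R \ Ms) :
    ∃ D : Multiset ℕ, dep σ K (sw Ms f) = D + Multiset.replicate (max f.1 f.2 - P - 1) (r - 1) ∧
      Multiset.card (D.filter fun d => d < r) ≤ r + 2 * P + 3 := by
  have hM := (mem_mat.1 h'.mem).2
  have hb := mem_box.1 (h'.sub (mem_sdiff.1 hf).1)
  have key : max f.1 f.2 - P - 1 ≤ (dep σ K (sw Ms f)).count (r - 1) ∧ 1 ≤ r ∧ P < max f.1 f.2 ∧
      Multiset.card ((dep σ K (sw Ms f)).filter fun d => d ≠ r) ≤
        r + (P + 1) + (max f.1 f.2 + 1) := by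
    rcases h'.cases hf with ⟨h1, h2, h3⟩ | ⟨h1, h2, h3⟩
    · obtain ⟨a1, a2, a3, m, hm, a4, a5⟩ := sw_row hM h1 h2
      have hs := h'.small m hm
      have hmax : max f.1 f.2 = f.2 := max_eq_right (by omega)
      have hc : ((cols Ms).erase m.2).card = r - 1 := by
        rw [card_erase_of_mem (mem_cols.2 ⟨m, hm, rfl⟩), hM.card_cols, h'.card]
      have hr : 1 ≤ r := h'.card ▸ card_pos.2 ⟨m, hm⟩
      rw [hmax]
      refine ⟨?_, hr, by omega, ?_⟩
      · have := e2_count (σ := σ) (A := (cols Ms).erase m.2) (P := P) (j := f.2) (fun a ha => by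
          obtain ⟨e, he, rfl⟩ := mem_cols.1 (mem_of_mem_erase ha)
          exact (h'.small e he).2) hb.2
        rw [hc, ← a5] at this
        simp only [dep, Multiset.count_add]
        omega
      · have := card_dep_ne (σ := σ) (K := K) a1 (p := P) (q := f.2) (fun e he => by
          rcases mem_insert.1 he with rfl | he
          · omega
          · have := h'.small e (mem_off.1 he).1
            omega)
        rwa [a2, h'.card] at this
    · obtain ⟨a1, a2, a3, m, hm, a4, a5⟩ := sw_col hM h1 h2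
      have hs := h'.small m hm
      have hmax : max f.1 f.2 = f.1 := max_eq_left (by omega)
      have hc : ((rows Ms).erase m.1).card = r - 1 := by
        rw [card_erase_of_mem (mem_rows.2 ⟨m, hm, rfl⟩), hM.card_rows, h'.card]
      have hr : 1 ≤ r := h'.card ▸ card_pos.2 ⟨m, hm⟩
      rw [hmax]
      refine ⟨?_, hr, by omega, ?_⟩
      · have := e2_count (σ := σ) (A := (rows Ms).erase m.1) (P := P) (j := f.1) (fun a ha => by
          obtain ⟨e, he, rfl⟩ := mem_rows.1 (mem_of_mem_erase ha)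
          exact (h'.small e he).1) hb.1
        rw [hc, ← a5] at this
        simp only [dep, Multiset.count_add]
        omega
      · have := card_dep_ne (σ := σ) (K := K) a1 (p := f.1) (q := P) (fun e he => by
          rcases mem_insert.1 he with rfl | he
          · omega
          · have := h'.small e (mem_off.1 he).1
            omega)
        rw [a2, h'.card] at this
        omega
  obtain ⟨k1, k2, k3, k4⟩ := key
  obtain ⟨D, hD⟩ := Multiset.le_iff_exists_add.1 (Multiset.le_count_iff_replicate_le.1 k1)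
  refine ⟨D, by rw [hD, add_comm], ?_⟩
  have k5 : Multiset.card ((dep σ K (sw Ms f)).filter fun d => d < r) ≤
      Multiset.card ((dep σ K (sw Ms f)).filter fun d => d ≠ r) :=
    Multiset.card_le_card (Multiset.monotone_filter_right _ fun d hd1 => ne_of_lt hd1)
  have k6 : Multiset.card ((dep σ K (sw Ms f)).filter fun d => d < r) =
      (max f.1 f.2 - P - 1) + Multiset.card (D.filter fun d => d < r) := by
    rw [hD, Multiset.filter_add, Multiset.card_add, Multiset.filter_eq_self.2, Multiset.card_replicate]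
    intro a ha
    rw [Multiset.eq_of_mem_replicate ha]
    omega
  omega

lemma e2_lam (t : ℝ) (k : ℕ) : aeval (1 + t) (lam k) = 1 + k * t := by
  simp only [lam, map_sub, map_mul, aeval_X, map_natCast, map_one]
  ring

lemma e2_bound (D : Multiset ℕ) {t : ℝ} (ht : 0 ≤ t) :
    1 ≤ aeval (1 + t) (Pz r D) ∧
      aeval (1 + t) (Pz r D) ≤ (1 + r * t) ^ Multiset.card (D.filter fun d => d < r) := by
  induction D using Multiset.induction_on with
  | empty => simp [Pz]
  | cons a D ih =>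
    have h1 : Pz r (a ::ₘ D) = lam (r - a) * Pz r D := by
      simp only [Pz, Multiset.map_cons, Multiset.prod_cons]
    have h2 : (0 : ℝ) ≤ ((r - a : ℕ) : ℝ) * t := by positivity
    have h3 : ((r - a : ℕ) : ℝ) ≤ r := by exact_mod_cast Nat.sub_le r a
    rw [h1, map_mul, e2_lam]
    refine ⟨by nlinarith [ih.1], ?_⟩
    by_cases ha : a < r
    · rw [Multiset.filter_cons_of_pos (p := fun d => d < r) _ ha, Multiset.card_cons, pow_succ']
      exact mul_le_mul (by nlinarith) ih.2 (by linarith [ih.1]) (by positivity)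
    · rw [Multiset.filter_cons_of_neg (p := fun d => d < r) _ ha, show r - a = 0 by omega]
      simpa using ih.2

lemma e2_term {P J : ℕ} {R : Finset (ℕ × ℕ)} (h' : Shape σ r P J R Ms) (hPJ : P < J) (hr : 1 ≤ r) :
    ∃ ψ : ℕ × ℕ → ℤ[X], ∀ f ∈ R \ Ms,
      Pz r (dep σ K (sw Ms f)) = X ^ (max f.1 f.2 - P - 1) * ψ f ∧
      (ψ f).natDegree ≤ r + 2 * P + 3 ∧ ∀ t : ℝ, 0 ≤ t → 1 ≤ aeval (1 + t) (ψ f) ∧
        aeval (1 + t) (ψ f) ≤ (1 + r * t) ^ (r + 2 * P + 3) := by
  have : ∀ f : ℕ × ℕ, ∃ ψ : ℤ[X], f ∈ R \ Ms →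
      Pz r (dep σ K (sw Ms f)) = X ^ (max f.1 f.2 - P - 1) * ψ ∧
      ψ.natDegree ≤ r + 2 * P + 3 ∧ ∀ t : ℝ, 0 ≤ t → 1 ≤ aeval (1 + t) ψ ∧
        aeval (1 + t) ψ ≤ (1 + r * t) ^ (r + 2 * P + 3) := by
    intro f
    by_cases hf : f ∈ R \ Ms
    · obtain ⟨D, h1, h2⟩ := e2_fact (K := K) h' hPJ hf
      refine ⟨Pz r D, fun _ => ⟨?_, by rw [natDegree_Pz]; exact h2, fun t ht => ?_⟩⟩
      · rw [h1, Pz, Multiset.map_add, Multiset.prod_add, Multiset.map_replicate,
          Multiset.prod_replicate, show r - (r - 1) = 1 by omega, mul_comm]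
        simp [lam, Pz]
      · refine ⟨(e2_bound D ht).1, (e2_bound D ht).2.trans (pow_le_pow_right₀ ?_ h2)⟩
        have : (0 : ℝ) ≤ r * t := by positivity
        linarith
    · exact ⟨0, fun h => absurd h hf⟩
  choose ψ hψ using this
  exact ⟨ψ, hψ⟩

lemma e2_window {α : Type} (I J : Finset α) (e : α → ℕ) (ψ φ : α → ℤ[X]) (g c : ℕ)
    (h1 : ∀ i ∈ I, (ψ i).natDegree ≤ g) (h2 : ∀ i ∈ J, (φ i).natDegree ≤ g)
    (h3 : ∀ i ∈ I, c ≤ e i ∨ e i + g < c) (h4 : ∀ i ∈ J, c ≤ e i ∨ e i + g < c)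
    (h : ∑ i ∈ I, X ^ e i * ψ i = ∑ i ∈ J, X ^ e i * φ i) :
    ∑ i ∈ I.filter (fun i => c ≤ e i), X ^ e i * ψ i =
      ∑ i ∈ J.filter (fun i => c ≤ e i), X ^ e i * φ i := by
  have up : ∀ (I : Finset α) (ψ : α → ℤ[X]) (n : ℕ), n < c →
      (∑ i ∈ I.filter (fun i => c ≤ e i), X ^ e i * ψ i).coeff n = 0 := by
    intro I ψ n hn
    rw [finsetSum_coeff]
    refine sum_eq_zero fun i hi => ?_
    have := (mem_filter.1 hi).2
    rw [coeff_X_pow_mul', if_neg (by omega)]
  have lo : ∀ (I : Finset α) (ψ : α → ℤ[X]), (∀ i ∈ I, (ψ i).natDegree ≤ g) →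
      (∀ i ∈ I, c ≤ e i ∨ e i + g < c) → ∀ n, c ≤ n →
      (∑ i ∈ I.filter (fun i => c ≤ e i), X ^ e i * ψ i).coeff n =
        (∑ i ∈ I, X ^ e i * ψ i).coeff n := by
    intro I ψ a b n hn
    rw [finsetSum_coeff, finsetSum_coeff, sum_filter]
    refine sum_congr rfl fun i hi => ?_
    split_ifs with hc
    · rfl
    · have := a i hi
      have := b i hi
      rw [coeff_X_pow_mul', if_pos (by omega), coeff_eq_zero_of_natDegree_lt (by omega)]
  ext n
  rcases Nat.lt_or_ge n c with hn | hn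
  · rw [up I ψ n hn, up J φ n hn]
  · rw [lo I ψ h1 h3 n hn, lo J φ h2 h4 n hn, h]

lemma e2_pow_le {x : ℝ} (hx : 0 ≤ x) (n : ℕ) : (1 + x) ^ n * (1 - n * x) ≤ 1 := by
  induction n with
  | zero => simp
  | succ n ih =>
    have h1 : (0 : ℝ) ≤ (1 + x) ^ n := by positivity
    have h2 : (1 + x) * (1 - ((n + 1 : ℕ) : ℝ) * x) ≤ 1 - n * x := by
      push_cast
      have : (0 : ℝ) ≤ (n + 1) * x ^ 2 := by positivity
      nlinarith
    calc (1 + x) ^ (n + 1) * (1 - ((n + 1 : ℕ) : ℝ) * x)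
        = (1 + x) ^ n * ((1 + x) * (1 - ((n + 1 : ℕ) : ℝ) * x)) := by ring
      _ ≤ (1 + x) ^ n * (1 - n * x) := mul_le_mul_of_nonneg_left h2 h1
      _ ≤ 1 := ih

lemma e2_few {α : Type} [DecidableEq α] (I J : Finset α) (e : α → ℕ) (ψ φ : α → ℝ) {a b : α}
    {g s w N : ℕ} {t : ℝ} (hr : 100 ≤ r) (hg : 4 ≤ g) (ht : t = 1 / (10 * r * g))
    (h1 : ∀ i ∈ I, 1 ≤ ψ i) (h2 : ∀ i ∈ J, φ i ≤ (1 + r * t) ^ g)
    (h3 : ∀ i ∈ J, e i ≤ s ∧ (i ≠ a → i ≠ b → e i + w ≤ s))
    (hN : 10 * J.card ≤ 2 ^ N) (hw : 10 * r * g * N ≤ w)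
    (h : ∑ i ∈ I, (1 + t) ^ e i * ψ i = ∑ i ∈ J, (1 + t) ^ e i * φ i) :
    (I.filter fun i => s ≤ e i + 4 * (g + 1)).card ≤ 2 := by
  by_contra hlt
  have hr' : (100 : ℝ) ≤ r := by exact_mod_cast hr
  have hg' : (4 : ℝ) ≤ g := by exact_mod_cast hg
  have ht0 : 0 < t := by rw [ht]; positivity
  have hz1 : (1 : ℝ) ≤ 1 + t := by linarith
  have hz0 : (0 : ℝ) < 1 + t := by linarith
  have hrgt : 10 * r * g * t = 1 := by rw [ht]; field_simp
  have hB : (1 + r * t) ^ g ≤ 10 / 9 := by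
    have := e2_pow_le (x := r * t) (by positivity) g
    have h5 : 1 - g * (r * t) = 9 / 10 := by linarith
    rw [h5] at this
    linarith
  have hL : (1 + t) ^ (4 * (g + 1)) ≤ 101 / 100 := by
    have := e2_pow_le ht0.le (4 * (g + 1))
    have h5 : (100 : ℝ) * (g * t) ≤ r * (g * t) := by gcongr
    have h6 : 4 * t ≤ g * t := by gcongr
    have h7 : (995 : ℝ) / 1000 ≤ 1 - ((4 * (g + 1) : ℕ) : ℝ) * t := by
      push_cast
      nlinarith
    have h8 : (0 : ℝ) ≤ (1 + t) ^ (4 * (g + 1)) := by positivity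
    nlinarith
  have hW : (10 : ℝ) * J.card ≤ (1 + t) ^ w := by
    have h5 : (2 : ℝ) ≤ (1 + t) ^ (10 * r * g) := by
      have := one_add_mul_le_pow (a := t) (by linarith) (10 * r * g)
      push_cast at this
      linarith
    calc (10 : ℝ) * J.card ≤ 2 ^ N := by exact_mod_cast hN
      _ ≤ ((1 + t) ^ (10 * r * g)) ^ N := pow_le_pow_left₀ (by norm_num) h5 N
      _ = (1 + t) ^ (10 * r * g * N) := by rw [← pow_mul]
      _ ≤ (1 + t) ^ w := pow_le_pow_right₀ hz1 hw
  have hs0 : (0 : ℝ) < (1 + t) ^ s := by positivity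
  have low : 3 * ((1 + t) ^ s * (100 / 101)) ≤ ∑ i ∈ I, (1 + t) ^ e i * ψ i := by
    calc 3 * ((1 + t) ^ s * (100 / 101))
        ≤ ((I.filter fun i => s ≤ e i + 4 * (g + 1)).card : ℝ) * ((1 + t) ^ s * (100 / 101)) := by
          have : (3 : ℝ) ≤ (I.filter fun i => s ≤ e i + 4 * (g + 1)).card := by
            exact_mod_cast (by omega : 3 ≤ (I.filter fun i => s ≤ e i + 4 * (g + 1)).card)
          gcongr
      _ ≤ ∑ i ∈ I.filter (fun i => s ≤ e i + 4 * (g + 1)), (1 + t) ^ e i * ψ i := by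
          rw [← nsmul_eq_mul]
          refine card_nsmul_le_sum _ _ _ fun i hi => ?_
          obtain ⟨i1, i2⟩ := mem_filter.1 hi
          have h5 : (1 + t) ^ s ≤ (1 + t) ^ e i * (1 + t) ^ (4 * (g + 1)) := by
            rw [← pow_add]; exact pow_le_pow_right₀ hz1 i2
          have h6 : (0 : ℝ) < (1 + t) ^ e i := by positivity
          have := h1 i i1
          nlinarith
      _ ≤ _ := sum_le_sum_of_subset_of_nonneg (filter_subset _ _) fun i hi _ => by
          have := h1 i hi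
          positivity
  have upp : ∑ i ∈ J, (1 + t) ^ e i * φ i ≤ (1 + t) ^ s * (10 / 9) * (21 / 10) := by
    have h5 : ∑ i ∈ J, (1 + t) ^ e i * φ i ≤ ∑ i ∈ J, (1 + t) ^ e i * (10 / 9) :=
      sum_le_sum fun i hi => mul_le_mul_of_nonneg_left ((h2 i hi).trans hB) (by positivity)
    have h6 : ∑ i ∈ J, (1 + t) ^ e i ≤ (1 + t) ^ s * (21 / 10) := by
      rw [← sum_filter_add_sum_filter_not J (fun i => i = a ∨ i = b)]
      have h7 : ∑ i ∈ J.filter (fun i => i = a ∨ i = b), (1 + t) ^ e i ≤ 2 * (1 + t) ^ s := by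
        refine (sum_le_card_nsmul _ _ ((1 + t) ^ s) fun i hi =>
          pow_le_pow_right₀ hz1 (h3 i (mem_filter.1 hi).1).1).trans ?_
        have : (J.filter fun i => i = a ∨ i = b).card ≤ 2 :=
          (card_le_card (fun i hi => by simpa using (mem_filter.1 hi).2)).trans (card_le_two (a := a) (b := b))
        rw [nsmul_eq_mul]
        have : ((J.filter fun i => i = a ∨ i = b).card : ℝ) ≤ 2 := by exact_mod_cast this
        gcongr
      have h8 : (∑ i ∈ J.filter (fun i => ¬ (i = a ∨ i = b)), (1 + t) ^ e i) * (1 + t) ^ w ≤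
          J.card * (1 + t) ^ s := by
        rw [sum_mul]
        refine (sum_le_card_nsmul _ _ ((1 + t) ^ s) fun i hi => ?_).trans ?_
        · obtain ⟨i1, i2⟩ := mem_filter.1 hi
          rw [← pow_add]
          exact pow_le_pow_right₀ hz1 ((h3 i i1).2 (fun x => i2 (Or.inl x)) fun x => i2 (Or.inr x))
        · rw [nsmul_eq_mul]
          have : ((J.filter fun i => ¬ (i = a ∨ i = b)).card : ℝ) ≤ J.card := by
            exact_mod_cast card_filter_le _ _
          gcongr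
      have h9 : (0 : ℝ) < (1 + t) ^ w := by positivity
      have h10 : ∑ i ∈ J.filter (fun i => ¬ (i = a ∨ i = b)), (1 + t) ^ e i ≤
          (1 + t) ^ s / 10 := by
        refine le_of_mul_le_mul_right (h8.trans ?_) h9
        nlinarith
      linarith
    rw [← sum_mul] at h5
    linarith
  linarith

lemma e2_gap {α : Type} [DecidableEq α] (I : Finset α) (e : α → ℕ) {g s : ℕ}
    (hs : 4 * (g + 1) ≤ s) (h : (I.filter fun i => s ≤ e i + 4 * (g + 1)).card ≤ 2) :
    ∃ c, c ≤ s ∧ s ≤ c + 3 * (g + 1) ∧ ∀ i ∈ I, c ≤ e i ∨ e i + g < c := by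
  by_contra hn
  push Not at hn
  obtain ⟨x, x1, x2, x3⟩ := hn (s - (g + 1)) (by omega) (by omega)
  obtain ⟨y, y1, y2, y3⟩ := hn (s - 2 * (g + 1)) (by omega) (by omega)
  obtain ⟨z, z1, z2, z3⟩ := hn (s - 3 * (g + 1)) (by omega) (by omega)
  have : 2 < (I.filter fun i => s ≤ e i + 4 * (g + 1)).card := by
    rw [two_lt_card_iff]
    refine ⟨x, y, z, mem_filter.2 ⟨x1, by omega⟩, mem_filter.2 ⟨y1, by omega⟩,
      mem_filter.2 ⟨z1, by omega⟩, ?_, ?_, ?_⟩ <;> rintro rfl <;> omega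
  omega

/-- two terms account for the isolated pair of calibration cells -/
theorem top_two (hp : Par (2 * h) l E K) (hF : F ⊆ data h E)
    (h' : Shape (25 * E) (2 * h) (2 * (2 * h) ^ 2) (19 * E) R' Ms)
    (hq : Q1 (25 * E) K (2 * h) R' Ms = Q1 (25 * E) K (2 * h) (tgt h E F) (M0 (2 * h))) :
    ∃ f₁ ∈ R' \ Ms, ∃ f₂ ∈ R' \ Ms,
      Pz (2 * h) (dep (25 * E) K (sw Ms f₁)) + Pz (2 * h) (dep (25 * E) K (sw Ms f₂)) =
        2 * Pz (2 * h) (dep (25 * E) K
          (sw (M0 (2 * h)) ((2 * h - 1) * (2 * (2 * h)), 24 * E))) := by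
  have hT := tgt_shape hp hF
  have hd' := tgt_sdiff hp hF
  have hfa : ∀ f ∈ fa h E F, f = ((2 * h - 1) * (2 * (2 * h)), 24 * E) ∨
      (f.1 ≤ 2 * (2 * h) ^ 2 ∧ f.2 < 22 * E) := by
    intro f hf
    rcases mem_insert.1 hf with h1 | h1
    · exact Or.inl h1
    · obtain ⟨h2, h3⟩ := mem_product.1 (hF h1)
      obtain ⟨k, hk, h4⟩ := mem_image.1 h2
      refine Or.inr ⟨?_, (mem_Ico.1 h3).2⟩
      rw [← h4]
      calc k * (2 * (2 * h)) ≤ (2 * h) * (2 * (2 * h)) :=
            Nat.mul_le_mul_right _ (mem_Ico.1 hk).2.le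
        _ = 2 * (2 * h) ^ 2 := by ring
  have hmem : ((2 * h - 1) * (2 * (2 * h)), 24 * E) ∈ fa h E F := mem_insert_self _ _
  have hr := hp.hr
  generalize 2 * h = r at *
  generalize fa h E F = Fa at *
  generalize tgt h E F = R at *
  have hl := hp.hl
  have hE : 100 * r ^ 3 * (2 * l + 4) ≤ E := by
    have h1 := hp.hE
    have h2 : l ≤ l ^ 3 := Nat.le_self_pow (by norm_num) l
    have h3 : 2 * r ^ 3 ≤ r ^ 6 := by
      have : 2 ≤ r ^ 3 := le_trans (by omega) (Nat.le_self_pow (n := 3) (by norm_num) r)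
      calc 2 * r ^ 3 ≤ r ^ 3 * r ^ 3 := Nat.mul_le_mul_right _ this
        _ = r ^ 6 := by ring
    calc 100 * r ^ 3 * (2 * l + 4) ≤ 100 * r ^ 3 * (6 * l ^ 3) := Nat.mul_le_mul_left _ (by omega)
      _ = 300 * (2 * r ^ 3) * l ^ 3 := by ring
      _ ≤ 300 * r ^ 6 * l ^ 3 := by gcongr
      _ ≤ E := h1
  have hr2 : 100 * r ≤ r ^ 2 := by nlinarith
  have hr3 : 100 * r ^ 2 ≤ r ^ 3 := by nlinarith
  have hE2 : 100 * r ^ 3 ≤ E := le_trans (Nat.le_mul_of_pos_right _ (by omega)) hE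
  have hs2 : (r - 1) * (2 * r) ≤ 2 * r ^ 2 := by
    calc (r - 1) * (2 * r) ≤ r * (2 * r) := Nat.mul_le_mul_right _ (Nat.sub_le _ _)
      _ = 2 * r ^ 2 := by ring
  set a : ℕ × ℕ := ((r - 1) * (2 * r), 24 * E) with ha
  set P := 2 * r ^ 2 with hP
  set g := r + 2 * P + 3 with hg
  set e : ℕ × ℕ → ℕ := fun f => max f.1 f.2 - P - 1 with he
  have ea : e a = 24 * E - P - 1 := by simp only [he, ha]; rw [max_eq_right (by omega)]
  have eb : e a.swap = 24 * E - P - 1 := by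
    simp only [he, ha, Prod.swap]; rw [max_eq_left (by omega)]
  have hJ : ∀ f ∈ R \ M0 r, e f ≤ 24 * E - P - 1 ∧
      (f ≠ a → f ≠ a.swap → e f + 2 * E ≤ 24 * E - P - 1) := by
    intro f hf
    rw [hd'] at hf
    rcases mem_union.1 hf with h1 | h1
    · rcases hfa f h1 with rfl | h2
      · exact ⟨ea.le, fun x => absurd rfl x⟩
      · simp only [he]
        omega
    · obtain ⟨f', h2, rfl⟩ := mem_image.1 h1
      rcases hfa f' h2 with rfl | h2
      · exact ⟨eb.le, fun _ x => absurd rfl x⟩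
      · simp only [he, Prod.fst_swap, Prod.snd_swap]
        omega
  obtain ⟨ψ, hψ⟩ := e2_term (K := K) h' (by omega) (by omega)
  obtain ⟨φ, hφ⟩ := e2_term (K := K) hT (by omega) (by omega)
  have hq' : ∑ f ∈ R' \ Ms, X ^ e f * ψ f = ∑ f ∈ R \ M0 r, X ^ e f * φ f := by
    rw [← sum_congr rfl fun f hf => (hψ f hf).1, ← sum_congr rfl fun f hf => (hφ f hf).1]
    exact hq
  set t : ℝ := 1 / (10 * r * g) with ht
  have ht0 : 0 ≤ t := by positivity
  have few := e2_few (R' \ Ms) (R \ M0 r) e (fun f => aeval (1 + t) (ψ f))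
    (fun f => aeval (1 + t) (φ f)) (a := a) (b := a.swap) (g := g) (s := 24 * E - P - 1)
    (w := 2 * E) (N := 2 * l + 4) hr (by omega) ht (fun f hf => ((hψ f hf).2.2 t ht0).1)
    (fun f hf => ((hφ f hf).2.2 t ht0).2) hJ ?_ ?_ ?_
  rotate_left
  · have h1 : (R \ M0 r).card ≤ (25 * E) ^ 2 := by
      refine (card_le_card (sdiff_subset.trans hT.sub)).trans ?_
      simp [box, sq]
    have h2 := hp.box_le
    rw [pow_add]
    omega
  · have h1 : g ≤ 5 * r ^ 2 := by omega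
    calc 10 * r * g * (2 * l + 4) ≤ 10 * r * (5 * r ^ 2) * (2 * l + 4) := by gcongr
      _ = 50 * r ^ 3 * (2 * l + 4) := by ring
      _ ≤ 100 * r ^ 3 * (2 * l + 4) := by gcongr; norm_num
      _ ≤ 2 * E := by omega
  · have := congrArg (aeval (1 + t)) hq'
    simpa only [map_sum, map_mul, map_pow, aeval_X] using this
  obtain ⟨c, c1, c2, c3⟩ := e2_gap _ e (by omega) few
  have haR : a ∈ R \ M0 r := hd' ▸ mem_union_left _ hmem
  have hbR : a.swap ∈ R \ M0 r := hd' ▸ mem_union_right _ (mem_image_of_mem _ hmem)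
  have hab : a ≠ a.swap := by
    intro x
    have := congrArg Prod.fst x
    simp only [ha, Prod.fst_swap] at this
    omega
  have win := e2_window (R' \ Ms) (R \ M0 r) e ψ φ g c (fun f hf => (hψ f hf).2.1)
    (fun f hf => (hφ f hf).2.1) c3 (fun f hf => by
      by_cases x : f = a
      · left; rw [x, ea]; exact c1
      by_cases y : f = a.swap
      · left; rw [y, eb]; exact c1
      have := (hJ f hf).2 x y
      omega) hq'
  have hset : (R \ M0 r).filter (fun f => c ≤ e f) = {a, a.swap} := by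
    ext f
    simp only [mem_filter, mem_insert, mem_singleton]
    constructor
    · rintro ⟨hf, hc⟩
      by_contra hn
      push Not at hn
      have := (hJ f hf).2 hn.1 hn.2
      omega
    · rintro (rfl | rfl)
      · exact ⟨haR, ea ▸ c1⟩
      · exact ⟨hbR, eb ▸ c1⟩
  rw [hset, sum_pair hab, ← (hφ a haR).1, ← (hφ _ hbR).1] at win
  have hM0 := (mem_mat.1 hT.mem).2
  have hdep : dep (25 * E) K (sw (M0 r) a.swap) = dep (25 * E) K (sw (M0 r) a) := by
    have b1 : (r - 1) * (2 * r) ∈ A0 r := mem_image.2 ⟨r - 1, mem_range.2 (by omega), rfl⟩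
    have b2 : 24 * E ∉ A0 r := by
      rw [← rows_M0]
      intro hx
      obtain ⟨m, hm, h1⟩ := mem_rows.1 hx
      have := (hT.small m hm).1
      omega
    obtain ⟨_, a2, a3, m, hm, a4, a5⟩ := sw_row (f := a) hM0 (by rw [rows_M0]; exact b1)
      (by rw [cols_M0]; exact b2)
    obtain ⟨_, d2, d3, m', hm', d4, d5⟩ := sw_col (f := a.swap) hM0 (by rw [cols_M0]; exact b1)
      (by rw [rows_M0]; exact b2)
    have m0 : m.2 = 0 := by
      have := M0_diag hm
      simp only [ha] at a4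
      omega
    have m1 : m'.1 = 0 := by
      have := M0_diag hm'
      simp only [ha, Prod.snd_swap] at d4
      omega
    rw [dep, dep, a2, a3, a5, d2, d3, d5, m0, m1, rows_M0, cols_M0, Prod.fst_swap,
      add_right_comm (range (M0 r).card).val]
  rw [hdep, ← two_mul] at win
  have hone : ∀ D : Multiset ℕ, aeval (1 + (0 : ℝ)) (Pz r D) = 1 := fun D =>
    le_antisymm (by simpa using (e2_bound (r := r) D le_rfl).2) (e2_bound D le_rfl).1
  rw [← sum_congr rfl fun f hf => (hψ f (mem_filter.1 hf).1).1] at win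
  have hcard : ((R' \ Ms).filter fun f => c ≤ e f).card = 2 := by
    have := congrArg (aeval (1 + (0 : ℝ))) win
    simp only [map_sum, map_mul, hone, sum_const, nsmul_eq_mul, mul_one, map_ofNat] at this
    exact_mod_cast this
  obtain ⟨f₁, f₂, hne, hf⟩ := card_eq_two.1 hcard
  rw [hf, sum_pair hne] at win
  have m1 : f₁ ∈ (R' \ Ms).filter fun f => c ≤ e f := hf ▸ mem_insert_self _ _
  have m2 : f₂ ∈ (R' \ Ms).filter fun f => c ≤ e f := hf ▸ mem_insert_of_mem (mem_singleton_self _)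
  exact ⟨f₁, (mem_filter.1 m1).1, f₂, (mem_filter.1 m2).1, win⟩

end Pool.Agent.Lib.MP_f7f352_co.SX
end
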