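import Mathlib
import Pool.Agent.Lib.MP_f7f352_co.SX.E2
import Pool.Agent.Lib.MP_f7f352_co.SX.A2
import Pool.Agent.Lib.MP_f7f352_co.SX.A1
import Pool.Agent.Lib.MP_f7f352_co.SX.C2
import Pool.Agent.Lib.MP_f7f352_co.SX.C4
import Pool.Agent.Lib.MP_f7f352_co.SX.D5
import Pool.Agent.Lib.MP_f7f352_co.SX.Num

-- part Pool.Agent.Lib.MP_f7f352_co.SX.E4
section

set_option autoImplicit false

namespace Pool.Agent.Lib.MP_f7f352_co.SX

open Finset Polynomial Pool.Agent.Lib.MP_f7f352_co.U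

variable {σ r h l E K : ℕ} {R R' : Finset (ℕ × ℕ)}

/-- depths after moving the line of rank `k` to position `j` -/
def e4_D (σ K r k j : ℕ) : Multiset ℕ :=
  (range r).val + hd σ (A0 r) + hd σ (insert j ((A0 r).erase (k * (2 * r)))) +
    Multiset.replicate K r

lemma e4_mem_A0 {x : ℕ} : x ∈ A0 r ↔ ∃ t < r, x = t * (2 * r) := by
  simp only [A0, mem_image, mem_range]
  exact ⟨fun ⟨t, h1, h2⟩ => ⟨t, h1, h2.symm⟩, fun ⟨t, h1, h2⟩ => ⟨t, h1, h2.symm⟩⟩

lemma e4_mem_M0 {e : ℕ × ℕ} :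
    e ∈ M0 r ↔ ∃ t < r, e = (t * (2 * r), (r - 1 - t) * (2 * r)) := by
  simp only [M0, mem_image, mem_range]
  exact ⟨fun ⟨t, h1, h2⟩ => ⟨t, h1, h2.symm⟩, fun ⟨t, h1, h2⟩ => ⟨t, h1, h2.symm⟩⟩

lemma e4_A0_le {x : ℕ} (hx : x ∈ A0 r) : x ≤ (r - 1) * (2 * r) := by
  obtain ⟨t, ht, rfl⟩ := e4_mem_A0.1 hx
  exact Nat.mul_le_mul_right _ (by omega)

lemma e4_dep_row (hM : IsM (M0 r)) (hc : (M0 r).card = r) {t j : ℕ} (ht : t < r)
    (hj : j ∉ A0 r) :
    dep σ K (sw (M0 r) (t * (2 * r), j)) = e4_D σ K r (r - 1 - t) j := by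
  obtain ⟨_, a2, a3, m, hm, a4, a5⟩ := sw_row (f := (t * (2 * r), j)) hM
    (by rw [rows_M0]; exact e4_mem_A0.2 ⟨t, ht, rfl⟩) (by rw [cols_M0]; exact hj)
  obtain ⟨t', ht', rfl⟩ := e4_mem_M0.1 hm
  have h1 : t' = t := Nat.eq_of_mul_eq_mul_right (show 0 < 2 * r by omega) a4
  subst h1
  rw [dep, a2, a3, a5, hc, rows_M0, cols_M0, e4_D]

lemma e4_dep_col (hM : IsM (M0 r)) (hc : (M0 r).card = r) {t j : ℕ} (ht : t < r)
    (hj : j ∉ A0 r) :
    dep σ K (sw (M0 r) (j, t * (2 * r))) = e4_D σ K r (r - 1 - t) j := by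
  obtain ⟨_, a2, a3, m, hm, a4, a5⟩ := sw_col (f := (j, t * (2 * r))) hM
    (by rw [cols_M0]; exact e4_mem_A0.2 ⟨t, ht, rfl⟩) (by rw [rows_M0]; exact hj)
  obtain ⟨t', ht', rfl⟩ := e4_mem_M0.1 hm
  have h1 : r - 1 - t' = t := Nat.eq_of_mul_eq_mul_right (show 0 < 2 * r by omega) a4
  have h2 : t' = r - 1 - t := by omega
  subst h2
  rw [dep, a2, a3, a5, hc, rows_M0, cols_M0, e4_D, add_right_comm (range r).val]

lemma e4_lam_lc (k : ℕ) : (lam k).leadingCoeff = if k = 0 then 1 else (k : ℤ) := by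
  split_ifs with hk
  · subst hk
    simp [lam]
  · rw [lam, sub_eq_add_neg, ← C_neg, leadingCoeff_linear (by exact_mod_cast hk)]

lemma e4_lc (r : ℕ) (D : Multiset ℕ) :
    (Pz r D).leadingCoeff = ∏ d ∈ range r, ((r - d : ℕ) : ℤ) ^ D.count d := by
  induction D using Multiset.induction_on with
  | empty => simp [Pz]
  | cons a D ih =>
    have h1 : Pz r (a ::ₘ D) = lam (r - a) * Pz r D := by simp [Pz]
    have h2 : ∀ d ∈ range r, ((r - d : ℕ) : ℤ) ^ (a ::ₘ D).count d =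
        (if a = d then ((r - a : ℕ) : ℤ) else 1) * ((r - d : ℕ) : ℤ) ^ D.count d := by
      intro d _
      by_cases had : a = d
      · subst had
        rw [Multiset.count_cons_self, if_pos rfl, pow_succ']
      · rw [Multiset.count_cons_of_ne (Ne.symm had), if_neg had, one_mul]
    rw [h1, leadingCoeff_mul, ih, prod_congr rfl h2, prod_mul_distrib, prod_ite_eq, e4_lam_lc]
    congr 1
    by_cases ha : a < r
    · rw [if_neg (by omega), if_pos (mem_range.2 ha)]
    · rw [if_pos (by omega), if_neg (by simpa using ha)]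

/-- the common factor of the leading coefficients -/
def e4_c0 (r : ℕ) : ℤ :=
  ∏ d ∈ range r, ((r - d : ℕ) : ℤ) ^ (1 + 2 * (if d = 0 then 0 else 2 * r - 1))

lemma e4_c0_pos (r : ℕ) : 0 < e4_c0 r := by
  refine prod_pos fun d hd1 => pow_pos ?_ _
  have : 0 < r - d := by have := mem_range.1 hd1; omega
  exact_mod_cast this

lemma e4_lc_D {k j : ℕ} (hk : k < r) (hj : (r - 1) * (2 * r) < j) (hjσ : j < σ) :
    (Pz r (e4_D σ K r k j)).leadingCoeff = e4_c0 r * ((r - k : ℕ) : ℤ) ^ (2 * r) := by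
  have h2 : ∀ d ∈ range r, ((r - d : ℕ) : ℤ) ^ (e4_D σ K r k j).count d =
      ((r - d : ℕ) : ℤ) ^ (1 + 2 * (if d = 0 then 0 else 2 * r - 1)) *
        (if k = d then ((r - k : ℕ) : ℤ) ^ (2 * r) else 1) := by
    intro d hd0
    have hd1 := mem_range.1 hd0
    by_cases hd2 : d + 1 < r
    · have hc : (e4_D σ K r k j).count d =
          1 + 2 * (if d = 0 then 0 else 2 * r - 1) + if k = d then 2 * r else 0 := by
        rw [e4_D, Multiset.count_add, Multiset.count_add, Multiset.count_add,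
          Multiset.count_replicate, if_neg (by omega), add_zero, Finset.range_val,
          Multiset.count_eq_one_of_mem (Multiset.nodup_range r) (Multiset.mem_range.2 hd1),
          count_hd_move (e4_mem_A0.2 ⟨k, hk, rfl⟩) (fun x hx => (e4_A0_le hx).trans_lt hj) hjσ
            (by rw [card_A0]; exact hd2), rank_A0 hk, count_A0 (hj.trans hjσ) hd1,
          count_A0 (hj.trans hjσ) hd2, if_neg (Nat.succ_ne_zero d)]
        split_ifs <;> omega
      rw [hc, pow_add]
      congr 1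
      split_ifs with h3
      · rw [h3]
      · rw [pow_zero]
    · have h3 : r - d = 1 := by omega
      rw [h3]
      split_ifs with h4 h5 h5
      all_goals first
        | (rw [show r - k = 1 by omega]; simp)
        | simp
  rw [e4_lc, prod_congr rfl h2, prod_mul_distrib, prod_ite_eq, if_pos (mem_range.2 hk), e4_c0]

lemma e4_deg_D {k j : ℕ} (hk : k < r) (hj : (r - 1) * (2 * r) < j) (hjσ : j < σ) :
    (Pz r (e4_D σ K r k j)).natDegree + r = (r - 1) * (2 * r) + 2 + j := by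
  have h1 := card_hd_lt (σ := σ) (A := A0 r) (m := (r - 1) * (2 * r))
    (e4_mem_A0.2 ⟨r - 1, by omega, rfl⟩) (fun x hx => e4_A0_le hx) (hj.trans hjσ)
  have hjA : j ∉ (A0 r).erase (k * (2 * r)) := fun hh =>
    absurd (e4_A0_le (mem_of_mem_erase hh)) (by omega)
  have hc : (insert j ((A0 r).erase (k * (2 * r)))).card = r := by
    rw [card_insert_of_notMem hjA, card_erase_of_mem (e4_mem_A0.2 ⟨k, hk, rfl⟩), card_A0]
    omega
  have h2 := card_hd_lt (σ := σ) (A := insert j ((A0 r).erase (k * (2 * r)))) (m := j)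
    (mem_insert_self _ _) (fun x hx => by
      rcases mem_insert.1 hx with rfl | hx
      · exact le_rfl
      · exact ((e4_A0_le (mem_of_mem_erase hx)).trans_lt hj).le) hjσ
  rw [card_A0] at h1
  rw [hc] at h2
  have h3 : Multiset.card ((range r).val.filter fun d => d < r) = r := by
    rw [Multiset.filter_eq_self.2 fun a ha => mem_range.1 ha]
    exact card_range r
  have h4 : Multiset.card ((Multiset.replicate K r).filter fun d => d < r) = 0 := by
    rw [Multiset.card_eq_zero, Multiset.filter_eq_nil]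
    intro a ha
    rw [Multiset.eq_of_mem_replicate ha]
    exact lt_irrefl r
  rw [natDegree_Pz, e4_D, Multiset.filter_add, Multiset.filter_add, Multiset.filter_add,
    Multiset.card_add, Multiset.card_add, Multiset.card_add, h3, h4]
  omega

lemma e4_pow {n : ℕ} (hn : n + 1 ≤ r) : 4 * (n + 1) ^ (2 * r) ≤ (n + 2) ^ (2 * r) := by
  have h1 := pow_add_mul_le_add_pow (a := n + 1) (b := 1) (by omega) (by omega) r
  obtain ⟨t, rfl⟩ : ∃ t, r = t + 1 := ⟨r - 1, by omega⟩
  rw [Nat.add_sub_cancel, mul_one] at h1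
  have h2 : (n + 1) ^ (t + 1) ≤ ((t + 1 : ℕ) : ℕ) * (n + 1) ^ t := by
    rw [pow_succ']
    exact Nat.mul_le_mul_right _ hn
  have h3 : 2 * (n + 1) ^ (t + 1) ≤ (n + 2) ^ (t + 1) := by
    simp only [Nat.cast_id] at h1
    rw [show n + 1 + 1 = n + 2 from rfl] at h1
    omega
  calc 4 * (n + 1) ^ (2 * (t + 1)) = (2 * (n + 1) ^ (t + 1)) ^ 2 := by ring
    _ ≤ ((n + 2) ^ (t + 1)) ^ 2 := Nat.pow_le_pow_left h3 2
    _ = (n + 2) ^ (2 * (t + 1)) := by ring

lemma e4_geom {n : ℕ} (hn : n ≤ r) :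
    3 * ∑ t ∈ range n, (t + 1) ^ (2 * r) ≤ (n + 1) ^ (2 * r) := by
  induction n with
  | zero => simp
  | succ n ih =>
    have h1 := ih (by omega)
    have h2 := e4_pow hn
    rw [sum_range_succ, show n + 1 + 1 = n + 2 from rfl]
    omega

/-- a far cell in a line of the reference placement -/
def e4_Far (σ r : ℕ) (f : ℕ × ℕ) : Prop :=
  ∃ t < r, ∃ j, (r - 1) * (2 * r) < j ∧ j < σ ∧ (f = (t * (2 * r), j) ∨ f = (j, t * (2 * r)))

/-- the digit of a far cell at the position `j0` -/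
def e4_val (r j0 : ℕ) (f : ℕ × ℕ) : ℕ :=
  if max f.1 f.2 = j0 then (min f.1 f.2 / (2 * r) + 1) ^ (2 * r) else 0

lemma e4_val_row {t j j0 : ℕ} (ht : t < r) (hj : (r - 1) * (2 * r) < j) :
    e4_val r j0 (t * (2 * r), j) = if j = j0 then (t + 1) ^ (2 * r) else 0 := by
  have h1 : t * (2 * r) ≤ j := (e4_A0_le (e4_mem_A0.2 ⟨t, ht, rfl⟩)).trans hj.le
  rw [e4_val]
  simp only [max_eq_right h1, min_eq_left h1]
  rw [Nat.mul_div_cancel _ (show 0 < 2 * r by omega)]

lemma e4_val_swap (j0 a b : ℕ) : e4_val r j0 (a, b) = e4_val r j0 (b, a) := by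
  simp only [e4_val, max_comm a b, min_comm a b]

lemma e4_coeff (hM : IsM (M0 r)) (hc : (M0 r).card = r) {f : ℕ × ℕ} (hf : e4_Far σ r f)
    {j0 n : ℕ} (hj0 : max f.1 f.2 ≤ j0) (hn : n + r = (r - 1) * (2 * r) + 2 + j0) :
    (Pz r (dep σ K (sw (M0 r) f))).coeff n = e4_c0 r * (e4_val r j0 f : ℤ) := by
  obtain ⟨t, ht, j, h1, h2, h3⟩ := hf
  have hjA : j ∉ A0 r := fun hh => absurd (e4_A0_le hh) (by omega)
  have hk : r - 1 - t < r := by omega
  have hd := e4_deg_D (σ := σ) (K := K) hk h1 h2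
  have hl := e4_lc_D (σ := σ) (K := K) hk h1 h2
  have key : j ≤ j0 → (Pz r (e4_D σ K r (r - 1 - t) j)).coeff n =
      e4_c0 r * ((if j = j0 then (t + 1) ^ (2 * r) else 0 : ℕ) : ℤ) := by
    intro hle
    split_ifs with h4
    · rw [show n = (Pz r (e4_D σ K r (r - 1 - t) j)).natDegree by omega, coeff_natDegree, hl,
        show r - (r - 1 - t) = t + 1 by omega, Nat.cast_pow]
    · rw [coeff_eq_zero_of_natDegree_lt (by omega)]
      simp
  rcases h3 with rfl | rfl
  · rw [e4_dep_row hM hc ht hjA, e4_val_row ht h1]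
    exact key ((le_max_right _ _).trans hj0)
  · rw [e4_dep_col hM hc ht hjA, e4_val_swap, e4_val_row ht h1]
    exact key ((le_max_left _ _).trans hj0)

lemma e4_side {U U' : Finset (ℕ × ℕ)} (hU' : ∀ f ∈ U', e4_Far σ r f) {f₀ : ℕ × ℕ}
    (h₀ : f₀ ∈ U) (hF : e4_Far σ r f₀) (hn1 : f₀ ∉ U') (hn2 : f₀.swap ∉ U')
    (hmin : ∀ f ∈ U', max f.1 f.2 = max f₀.1 f₀.2 → min f.1 f.2 ≤ min f₀.1 f₀.2) :
    ∑ f ∈ U', e4_val r (max f₀.1 f₀.2) f < ∑ f ∈ U, e4_val r (max f₀.1 f₀.2) f := by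
  obtain ⟨t, ht, j, h1, h2, h3⟩ := hF
  have h4 : t * (2 * r) ≤ j := (e4_A0_le (e4_mem_A0.2 ⟨t, ht, rfl⟩)).trans h1.le
  have hmx : max f₀.1 f₀.2 = j := by
    rcases h3 with rfl | rfl
    · exact max_eq_right h4
    · exact max_eq_left h4
  have hmn : min f₀.1 f₀.2 = t * (2 * r) := by
    rcases h3 with rfl | rfl
    · exact min_eq_left h4
    · exact min_eq_right h4
  have hv : e4_val r j f₀ = (t + 1) ^ (2 * r) := by
    rcases h3 with rfl | rfl
    · rw [e4_val_row ht h1, if_pos rfl]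
    · rw [e4_val_swap, e4_val_row ht h1, if_pos rfl]
  have hna : (t * (2 * r), j) ∉ U' ∧ (j, t * (2 * r)) ∉ U' := by
    rcases h3 with rfl | rfl
    · exact ⟨hn1, hn2⟩
    · exact ⟨hn2, hn1⟩
  rw [hmx, hmn] at hmin
  rw [hmx]
  have hlow : (t + 1) ^ (2 * r) ≤ ∑ f ∈ U, e4_val r j f := by
    rw [← hv]
    exact single_le_sum (f := fun f => e4_val r j f) (fun _ _ => Nat.zero_le _) h₀
  have hsub : U'.filter (fun f => max f.1 f.2 = j) ⊆
      (range t).image (fun s => (s * (2 * r), j)) ∪ (range t).image (fun s => (j, s * (2 * r))) := by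
    intro f hf
    obtain ⟨hf1, hf2⟩ := mem_filter.1 hf
    have hf3 := hmin f hf1 hf2
    obtain ⟨s, hs, j', b1, b2, b3⟩ := hU' f hf1
    have b4 : s * (2 * r) ≤ j' := (e4_A0_le (e4_mem_A0.2 ⟨s, hs, rfl⟩)).trans b1.le
    rcases b3 with rfl | rfl
    · simp only [max_eq_right b4, min_eq_left b4] at hf2 hf3
      subst hf2
      have b5 : s ≤ t := Nat.le_of_mul_le_mul_right hf3 (by omega)
      have b6 : s ≠ t := fun hh => hna.1 (hh ▸ hf1)
      exact mem_union_left _ (mem_image.2 ⟨s, mem_range.2 (by omega), rfl⟩)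
    · simp only [max_eq_left b4, min_eq_right b4] at hf2 hf3
      subst hf2
      have b5 : s ≤ t := Nat.le_of_mul_le_mul_right hf3 (by omega)
      have b6 : s ≠ t := fun hh => hna.2 (hh ▸ hf1)
      exact mem_union_right _ (mem_image.2 ⟨s, mem_range.2 (by omega), rfl⟩)
  have e1 : ∑ f ∈ U', e4_val r j f = ∑ f ∈ U'.filter (fun f => max f.1 f.2 = j), e4_val r j f := by
    refine (sum_filter_of_ne fun f _ hf => ?_).symm
    by_contra hh
    exact hf (if_neg hh)
  have e2 : ∑ f ∈ (range t).image (fun s => (s * (2 * r), j)), e4_val r j f ≤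
      ∑ s ∈ range t, (s + 1) ^ (2 * r) := by
    refine (sum_image_le_of_nonneg fun _ _ => Nat.zero_le _).trans (le_of_eq ?_)
    refine sum_congr rfl fun s hs => ?_
    rw [e4_val_row ((mem_range.1 hs).trans ht) h1, if_pos rfl]
  have e3 : ∑ f ∈ (range t).image (fun s => (j, s * (2 * r))), e4_val r j f ≤
      ∑ s ∈ range t, (s + 1) ^ (2 * r) := by
    refine (sum_image_le_of_nonneg fun _ _ => Nat.zero_le _).trans (le_of_eq ?_)
    refine sum_congr rfl fun s hs => ?_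
    rw [e4_val_swap, e4_val_row ((mem_range.1 hs).trans ht) h1, if_pos rfl]
  have e4 := sum_le_sum_of_subset (f := fun f => e4_val r j f) hsub
  have e5 := sum_union_inter (s₁ := (range t).image (fun s => (s * (2 * r), j)))
    (s₂ := (range t).image (fun s => (j, s * (2 * r)))) (f := fun f => e4_val r j f)
  have e6 := e4_geom (r := r) ht.le
  have e7 : 0 < (t + 1) ^ (2 * r) := by positivity
  omega

lemma e4_far {J : ℕ} (h : Shape σ r (2 * r ^ 2) J R (M0 r)) (hJ : (r - 1) * (2 * r) < J)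
    {f : ℕ × ℕ} (hf : f ∈ R \ M0 r) : e4_Far σ r f := by
  have hb := mem_box.1 (h.sub (mem_sdiff.1 hf).1)
  rcases h.cases hf with ⟨h1, _, h3⟩ | ⟨h1, _, h3⟩
  · rw [rows_M0] at h1
    obtain ⟨t, ht, h4⟩ := e4_mem_A0.1 h1
    exact ⟨t, ht, f.2, by omega, hb.2, Or.inl (Prod.ext h4 rfl)⟩
  · rw [cols_M0] at h1
    obtain ⟨t, ht, h4⟩ := e4_mem_A0.1 h1
    exact ⟨t, ht, f.1, by omega, hb.1, Or.inr (Prod.ext rfl h4)⟩

/-- reading off the bits: a symmetric board is determined by its first order terms -/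
theorem digits (hp : Par r l E K) (h : Shape (25 * E) r (2 * r ^ 2) (19 * E) R (M0 r))
    (hsym : ∀ e ∈ R, e.swap ∈ R) (h' : Shape (25 * E) r (2 * r ^ 2) (19 * E) R' (M0 r))
    (hq : Q1 (25 * E) K r R' (M0 r) = Q1 (25 * E) K r R (M0 r)) : R' = R := by
  have hM := (mem_mat.1 h.mem).2
  have hJ : (r - 1) * (2 * r) < 19 * E := by
    have h1 := hp.hr
    have h2 := hp.hE
    have h3 : 1 ≤ l ^ 3 := Nat.one_le_pow _ _ hp.hl
    have h4 : r ^ 2 ≤ r ^ 6 := Nat.pow_le_pow_right (by omega) (by norm_num)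
    have h5 : (r - 1) * (2 * r) ≤ r * (2 * r) := Nat.mul_le_mul_right _ (Nat.sub_le _ _)
    have h6 : 300 * r ^ 6 ≤ 300 * r ^ 6 * l ^ 3 := Nat.le_mul_of_pos_right _ h3
    have h7 : 0 < r ^ 2 := by positivity
    have h8 : r * (2 * r) = 2 * r ^ 2 := by ring
    omega
  set T := R \ M0 r with hT
  set T' := R' \ M0 r with hT'
  have hU : ∀ f ∈ T \ T', e4_Far (25 * E) r f := fun f hf => e4_far h hJ (mem_sdiff.1 hf).1
  have hU' : ∀ f ∈ T' \ T, e4_Far (25 * E) r f := fun f hf => e4_far h' hJ (mem_sdiff.1 hf).1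
  have hsw : ∀ f ∈ T, f.swap ∈ T := by
    intro f hf
    obtain ⟨h1, h2⟩ := mem_sdiff.1 hf
    refine mem_sdiff.2 ⟨hsym f h1, fun h3 => h2 ?_⟩
    obtain ⟨t, ht, h4⟩ := e4_mem_M0.1 h3
    refine e4_mem_M0.2 ⟨r - 1 - t, by omega, ?_⟩
    rw [show r - 1 - (r - 1 - t) = t by omega, ← Prod.swap_swap f, h4]
    rfl
  have hsum : ∑ f ∈ T' \ T, Pz r (dep (25 * E) K (sw (M0 r) f)) =
      ∑ f ∈ T \ T', Pz r (dep (25 * E) K (sw (M0 r) f)) := sum_sdiff_eq_sum_sdiff_iff.2 hq
  have hempty : ¬ ((T \ T') ∪ (T' \ T)).Nonempty := by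
    intro hne
    obtain ⟨g, hg, hgm⟩ := exists_max_image _ (fun f : ℕ × ℕ => max f.1 f.2) hne
    obtain ⟨f₀, hf₀, hfm⟩ := exists_max_image
      (((T \ T') ∪ (T' \ T)).filter fun f => max f.1 f.2 = max g.1 g.2)
      (fun f : ℕ × ℕ => min f.1 f.2) ⟨g, mem_filter.2 ⟨hg, rfl⟩⟩
    obtain ⟨hf1, hf2⟩ := mem_filter.1 hf₀
    rw [← hf2] at hgm hfm
    have hr := hp.hr
    obtain ⟨n, hn⟩ : ∃ n, n + r = (r - 1) * (2 * r) + 2 + max f₀.1 f₀.2 := by
      have : r ≤ (r - 1) * (2 * r) := by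
        calc r ≤ 1 * (2 * r) := by omega
          _ ≤ (r - 1) * (2 * r) := Nat.mul_le_mul_right _ (by omega)
      exact ⟨(r - 1) * (2 * r) + 2 + max f₀.1 f₀.2 - r, by omega⟩
    have hco := congrArg (fun p : ℤ[X] => p.coeff n) hsum
    simp only [finsetSum_coeff] at hco
    rw [sum_congr rfl fun f hf => e4_coeff hM h.card (hU' f hf) (hgm f (mem_union_right _ hf)) hn,
      sum_congr rfl fun f hf => e4_coeff hM h.card (hU f hf) (hgm f (mem_union_left _ hf)) hn,
      ← mul_sum, ← mul_sum] at hco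
    have hco2 : ∑ f ∈ T' \ T, e4_val r (max f₀.1 f₀.2) f =
        ∑ f ∈ T \ T', e4_val r (max f₀.1 f₀.2) f := by
      exact_mod_cast mul_left_cancel₀ (e4_c0_pos r).ne' hco
    rcases mem_union.1 hf1 with h1 | h1
    · have := e4_side hU' h1 (hU _ h1) (fun hh => (mem_sdiff.1 hh).2 (mem_sdiff.1 h1).1)
        (fun hh => (mem_sdiff.1 hh).2 (hsw _ (mem_sdiff.1 h1).1))
        (fun f hf hh => hfm f (mem_filter.2 ⟨mem_union_right _ hf, hh⟩))
      omega
    · have := e4_side hU h1 (hU' _ h1) (fun hh => (mem_sdiff.1 h1).2 (mem_sdiff.1 hh).1)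
        (fun hh => (mem_sdiff.1 h1).2 (by simpa using hsw _ (mem_sdiff.1 hh).1))
        (fun f hf hh => hfm f (mem_filter.2 ⟨mem_union_left _ hf, hh⟩))
      omega
  rw [not_nonempty_iff_eq_empty, union_eq_empty, sdiff_eq_empty_iff_subset,
    sdiff_eq_empty_iff_subset] at hempty
  have hTT : T' = T := Subset.antisymm hempty.2 hempty.1
  rw [← sdiff_union_of_subset (mem_mat.1 h.mem).1, ← sdiff_union_of_subset (mem_mat.1 h'.mem).1,
    ← hT, ← hT', hTT]

end Pool.Agent.Lib.MP_f7f352_co.SX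
end

-- part Pool.Agent.Lib.MP_f7f352_co.SX.E3
section

set_option autoImplicit false

namespace Pool.Agent.Lib.MP_f7f352_co.SX

open Finset Polynomial Pool.Agent.Lib.MP_f7f352_co.U

variable {σ r h l E K : ℕ} {F R' Ms : Finset (ℕ × ℕ)}

lemma e3_split (D : Multiset ℕ) (d : ℕ) :
    Pz r D = lam (r - d) ^ D.count d * Pz r (D.filter fun x => ¬ x = d) := by
  conv_lhs => rw [← Multiset.filter_add_not (fun x => x = d) D]
  rw [Pz, Multiset.map_add, Multiset.prod_add, Multiset.filter_eq', Multiset.map_replicate,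
    Multiset.prod_replicate]
  rfl

lemma e3_lam {k : ℕ} (hk : 1 ≤ k) (j : ℕ) :
    aeval (((k : ℚ) - 1) / k) (lam j) = 1 - (j : ℚ) / k := by
  have : (k : ℚ) ≠ 0 := by positivity
  simp only [lam, map_sub, map_mul, aeval_X, map_natCast, map_one]
  field_simp
  ring

lemma e3_rest_ne {d : ℕ} (hd1 : d < r) (D : Multiset ℕ) :
    aeval ((((r - d : ℕ) : ℚ) - 1) / (r - d : ℕ)) (Pz r (D.filter fun x => ¬ x = d)) ≠ 0 := by
  rw [Pz, map_multiset_prod, Multiset.map_map]
  refine Multiset.prod_ne_zero fun h0 => ?_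
  obtain ⟨x, hx, h1⟩ := Multiset.mem_map.1 h0
  have hx' := (Multiset.mem_filter.1 hx).2
  simp only [Function.comp] at h1
  rw [e3_lam (by omega)] at h1
  have h2 : ((r - d : ℕ) : ℚ) ≠ 0 := by
    have : 0 < r - d := by omega
    positivity
  have h3 : ((r - x : ℕ) : ℚ) = (r - d : ℕ) := by
    field_simp at h1
    linarith
  have h4 : r - x = r - d := by exact_mod_cast h3
  omega

lemma e3_rest_pos (hr : 0 < r) (D : Multiset ℕ) :
    0 < aeval ((((r - 0 : ℕ) : ℚ) - 1) / (r - 0 : ℕ)) (Pz r (D.filter fun x => ¬ x = 0)) := by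
  rw [Pz, map_multiset_prod, Multiset.map_map]
  refine Multiset.prod_pos fun a h0 => ?_
  obtain ⟨x, hx, rfl⟩ := Multiset.mem_map.1 h0
  have hx' := (Multiset.mem_filter.1 hx).2
  simp only [Function.comp]
  rw [e3_lam (by omega)]
  have h2 : (0 : ℚ) < ((r - 0 : ℕ) : ℚ) := by
    have : 0 < r - 0 := by omega
    positivity
  have h3 : ((r - x : ℕ) : ℚ) < (r - 0 : ℕ) := by
    have : r - x < r - 0 := by omega
    exact_mod_cast this
  rw [sub_pos, div_lt_one h2]
  exact h3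

lemma e3_cancel {L p₁ p₂ p : ℤ[X]} {z : ℚ} (hL : L ≠ 0) (hz : aeval z L = 0) {a b c m : ℕ}
    (ha : m ≤ a) (hb : m ≤ b) (hc : m ≤ c) (h : L ^ a * p₁ + L ^ b * p₂ = 2 * (L ^ c * p)) :
    (if a = m then aeval z p₁ else 0) + (if b = m then aeval z p₂ else 0) =
      2 * (if c = m then aeval z p else 0) := by
  obtain ⟨a, rfl⟩ := Nat.exists_eq_add_of_le ha
  obtain ⟨b, rfl⟩ := Nat.exists_eq_add_of_le hb
  obtain ⟨c, rfl⟩ := Nat.exists_eq_add_of_le hc
  have h1 : L ^ a * p₁ + L ^ b * p₂ = 2 * (L ^ c * p) := by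
    apply mul_left_cancel₀ (pow_ne_zero m hL)
    simp only [pow_add] at h
    linear_combination h
  have h2 := congrArg (aeval z) h1
  simp only [map_add, map_mul, map_pow, hz, map_ofNat] at h2
  have h3 : ∀ (n : ℕ) (v : ℚ), (if m + n = m then v else 0) = 0 ^ n * v := by
    intro n v
    rcases n with _ | n <;> simp
  rw [h3, h3, h3, h2]

lemma two_term {D₁ D₂ D : Multiset ℕ} (h : Pz r D₁ + Pz r D₂ = 2 * Pz r D) {d : ℕ}
    (hd1 : d < r) :
    min (D₁.count d) (D₂.count d) ≤ D.count d ∧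
      (D₁.count d ≠ D₂.count d ∨ d = 0 → D.count d = min (D₁.count d) (D₂.count d)) := by
  rw [e3_split D₁ d, e3_split D₂ d, e3_split D d] at h
  have hz : aeval ((((r - d : ℕ) : ℚ) - 1) / (r - d : ℕ)) (lam (r - d)) = 0 := by
    rw [e3_lam (by omega), div_self, sub_self]
    have : 0 < r - d := by omega
    positivity
  have hL : lam (r - d) ≠ 0 := by
    intro h0
    have := congrArg (aeval (1 : ℚ)) h0
    simp [lam] at this
  have n1 := e3_rest_ne hd1 D₁
  have n2 := e3_rest_ne hd1 D₂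
  have n3 := e3_rest_ne hd1 D
  have key : min (D₁.count d) (D₂.count d) ≤ D.count d := by
    by_contra hlt
    have := e3_cancel hL hz (m := D.count d) (by omega) (by omega) le_rfl h
    rw [if_neg (by omega), if_neg (by omega), if_pos rfl] at this
    exact n3 (by linarith)
  refine ⟨key, fun hh => ?_⟩
  by_contra hne
  have := e3_cancel hL hz (m := min (D₁.count d) (D₂.count d)) (min_le_left _ _)
    (min_le_right _ _) key h
  rw [if_neg hne, mul_zero] at this
  rcases lt_trichotomy (D₁.count d) (D₂.count d) with h1 | h1 | h1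
  · rw [if_pos (by omega), if_neg (by omega), add_zero] at this
    exact n1 this
  · rw [if_pos (by omega), if_pos (by omega)] at this
    rcases hh with hh | rfl
    · exact hh h1
    · have p1 := e3_rest_pos hd1 D₁
      have p2 := e3_rest_pos hd1 D₂
      linarith
  · rw [if_neg (by omega), if_pos (by omega), zero_add] at this
    exact n2 this

lemma e3_count {M : Finset (ℕ × ℕ)} (hM : M.card = r) {d : ℕ} (hd1 : d < r) :
    (dep σ K M).count d = 1 + (hd σ (rows M)).count d + (hd σ (cols M)).count d := by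
  rw [dep, Multiset.count_add, Multiset.count_add, Multiset.count_add, Multiset.count_replicate,
    hM, if_neg (by omega), add_zero, Finset.range_val, Multiset.count_eq_one_of_mem
      (Multiset.nodup_range r) (Multiset.mem_range.2 hd1)]

/-- counts after moving the element of rank `k` -/
def e3_mv (R : ℕ → ℕ) (k d : ℕ) : ℕ :=
  if d < k then R d else if d = k then R d + R (d + 1) + 1 else R (d + 1)

lemma e3_same {g : ℕ} {L R : ℕ → ℕ} (hLR : ∀ d, 1 ≤ d → d < r → L d + R d = 2 * g)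
    (hs : ∑ d ∈ range r, R d = (r - 1) * g) (h0 : R 0 = 0) (h1 : R 1 ≤ g)
    (h2 : ∀ d, 1 ≤ d → d + 1 < r → L d + R (d + 1) ≤ 2 * g) :
    ∀ d, 1 ≤ d → d < r → L d = g ∧ R d = g := by
  have h3 : ∀ d, 1 ≤ d → d < r → R d ≤ g := by
    intro d hd1
    induction d, hd1 using Nat.le_induction with
    | base => exact fun _ => h1
    | succ n hn ih =>
      intro hn'
      have := ih (by omega)
      have := hLR n hn (by omega)
      have := h2 n hn hn'
      omega
  intro d hd1 hd2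
  obtain ⟨t, rfl⟩ : ∃ t, r = t + 1 := ⟨r - 1, by omega⟩
  rw [sum_range_succ', h0, add_zero, Nat.add_sub_cancel] at hs
  have h4 : ∑ i ∈ range t, R (i + 1) = ∑ _i ∈ range t, g := by simp [hs]
  have h5 := (sum_eq_sum_iff_of_le (fun i hi => h3 (i + 1) (by omega)
    (by have := mem_range.1 hi; omega))).1 h4 (d - 1) (mem_range.2 (by omega))
  rw [show d - 1 + 1 = d by omega] at h5
  have := hLR d hd1 hd2
  omega

lemma e3_mixed {g : ℕ} {L R : ℕ → ℕ} (hLR : ∀ d, 1 ≤ d → d < r → L d + R d = 2 * g)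
    (hr : 1 < r) (h1 : min (R 1) (L 1) = g)
    (h2 : ∀ d, 1 ≤ d → d + 1 < r → L d + R (d + 1) ≠ R d + L (d + 1) →
      min (L d + R (d + 1)) (R d + L (d + 1)) = 2 * g) :
    ∀ d, 1 ≤ d → d < r → L d = g ∧ R d = g := by
  intro d hd1
  induction d, hd1 using Nat.le_induction with
  | base =>
    intro _
    have := hLR 1 le_rfl hr
    omega
  | succ n hn ih =>
    intro hn'
    have := ih (by omega)
    have := hLR (n + 1) (by omega) hn'
    have := h2 n hn hn'
    omega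

lemma e3_arith {g : ℕ} {L R c₁ c₂ c : ℕ → ℕ} (hr : 2 < r)
    (hLR : ∀ d, 1 ≤ d → d < r → L d + R d = 2 * g) (hL0 : L 0 = 0) (hR0 : R 0 = 0)
    (hL : ∑ d ∈ range r, L d = (r - 1) * g) (hR : ∑ d ∈ range r, R d = (r - 1) * g)
    (hc0 : c 0 = g + 2) (hc : ∀ d, 1 ≤ d → d + 1 < r → c d = 2 * g + 1)
    (h : ∀ d < r, min (c₁ d) (c₂ d) ≤ c d ∧ (c₁ d ≠ c₂ d ∨ d = 0 → c d = min (c₁ d) (c₂ d)))
    (h₁ : ∃ k, (∀ d, d + 1 < r → c₁ d = 1 + L d + e3_mv R k d) ∨
      (∀ d, d + 1 < r → c₁ d = 1 + e3_mv L k d + R d))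
    (h₂ : ∃ k, (∀ d, d + 1 < r → c₂ d = 1 + L d + e3_mv R k d) ∨
      (∀ d, d + 1 < r → c₂ d = 1 + e3_mv L k d + R d)) :
    ∀ d, 1 ≤ d → d < r → L d = g ∧ R d = g := by
  have h0 := (h 0 (by omega)).2 (Or.inr rfl)
  have norm : ∀ c' : ℕ → ℕ, g + 2 ≤ c' 0 →
      (∃ k, (∀ d, d + 1 < r → c' d = 1 + L d + e3_mv R k d) ∨
        (∀ d, d + 1 < r → c' d = 1 + e3_mv L k d + R d)) →
      (c' 0 = 2 + R 1 ∧ ∀ d, 1 ≤ d → d + 1 < r → c' d = 1 + L d + R (d + 1)) ∨
      (c' 0 = 2 + L 1 ∧ ∀ d, 1 ≤ d → d + 1 < r → c' d = 1 + R d + L (d + 1)) := by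
    rintro c' hc' ⟨k, hk | hk⟩
    · have a0 := hk 0 (by omega)
      have hk0 : k = 0 := by
        by_contra hne
        rw [e3_mv, if_pos (by omega)] at a0
        omega
      subst hk0
      refine Or.inl ⟨?_, fun d hd1 hd2 => ?_⟩
      · rw [e3_mv, if_neg (by omega), if_pos rfl] at a0
        simp only [zero_add] at a0
        omega
      · rw [hk d hd2, e3_mv, if_neg (by omega), if_neg (by omega)]
    · have a0 := hk 0 (by omega)
      have hk0 : k = 0 := by
        by_contra hne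
        rw [e3_mv, if_pos (by omega)] at a0
        omega
      subst hk0
      refine Or.inr ⟨?_, fun d hd1 hd2 => ?_⟩
      · rw [e3_mv, if_neg (by omega), if_pos rfl] at a0
        simp only [zero_add] at a0
        omega
      · rw [hk d hd2, e3_mv, if_neg (by omega), if_neg (by omega)]
        ring
  have hRL : ∀ d, 1 ≤ d → d < r → R d + L d = 2 * g := fun d a b => by
    have := hLR d a b; omega
  rcases norm c₁ (by omega) h₁ with ⟨a1, a2⟩ | ⟨a1, a2⟩ <;>
    rcases norm c₂ (by omega) h₂ with ⟨b1, b2⟩ | ⟨b1, b2⟩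
  · refine e3_same hLR hR hR0 (by omega) fun d hd1 hd2 => ?_
    have := (h d (by omega)).1
    rw [a2 d hd1 hd2, b2 d hd1 hd2, hc d hd1 hd2] at this
    omega
  · refine e3_mixed hLR (by omega) (by omega) fun d hd1 hd2 hne => ?_
    have := (h d (by omega)).2
    rw [a2 d hd1 hd2, b2 d hd1 hd2, hc d hd1 hd2] at this
    omega
  · refine e3_mixed hLR (by omega) (by omega) fun d hd1 hd2 hne => ?_
    have := (h d (by omega)).2
    rw [a2 d hd1 hd2, b2 d hd1 hd2, hc d hd1 hd2] at this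
    omega
  · intro d hd1 hd2
    refine (e3_same hRL hL hL0 (by omega) (fun d hd1 hd2 => ?_) d hd1 hd2).symm
    have := (h d (by omega)).1
    rw [a2 d hd1 hd2, b2 d hd1 hd2, hc d hd1 hd2] at this
    omega

lemma e3_term {P J : ℕ} (h' : Shape σ r P J R' Ms) (hPJ : P < J) {f : ℕ × ℕ}
    (hf : f ∈ R' \ Ms) :
    ∃ k, (∀ d, d + 1 < r → (dep σ K (sw Ms f)).count d =
        1 + (hd σ (rows Ms)).count d + e3_mv (fun d => (hd σ (cols Ms)).count d) k d) ∨
      (∀ d, d + 1 < r → (dep σ K (sw Ms f)).count d =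
        1 + e3_mv (fun d => (hd σ (rows Ms)).count d) k d + (hd σ (cols Ms)).count d) := by
  have hM := (mem_mat.1 h'.mem).2
  have hb := mem_box.1 (h'.sub (mem_sdiff.1 hf).1)
  rcases h'.cases hf with ⟨h1, h2, h3⟩ | ⟨h1, h2, h3⟩
  · obtain ⟨_, a2, a3, m, hm, _, a5⟩ := sw_row hM h1 h2
    refine ⟨((cols Ms).filter fun x => x < m.2).card, Or.inl fun d hd1 => ?_⟩
    rw [e3_count (a2.trans h'.card) (by omega), a3, a5,
      count_hd_move (mem_cols.2 ⟨m, hm, rfl⟩) _ hb.2 (by rw [hM.card_cols, h'.card]; exact hd1)]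
    · rfl
    · intro x hx
      obtain ⟨e, he, rfl⟩ := mem_cols.1 hx
      have := (h'.small e he).2
      omega
  · obtain ⟨_, a2, a3, m, hm, _, a5⟩ := sw_col hM h1 h2
    refine ⟨((rows Ms).filter fun x => x < m.1).card, Or.inr fun d hd1 => ?_⟩
    rw [e3_count (a2.trans h'.card) (by omega), a3, a5,
      count_hd_move (mem_rows.2 ⟨m, hm, rfl⟩) _ hb.1 (by rw [hM.card_rows, h'.card]; exact hd1)]
    · rfl
    · intro x hx
      obtain ⟨e, he, rfl⟩ := mem_rows.1 hx
      have := (h'.small e he).1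
      omega

lemma e3_zero_mem {A : Finset ℕ} (hσ : 0 < σ) (h0 : (hd σ A).count 0 = 0) : 0 ∈ A := by
  by_contra hn
  rw [Multiset.count_eq_zero] at h0
  refine h0 (Multiset.mem_map.2 ⟨0, ?_, by simp⟩)
  exact (mem_sdiff.2 ⟨mem_range.2 hσ, hn⟩ : 0 ∈ range σ \ A)

lemma e3_sum_count (D : Multiset ℕ) (n : ℕ) :
    ∑ d ∈ range n, D.count d = Multiset.card (D.filter fun d => d < n) := by
  induction D using Multiset.induction_on with
  | empty => simp
  | cons a D ih =>
    simp only [Multiset.count_cons, sum_add_distrib, ih, Multiset.filter_cons, Multiset.card_add,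
      sum_ite_eq', mem_range]
    split_ifs <;> simp [add_comm]

lemma e3_sum {A : Finset ℕ} (hc : A.card = r) (hr : 1 ≤ r) (hm : (r - 1) * (2 * r) ∈ A)
    (hmax : ∀ x ∈ A, x ≤ (r - 1) * (2 * r)) (hσ : (r - 1) * (2 * r) < σ) :
    ∑ d ∈ range r, (hd σ A).count d = (r - 1) * (2 * r - 1) := by
  have := card_hd_lt hm hmax hσ
  rw [hc, ← e3_sum_count] at this
  obtain ⟨t, rfl⟩ : ∃ t, r = t + 1 := ⟨r - 1, by omega⟩
  rw [Nat.add_sub_cancel] at this ⊢
  rw [show 2 * (t + 1) - 1 = 2 * t + 1 by omega]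
  have h2 : t * (2 * (t + 1)) = t * (2 * t + 1) + t := by ring
  omega

/-- the calibration pair fixes the main placement -/
theorem gaps (hp : Par (2 * h) l E K)
    (h' : Shape (25 * E) (2 * h) (2 * (2 * h) ^ 2) (19 * E) R' Ms)
    (hs : ∀ e ∈ Ms, e.1 + e.2 = (2 * h - 1) * (2 * (2 * h)))
    (hd1 : dep (25 * E) K Ms = dep (25 * E) K (M0 (2 * h)))
    {f₁ f₂ : ℕ × ℕ} (h₁ : f₁ ∈ R' \ Ms) (h₂ : f₂ ∈ R' \ Ms)
    (hq : Pz (2 * h) (dep (25 * E) K (sw Ms f₁)) + Pz (2 * h) (dep (25 * E) K (sw Ms f₂)) =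
        2 * Pz (2 * h) (dep (25 * E) K
          (sw (M0 (2 * h)) ((2 * h - 1) * (2 * (2 * h)), 24 * E)))) :
    Ms = M0 (2 * h) := by
  have hT := tgt_shape hp (empty_subset _)
  have hr := hp.hr
  generalize 2 * h = r at *
  have hE : 2 * r ^ 2 < E := by
    have h1 := hp.hE
    have h2 : 1 ≤ l ^ 3 := Nat.one_le_pow _ _ hp.hl
    have h3 : r ^ 2 ≤ r ^ 6 := Nat.pow_le_pow_right (by omega) (by norm_num)
    have h4 : 1 ≤ r ^ 6 := Nat.one_le_pow _ _ (by omega)
    nlinarith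
  have hs2 : (r - 1) * (2 * r) ≤ 2 * r ^ 2 := by
    calc (r - 1) * (2 * r) ≤ r * (2 * r) := Nat.mul_le_mul_right _ (Nat.sub_le _ _)
      _ = 2 * r ^ 2 := by ring
  have hσ : (r - 1) * (2 * r) < 25 * E := by omega
  have hM := (mem_mat.1 h'.mem).2
  have hM0 := (mem_mat.1 hT.mem).2
  have hcnt : ∀ d < r, (hd (25 * E) (rows Ms)).count d + (hd (25 * E) (cols Ms)).count d =
      2 * (if d = 0 then 0 else 2 * r - 1) := by
    intro d hd2
    have := congrArg (Multiset.count d) hd1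
    rw [e3_count h'.card hd2, e3_count hT.card hd2, rows_M0, cols_M0, count_A0 hσ hd2] at this
    omega
  have z := hcnt 0 (by omega)
  rw [if_pos rfl] at z
  have zr : 0 ∈ rows Ms := e3_zero_mem (σ := 25 * E) (by omega) (by omega)
  have zc : 0 ∈ cols Ms := e3_zero_mem (σ := 25 * E) (by omega) (by omega)
  have sr : (r - 1) * (2 * r) ∈ rows Ms := by
    obtain ⟨e, he, h0⟩ := mem_cols.1 zc
    have := hs e he
    exact mem_rows.2 ⟨e, he, by omega⟩
  have sc : (r - 1) * (2 * r) ∈ cols Ms := by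
    obtain ⟨e, he, h0⟩ := mem_rows.1 zr
    have := hs e he
    exact mem_cols.2 ⟨e, he, by omega⟩
  have mr : ∀ x ∈ rows Ms, x ≤ (r - 1) * (2 * r) := by
    intro x hx
    obtain ⟨e, he, rfl⟩ := mem_rows.1 hx
    have := hs e he
    omega
  have mc : ∀ x ∈ cols Ms, x ≤ (r - 1) * (2 * r) := by
    intro x hx
    obtain ⟨e, he, rfl⟩ := mem_cols.1 hx
    have := hs e he
    omega
  have cr : (rows Ms).card = r := hM.card_rows.trans h'.card
  have cc : (cols Ms).card = r := hM.card_cols.trans h'.card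
  have mA : ∀ x ∈ A0 r, x ≤ (r - 1) * (2 * r) := by
    intro x hx
    obtain ⟨k, hk, rfl⟩ := mem_image.1 hx
    have := mem_range.1 hk
    exact Nat.mul_le_mul_right _ (by omega)
  have z0 : 0 ∈ A0 r := mem_image.2 ⟨0, mem_range.2 (by omega), by simp⟩
  have tcount : ∀ d, d + 1 < r → (dep (25 * E) K (sw (M0 r) ((r - 1) * (2 * r), 24 * E))).count d =
      if d = 0 then 2 * r - 1 + 2 else 2 * (2 * r - 1) + 1 := by
    intro d hd2
    have b1 : ((r - 1) * (2 * r), 24 * E).1 ∈ rows (M0 r) := by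
      rw [rows_M0]
      exact mem_image.2 ⟨r - 1, mem_range.2 (by omega), rfl⟩
    have b2 : ((r - 1) * (2 * r), 24 * E).2 ∉ cols (M0 r) := by
      rw [cols_M0]
      intro hx
      have := mA _ hx
      simp only at this
      omega
    obtain ⟨_, a2, a3, m, hm, a4, a5⟩ := sw_row hM0 b1 b2
    have m0 : m.2 = 0 := by
      have := M0_diag hm
      simp only at a4
      omega
    rw [e3_count (a2.trans hT.card) (by omega), a3, a5, rows_M0, cols_M0, m0,
      count_hd_move (A := A0 r) (a := 0) (j := ((r - 1) * (2 * r), 24 * E).2) z0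
        (fun x hx => by have := mA x hx; simp only; omega) (by simp only; omega)
        (by rw [card_A0]; exact hd2), count_A0 hσ (show d < r by omega), count_A0 hσ hd2]
    simp only [Nat.not_lt_zero, filter_false, card_empty, if_false, Nat.add_eq_zero_iff,
      one_ne_zero, and_false]
    split_ifs <;> omega
  have main := e3_arith (r := r) (g := 2 * r - 1)
    (L := fun d => (hd (25 * E) (rows Ms)).count d) (R := fun d => (hd (25 * E) (cols Ms)).count d)
    (c₁ := fun d => (dep (25 * E) K (sw Ms f₁)).count d)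
    (c₂ := fun d => (dep (25 * E) K (sw Ms f₂)).count d)
    (c := fun d => (dep (25 * E) K (sw (M0 r) ((r - 1) * (2 * r), 24 * E))).count d) (by omega)
    (fun d a b => by have := hcnt d b; rw [if_neg (by omega)] at this; exact this)
    (by omega) (by omega) (e3_sum cr (by omega) sr mr hσ)
    (e3_sum cc (by omega) sc mc hσ) (by rw [tcount 0 (by omega), if_pos rfl])
    (fun d a b => by rw [tcount d b, if_neg (by omega)])
    (fun d hd2 => two_term hq hd2) (e3_term h' (by omega) h₁) (e3_term h' (by omega) h₂)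
  have hA : A0 r ⊆ range (25 * E) := fun x hx => mem_range.2 (by have := mA x hx; omega)
  have er : rows Ms = A0 r := by
    refine eq_of_count (fun x hx => mem_range.2 (by have := mr x hx; omega)) hA
      (cr.trans (card_A0 r).symm) fun d hd2 => ?_
    rw [cr] at hd2
    rw [count_A0 hσ hd2]
    split_ifs with h0
    · subst h0; omega
    · exact (main d (by omega) hd2).1
  refine eq_of_subset_of_card_le (fun e he => ?_) (by rw [hT.card, h'.card])
  have h1 : e.1 ∈ A0 r := er ▸ mem_rows.2 ⟨e, he, rfl⟩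
  obtain ⟨k, hk, h2⟩ := mem_image.1 h1
  have hk' := mem_range.1 hk
  refine mem_image.2 ⟨k, hk, Prod.ext h2 ?_⟩
  have h3 := hs e he
  have h4 : (r - 1) * (2 * r) = k * (2 * r) + (r - 1 - k) * (2 * r) := by
    rw [← add_mul]; congr 1; omega
  simp only
  omega

end Pool.Agent.Lib.MP_f7f352_co.SX
end

-- part Pool.Agent.Lib.MP_f7f352_co.SX.A3
section

set_option autoImplicit false

namespace Pool.Agent.Lib.MP_f7f352_co.SX

open Finset Polynomial Pool.Agent.Lib.MP_f7f352_co.U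

variable {ι : Type} [Fintype ι] [DecidableEq ι] {V : Type} [Fintype V] [DecidableEq V]
  {G : SimpleGraph V} {Γ : SimpleGraph ι} {b : ℕ} {cls : V → ι ⊕ Fin b} {port : ι → V}
  {ι' : Type} [Fintype ι'] [DecidableEq ι'] {V' : Type} [Fintype V'] [DecidableEq V']
  {G' : SimpleGraph V'} {Γ' : SimpleGraph ι'} {cls' : V' → ι' ⊕ Fin b} {port' : ι' → V'}

/-- the number of indices with a given value -/
def a3_n {κ : Type} [Fintype κ] (r : κ → ℕ) (k : ℕ) : ℕ := ∑ i, if r i = k then 1 else 0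

lemma a3_term {κ : Type} [Fintype κ] (r : κ → ℕ) :
    ∏ i, tau (r i) = X ^ a3_n r 2 * (X ^ 2 + 1) ^ a3_n r 3 := by
  rw [a3_n, a3_n, ← prod_pow_eq_pow_sum, ← prod_pow_eq_pow_sum, ← prod_mul_distrib]
  refine prod_congr rfl fun i _ => ?_
  unfold tau
  by_cases h2 : r i = 2
  · simp [h2]
  · by_cases h3 : r i = 3 <;> simp [h2, h3]

lemma a3_pow (u : ℕ) : ((X ^ 2 + 1 : ℕ[X]) ^ u).coeff 0 = 1 ∧
    ((X ^ 2 + 1 : ℕ[X]) ^ u).coeff 2 = u := by
  induction u with
  | zero => simp [coeff_one]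
  | succ u ih =>
    rw [pow_succ, mul_add, mul_one, coeff_add, coeff_add, coeff_mul_X_pow', coeff_mul_X_pow']
    simp [ih.1, ih.2, add_comm u 1]

lemma a3_c0 (e u : ℕ) : (X ^ e * (X ^ 2 + 1) ^ u : ℕ[X]).coeff e = 1 := by
  rw [coeff_X_pow_mul', if_pos le_rfl, Nat.sub_self, (a3_pow u).1]

lemma a3_c2 (e u : ℕ) : (X ^ e * (X ^ 2 + 1) ^ u : ℕ[X]).coeff (e + 2) = u := by
  rw [coeff_X_pow_mul', if_pos (Nat.le_add_right e 2), Nat.add_sub_cancel_left, (a3_pow u).2]

lemma a3_lt (u : ℕ) {e k : ℕ} (h : k < e) : (X ^ e * (X ^ 2 + 1) ^ u : ℕ[X]).coeff k = 0 := by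
  rw [coeff_X_pow_mul', if_neg h.not_ge]

lemma a3_loc {κ : Type} [Fintype κ] [DecidableEq κ] (r r' : κ → ℕ) (A : Finset κ)
    (h : ∀ i, i ∉ A → r i = r' i) :
    a3_n r 2 + ∑ i ∈ A, (if r' i = 2 then 1 else 0) =
      a3_n r' 2 + ∑ i ∈ A, (if r i = 2 then 1 else 0) := by
  rw [a3_n, a3_n, ← sum_add_sum_compl A, ← sum_add_sum_compl A (fun i => if r' i = 2 then 1 else 0),
    sum_congr rfl fun i (hi : i ∈ Aᶜ) => by rw [h i (mem_compl.1 hi)]]
  ring

lemma a3_empty {W : Type} [DecidableEq W] (C : Finset (Finset W)) : ∅ ∈ pack C := by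
  simp [mem_pack]

lemma a3_adj_iff {κ : Type} [Fintype κ] [DecidableEq κ] {c : V' → κ}
    (hc : ∀ u v, G'.Adj u v → c u ≠ c v) (u v : V') :
    G'.Adj u v ↔ c u ≠ c v ∧ ({u, v} : Finset V') ∉ cross G' c := by
  constructor
  · intro h
    exact ⟨hc u v h, fun hm => (mem_cross.1 hm).1 u (by simp) v (by simp) h⟩
  · rintro ⟨h1, h2⟩
    by_contra h
    refine h2 (mem_cross.2 ⟨?_, u, by simp, v, by simp, h1⟩)
    intro a ha b hb hab
    simp only [mem_insert, mem_singleton] at ha hb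
    rcases ha with rfl | rfl <;> rcases hb with rfl | rfl
    · exact G'.irrefl hab
    · exact h hab
    · exact h hab.symm
    · exact G'.irrefl hab

lemma a3_no_triple {κ : Type} [Fintype κ] [DecidableEq κ] {c : V' → κ}
    (hp : ∀ I ∈ cross G' c, I.card = 2) {u v w : V'} (h1 : ¬ G'.Adj u v) (h2 : ¬ G'.Adj u w)
    (h3 : ¬ G'.Adj v w) (n1 : u ≠ v) (n2 : c u ≠ c w) (n3 : v ≠ w) : False := by
  have h4 : ({u, v, w} : Finset V') ∈ cross G' c := by
    refine mem_cross.2 ⟨fun a ha b hb hab => ?_, u, by simp, w, by simp, n2⟩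
    simp only [mem_insert, mem_singleton] at ha hb
    rcases ha with rfl | rfl | rfl <;> rcases hb with rfl | rfl | rfl <;>
      first | exact G'.irrefl hab | exact h1 hab | exact h2 hab | exact h3 hab |
        exact h1 hab.symm | exact h2 hab.symm | exact h3 hab.symm
  have h5 := hp _ h4
  rw [card_eq_three.2 ⟨u, v, w, n1, fun e => n2 (congrArg c e), n3, rfl⟩] at h5
  omega

/-- the coefficients of the right hand side -/
lemma a3_rhs (Γ : SimpleGraph ι) (b : ℕ) {R : ℕ[X]} (hR : R = ∑ M ∈ pack (edg Γ),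
    X ^ (b + 2 * M.card) * (X ^ 2 + 1) ^ (Fintype.card ι - 2 * M.card)) :
    (∀ k < b, R.coeff k = 0) ∧ R.coeff b = 1 ∧ R.coeff (b + 2) = Fintype.card ι + mnum Γ 1 := by
  subst hR
  simp only [finsetSum_coeff]
  refine ⟨fun k hk => sum_eq_zero fun M _ => a3_lt _ (by omega), ?_, ?_⟩
  · rw [sum_pack_eq _ _ 1 fun M _ hM => a3_lt _ (by omega), sum_range_one, pk_zero, sum_singleton]
    exact a3_c0 _ _
  · rw [sum_pack_eq _ _ 2 fun M _ hM => a3_lt _ (by omega), sum_range_succ, sum_range_one, pk_zero,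
      sum_singleton, mnum, card_eq_sum_ones (pk _ _)]
    refine congrArg₂ _ (a3_c2 _ _) (sum_congr rfl fun M hM => ?_)
    rw [(mem_pk.1 hM).2]
    exact a3_c0 _ _

/-- the structure of the cross pairs -/
lemma a3_struct {κ : Type} [Fintype κ] [DecidableEq κ] {c : V' → κ} {N m : ℕ}
    (hκ : Fintype.card κ = N + b) (hc : ∀ u v, G'.Adj u v → c u ≠ c v)
    (hs : ∀ i, 1 ≤ (cl c i).card ∧ (cl c i).card ≤ 3) (hp : ∀ I ∈ cross G' c, I.card = 2)
    (h1 : ∑ i, (cl c i).card = 3 * N + 2 * b)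
    (h2 : ∑ i, (cl c i).card.choose 2 + (cross G' c).card = 3 * N + b + m) {R : ℕ[X]}
    (hR : ∑ M ∈ pack (cross G' c), ∏ i, tau (rest c M i) = R) (r0 : ∀ k < b, R.coeff k = 0)
    (r1 : R.coeff b = 1) (r2 : R.coeff (b + 2) = N + m) :
    (∀ i, (cl c i).card = 2 ∨ (cl c i).card = 3) ∧ a3_n (fun i => (cl c i).card) 3 = N ∧
    (∀ u v, c u ≠ c v → {u, v} ∈ cross G' c → (cl c (c u)).card = 3) ∧
    ∀ u v u' v', c u ≠ c v → {u, v} ∈ cross G' c → c u' ≠ c v' → {u', v'} ∈ cross G' c →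
      c u = c u' → u = u' := by
  have hco : ∀ k, R.coeff k = ∑ M ∈ pack (cross G' c),
      (X ^ a3_n (rest c M) 2 * (X ^ 2 + 1) ^ a3_n (rest c M) 3 : ℕ[X]).coeff k := fun k => by
    rw [← hR, finsetSum_coeff]
    simp only [a3_term]
  have e0 : rest c ∅ = fun i => (cl c i).card := funext (rest_empty c)
  have H1 : ∀ M ∈ pack (cross G' c), b ≤ a3_n (rest c M) 2 := fun M hM => by
    by_contra hlt
    have := r0 _ (not_le.1 hlt)
    rw [hco, sum_eq_zero_iff] at this
    have := this M hM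
    rw [a3_c0] at this
    omega
  have s1 : ∑ _ : κ, 3 = ∑ i, (cl c i).card + 2 * a3_n (fun i => (cl c i).card) 1 +
      a3_n (fun i => (cl c i).card) 2 := by
    rw [a3_n, a3_n, mul_sum, ← sum_add_distrib, ← sum_add_distrib]
    refine sum_congr rfl fun i _ => ?_
    obtain ⟨a1, a2⟩ := hs i
    split_ifs <;> omega
  rw [sum_const, card_univ, hκ, smul_eq_mul, h1] at s1
  have s2 := H1 ∅ (a3_empty _)
  rw [e0] at s2
  have n1 : a3_n (fun i => (cl c i).card) 1 = 0 := by omega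
  have n2 : a3_n (fun i => (cl c i).card) 2 = b := by omega
  have hs' : ∀ i, (cl c i).card = 2 ∨ (cl c i).card = 3 := fun i => by
    have := (sum_eq_zero_iff.1 n1) i (mem_univ i)
    obtain ⟨a1, a2⟩ := hs i
    have a3 : (cl c i).card ≠ 1 := fun e => by simp [e] at this
    omega
  have s3 : ∑ _ : κ, 1 = a3_n (fun i => (cl c i).card) 2 + a3_n (fun i => (cl c i).card) 3 := by
    rw [a3_n, a3_n, ← sum_add_distrib]
    exact sum_congr rfl fun i _ => by rcases hs' i with e | e <;> simp [e]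
  rw [sum_const, card_univ, hκ, smul_eq_mul] at s3
  have n3 : a3_n (fun i => (cl c i).card) 3 = N := by omega
  have s4 : ∑ i, (cl c i).card.choose 2 =
      a3_n (fun i => (cl c i).card) 2 + 3 * a3_n (fun i => (cl c i).card) 3 := by
    rw [a3_n, a3_n, mul_sum, ← sum_add_distrib]
    exact sum_congr rfl fun i _ => by rcases hs' i with e | e <;> simp [e]
  have hm : (cross G' c).card = m := by omega
  have H2 : ∀ M ∈ pack (cross G' c), M ≠ ∅ → a3_n (rest c M) 2 ≠ b := fun M hM hne he => by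
    have := sum_le_sum_of_subset (f := fun M => (X ^ a3_n (rest c M) 2 *
      (X ^ 2 + 1) ^ a3_n (rest c M) 3 : ℕ[X]).coeff b)
      (insert_subset hM (singleton_subset_iff.2 (a3_empty _)))
    rw [← hco, r1, sum_pair hne, he, e0, n2, a3_c0, a3_c0] at this
    omega
  have H3 : ∀ u v, c u ≠ c v → {u, v} ∈ cross G' c → (cl c (c u)).card = 3 ∧
      (cl c (c v)).card = 3 ∧ a3_n (rest c {{u, v}}) 2 = b + 2 := fun u v huv hI => by
    have a0 := fun i => rest_single c {u, v} i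
    simp only [tt_pair c huv] at a0
    have a1 := a3_loc (rest c {{u, v}}) (fun i => (cl c i).card) {c u, c v} fun i hi => by
      have := a0 i
      simp only [mem_insert, mem_singleton, not_or] at hi
      rw [if_neg (Ne.symm hi.1), if_neg (Ne.symm hi.2)] at this
      exact this
    have a2 := a0 (c u)
    have a3 := a0 (c v)
    rw [if_pos rfl, if_neg huv.symm] at a2
    rw [if_pos rfl, if_neg huv] at a3
    rw [sum_pair huv, sum_pair huv, n2] at a1
    have a4 := H1 _ (singleton_mem_pack hI)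
    have a5 := H2 _ (singleton_mem_pack hI) (singleton_ne_empty _)
    have a6 := hs' (c u)
    have a7 := hs' (c v)
    split_ifs at a1 <;> omega
  have H4 : ∀ M ∈ pack (cross G' c), M.card = 2 → a3_n (rest c M) 2 ≠ b + 2 := fun M hM h2 he => by
    have a1 := sum_pack_ge (cross G' c) (fun M => (X ^ a3_n (rest c M) 2 *
      (X ^ 2 + 1) ^ a3_n (rest c M) 3 : ℕ[X]).coeff (b + 2)) 3
    rw [← hco, r2, sum_range_succ, sum_range_succ, sum_range_one, pk_zero, sum_singleton, e0, n2,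
      n3, a3_c2, sum_pk_one] at a1
    have a2 : ∑ I ∈ cross G' c, (X ^ a3_n (rest c {I}) 2 *
        (X ^ 2 + 1) ^ a3_n (rest c {I}) 3 : ℕ[X]).coeff (b + 2) = m := by
      rw [← hm, card_eq_sum_ones]
      refine sum_congr rfl fun I hI => ?_
      obtain ⟨u, v, huv, rfl⟩ := exists_pair hI (hp I hI)
      rw [(H3 u v huv hI).2.2, a3_c0]
    have a3 := single_le_sum (f := fun M => (X ^ a3_n (rest c M) 2 *
      (X ^ 2 + 1) ^ a3_n (rest c M) 3 : ℕ[X]).coeff (b + 2)) (fun _ _ => Nat.zero_le _)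
      (mem_pk.2 ⟨hM, h2⟩)
    simp only [he, a3_c0] at a3
    omega
  refine ⟨hs', n3, fun u v huv hI => (H3 u v huv hI).1, fun u v u' v' huv hI huv' hJ hu => ?_⟩
  by_contra hne
  have na : ∀ {x y : V'}, {x, y} ∈ cross G' c → ¬ G'.Adj x y := fun h =>
    (mem_cross.1 h).1 _ (by simp) _ (by simp)
  have hv : v ≠ v' := fun e => by
    subst e
    exact a3_no_triple hp (fun h => hc _ _ h hu) (na hI) (na hJ) hne huv
      fun e => huv' (congrArg c e)
  have d1 : u ≠ v' := fun e => huv' (by rw [← hu, e])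
  have d2 : v ≠ u' := fun e => huv (by rw [hu, e])
  have hd : Disjoint ({u, v} : Finset V') {u', v'} := by
    simp [Ne.symm hne, hv.symm, d1.symm, d2.symm]
  have hIJ : ({u, v} : Finset V') ≠ {u', v'} := fun e =>
    disjoint_left.1 hd (mem_insert_self u _) (e ▸ mem_insert_self u _)
  have hM : ({{u, v}, {u', v'}} : Finset (Finset V')) ∈ pack (cross G' c) := by
    refine mem_pack.2 ⟨insert_subset hI (singleton_subset_iff.2 hJ), fun I h1 J h2 h3 => ?_⟩
    simp only [mem_insert, mem_singleton] at h1 h2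
    rcases h1 with rfl | rfl <;> rcases h2 with rfl | rfl
    · exact absurd rfl h3
    · exact hd
    · exact hd.symm
    · exact absurd rfl h3
  have a0 := fun i => rest_add c hM i
  simp only [sum_pair hIJ, tt_pair c huv, tt_pair c huv', ← hu] at a0
  rw [← hu] at huv'
  obtain ⟨z1, z2, -⟩ := H3 u v huv hI
  have z3 := (H3 u' v' (hu ▸ huv') hJ).2.1
  have a2 := a0 (c u)
  have a3 := a0 (c v)
  have a4 := a0 (c v')
  rw [if_pos rfl, if_neg huv.symm, if_neg huv'.symm] at a2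
  rw [if_pos rfl, if_neg huv] at a3
  rw [if_pos rfl, if_neg huv'] at a4
  by_cases hvv : c v = c v'
  · have a1 := a3_loc (rest c {{u, v}, {u', v'}}) (fun i => (cl c i).card) {c u, c v}
      fun i hi => by
        have := a0 i
        simp only [mem_insert, mem_singleton, not_or] at hi
        rw [← hvv, if_neg (Ne.symm hi.1), if_neg (Ne.symm hi.2)] at this
        exact this
    rw [sum_pair huv, sum_pair huv, n2] at a1
    rw [if_pos hvv.symm] at a3
    refine H2 _ hM (insert_ne_empty _ _) ?_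
    split_ifs at a1 <;> omega
  · have a1 := a3_loc (rest c {{u, v}, {u', v'}}) (fun i => (cl c i).card) {c u, c v, c v'}
      fun i hi => by
        have := a0 i
        simp only [mem_insert, mem_singleton, not_or] at hi
        rw [if_neg (Ne.symm hi.1), if_neg (Ne.symm hi.2.1), if_neg (Ne.symm hi.2.2)] at this
        exact this
    have hn : c u ∉ ({c v, c v'} : Finset κ) := by simp [huv, huv']
    rw [sum_insert hn, sum_insert hn, sum_pair hvv, sum_pair hvv, n2] at a1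
    rw [if_neg (Ne.symm hvv)] at a3
    rw [if_neg hvv] at a4
    refine H4 _ hM (card_pair hIJ) ?_
    split_ifs at a1 <;> omega

/-- a chromatic mate has the same form -/
theorem closure (h : Pres G Γ b cls port) (h3 : Γ.CliqueFree 3) (G' : SimpleGraph V')
    (he : ∀ k, ncol G k = ncol G' k) :
    ∃ (Γ₁ : SimpleGraph ι) (c : V' → ι ⊕ Fin b) (p : ι → V'),
      Γ₁.CliqueFree 3 ∧ Pres G' Γ₁ b c p := by
  obtain ⟨c, hc, hs, hp, h1, h2⟩ := small_classes h h3 G' he
  obtain ⟨r0, r1, r2⟩ := a3_rhs Γ b rfl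
  obtain ⟨hs', n3, t3, uq⟩ := a3_struct (Fintype.card_fin _) hc hs hp h1 h2
    (w_identity h h3 G' he c hc (fun i => (hs i).2) hp) r0 r1 r2
  have hq : ∀ i, ∃ x, c x = i ∧ ∀ u v, c u ≠ c v → {u, v} ∈ cross G' c → c u = i → u = x := by
    intro i
    by_cases hi : ∃ u v, c u ≠ c v ∧ {u, v} ∈ cross G' c ∧ c u = i
    · obtain ⟨x, y, a1, a2, a3⟩ := hi
      exact ⟨x, a3, fun u v b1 b2 b3 => uq u v x y b1 b2 a1 a2 (b3.trans a3.symm)⟩
    · obtain ⟨x, hx⟩ := card_pos.1 (hs i).1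
      exact ⟨x, mem_cl.1 hx, fun u v b1 b2 b3 => (hi ⟨u, v, b1, b2, b3⟩).elim⟩
  choose q hq1 hq2 using hq
  have k1 : Fintype.card {i // (cl c i).card = 3} = Fintype.card ι := by
    rw [Fintype.card_subtype, card_filter]
    exact n3
  have k2 : Fintype.card {i // ¬ (cl c i).card = 3} = b := by
    rw [Fintype.card_subtype_compl, k1, Fintype.card_fin, Nat.add_sub_cancel_left]
  let e1 := Fintype.equivOfCardEq k1
  let e2 := Fintype.equivFinOfCardEq k2
  let E : Fin (Fintype.card ι + b) ≃ ι ⊕ Fin b :=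
    (Equiv.sumCompl fun i => (cl c i).card = 3).symm.trans (e1.sumCongr e2)
  have hE1 : ∀ i, E.symm (Sum.inl i) = (e1.symm i).1 := fun _ => rfl
  have hE2 : ∀ j, E.symm (Sum.inr j) = (e2.symm j).1 := fun _ => rfl
  have hcl : ∀ k, cl (fun v => E (c v)) k = cl c (E.symm k) := fun k => by
    ext v
    rw [mem_cl, mem_cl, Equiv.eq_symm_apply]
  have hne : ∀ i j, i ≠ j → c (q (e1.symm i).1) ≠ c (q (e1.symm j).1) := fun i j hij e => by
    rw [hq1, hq1] at e
    exact hij (e1.symm.injective (Subtype.ext e))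
  have na : ∀ {x y : V'}, {x, y} ∈ cross G' c → ¬ G'.Adj x y := fun h =>
    (mem_cross.1 h).1 _ (by simp) _ (by simp)
  refine ⟨⟨fun i j => i ≠ j ∧ {q (e1.symm i).1, q (e1.symm j).1} ∈ cross G' c,
    ⟨fun i j hij => ⟨hij.1.symm, pair_comm (q (e1.symm i).1) _ ▸ hij.2⟩⟩, ⟨fun i hi => hi.1 rfl⟩⟩,
    fun v => E (c v), fun i => q (e1.symm i).1, fun S hS => ?_, fun i => ?_, fun j => ?_,
    fun i => ?_, fun u v => ?_⟩
  · obtain ⟨i, j, k, a1, a2, a3, -⟩ := SimpleGraph.is3Clique_iff.1 hS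
    exact a3_no_triple hp (na a1.2) (na a2.2) (na a3.2) (fun e => hne _ _ a1.1 (congrArg c e))
      (hne _ _ a2.1) fun e => hne _ _ a3.1 (congrArg c e)
  · rw [hcl, hE1]
    exact (e1.symm i).2
  · rw [hcl, hE2]
    exact (hs' _).resolve_right (e2.symm j).2
  · rw [hq1, ← hE1, Equiv.apply_symm_apply]
  · rw [a3_adj_iff hc, E.injective.ne_iff]
    refine and_congr_right fun huv => not_congr ⟨fun hI => ?_, ?_⟩
    · have hJ : {v, u} ∈ cross G' c := pair_comm u v ▸ hI
      have a1 : u = q (e1.symm (e1 ⟨c u, t3 u v huv hI⟩)).1 := by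
        rw [Equiv.symm_apply_apply]
        exact hq2 _ u v huv hI rfl
      have a2 : v = q (e1.symm (e1 ⟨c v, t3 v u huv.symm hJ⟩)).1 := by
        rw [Equiv.symm_apply_apply]
        exact hq2 _ v u huv.symm hJ rfl
      refine ⟨_, _, ⟨fun e => huv (congrArg Subtype.val (e1.injective e)), ?_⟩, a1, a2⟩
      rw [← a1, ← a2]
      exact hI
    · rintro ⟨i, j, hij, rfl, rfl⟩
      exact hij.2

end Pool.Agent.Lib.MP_f7f352_co.SX
end

-- part Pool.Agent.Lib.MP_f7f352_co.SX.Dec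
section

set_option autoImplicit false

namespace Pool.Agent.Lib.MP_f7f352_co.SX

open Finset Polynomial Pool.Agent.Lib.MP_f7f352_co.U

variable {h l E K : ℕ} {F R' : Finset (ℕ × ℕ)}

lemma tgt_symm {e : ℕ × ℕ} (he : e ∈ tgt h E F) : e.swap ∈ tgt h E F := by
  simp only [tgt, mem_union, mem_image] at he ⊢
  rcases he with he | he | ⟨f, hf, rfl⟩
  · left
    simp only [M0, mem_image, mem_range] at he ⊢
    obtain ⟨k, hk, rfl⟩ := he
    refine ⟨2 * h - 1 - k, by omega, ?_⟩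
    rw [show 2 * h - 1 - (2 * h - 1 - k) = k by omega]
    rfl
  · exact Or.inr (Or.inr ⟨e, he, rfl⟩)
  · exact Or.inr (Or.inl (by simpa using hf))

/-- the target board is determined by its total weight -/
theorem decode (hp : Par (2 * h) l E K) (hF : F ⊆ data h E)
    (hR' : R' ⊆ box (25 * E) (25 * E))
    (he : ∀ y : ℂ, FF (25 * E) K R' y = FF (25 * E) K (tgt h E F) y) : R' = tgt h E F := by
  have hT := tgt_shape hp hF
  have hK : 1 ≤ K := by
    have h1 := hp.hK
    have h2 := hp.hE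
    have h3 : 0 < 300 * (2 * h) ^ 6 * l ^ 3 := by
      have := hp.hr; have := hp.hl; positivity
    omega
  obtain ⟨Ms, hc⟩ := exists_core hp hT.toCore hR' (FF_real he)
  have h1 := pre_one hp hT.toPre hc (FF_real he)
  have h2 := dep_eq hp hT.toPre h1 (FF_real he)
  have h3 := pre_two hp hT.toPre h1 h2 (FF_real he)
  have hs2 : (2 * h - 1) * (2 * (2 * h)) ≤ 2 * (2 * h) ^ 2 := by
    calc (2 * h - 1) * (2 * (2 * h)) ≤ (2 * h) * (2 * (2 * h)) :=
          Nat.mul_le_mul_right _ (Nat.sub_le _ _)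
      _ = 2 * (2 * h) ^ 2 := by ring
  obtain ⟨h4, h5⟩ := shape_of hp hT (fun e he => M0_diag he) hs2 h3 h2
    (sum_pow_eq hK hT.sub hR' he)
  have hT' := hT.mono le_rfl (show 19 * E ≤ 20 * E by omega)
  have h6 := first_order hp hT' h4 h2 he
  obtain ⟨f₁, hf₁, f₂, hf₂, h7⟩ := top_two hp hF h4 h6
  have h8 := gaps hp h4 h5 h2 hf₁ hf₂ h7
  subst h8
  exact digits hp hT' (fun e he => tgt_symm he) h4 h6

end Pool.Agent.Lib.MP_f7f352_co.SX
end

-- part Pool.Agent.Lib.MP_f7f352_co.SX.Main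
section

set_option autoImplicit false

namespace Pool.Agent.Lib.MP_f7f352_co.SX

open Finset Polynomial Pool.Agent.Lib.MP_f7f352_co.U

variable {h l E K a c : ℕ} {F : Finset (ℕ × ℕ)}

lemma Par.one_le_E {r : ℕ} (hp : Par r l E K) : 1 ≤ E := by
  have h2 := hp.hE
  have h3 : 0 < 300 * r ^ 6 * l ^ 3 := by
    have := hp.hr; have := hp.hl; positivity
  omega

lemma board_sub (hac : a ≤ c) {σ : ℕ} (hσ : σ ≤ a) {R : Finset (ℕ × ℕ)} (hR : R ⊆ box σ σ) :
    fer a c ∪ R ⊆ box a c := by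
  refine union_subset (filter_subset _ _) fun e he => ?_
  have := mem_box.1 (hR he)
  exact mem_box.2 ⟨by omega, by omega⟩

lemma st_sub : st a ⊆ box a a := filter_subset _ _

/-- the board is determined by the rook numbers -/
theorem board_eq (hp : Par (2 * h) l E K) (ha : a + 1 = 50 * E + K) (hac : a ≤ c)
    (hF : F ⊆ data h E) {R' : Finset (ℕ × ℕ)} (hR' : R' ⊆ st a)
    (he : ∀ k, rk (fer a c ∪ R') k = rk (fer a c ∪ tgt h E F) k) : R' = tgt h E F := by
  have h1 := hp.one_le_E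
  have h2 := hp.hK
  have hK : 1 ≤ K := by omega
  have ha' : a + 1 = 2 * (25 * E) + K := by omega
  have hT := (tgt_shape hp hF).sub
  have hb : R' ⊆ box (25 * E) (25 * E) := by
    intro e hee
    have h3 := (long hK ha' hac hT hR' he hee).trans_lt (tgt_sum_lt hp hF)
    have h4 := (Nat.pow_lt_pow_iff_right (by norm_num : 1 < 2)).1 h3
    exact mem_box.2 ⟨by omega, by omega⟩
  exact decode hp hF hb (FF_congr hK ha' hac hT hb he)

lemma tgt_st (hp : Par (2 * h) l E K) (ha : a + 1 = 50 * E + K) (hF : F ⊆ data h E) :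
    tgt h E F ⊆ st a := by
  intro e he
  have h1 := hp.one_le_E
  have h2 := hp.hK
  have := mem_box.1 ((tgt_shape hp hF).sub he)
  exact mem_st.2 (by omega)

/-- the graph of a set of data cells -/
def GG (h E a c b : ℕ) (F : Finset (ℕ × ℕ)) :
    SimpleGraph (((Fin a ⊕ Fin c) × Fin 3) ⊕ (Fin b × Fin 2)) :=
  model (bip a c (fer a c ∪ tgt h E F)) b

theorem mate (hp : Par (2 * h) l E K) (ha : a + 1 = 50 * E + K) (hc : 30 * a ≤ c) (b : ℕ)
    (hF : F ⊆ data h E) {V' : Type} [Fintype V'] [DecidableEq V'] (H : SimpleGraph V')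
    (he : ∀ k, ncol (GG h E a c b F) k = ncol H k) : Nonempty (GG h E a c b F ≃g H) := by
  have h1 := hp.one_le_E
  have h2 := hp.hK
  have hK : 1 ≤ K := by omega
  have ha' : a + 1 = 2 * (25 * E) + K := by omega
  have hac : a ≤ c := by omega
  have hT := (tgt_shape hp hF).sub
  have hB := board_sub hac (show 25 * E ≤ a by omega) hT
  have hP := pres_model (bip a c (fer a c ∪ tgt h E F)) b
  have h3 := bip_cliqueFree a c (fer a c ∪ tgt h E F)
  obtain ⟨Γ₁, c₁, p₁, h3', hP'⟩ := closure hP h3 H he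
  have hm := hP.mk_eq h3 hP' h3' he
  obtain ⟨B', hB', ⟨e₁⟩⟩ := bip_of_mk (a := a) (c := c) (by omega) hc
    (B := fer a c ∪ tgt h E F) (fun i hi j h4 h5 => mem_union_left _
      (mem_fer.2 ⟨⟨hi, h5⟩, by simp only; omega⟩)) Γ₁ (by simp) h3' (fun k => (hm k).symm)
  have hr : ∀ k, rk B' k = rk (fer a c ∪ tgt h E F) k := fun k => by
    rw [← mk_bip hB', ← mk_iso e₁, ← hm, mk_bip hB]
  obtain ⟨R', hR', ⟨e₂⟩⟩ := stair hac hB' (rk_compl_one hK ha' hac hT hB' hr)
  have hr' : ∀ k, rk (fer a c ∪ R') k = rk (fer a c ∪ tgt h E F) k := fun k => by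
    rw [← mk_bip (board_sub hac le_rfl (hR'.trans st_sub)), ← mk_iso e₂, mk_bip hB', hr]
  have := board_eq hp ha hac hF hR' hr'
  subst this
  exact hP.iso hP' (e₁.trans e₂).symm

theorem noniso (hp : Par (2 * h) l E K) (ha : a + 1 = 50 * E + K) (hc : 30 * a ≤ c) (b : ℕ)
    (hF : F ⊆ data h E) {F' : Finset (ℕ × ℕ)} (hF' : F' ⊆ data h E)
    (e : GG h E a c b F ≃g GG h E a c b F') : F = F' := by
  have h1 := hp.one_le_E
  have h2 := hp.hK
  have hac : a ≤ c := by omega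
  have hB := board_sub hac (show 25 * E ≤ a by omega) (tgt_shape hp hF).sub
  have hB' := board_sub hac (show 25 * E ≤ a by omega) (tgt_shape hp hF').sub
  have hm := (pres_model (bip a c (fer a c ∪ tgt h E F)) b).mk_eq (bip_cliqueFree _ _ _)
    (pres_model (bip a c (fer a c ∪ tgt h E F')) b) (bip_cliqueFree _ _ _) (ncol_iso e)
  have hr : ∀ k, rk (fer a c ∪ tgt h E F) k = rk (fer a c ∪ tgt h E F') k := fun k => by
    rw [← mk_bip hB, hm, mk_bip hB']
  exact tgt_inj hp hF hF' (board_eq hp ha hac hF' (tgt_st hp ha hF) hr)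

theorem many (hp : Par (2 * h) l E (50 * E)) {n : ℕ} (hn : 9300 * E + 4 ≤ n) :
    ∃ S : Finset (SimpleGraph (Fin n)), 2 ^ (2 * h * E) ≤ S.card ∧
      (∀ G ∈ S, ∀ G' ∈ S, Nonempty (G ≃g G') → G = G') ∧
      ∀ G ∈ S, ∀ (m : ℕ) (H : SimpleGraph (Fin m)), (∀ k, ncol G k = ncol H k) →
        Nonempty (G ≃g H) := by
  classical
  have h1 := hp.one_le_E
  obtain ⟨a, ha⟩ : ∃ a, a + 1 = 50 * E + 50 * E := ⟨100 * E - 1, by omega⟩
  obtain ⟨b, c, hc, hn'⟩ : ∃ b c, 30 * a ≤ c ∧ n = 3 * (a + c) + 2 * b :=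
    ⟨2 * n % 3, (n - 2 * (2 * n % 3)) / 3 - a, by omega, by omega⟩
  have e : (((Fin a ⊕ Fin c) × Fin 3) ⊕ (Fin b × Fin 2)) ≃ Fin n :=
    Fintype.equivFinOfCardEq (by simp [hn']; ring)
  let Φ : Finset (ℕ × ℕ) → SimpleGraph (Fin n) := fun F => (GG h E a c b F).comap e.symm
  have iso : ∀ F, Φ F ≃g GG h E a c b F := fun F => SimpleGraph.Iso.comap e.symm _
  have hinj : ∀ F ∈ (data h E).powerset, ∀ F' ∈ (data h E).powerset,
      Nonempty (Φ F ≃g Φ F') → F = F' := fun F hF F' hF' ⟨g⟩ =>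
    noniso hp ha hc b (mem_powerset.1 hF) (mem_powerset.1 hF')
      ((iso F).symm.trans (g.trans (iso F')))
  refine ⟨(data h E).powerset.image Φ, ?_, ?_, ?_⟩
  · have hi : Set.InjOn Φ ((data h E).powerset : Finset (Finset (ℕ × ℕ))) :=
      fun F hF F' hF' hh => hinj F hF F' hF' (by rw [hh]; exact ⟨SimpleGraph.Iso.refl⟩)
    rw [card_image_of_injOn hi, card_powerset, card_data hp]
  · intro G hG G' hG' hh
    obtain ⟨F, hF, rfl⟩ := mem_image.1 hG
    obtain ⟨F', hF', rfl⟩ := mem_image.1 hG'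
    rw [hinj F hF F' hF' hh]
  · intro G hG m H hH
    obtain ⟨F, hF, rfl⟩ := mem_image.1 hG
    obtain ⟨g⟩ := mate hp ha hc b (mem_powerset.1 hF) H
      fun k => (ncol_iso (iso F) k).symm.trans (hH k)
    exact ⟨(iso F).trans g⟩

end Pool.Agent.Lib.MP_f7f352_co.SX
end
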